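import Pool.Agent.Lib.MP_67663b_nt.PS.ResAv

set_option autoImplicit false
open Filter Topology
namespace Pool.MP_67663b_nt.PS
open Pool.MP_67663b_nt.Odd Pool.MP_67663b_nt.MR

private theorem mod_iff {q s s0 m : ℕ} (hs : s ≤ m) (hs0 : s0 ≤ m) :
    s % q = s0 % q ↔ (m - s) % q = (m - s0) % q := by
  have e : (m - s) + s = (m - s0) + s0 := by omega
  constructor
  · intro h
    have h1 : s ≡ s0 [MOD q] := h
    have h2 : (m - s) + s ≡ (m - s0) + s0 [MOD q] := by rw [e]
    exact Nat.ModEq.add_right_cancel h1 h2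
  · intro h
    have h1 : m - s ≡ m - s0 [MOD q] := h
    have h2 : (m - s) + s ≡ (m - s0) + s0 [MOD q] := by rw [e]
    exact Nat.ModEq.add_left_cancel h1 h2

private theorem pointwise {q : ℕ} (hq : 0 < q) (x y ρ m : ℕ) (hm : y + x ≤ m) :
    |(1 / (x : ℝ)) * ∑ s ∈ (Finset.Ico y (y + x)).filter (fun s => s % q = ρ % q), lam (m - s)| ≤
      ∑ c ∈ Finset.range q, |avr q c x (m - y)| := by
  rcases ((Finset.Ico y (y + x)).filter (fun s => s % q = ρ % q)).eq_empty_or_nonempty with h | h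
  · rw [h, Finset.sum_empty, mul_zero, abs_zero]
    exact Finset.sum_nonneg fun _ _ => abs_nonneg _
  · obtain ⟨s0, hs0⟩ := h
    rw [Finset.mem_filter, Finset.mem_Ico] at hs0
    obtain ⟨⟨h1, h2⟩, h3⟩ := hs0
    have hc : (m - s0) % q ∈ Finset.range q := Finset.mem_range.2 (Nat.mod_lt _ hq)
    have key : (1 / (x : ℝ)) * ∑ s ∈ (Finset.Ico y (y + x)).filter (fun s => s % q = ρ % q),
        lam (m - s) = avr q ((m - s0) % q) x (m - y) := by
      unfold avr
      rw [Finset.sum_filter, Finset.sum_filter, Finset.sum_Ico_eq_sum_range, Nat.add_sub_cancel_left]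
      congr 1
      refine Finset.sum_congr rfl fun i hi => ?_
      rw [Finset.mem_range] at hi
      rw [Nat.mod_mod, Nat.sub_sub, ← h3]
      have := @mod_iff q (y + i) s0 m (by omega) (by omega)
      by_cases h4 : (y + i) % q = s0 % q
      · rw [if_pos h4, if_pos (this.1 h4)]
      · rw [if_neg h4, if_neg (fun h5 => h4 (this.2 h5))]
    rw [key]
    exact Finset.single_le_sum (f := fun c => |avr q c x (m - y)|) (fun _ _ => abs_nonneg _) hc

private theorem abs_term_le (q x y ρ m : ℕ) :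
    |(1 / (x : ℝ)) * ∑ s ∈ (Finset.Ico y (y + x)).filter (fun s => s % q = ρ % q), lam (m - s)| ≤ 1 := by
  rcases Nat.eq_zero_or_pos x with rfl | hx
  · simp
  have hx' : (0 : ℝ) < x := by exact_mod_cast hx
  rw [abs_mul, abs_of_pos (by positivity : (0 : ℝ) < 1 / x)]
  have h1 : |∑ s ∈ (Finset.Ico y (y + x)).filter (fun s => s % q = ρ % q), lam (m - s)| ≤ x := by
    refine (Finset.abs_sum_le_sum_abs _ _).trans ?_
    calc ∑ s ∈ (Finset.Ico y (y + x)).filter (fun s => s % q = ρ % q), |lam (m - s)|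
        ≤ ∑ s ∈ (Finset.Ico y (y + x)).filter (fun s => s % q = ρ % q), (1 : ℝ) := by
          refine Finset.sum_le_sum fun s _ => ?_
          unfold lam
          rw [abs_pow, abs_neg, abs_one, one_pow]
      _ = (((Finset.Ico y (y + x)).filter (fun s => s % q = ρ % q)).card : ℝ) := by simp
      _ ≤ ((Finset.Ico y (y + x)).card : ℝ) := by
          exact_mod_cast Finset.card_filter_le _ _
      _ = x := by simp
  calc 1 / (x : ℝ) * _ ≤ 1 / (x : ℝ) * x := mul_le_mul_of_nonneg_left h1 (by positivity)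
    _ = 1 := by field_simp

/-- the shifted sum -/
private theorem shift_sum (g : ℕ → ℝ) (hg0 : ∀ m, 0 ≤ g m) (hg1 : ∀ m, g m ≤ 1) (y J : ℕ) :
    ∑ j ∈ Finset.Icc 1 J, (1 / (j : ℝ)) * g (j - y) ≤
      y + ∑ i ∈ Finset.Icc 1 J, (1 / (i : ℝ)) * g i := by
  have hsplit : ∑ j ∈ Finset.Icc 1 J, (1 / (j : ℝ)) * g (j - y) =
      ∑ j ∈ (Finset.Icc 1 J).filter (fun j => j ≤ y), (1 / (j : ℝ)) * g (j - y) +
      ∑ j ∈ (Finset.Icc 1 J).filter (fun j => ¬ j ≤ y), (1 / (j : ℝ)) * g (j - y) :=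
    (Finset.sum_filter_add_sum_filter_not _ _ _).symm
  rw [hsplit]
  refine add_le_add ?_ ?_
  · calc ∑ j ∈ (Finset.Icc 1 J).filter (fun j => j ≤ y), (1 / (j : ℝ)) * g (j - y)
        ≤ ∑ j ∈ (Finset.Icc 1 J).filter (fun j => j ≤ y), (1 : ℝ) := by
          refine Finset.sum_le_sum fun j hj => ?_
          rw [Finset.mem_filter, Finset.mem_Icc] at hj
          have h1 : (1 : ℝ) ≤ j := by exact_mod_cast hj.1.1
          have h2 : 1 / (j : ℝ) ≤ 1 := by
            rw [div_le_one (by linarith)]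
            exact h1
          have h3 : 0 ≤ 1 / (j : ℝ) := by positivity
          have h4 := hg0 (j - y)
          have h5 := hg1 (j - y)
          nlinarith
      _ = (((Finset.Icc 1 J).filter (fun j => j ≤ y)).card : ℝ) := by simp
      _ ≤ ((Finset.Icc 1 y).card : ℝ) := by
          have hsub : (Finset.Icc 1 J).filter (fun j => j ≤ y) ⊆ Finset.Icc 1 y := by
            intro j hj
            rw [Finset.mem_filter, Finset.mem_Icc] at hj
            rw [Finset.mem_Icc]
            exact ⟨hj.1.1, hj.2⟩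
          exact_mod_cast Finset.card_le_card hsub
      _ = y := by simp
  · calc ∑ j ∈ (Finset.Icc 1 J).filter (fun j => ¬ j ≤ y), (1 / (j : ℝ)) * g (j - y)
        ≤ ∑ j ∈ (Finset.Icc 1 J).filter (fun j => ¬ j ≤ y), (1 / ((j - y : ℕ) : ℝ)) * g (j - y) := by
          refine Finset.sum_le_sum fun j hj => ?_
          rw [Finset.mem_filter, Finset.mem_Icc] at hj
          have h1 : 0 < j - y := by omega
          have h2 : ((j - y : ℕ) : ℝ) ≤ j := by exact_mod_cast Nat.sub_le _ _
          have h3 : (0 : ℝ) < ((j - y : ℕ) : ℝ) := by exact_mod_cast h1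
          exact mul_le_mul_of_nonneg_right (one_div_le_one_div_of_le h3 h2) (hg0 _)
      _ = ∑ i ∈ ((Finset.Icc 1 J).filter (fun j => ¬ j ≤ y)).image (fun j => j - y),
            (1 / (i : ℝ)) * g i := by
          rw [Finset.sum_image]
          intro i hi j hj hij
          simp only [Finset.coe_filter, Finset.mem_Icc, Set.mem_ofPred_eq] at hi hj
          simp only at hij
          omega
      _ ≤ ∑ i ∈ Finset.Icc 1 J, (1 / (i : ℝ)) * g i := by
          refine Finset.sum_le_sum_of_subset_of_nonneg ?_ fun i _ _ =>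
            mul_nonneg (by positivity) (hg0 _)
          intro i hi
          rw [Finset.mem_image] at hi
          obtain ⟨j, hj, rfl⟩ := hi
          rw [Finset.mem_filter, Finset.mem_Icc] at hj
          rw [Finset.mem_Icc]
          omega

/-- Short sums of `λ` in a residue class, near the points of a Beatty sequence. -/
theorem beatty_class {a : ℝ} (ha : 0 < a) {q : ℕ} (hq : 0 < q) {ε : ℝ} (hε : 0 < ε) :
    ∃ x0 : ℕ, ∀ x ≥ x0, ∀ y ρ : ℕ, ∀ M : IMean, LogBound M →
      M.E (fun n => |(1 / (x : ℝ)) * ∑ s ∈ (Finset.Ico y (y + x)).filter (fun s => s % q = ρ % q),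
        lam (bt a n - s)|) ≤ ε := by
  have hq0 : (0 : ℝ) < q := by exact_mod_cast hq
  obtain ⟨η, hη⟩ : ∃ η : ℝ, η = ε / (4 * q * (1 + a)) := ⟨_, rfl⟩
  have hη0 : 0 < η := by rw [hη]; positivity
  have hc : ∀ c : ℕ, ∃ H0 : ℕ, 1 ≤ H0 ∧ ∀ H ≥ H0, ∀ᶠ N in atTop,
      logMean (fun n => |avr q c H n|) N ≤ η := fun c => log_av_class hq c hη0
  choose H0 hH0 hH using hc
  refine ⟨(Finset.range q).sup H0, fun x hx y ρ M hM => ?_⟩
  have hxc : ∀ c ∈ Finset.range q, H0 c ≤ x := fun c hc => (Finset.le_sup hc).trans hx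
  refine hM _ ⟨1, fun n => by rw [abs_abs]; exact abs_term_le q x y ρ (bt a n)⟩ ε ?_
  -- the majorant
  obtain ⟨g, hg⟩ : ∃ g : ℕ → ℝ, g = fun m => (1 / (q : ℝ)) * ∑ c ∈ Finset.range q, |avr q c x m| :=
    ⟨_, rfl⟩
  have hg0 : ∀ m, 0 ≤ g m := by
    intro m
    rw [hg]
    exact mul_nonneg (by positivity) (Finset.sum_nonneg fun _ _ => abs_nonneg _)
  have hg1 : ∀ m, g m ≤ 1 := by
    intro m
    rw [hg]
    have h1 : ∑ c ∈ Finset.range q, |avr q c x m| ≤ q := by
      calc ∑ c ∈ Finset.range q, |avr q c x m| ≤ ∑ c ∈ Finset.range q, (1 : ℝ) :=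
            Finset.sum_le_sum fun c _ => abs_avr_le q c x m
        _ = q := by simp
    calc 1 / (q : ℝ) * _ ≤ 1 / (q : ℝ) * q := mul_le_mul_of_nonneg_left h1 (by positivity)
      _ = 1 := by field_simp
  have hgm : ∀ᶠ J in atTop, logMean g J ≤ η := by
    have h1 : ∀ᶠ J in atTop, ∀ c ∈ Finset.range q, logMean (fun n => |avr q c x n|) J ≤ η := by
      rw [Filter.eventually_all_finset]
      intro c hc
      exact hH c x (hxc c hc)
    filter_upwards [h1] with J hJ
    have h2 : logMean g J = (1 / (q : ℝ)) * ∑ c ∈ Finset.range q,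
        logMean (fun n => |avr q c x n|) J := by
      unfold logMean
      rw [hg]
      simp only [Finset.mul_sum]
      rw [Finset.sum_comm]
      exact Finset.sum_congr rfl fun c _ => Finset.sum_congr rfl fun n _ => by ring
    rw [h2]
    have h3 : ∑ c ∈ Finset.range q, logMean (fun n => |avr q c x n|) J ≤ q * η := by
      calc _ ≤ ∑ c ∈ Finset.range q, η := Finset.sum_le_sum hJ
        _ = q * η := by simp
    calc 1 / (q : ℝ) * _ ≤ 1 / (q : ℝ) * (q * η) := mul_le_mul_of_nonneg_left h3 (by positivity)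
      _ = η := by field_simp
  have hbt : Tendsto (fun N : ℕ => bt a N) atTop atTop := by
    unfold bt
    exact tendsto_nat_floor_atTop.comp (tendsto_natCast_atTop_atTop.const_mul_atTop ha)
  have hlog : Tendsto (fun N : ℕ => Real.log (N : ℝ)) atTop atTop :=
    Real.tendsto_log_atTop.comp tendsto_natCast_atTop_atTop
  obtain ⟨K, hK⟩ : ∃ K : ℕ, K = ⌈((y + x : ℕ) : ℝ) / a⌉₊ := ⟨_, rfl⟩
  filter_upwards [hbt.eventually hgm, hbt.eventually_ge_atTop 2,
    tendsto_natCast_atTop_atTop.eventually_ge_atTop (a : ℝ), eventually_ge_atTop 2,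
    hlog.eventually_ge_atTop ((K + q * ((1 / a + 1) + (1 + a) * y)) * 2 / ε)] with N hN1 hN2 hN3 hN4 hN5
  have hlN : 0 < Real.log (N : ℝ) := Real.log_pos (by exact_mod_cast (by omega : 1 < N))
  have hlb : 0 < Real.log ((bt a N : ℕ) : ℝ) := Real.log_pos (by exact_mod_cast (by omega : 1 < bt a N))
  have hN0 : (0 : ℝ) < N := by exact_mod_cast (by omega : 0 < N)
  have hlb2 : Real.log ((bt a N : ℕ) : ℝ) ≤ 2 * Real.log N := by
    have h3 : ((bt a N : ℕ) : ℝ) ≤ (N : ℝ) ^ 2 := by
      have : ((bt a N : ℕ) : ℝ) ≤ a * N := by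
        unfold bt
        exact Nat.floor_le (by positivity)
      nlinarith
    have h4 := Real.log_le_log (by exact_mod_cast (by omega : 0 < bt a N)) h3
    rw [Real.log_pow] at h4
    exact_mod_cast h4
  have h5 := BeattyAv_sum ha (fun m => g (m - y)) (fun m => hg0 _) (fun m => hg1 _) N
  have h5' := shift_sum g hg0 hg1 y (bt a N)
  have h6 : ∑ m ∈ Finset.Icc 1 (bt a N), (1 / (m : ℝ)) * g m =
      Real.log ((bt a N : ℕ) : ℝ) * logMean g (bt a N) := by
    unfold logMean
    field_simp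
  have h7 : ∑ m ∈ Finset.Icc 1 (bt a N), (1 / (m : ℝ)) * g m ≤ 2 * Real.log N * η := by
    rw [h6]
    calc Real.log ((bt a N : ℕ) : ℝ) * logMean g (bt a N)
        ≤ Real.log ((bt a N : ℕ) : ℝ) * η := by gcongr
      _ ≤ _ := by gcongr
  -- pointwise
  have hpt : ∀ n ∈ Finset.Icc 1 N, (1 / (n : ℝ)) *
      |(1 / (x : ℝ)) * ∑ s ∈ (Finset.Ico y (y + x)).filter (fun s => s % q = ρ % q),
        lam (bt a n - s)| ≤ (if n ≤ K then (1 : ℝ) else 0) + q * ((1 / (n : ℝ)) * g (bt a n - y)) := by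
    intro n hn
    rw [Finset.mem_Icc] at hn
    have hn1 : (1 : ℝ) ≤ n := by exact_mod_cast hn.1
    have hin0 : 0 ≤ 1 / (n : ℝ) := by positivity
    have hin1 : 1 / (n : ℝ) ≤ 1 := by
      rw [div_le_one (by linarith)]
      exact hn1
    by_cases hnK : n ≤ K
    · rw [if_pos hnK]
      have h8 := abs_term_le q x y ρ (bt a n)
      have h9 : 0 ≤ (q : ℝ) * ((1 / (n : ℝ)) * g (bt a n - y)) :=
        mul_nonneg hq0.le (mul_nonneg hin0 (hg0 _))
      have h10 := mul_le_mul hin1 h8 (abs_nonneg _) zero_le_one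
      linarith
    · rw [if_neg hnK, zero_add]
      have hm : y + x ≤ bt a n := by
        unfold bt
        apply Nat.le_floor
        have h8 : ((y + x : ℕ) : ℝ) / a ≤ n := by
          have h9 : ((y + x : ℕ) : ℝ) / a ≤ K := by rw [hK]; exact Nat.le_ceil _
          have h10 : (K : ℝ) ≤ n := by exact_mod_cast (by omega : K ≤ n)
          linarith
        rw [div_le_iff₀ ha] at h8
        linarith
      have h8 := pointwise hq x y ρ (bt a n) hm
      have h9 : ∑ c ∈ Finset.range q, |avr q c x (bt a n - y)| = q * g (bt a n - y) := by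
        rw [hg]
        field_simp
      rw [h9] at h8
      calc (1 / (n : ℝ)) * _ ≤ (1 / (n : ℝ)) * (q * g (bt a n - y)) :=
            mul_le_mul_of_nonneg_left h8 hin0
        _ = q * ((1 / (n : ℝ)) * g (bt a n - y)) := by ring
  have hsum := Finset.sum_le_sum hpt
  rw [Finset.sum_add_distrib, ← Finset.mul_sum] at hsum
  have hcard : ∑ n ∈ Finset.Icc 1 N, (if n ≤ K then (1 : ℝ) else 0) ≤ K := by
    rw [← Finset.sum_filter]
    calc ∑ n ∈ (Finset.Icc 1 N).filter (fun n => n ≤ K), (1 : ℝ)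
        = (((Finset.Icc 1 N).filter (fun n => n ≤ K)).card : ℝ) := by simp
      _ ≤ ((Finset.Icc 1 K).card : ℝ) := by
          have hsub : (Finset.Icc 1 N).filter (fun n => n ≤ K) ⊆ Finset.Icc 1 K := by
            intro j hj
            rw [Finset.mem_filter, Finset.mem_Icc] at hj
            rw [Finset.mem_Icc]
            exact ⟨hj.1.1, hj.2⟩
          exact_mod_cast Finset.card_le_card hsub
      _ = K := by simp
  have hbig : ∑ n ∈ Finset.Icc 1 N, (1 / (n : ℝ)) * g (bt a n - y) ≤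
      (1 / a + 1) + (1 + a) * (y + 2 * Real.log N * η) := by
    refine h5.trans ?_
    have : (1 + a) * ∑ m ∈ Finset.Icc 1 (bt a N), (1 / (m : ℝ)) * g (m - y) ≤
        (1 + a) * (y + 2 * Real.log N * η) := by
      apply mul_le_mul_of_nonneg_left _ (by linarith)
      linarith
    linarith
  have h8 : (K + q * ((1 / a + 1) + (1 + a) * y)) ≤ Real.log N * (ε / 2) := by
    rw [div_le_iff₀ hε] at hN5
    linarith
  have h9 : (q : ℝ) * ((1 + a) * (2 * Real.log N * η)) = Real.log N * (ε / 2) := by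
    rw [hη]
    field_simp
    ring
  have h10 : (q : ℝ) * ∑ n ∈ Finset.Icc 1 N, (1 / (n : ℝ)) * g (bt a n - y) ≤
      q * ((1 / a + 1) + (1 + a) * (y + 2 * Real.log N * η)) :=
    mul_le_mul_of_nonneg_left hbig hq0.le
  have h11 : (q : ℝ) * ((1 / a + 1) + (1 + a) * (y + 2 * Real.log N * η)) =
      q * ((1 / a + 1) + (1 + a) * y) + q * ((1 + a) * (2 * Real.log N * η)) := by ring
  unfold logMean
  calc (1 / Real.log (N : ℝ)) * _ ≤ (1 / Real.log (N : ℝ)) * (Real.log N * ε) := by
        apply mul_le_mul_of_nonneg_left _ (by positivity)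
        linarith
    _ = ε := by field_simp

end Pool.MP_67663b_nt.PS
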