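import Pool.Agent.Lib.MP_67663b_nt.PS.TDefs
import Pool.Agent.Lib.MP_67663b_nt.OddB.CountR

set_option autoImplicit false
open Filter Topology
namespace Pool.MP_67663b_nt.PS
open Pool.MP_67663b_nt.Odd

variable {I : Type} [Fintype I] [DecidableEq I]

private theorem memRR {a : I → ℤ} {x : ℕ} {s : ℤ} {r : I → ℕ} :
    r ∈ RR a x s ↔ (∀ i, r i < x) ∧ (x : ℤ) ∣ ∑ i, a i * (r i : ℤ) + s := by
  unfold RR
  rw [Finset.mem_filter, Fintype.mem_piFinset]
  simp only [Finset.mem_range]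

/-- Splitting of digits (compare `sum_RR_mul` in `OddB.CountR`). -/
theorem sum_RRT_mul (a : I → ℤ) (t : ℤ) {p x : ℕ} (hp : 0 < p) (hx : 0 < x) (s : ℤ)
    (F : (I → ℕ) → ℝ) :
    ∑ r ∈ RRT a t (p * x) s, F r =
      ∑ ρ ∈ RR a p s, ∑ r ∈ RRT a t x ((s + ∑ i, a i * (ρ i : ℤ)) / p),
        F (fun i => ρ i + p * r i) := by
  have hp' : (p : ℤ) ≠ 0 := by exact_mod_cast hp.ne'
  have key : ∀ ρ r : I → ℕ, ∑ i, a i * ((ρ i + p * r i : ℕ) : ℤ) + s =
      (s + ∑ i, a i * (ρ i : ℤ)) + p * ∑ i, a i * (r i : ℤ) := by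
    intro ρ r
    rw [Finset.mul_sum]
    have : ∑ i, a i * ((ρ i + p * r i : ℕ) : ℤ) =
        ∑ i, a i * (ρ i : ℤ) + ∑ i, (p : ℤ) * (a i * (r i : ℤ)) := by
      rw [← Finset.sum_add_distrib]
      refine Finset.sum_congr rfl fun i _ => ?_
      push_cast
      ring
    rw [this]
    ring
  have main : ∀ ρ r : I → ℕ,
      (∑ i, a i * ((ρ i + p * r i : ℕ) : ℤ) + s = t * ((p * x : ℕ) : ℤ)) ↔
      ((p : ℤ) ∣ ∑ i, a i * (ρ i : ℤ) + s) ∧
        (∑ i, a i * (r i : ℤ) + (s + ∑ i, a i * (ρ i : ℤ)) / p = t * (x : ℤ)) := by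
    intro ρ r
    rw [key]
    constructor
    · intro h
      have h1 : (p : ℤ) ∣ s + ∑ i, a i * (ρ i : ℤ) := by
        refine ⟨t * x - ∑ i, a i * (r i : ℤ), ?_⟩
        push_cast at h
        linear_combination h
      refine ⟨by rwa [add_comm] at h1, ?_⟩
      obtain ⟨c, hc⟩ := h1
      rw [hc] at h ⊢
      rw [Int.mul_ediv_cancel_left _ hp']
      push_cast at h
      have h2 : (p : ℤ) * (∑ i, a i * (r i : ℤ) + c) = p * (t * x) := by
        linear_combination h
      exact mul_left_cancel₀ hp' h2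
    · rintro ⟨h1, h2⟩
      rw [add_comm] at h1
      obtain ⟨c, hc⟩ := h1
      rw [hc] at h2 ⊢
      rw [Int.mul_ediv_cancel_left _ hp'] at h2
      push_cast
      linear_combination (p : ℤ) * h2
  rw [Finset.sum_sigma']
  refine Finset.sum_bij' (fun r _ => (⟨fun i => r i % p, fun i => r i / p⟩ :
    (_ : I → ℕ) × (I → ℕ))) (fun z _ => fun i => z.1 i + p * z.2 i) ?_ ?_ ?_ ?_ ?_
  · intro r hr
    rw [mem_RRT] at hr
    rw [Finset.mem_sigma]
    have := (main (fun i => r i % p) (fun i => r i / p)).mp (by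
      simp only [Nat.mod_add_div]; exact hr.2)
    refine ⟨?_, ?_⟩
    · rw [memRR]
      exact ⟨fun i => Nat.mod_lt _ hp, this.1⟩
    · dsimp only
      rw [mem_RRT]
      exact ⟨fun i => Nat.div_lt_of_lt_mul (hr.1 i), this.2⟩
  · rintro ⟨ρ, r⟩ hz
    rw [Finset.mem_sigma] at hz
    dsimp only at hz
    rw [memRR, mem_RRT] at hz
    rw [mem_RRT]
    refine ⟨?_, (main ρ r).mpr ⟨hz.1.2, hz.2.2⟩⟩
    intro i
    dsimp only
    have h1 := hz.1.1 i
    have h2 := hz.2.1 i
    calc ρ i + p * r i < p + p * r i := by omega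
      _ = p * (r i + 1) := by ring
      _ ≤ p * x := Nat.mul_le_mul_left _ h2
  · intro r _
    funext i
    exact Nat.mod_add_div _ _
  · rintro ⟨ρ, r⟩ hz
    rw [Finset.mem_sigma] at hz
    dsimp only at hz
    rw [memRR, mem_RRT] at hz
    have e1 : (fun i => (ρ i + p * r i) % p) = ρ := by
      funext i
      rw [Nat.add_mul_mod_self_left]
      exact Nat.mod_eq_of_lt (hz.1.1 i)
    have e2 : (fun i => (ρ i + p * r i) / p) = r := by
      funext i
      rw [Nat.add_mul_div_left _ _ hp, Nat.div_eq_of_lt (hz.1.1 i), zero_add]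
    simp only [e1, e2]
  · intro r _
    congr 1
    funext i
    exact (Nat.mod_add_div _ _).symm

theorem abs_avT_le_one {a : I → ℤ} {l : I} {x : ℕ} (hx : 0 < x) (hl : IsCoprime (a l) (x : ℤ))
    (t s : ℤ) {f : I → ℕ → ℝ} (hf : ∀ i r, |f i r| ≤ 1) : |avT a t x s f| ≤ 1 := by
  have hx' : (0:ℝ) < x := by exact_mod_cast hx
  unfold avT
  have h1 : |∑ r ∈ RRT a t x s, ∏ i, f i (r i)| ≤ (x : ℝ) ^ (Fintype.card I - 1) := by
    refine (abs_sum_RRT_le a t x s hf).trans ?_
    have h2 := Finset.card_le_card (RRT_subset a t x s)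
    rw [card_RR hx hl s] at h2
    exact_mod_cast h2
  rw [abs_mul, abs_of_pos (by positivity : (0:ℝ) < 1 / (x : ℝ) ^ (Fintype.card I - 1))]
  calc 1 / (x : ℝ) ^ (Fintype.card I - 1) * |∑ r ∈ RRT a t x s, ∏ i, f i (r i)|
      ≤ 1 / (x : ℝ) ^ (Fintype.card I - 1) * (x : ℝ) ^ (Fintype.card I - 1) := by gcongr
    _ = 1 := by field_simp

theorem abs_gT_le_one (M : IMean) (α : I → ℝ) {a : I → ℤ} (b t : ℤ) {l : I} {x : ℕ} (hx : 0 < x)
    (hl : IsCoprime (a l) (x : ℤ)) : |gT M α a b t x| ≤ 1 := by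
  unfold gT
  refine M.abs_E_le (bdd_gT α a b t x) (Eventually.of_forall fun n => ?_)
  rw [abs_mul, abs_lam, one_mul]
  exact abs_avT_le_one hx hl _ _ fun i r => (abs_lam _).le

theorem gT_one (M : IMean) (α : I → ℝ) (a : I → ℤ) (b t : ℤ) :
    gT M α a b t 1 =
      M.E (fun n => if sB α a b n = t then lam n * ∏ i, lam (bt (α i) n) else 0) := by
  unfold gT
  congr 1
  funext n
  unfold avT
  by_cases h : sB α a b n = t
  · rw [if_pos h]
    have h1 : RRT a t 1 (sB α a b n) = {fun _ => 0} := by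
      ext r
      rw [mem_RRT, Finset.mem_singleton]
      constructor
      · rintro ⟨h2, -⟩
        funext i
        have := h2 i
        omega
      · intro h2
        subst h2
        refine ⟨fun i => Nat.one_pos, ?_⟩
        simp [h]
    rw [h1, Finset.sum_singleton]
    simp
  · rw [if_neg h]
    have h1 : RRT a t 1 (sB α a b n) = ∅ := by
      rw [Finset.eq_empty_iff_forall_notMem]
      intro r hr
      rw [mem_RRT] at hr
      have h2 : r = fun _ => 0 := by
        funext i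
        have := hr.1 i
        omega
      rw [h2] at hr
      apply h
      simpa using hr.2
    rw [h1, Finset.sum_empty]
    simp

end Pool.MP_67663b_nt.PS
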