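import Pool.Agent.Lib.MP_67663b_nt.PS.TDefs

set_option autoImplicit false
open Filter Topology
namespace Pool.MP_67663b_nt.PS
open Pool.MP_67663b_nt.Odd

variable {I : Type} [Fintype I] [DecidableEq I]

private theorem dilateT_bt {a : ℝ} {p m : ℕ} (hp : 0 < p) : bt a (p * m) / p = bt a m := by
  unfold bt
  rw [← Nat.floor_div_natCast]
  congr 1
  have : (p : ℝ) ≠ 0 := by exact_mod_cast hp.ne'
  push_cast
  field_simp

private theorem dilateT_ev {a : ℝ} (ha : 0 < a) (K : ℕ) : ∀ᶠ n : ℕ in atTop, K ≤ bt a n := by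
  filter_upwards [eventually_ge_atTop ⌈(K : ℝ) / a⌉₊] with n hn
  unfold bt
  apply Nat.le_floor
  have h1 : (K : ℝ) / a ≤ n := (Nat.le_ceil _).trans (by exact_mod_cast hn)
  rwa [div_le_iff₀' ha] at h1

omit [DecidableEq I] in
private theorem dilateT_sB (α : I → ℝ) (a : I → ℤ) (b : ℤ) {p m : ℕ} (hp : 0 < p) :
    (sB α a b (p * m) + ∑ i, a i * ((bt (α i) (p * m) % p : ℕ) : ℤ)) / p = sB α a b m := by
  have h1 : sB α a b (p * m) + ∑ i, a i * ((bt (α i) (p * m) % p : ℕ) : ℤ) =
      p * sB α a b m := by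
    unfold sB
    have h2 : ∀ i, a i * (bt (α i) (p * m) : ℤ) =
        p * (a i * (bt (α i) m : ℤ)) + a i * ((bt (α i) (p * m) % p : ℕ) : ℤ) := by
      intro i
      have h3 : (p : ℤ) * (bt (α i) m : ℤ) + ((bt (α i) (p * m) % p : ℕ) : ℤ) =
          (bt (α i) (p * m) : ℤ) := by
        have := Nat.div_add_mod (bt (α i) (p * m)) p
        rw [dilateT_bt hp] at this
        exact_mod_cast this
      rw [← h3]
      ring
    rw [Finset.sum_congr rfl (fun i _ => h2 i), Finset.sum_add_distrib, ← Finset.mul_sum]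
    push_cast
    ring
  rw [h1]
  exact Int.mul_ediv_cancel_left _ (by exact_mod_cast hp.ne')

private theorem dilateT_avT (a : I → ℤ) (t : ℤ) (x : ℕ) (s : ℤ) {f g : I → ℕ → ℝ}
    (h : ∀ i r, r < x → f i r = - g i r) :
    avT a t x s f = (-1) ^ Fintype.card I * avT a t x s g := by
  unfold avT
  rw [mul_left_comm, Finset.mul_sum (s := RRT a t x s) (a := (-1 : ℝ) ^ Fintype.card I)]
  congr 1
  refine Finset.sum_congr rfl fun r hr => ?_
  have hr' : ∀ i, r i < x := by
    intro i
    unfold RRT at hr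
    have := (Finset.mem_filter.mp hr).1
    rw [Fintype.mem_piFinset] at this
    exact Finset.mem_range.mp (this i)
  rw [Finset.prod_congr rfl (fun i _ => h i (r i) (hr' i)), Finset.prod_neg, Finset.card_univ]

/-- The dilation identity (compare `gB_dilate` in `OddB.DilateB`). -/
theorem gT_dilate (M : IMean) (α : I → ℝ) (hα : ∀ i, 0 < α i) (a : I → ℤ) (b t : ℤ) {p x : ℕ}
    (hp : p.Prime) (hx : 0 < x) :
    gT M α a b t x = (-1) ^ (Fintype.card I + 1) * M.E (phiT α a b t p x) := by
  rw [← M.smul _ _ (bdd_phiT α a b t p x)]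
  unfold gT
  rw [← M.dil p hp.pos _ (bdd_gT α a b t x)]
  have hev : ∀ᶠ n : ℕ in atTop, ∀ i, x * p ≤ bt (α i) n :=
    eventually_all.mpr fun i => dilateT_ev (hα i) (x * p)
  refine M.congr (Bdd.ite _ ?_ (Bdd.const 0)) ((bdd_phiT α a b t p x).smul _) ?_
  · exact ((bdd_gT α a b t x).comp (fun n => n / p)).smul _
  · filter_upwards [hev, eventually_gt_atTop 0] with n hn hn0
    unfold phiT
    split_ifs with hd
    · obtain ⟨m, rfl⟩ := hd
      have hm : m ≠ 0 := by
        rintro rfl
        simp at hn0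
      rw [Nat.mul_div_cancel_left m hp.pos, dilateT_sB α a b hp.pos, lam_mul hp.ne_zero hm,
        lam_prime hp]
      have h1 : avT a t x (sB α a b m) (fun i r => lam (bt (α i) (p * m) -
          bt (α i) (p * m) % p - p * r)) = (-1) ^ Fintype.card I *
          avT a t x (sB α a b m) (fun i r => lam (bt (α i) m - r)) := by
        refine dilateT_avT a t x _ ?_
        intro i r hr
        have h2 : bt (α i) (p * m) / p = bt (α i) m := dilateT_bt hp.pos
        have h3 : x ≤ bt (α i) m := by
          rw [← h2]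
          exact (Nat.le_div_iff_mul_le hp.pos).mpr (hn i)
        have h4 : bt (α i) (p * m) - bt (α i) (p * m) % p - p * r = p * (bt (α i) m - r) := by
          have h5 : p * bt (α i) m + bt (α i) (p * m) % p = bt (α i) (p * m) := by
            rw [← h2]; exact Nat.div_add_mod _ p
          rw [Nat.mul_sub]
          omega
        rw [h4, lam_mul hp.ne_zero (by omega), lam_prime hp]
        ring
      rw [h1]
      have h6 : ((-1 : ℝ) ^ Fintype.card I) * (-1) ^ Fintype.card I = 1 := by
        rw [← mul_pow]; simp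
      rw [pow_succ]
      linear_combination (-(p : ℝ) * lam m * avT a t x (sB α a b m)
        (fun i r => lam (bt (α i) m - r))) * h6
    · simp

end Pool.MP_67663b_nt.PS
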