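import Pool.Agent.Lib.MP_67663b_nt.PS.UDefs

set_option autoImplicit false
open Filter Topology
namespace Pool.MP_67663b_nt.PS
open Pool.MP_67663b_nt.Odd Pool.MP_67663b_nt.MR

theorem EI_pow_sub {w : ℂ} (hw : ‖w‖ = 1) (N : ℕ) : ‖1 - w ^ N‖ ≤ N * ‖1 - w‖ := by
  have h := mul_neg_geom_sum w N
  rw [← h, norm_mul, mul_comm]
  refine mul_le_mul_of_nonneg_right ?_ (norm_nonneg _)
  refine (norm_sum_le _ _).trans ?_
  simp [norm_pow, hw]

theorem EI_sq {w : ℂ} (hw : ‖w‖ = 1) : ‖1 - w‖ ^ 2 = 2 * (1 - w.re) := by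
  have h1 : w.re * w.re + w.im * w.im = 1 := by
    have := Complex.sq_norm w
    rw [hw, Complex.normSq_apply] at this
    linarith
  rw [Complex.sq_norm, Complex.normSq_apply]
  simp only [Complex.sub_re, Complex.one_re, Complex.sub_im, Complex.one_im]
  nlinarith

theorem EI_trig {z : ℂ} (hz : ‖z‖ = 1) {N : ℕ} (hev : Even N) :
    1 - (z ^ N).re ≤ (N : ℝ) ^ 2 * (1 + z.re) := by
  have hw : ‖-z‖ = 1 := by rw [norm_neg, hz]
  have h1 := EI_pow_sub hw N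
  have hwN : ‖(-z) ^ N‖ = 1 := by rw [norm_pow, hw, one_pow]
  have h2 := EI_sq hwN
  have h3 := EI_sq hw
  rw [hev.neg_pow] at h1 h2
  simp only [Complex.neg_re] at h3
  have h4 : ‖1 - z ^ N‖ ^ 2 ≤ ((N : ℝ) * ‖1 - -z‖) ^ 2 :=
    pow_le_pow_left₀ (norm_nonneg _) h1 2
  rw [h2, mul_pow, h3] at h4
  linarith

theorem EI_log {w : ℂ} (hw : ‖w‖ ≤ 1 / 2) :
    |(-Complex.log (1 - w)).re - w.re| ≤ ‖w‖ ^ 2 := by
  have h := Complex.norm_log_one_add_sub_self_le (z := -w) (by rw [norm_neg]; linarith)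
  rw [norm_neg] at h
  have e : (-Complex.log (1 - w)).re - w.re = -((Complex.log (1 + -w) - -w).re) := by
    simp only [Complex.neg_re, Complex.sub_re, ← sub_eq_add_neg]
    ring
  rw [e, abs_neg]
  refine (Complex.abs_re_le_norm _).trans (h.trans ?_)
  have h2 : (1 - ‖w‖)⁻¹ ≤ 2 := by
    rw [inv_le_comm₀ (by linarith) (by norm_num)]
    linarith
  have h3 : 0 ≤ ‖w‖ ^ 2 := by positivity
  nlinarith

/-- the Euler factor inequality at a prime -/
theorem EI_prime {q : ℕ} [NeZero q] (χ : DirichletCharacter ℂ q) {N : ℕ} (hN : 0 < N)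
    (hev : Even N) (hχ : χ ^ N = 1) {α t : ℝ} (hα : 0 < α) {p : ℕ} (hp : p.Prime) :
    (-Complex.log (1 - (p : ℂ) ^ (-(1 + (α : ℂ))))).re - (2 * N ^ 2 + 2 + q ^ 2 : ℝ) / p ^ 2 ≤
      (N : ℝ) ^ 2 * (-Complex.log (1 - χ p * (p : ℂ) ^ (-(1 + (α : ℂ) + (t : ℂ) * Complex.I)))).re
      + (N : ℝ) ^ 2 * (-Complex.log (1 - (p : ℂ) ^ (-(1 + (α : ℂ))))).re
      + (-Complex.log (1 - (p : ℂ) ^ (-(1 + (α : ℂ) + ((N * t : ℝ) : ℂ) * Complex.I)))).re := by
  have hp0 : (0 : ℝ) < p := by exact_mod_cast hp.pos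
  have hp2 : (2 : ℝ) ≤ p := by exact_mod_cast hp.two_le
  have hpC : (p : ℂ) ≠ 0 := by exact_mod_cast hp.ne_zero
  set a : ℝ := (p : ℝ) ^ (-(1 + α)) with ha
  have ha0 : 0 < a := Real.rpow_pos_of_pos hp0 _
  have hap : a ≤ 1 / p := by
    rw [ha, Real.rpow_neg hp0.le, one_div]
    refine inv_anti₀ hp0 ?_
    calc (p : ℝ) = (p : ℝ) ^ (1 : ℝ) := (Real.rpow_one _).symm
      _ ≤ (p : ℝ) ^ (1 + α) := Real.rpow_le_rpow_of_exponent_le (by linarith) (by linarith)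
  have hp2' : 1 / (p : ℝ) ≤ 1 / 2 := one_div_le_one_div_of_le (by norm_num) hp2
  have ha2 : a ≤ 1 / 2 := hap.trans hp2'
  have hasq : a ^ 2 ≤ 1 / (p : ℝ) ^ 2 := by
    have := pow_le_pow_left₀ ha0.le hap 2
    rwa [div_pow, one_pow] at this
  have haC : (p : ℂ) ^ (-(1 + (α : ℂ))) = (a : ℂ) := by
    rw [ha, Complex.ofReal_cpow hp0.le]
    push_cast
    rfl
  -- unimodular factor
  have huni : ∀ y : ℝ, ‖(p : ℂ) ^ (-((y : ℂ) * Complex.I))‖ = 1 := by
    intro y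
    rw [← Complex.ofReal_natCast, Complex.norm_cpow_eq_rpow_re_of_pos hp0]
    simp
  have hsplit : ∀ y : ℝ, (p : ℂ) ^ (-(1 + (α : ℂ) + (y : ℂ) * Complex.I)) =
      (a : ℂ) * (p : ℂ) ^ (-((y : ℂ) * Complex.I)) := by
    intro y
    rw [neg_add, Complex.cpow_add _ _ hpC, haC]
  have hN2 : (1 : ℝ) ≤ (N : ℝ) ^ 2 := by
    have : (1 : ℝ) ≤ N := by exact_mod_cast hN
    nlinarith
  -- logs
  have hna : ‖(a : ℂ)‖ = a := by rw [Complex.norm_real, Real.norm_of_nonneg ha0.le]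
  have l0 := EI_log (w := (a : ℂ)) (by rw [hna]; exact ha2)
  rw [hna, Complex.ofReal_re, abs_le] at l0
  have hw2 : ‖(a : ℂ) * (p : ℂ) ^ (-(((N * t : ℝ) : ℂ) * Complex.I))‖ = a := by
    rw [norm_mul, hna, huni, mul_one]
  have l2 := EI_log (w := (a : ℂ) * (p : ℂ) ^ (-(((N * t : ℝ) : ℂ) * Complex.I)))
    (by rw [hw2]; exact ha2)
  rw [hw2, Complex.re_ofReal_mul, abs_le] at l2
  rw [haC, hsplit, hsplit]
  by_cases hu : IsUnit (p : ZMod q)
  · -- unit case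
    set z : ℂ := χ p * (p : ℂ) ^ (-((t : ℂ) * Complex.I)) with hzdef
    have hχn : ‖χ (p : ZMod q)‖ = 1 := by
      rw [← hu.unit_spec]
      exact DirichletCharacter.unit_norm_eq_one χ hu.unit
    have hz : ‖z‖ = 1 := by rw [hzdef, norm_mul, huni, hχn, one_mul]
    have hzN : z ^ N = (p : ℂ) ^ (-(((N * t : ℝ) : ℂ) * Complex.I)) := by
      rw [hzdef, mul_pow]
      have e1 : χ (p : ZMod q) ^ N = 1 := by
        have : (χ ^ N) (p : ZMod q) = 1 := by rw [hχ]; exact MulChar.one_apply hu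
        rwa [MulChar.pow_apply' _ hN.ne'] at this
      rw [e1, one_mul, ← Complex.cpow_nat_mul]
      congr 1
      push_cast
      ring
    have htr := EI_trig hz hev
    have hw1 : ‖(a : ℂ) * z‖ = a := by rw [norm_mul, hna, hz, mul_one]
    have l1 := EI_log (w := (a : ℂ) * z) (by rw [hw1]; exact ha2)
    rw [hw1, Complex.re_ofReal_mul, abs_le] at l1
    have ez : χ (p : ZMod q) * ((a : ℂ) * (p : ℂ) ^ (-((t : ℂ) * Complex.I))) = (a : ℂ) * z := by
      rw [hzdef]; ring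
    rw [ez]
    rw [← hzN] at l2 ⊢
    have k1 := mul_le_mul_of_nonneg_left l1.1 (by positivity : (0:ℝ) ≤ (N : ℝ) ^ 2)
    have k0 := mul_le_mul_of_nonneg_left l0.1 (by positivity : (0:ℝ) ≤ (N : ℝ) ^ 2)
    have k3 := mul_le_mul_of_nonneg_left htr ha0.le
    have k4 : (2 * (N : ℝ) ^ 2 + 2) * a ^ 2 ≤ (2 * N ^ 2 + 2 + q ^ 2 : ℝ) / p ^ 2 := by
      calc (2 * (N : ℝ) ^ 2 + 2) * a ^ 2 ≤ (2 * (N : ℝ) ^ 2 + 2 + q ^ 2) * (1 / (p : ℝ) ^ 2) := by
            apply mul_le_mul _ hasq (by positivity) (by positivity)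
            nlinarith [sq_nonneg (q : ℝ)]
        _ = _ := by ring
    nlinarith [l0.2, l2.1, k1, k0, k3, k4]
  · -- p divides q
    have hχ0 : χ (p : ZMod q) = 0 := MulChar.map_nonunit χ hu
    have hdvd : p ∣ q := by
      by_contra hc
      exact hu ((ZMod.isUnit_iff_coprime _ _).mpr ((Nat.Prime.coprime_iff_not_dvd hp).mpr hc))
    have hpq : (p : ℝ) ≤ q := by exact_mod_cast Nat.le_of_dvd (NeZero.pos q) hdvd
    rw [hχ0, zero_mul, sub_zero, Complex.log_one, neg_zero, Complex.zero_re, mul_zero, zero_add]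
    have hre : -1 ≤ ((p : ℂ) ^ (-(((N * t : ℝ) : ℂ) * Complex.I))).re := by
      have h5 := Complex.abs_re_le_norm ((p : ℂ) ^ (-(((N * t : ℝ) : ℂ) * Complex.I)))
      rw [huni, abs_le] at h5
      exact h5.1
    have hge : (1 : ℝ) ≤ (2 * N ^ 2 + 2 + q ^ 2 : ℝ) / p ^ 2 := by
      rw [le_div_iff₀ (by positivity)]
      nlinarith [sq_nonneg (N : ℝ)]
    have hl0 : 0 ≤ (-Complex.log (1 - (a : ℂ))).re := by
      have : a - a ^ 2 ≤ (-Complex.log (1 - (a : ℂ))).re := by linarith [l0.1]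
      nlinarith
    have k5 := mul_le_mul_of_nonneg_right hN2 hl0
    have k6 := mul_le_mul_of_nonneg_left hre ha0.le
    nlinarith [l2.1, k5, k6, hge]

/-- Generalised 3-4-1 inequality: `1 + cos θ ≥ (1 - cos (N θ))/N^2` for even `N`. -/
theorem euler_ineq {q : ℕ} [NeZero q] (χ : DirichletCharacter ℂ q) {N : ℕ} (hN : 0 < N)
    (hev : Even N) (hχ : χ ^ N = 1) : ∃ c : ℝ, 0 < c ∧ ∀ α t : ℝ, 0 < α → α ≤ 1 →
    c * ‖riemannZeta (1 + (α : ℂ))‖ ≤
      ‖LSeries (chi χ) (1 + (α : ℂ) + (t : ℂ) * Complex.I)‖ ^ (N ^ 2) *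
        ‖riemannZeta (1 + (α : ℂ))‖ ^ (N ^ 2) *
        ‖riemannZeta (1 + (α : ℂ) + ((N * t : ℝ) : ℂ) * Complex.I)‖ := by
  set K : ℝ := 2 * N ^ 2 + 2 + q ^ 2 with hK
  have hsumsq : Summable fun p : Nat.Primes => K / (p : ℝ) ^ 2 := by
    have h := (Nat.Primes.summable_rpow (r := -2)).mpr (by norm_num)
    refine (h.mul_left K).congr fun p => ?_
    rw [Real.rpow_neg (by positivity), div_eq_mul_inv]
    norm_cast
  refine ⟨Real.exp (-(∑' p : Nat.Primes, K / (p : ℝ) ^ 2)), Real.exp_pos _, ?_⟩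
  intro α t hα _
  have h0 : 1 < (1 + (α : ℂ)).re := by simp [hα]
  have h1 : 1 < (1 + (α : ℂ) + (t : ℂ) * Complex.I).re := by simp [hα]
  have h2 : 1 < (1 + (α : ℂ) + ((N * t : ℝ) : ℂ) * Complex.I).re := by
    simp only [Complex.add_re, Complex.one_re, Complex.ofReal_re, Complex.re_ofReal_mul,
      Complex.I_re]
    linarith
  have hz : ∀ s : ℂ, 1 < s.re → Summable fun p : Nat.Primes => -Complex.log (1 - (p : ℂ) ^ (-s)) := by
    intro s hs
    have := DirichletCharacter.summable_neg_log_one_sub_mul_prime_cpow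
      (1 : DirichletCharacter ℂ 1) hs
    refine this.congr fun p => ?_
    rw [MulChar.one_apply (isUnit_of_subsingleton _), one_mul]
  have H0 := hz _ h0
  have H2 := hz _ h2
  have H1 := DirichletCharacter.summable_neg_log_one_sub_mul_prime_cpow χ h1
  have e0 := riemannZeta_eulerProduct_exp_log h0
  have e2 := riemannZeta_eulerProduct_exp_log h2
  have e1 := DirichletCharacter.LSeries_eulerProduct_exp_log χ h1
  have R0 := Complex.hasSum_re H0.hasSum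
  have R1 := Complex.hasSum_re H1.hasSum
  have R2 := Complex.hasSum_re H2.hasSum
  have hLS : LSeries (chi χ) (1 + (α : ℂ) + (t : ℂ) * Complex.I) =
      LSeries (fun n : ℕ => χ (n : ZMod q)) (1 + (α : ℂ) + (t : ℂ) * Complex.I) := rfl
  rw [hLS, ← e0, ← e2, ← e1, Complex.norm_exp, Complex.norm_exp, Complex.norm_exp,
    ← Real.exp_nat_mul, ← Real.exp_nat_mul, ← Real.exp_add, ← Real.exp_add, ← Real.exp_add]
  apply Real.exp_le_exp.mpr
  have hle := hasSum_le (fun p : Nat.Primes => EI_prime χ hN hev hχ (t := t) hα p.prop)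
    (R0.sub hsumsq.hasSum)
    (((R1.mul_left ((N : ℝ) ^ 2)).add (R0.mul_left ((N : ℝ) ^ 2))).add R2)
  push_cast at hle ⊢
  linarith

end Pool.MP_67663b_nt.PS
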