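import Pool.Agent.Lib.MP_67663b_nt.PS.TDefs

set_option autoImplicit false
open Filter Topology
namespace Pool.MP_67663b_nt.PS
open Pool.MP_67663b_nt.Odd

/-- Convexity of the set of admissible last coordinates inside a residue class. -/
theorem fb_conv {a c t : ℤ} (ht : t ≠ 0) {W : ℕ} {P : ℕ → Prop}
    (hP : ∀ x1 x2 x3 : ℕ, x1 ≤ x2 → x2 ≤ x3 → P x1 → P x3 → P x2)
    {v1 v2 v3 x1 x3 : ℕ} (h12 : v1 ≤ v2) (h23 : v2 ≤ v3)
    (m12 : v1 % (t.natAbs * W) = v2 % (t.natAbs * W))
    (m23 : v2 % (t.natAbs * W) = v3 % (t.natAbs * W))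
    (p1 : P x1) (p3 : P x3) (c1 : Nat.Coprime W x1) (l1 : v1 < x1) (l3 : v3 < x3)
    (e1 : a * (v1 : ℤ) + c = t * (x1 : ℤ)) (e3 : a * (v3 : ℤ) + c = t * (x3 : ℤ)) :
    ∃ x2 : ℕ, P x2 ∧ Nat.Coprime W x2 ∧ v2 < x2 ∧ a * (v2 : ℤ) + c = t * (x2 : ℤ) := by
  obtain ⟨j, hj⟩ : ∃ j : ℕ, v2 = v1 + t.natAbs * W * j := by
    have h := (Nat.modEq_iff_dvd' h12).1 m12
    obtain ⟨j, hj⟩ := h
    exact ⟨j, by omega⟩
  obtain ⟨j', hj'⟩ : ∃ j : ℕ, v3 = v2 + t.natAbs * W * j := by
    have h := (Nat.modEq_iff_dvd' h23).1 m23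
    obtain ⟨j, hj⟩ := h
    exact ⟨j, by omega⟩
  have hs : |t| = t.sign * t := by
    rw [mul_comm, Int.mul_sign_self, Int.natCast_natAbs]
  have hW0 : (0 : ℤ) ≤ (W : ℤ) := Int.natCast_nonneg W
  have hj0 : (0 : ℤ) ≤ (j : ℤ) := Int.natCast_nonneg j
  have hj0' : (0 : ℤ) ≤ (j' : ℤ) := Int.natCast_nonneg j'
  have hv2 : (v2 : ℤ) = v1 + t.sign * t * W * j := by
    rw [hj]; push_cast; rw [hs]
  have hv3 : (v3 : ℤ) = v2 + t.sign * t * W * j' := by
    rw [hj']; push_cast; rw [hs]
  set z : ℤ := (x1 : ℤ) + W * (a * t.sign * j) with hz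
  have ez : a * (v2 : ℤ) + c = t * z := by
    rw [hv2, hz]
    linear_combination e1
  have hx3 : (x3 : ℤ) = z + W * (a * t.sign * j') := by
    have h : t * ((x3 : ℤ) - (z + W * (a * t.sign * j'))) = 0 := by
      have h3 := e3
      rw [hv3] at h3
      linear_combination ez - h3
    have := (mul_eq_zero.1 h).resolve_left ht
    linarith
  have k1 : (0 : ℤ) ≤ (W : ℤ) * j := mul_nonneg hW0 hj0
  have k2 : (0 : ℤ) ≤ (W : ℤ) * j' := mul_nonneg hW0 hj0'
  have hzv : (v2 : ℤ) < z := by
    have l1' : (v1 : ℤ) < x1 := by exact_mod_cast l1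
    have l3' : (v3 : ℤ) < x3 := by exact_mod_cast l3
    rcases le_total (t.sign * t - a * t.sign) 0 with h | h
    · have : (t.sign * t - a * t.sign) * ((W : ℤ) * j) ≤ 0 :=
        mul_nonpos_of_nonpos_of_nonneg h k1
      rw [hv2, hz]
      nlinarith
    · have : 0 ≤ (t.sign * t - a * t.sign) * ((W : ℤ) * j') := mul_nonneg h k2
      rw [hx3, hv3] at l3'
      nlinarith
  have hz0 : 0 ≤ z := le_trans (Int.natCast_nonneg v2) hzv.le
  obtain ⟨x2, hx2⟩ := Int.eq_ofNat_of_zero_le hz0
  have hzx : z = (x2 : ℤ) := hx2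
  refine ⟨x2, ?_, ?_, ?_, ?_⟩
  · rcases le_total 0 (a * t.sign) with h | h
    · refine hP x1 x2 x3 ?_ ?_ p1 p3
      · have : 0 ≤ (a * t.sign) * ((W : ℤ) * j) := mul_nonneg h k1
        have h4 : (x1 : ℤ) ≤ x2 := by rw [← hzx, hz]; nlinarith
        exact_mod_cast h4
      · have : 0 ≤ (a * t.sign) * ((W : ℤ) * j') := mul_nonneg h k2
        have h4 : (x2 : ℤ) ≤ x3 := by rw [← hzx, hx3]; nlinarith
        exact_mod_cast h4
    · refine hP x3 x2 x1 ?_ ?_ p3 p1
      · have : (a * t.sign) * ((W : ℤ) * j') ≤ 0 := mul_nonpos_of_nonpos_of_nonneg h k2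
        have h4 : (x3 : ℤ) ≤ x2 := by rw [← hzx, hx3]; nlinarith
        exact_mod_cast h4
      · have : (a * t.sign) * ((W : ℤ) * j) ≤ 0 := mul_nonpos_of_nonpos_of_nonneg h k1
        have h4 : (x2 : ℤ) ≤ x1 := by rw [← hzx, hz]; nlinarith
        exact_mod_cast h4
  · rw [← Nat.isCoprime_iff_coprime, ← hzx, hz]
    exact (Nat.isCoprime_iff_coprime.2 c1).add_mul_left_right _
  · have : (v2 : ℤ) < x2 := by rw [← hzx]; exact hzv
    exact_mod_cast this
  · rw [← hzx]; exact ez

/-- Sum over a set which is convex inside every residue class. -/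
theorem fb_class {N q : ℕ} (hq : 0 < q) (C : ℕ → Prop) [DecidablePred C]
    (hC : ∀ v1 v2 v3 : ℕ, v1 ≤ v2 → v2 ≤ v3 → v1 % q = v2 % q → v2 % q = v3 % q →
      C v1 → C v3 → C v2) (g : ℕ → ℝ) (D : ℝ)
    (hD : ∀ u v ρ : ℕ, u ≤ v → v ≤ N →
      |∑ r ∈ (Finset.Ico u v).filter (fun r => r % q = ρ), g r| ≤ D) :
    |∑ v ∈ (Finset.range N).filter C, g v| ≤ (q : ℝ) * D := by
  have hD0 : 0 ≤ D := by
    have h := hD 0 0 0 le_rfl (Nat.zero_le _)
    simpa using h
  have h1 : ∑ v ∈ (Finset.range N).filter C, g v =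
      ∑ ρ ∈ Finset.range q, ∑ v ∈ ((Finset.range N).filter C).filter (fun v => v % q = ρ), g v := by
    rw [Finset.sum_fiberwise_of_maps_to]
    intro v _
    exact Finset.mem_range.2 (Nat.mod_lt _ hq)
  rw [h1]
  refine (Finset.abs_sum_le_sum_abs _ _).trans ?_
  have h2 : ∀ ρ ∈ Finset.range q,
      |∑ v ∈ ((Finset.range N).filter C).filter (fun v => v % q = ρ), g v| ≤ D := by
    intro ρ _
    set T := ((Finset.range N).filter C).filter (fun v => v % q = ρ) with hT
    rcases T.eq_empty_or_nonempty with he | hne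
    · rw [he, Finset.sum_empty, abs_zero]; exact hD0
    · have hmem : ∀ v, v ∈ T ↔ v < N ∧ C v ∧ v % q = ρ := by
        intro v
        rw [hT, Finset.mem_filter, Finset.mem_filter, Finset.mem_range, and_assoc]
      have m1 := (hmem _).1 (T.min'_mem hne)
      have m2 := (hmem _).1 (T.max'_mem hne)
      have hEq : T = (Finset.Ico (T.min' hne) (T.max' hne + 1)).filter (fun r => r % q = ρ) := by
        refine Finset.ext fun v => ?_
        rw [Finset.mem_filter (p := fun r => r % q = ρ) (s := Finset.Ico _ _), Finset.mem_Ico]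
        constructor
        · intro hv
          exact ⟨⟨T.min'_le v hv, Nat.lt_succ_of_le (T.le_max' v hv)⟩, ((hmem v).1 hv).2.2⟩
        · rintro ⟨⟨hv1, hv2⟩, hv3⟩
          have hv2' : v ≤ T.max' hne := Nat.lt_succ_iff.1 hv2
          refine (hmem v).2 ⟨lt_of_le_of_lt hv2' m2.1, ?_, hv3⟩
          exact hC _ v _ hv1 hv2' (m1.2.2.trans hv3.symm) (hv3.trans m2.2.2.symm) m1.2.1 m2.2.1
      rw [hEq]
      refine hD _ _ ρ ?_ m2.1
      exact le_trans (T.min'_le _ (T.max'_mem hne)) (Nat.le_succ _)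
  refine (Finset.sum_le_sum h2).trans ?_
  rw [Finset.sum_const, Finset.card_range, nsmul_eq_mul]

variable {I : Type} [Fintype I] [DecidableEq I]

/-- Splitting off one coordinate. -/
theorem fb_split (l : I) (N : ℕ) (G : (I → ℕ) → ℝ) :
    ∑ r ∈ Fintype.piFinset (fun _ : I => Finset.range N), G r =
      ∑ r ∈ Fintype.piFinset (fun i : I => if i = l then {0} else Finset.range N),
        ∑ v ∈ Finset.range N, G (Function.update r l v) := by
  rw [← Finset.sum_product']
  refine Finset.sum_nbij' (fun r => (Function.update r l 0, r l))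
    (fun p => Function.update p.1 l p.2) ?_ ?_ ?_ ?_ ?_
  · intro r hr
    rw [Fintype.mem_piFinset] at hr
    rw [Finset.mem_product, Fintype.mem_piFinset]
    refine ⟨fun i => ?_, hr l⟩
    by_cases hi : i = l
    · subst hi
      simp
    · simp only [Function.update_of_ne hi, if_neg hi]
      exact hr i
  · intro p hp
    rw [Finset.mem_product, Fintype.mem_piFinset] at hp
    rw [Fintype.mem_piFinset]
    intro i
    by_cases hi : i = l
    · subst hi
      simpa using hp.2
    · rw [Function.update_of_ne hi]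
      have h := hp.1 i
      rw [if_neg hi] at h
      exact h
  · intro r _
    simp
  · intro p hp
    rw [Finset.mem_product, Fintype.mem_piFinset] at hp
    have h0 : p.1 l = 0 := by
      have h := hp.1 l
      simpa using h
    refine Prod.ext ?_ ?_
    · funext i
      by_cases hi : i = l
      · subst hi
        simp [h0]
      · simp [Function.update_of_ne hi]
    · simp
  · intro r _
    simp

/-- Solutions of `Σ a_i r_i + s = t x` with `x ∈ [X, y)` coprime to `W`, counted with weights: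
for fixed `r_i`, `i ≠ l`, the coordinate `r_l` runs over an interval and some classes modulo
`|t| W`. -/
theorem fiber_bound (a : I → ℤ) {l : I} (hl : a l ≠ 0) {t : ℤ} (ht : t ≠ 0) {W : ℕ} (hW : 0 < W)
    {X y : ℕ} (hX : 0 < X) (hy1 : X ≤ y) (hy2 : y ≤ 2 * X) (s : ℤ) (f : I → ℕ → ℝ)
    (hf : ∀ i r, |f i r| ≤ 1) (D : ℝ)
    (hD : ∀ u v ρ : ℕ, u ≤ v → v ≤ 2 * X →
      |∑ r ∈ (Finset.Ico u v).filter (fun r => r % (t.natAbs * W) = ρ), f l r| ≤ D) :
    |∑ x ∈ (Finset.Ico X y).filter (fun x => Nat.Coprime W x),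
        ∑ r ∈ RRT a t x s, ∏ i, f i (r i)| ≤
      (2 * (X : ℝ)) ^ (Fintype.card I - 1) * (((t.natAbs * W : ℕ) : ℝ) * D) := by
  classical
  have hq : 0 < t.natAbs * W := Nat.mul_pos (Int.natAbs_pos.2 ht) hW
  set A := (Finset.Ico X y).filter (fun x => Nat.Coprime W x) with hA
  set B := Fintype.piFinset (fun _ : I => Finset.range (2 * X)) with hB
  set Cond : (I → ℕ) → Prop := fun r => ∃ x ∈ A, (∀ i, r i < x) ∧
    ∑ i, a i * (r i : ℤ) + s = t * (x : ℤ) with hCond
  have step1 : ∑ x ∈ A, ∑ r ∈ RRT a t x s, ∏ i, f i (r i) =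
      ∑ r ∈ B, if Cond r then ∏ i, f i (r i) else 0 := by
    have e1 : ∀ x ∈ A, ∑ r ∈ RRT a t x s, ∏ i, f i (r i) =
        ∑ r ∈ B, if ((∀ i, r i < x) ∧ ∑ i, a i * (r i : ℤ) + s = t * (x : ℤ)) then
          ∏ i, f i (r i) else 0 := by
      intro x hx
      rw [← Finset.sum_filter]
      refine Finset.sum_congr ?_ fun _ _ => rfl
      ext r
      rw [mem_RRT, Finset.mem_filter, hB, Fintype.mem_piFinset]
      constructor
      · intro h
        refine ⟨fun i => Finset.mem_range.2 ?_, h⟩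
        rw [hA, Finset.mem_filter, Finset.mem_Ico] at hx
        have := h.1 i
        omega
      · exact fun h => h.2
    rw [Finset.sum_congr rfl e1, Finset.sum_comm]
    refine Finset.sum_congr rfl fun r _ => ?_
    by_cases hc : Cond r
    · rw [if_pos hc]
      obtain ⟨x, hx, hx1, hx2⟩ := hc
      rw [Finset.sum_eq_single x]
      · rw [if_pos ⟨hx1, hx2⟩]
      · intro x' _ hne
        rw [if_neg]
        rintro ⟨-, h⟩
        apply hne
        have h3 : t * (x' : ℤ) = t * (x : ℤ) := by rw [← h, ← hx2]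
        exact_mod_cast mul_left_cancel₀ ht h3
      · intro h
        exact absurd hx h
    · rw [if_neg hc]
      refine Finset.sum_eq_zero fun x hx => ?_
      rw [if_neg]
      exact fun h => hc ⟨x, hx, h⟩
  rw [step1, hB, fb_split l]
  refine (Finset.abs_sum_le_sum_abs _ _).trans ?_
  have hcard : (Fintype.piFinset (fun i : I => if i = l then ({0} : Finset ℕ)
      else Finset.range (2 * X))).card = (2 * X) ^ (Fintype.card I - 1) := by
    rw [Fintype.card_piFinset, ← Finset.mul_prod_erase Finset.univ _ (Finset.mem_univ l)]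
    simp only [if_true, Finset.card_singleton, one_mul]
    rw [Finset.prod_congr rfl (g := fun _ => 2 * X)]
    · rw [Finset.prod_const, Finset.card_erase_of_mem (Finset.mem_univ l), Finset.card_univ]
    · intro i hi
      rw [if_neg (Finset.ne_of_mem_erase hi), Finset.card_range]
  have hbound : ∀ r ∈ Fintype.piFinset (fun i : I => if i = l then ({0} : Finset ℕ)
      else Finset.range (2 * X)),
      |∑ v ∈ Finset.range (2 * X), (if Cond (Function.update r l v) then
        ∏ i, f i (Function.update r l v i) else 0)| ≤ ((t.natAbs * W : ℕ) : ℝ) * D := by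
    intro r _
    set K : ℝ := ∏ i ∈ Finset.univ.erase l, f i (r i) with hK
    have hprod : ∀ v, ∏ i, f i (Function.update r l v i) = K * f l v := by
      intro v
      rw [← Finset.mul_prod_erase Finset.univ _ (Finset.mem_univ l), Function.update_self, mul_comm,
        hK]
      congr 1
      refine Finset.prod_congr rfl fun i hi => ?_
      rw [Function.update_of_ne (Finset.ne_of_mem_erase hi)]
    have hK1 : |K| ≤ 1 := by
      rw [hK, Finset.abs_prod]
      exact Finset.prod_le_one (fun i _ => abs_nonneg _) (fun i _ => hf i _)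
    have e2 : ∑ v ∈ Finset.range (2 * X), (if Cond (Function.update r l v) then
        ∏ i, f i (Function.update r l v i) else 0) =
        K * ∑ v ∈ (Finset.range (2 * X)).filter (fun v => Cond (Function.update r l v)), f l v := by
      rw [← Finset.sum_filter, Finset.mul_sum]
      exact Finset.sum_congr rfl fun v _ => hprod v
    rw [e2, abs_mul]
    set c : ℤ := ∑ i ∈ Finset.univ.erase l, a i * (r i : ℤ) + s with hc
    have hsum : ∀ v : ℕ, ∑ i, a i * ((Function.update r l v i : ℕ) : ℤ) + s = a l * (v : ℤ) + c := by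
      intro v
      rw [← Finset.add_sum_erase Finset.univ _ (Finset.mem_univ l), Function.update_self, hc,
        add_assoc]
      congr 2
      refine Finset.sum_congr rfl fun i hi => ?_
      rw [Function.update_of_ne (Finset.ne_of_mem_erase hi)]
    have hcl := fb_class (N := 2 * X) hq (fun v => Cond (Function.update r l v)) ?_ (f l) D hD
    · calc |K| * _ ≤ 1 * _ := mul_le_mul_of_nonneg_right hK1 (abs_nonneg _)
        _ ≤ _ := by rw [one_mul]; exact hcl
    · rintro v1 v2 v3 h12 h23 m12 m23 ⟨x1, hx1, p1, e1⟩ ⟨x3, hx3, p3, e3⟩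
      rw [hsum] at e1 e3
      have q1 : v1 < x1 := by simpa using p1 l
      have q3 : v3 < x3 := by simpa using p3 l
      have r1 : ∀ i, i ≠ l → r i < x1 := fun i hi => by
        have := p1 i
        rwa [Function.update_of_ne hi] at this
      have r3 : ∀ i, i ≠ l → r i < x3 := fun i hi => by
        have := p3 i
        rwa [Function.update_of_ne hi] at this
      rw [hA, Finset.mem_filter, Finset.mem_Ico] at hx1 hx3
      obtain ⟨x2, P2, c2, l2, e2⟩ := fb_conv (a := a l) (c := c) ht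
        (P := fun x => (X ≤ x ∧ x < y) ∧ ∀ i, i ≠ l → r i < x)
        (fun y1 y2 y3 k1 k2 k3 k4 => ⟨⟨le_trans k3.1.1 k1, lt_of_le_of_lt k2 k4.1.2⟩,
          fun i hi => lt_of_lt_of_le (k3.2 i hi) k1⟩)
        h12 h23 m12 m23 ⟨hx1.1, r1⟩ ⟨hx3.1, r3⟩ hx1.2 q1 q3 e1 e3
      refine ⟨x2, ?_, ?_, ?_⟩
      · rw [hA, Finset.mem_filter, Finset.mem_Ico]
        exact ⟨P2.1, c2⟩
      · intro i
        by_cases hi : i = l
        · subst hi
          simpa using l2
        · rw [Function.update_of_ne hi]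
          exact P2.2 i hi
      · rw [hsum]; exact e2
  refine (Finset.sum_le_sum hbound).trans ?_
  rw [Finset.sum_const, hcard, nsmul_eq_mul]
  push_cast
  exact le_rfl

end Pool.MP_67663b_nt.PS
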