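import Pool.Agent.Lib.MP_67663b_nt.PS.BeattyAP

set_option autoImplicit false
open Filter Topology
namespace Pool.MP_67663b_nt.PS
open Pool.MP_67663b_nt.Odd Pool.MP_67663b_nt.MR

theorem grid_bound {q : ℕ} (hq : 0 < q) (g : ℕ → ℝ) (hg : ∀ r, |g r| ≤ 1) {h : ℕ} (hh : 0 < h)
    {X u v : ℕ} (ρ : ℕ) (huv : u ≤ v) (hv : v ≤ 2 * X) :
    |∑ r ∈ (Finset.Ico u v).filter (fun r => r % q = ρ), g r| ≤
      2 * h + ∑ j ∈ Finset.range (2 * X / h + 1), ∑ c ∈ Finset.range q,
        |∑ r ∈ (Finset.Ico (j * h) (j * h + h)).filter (fun r => r % q = c), g r| := by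
  classical
  set S := (Finset.Ico u v).filter (fun r => r % q = ρ) with hS
  set C : ℕ → ℝ := fun j => ∑ c ∈ Finset.range q,
        |∑ r ∈ (Finset.Ico (j * h) (j * h + h)).filter (fun r => r % q = c), g r| with hC
  have hC0 : ∀ j, 0 ≤ C j := fun j => Finset.sum_nonneg fun _ _ => abs_nonneg _
  have hdiv : ∀ r j : ℕ, r / h = j ↔ j * h ≤ r ∧ r < j * h + h := by
    intro r j
    rw [Nat.div_eq_iff hh]
    constructor
    · rintro ⟨h1, h2⟩
      exact ⟨h1, by omega⟩
    · rintro ⟨h1, h2⟩
      exact ⟨h1, by omega⟩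
  have hfib : ∑ r ∈ S, g r = ∑ j ∈ Finset.range (2 * X / h + 1), ∑ r ∈ S.filter (fun r => r / h = j), g r := by
    symm
    refine Finset.sum_fiberwise_of_maps_to (fun r hr => ?_) g
    rw [hS, Finset.mem_filter, Finset.mem_Ico] at hr
    rw [Finset.mem_range]
    have : r / h ≤ 2 * X / h := Nat.div_le_div_right (by omega)
    omega
  have hterm : ∀ j ∈ Finset.range (2 * X / h + 1), |∑ r ∈ S.filter (fun r => r / h = j), g r| ≤
      ((if j = u / h then (h:ℝ) else 0) + (if j = v / h then (h:ℝ) else 0)) + C j := by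
    intro j _
    have htriv : |∑ r ∈ S.filter (fun r => r / h = j), g r| ≤ h := by
      refine (Finset.abs_sum_le_sum_abs _ _).trans ?_
      have hsub : S.filter (fun r => r / h = j) ⊆ Finset.Ico (j * h) (j * h + h) := by
        intro r hr
        rw [Finset.mem_filter] at hr
        rw [Finset.mem_Ico]
        exact (hdiv r j).mp hr.2
      calc ∑ r ∈ S.filter (fun r => r / h = j), |g r|
          ≤ ∑ r ∈ S.filter (fun r => r / h = j), (1:ℝ) := Finset.sum_le_sum fun r _ => hg r
        _ ≤ ∑ r ∈ Finset.Ico (j * h) (j * h + h), (1:ℝ) :=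
            Finset.sum_le_sum_of_subset_of_nonneg hsub fun _ _ _ => zero_le_one
        _ = h := by simp
    by_cases h1 : j = u / h
    · rw [if_pos h1]
      have : (0:ℝ) ≤ (if j = v / h then (h:ℝ) else 0) := by
        split_ifs
        · positivity
        · exact le_rfl
      linarith [hC0 j]
    by_cases h2 : j = v / h
    · rw [if_pos h2, if_neg h1]
      linarith [hC0 j]
    rw [if_neg h1, if_neg h2, zero_add, zero_add]
    rcases lt_or_ge j (u / h) with h3 | h3
    · have he : S.filter (fun r => r / h = j) = ∅ := by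
        rw [Finset.eq_empty_iff_forall_notMem]
        intro r hr
        rw [Finset.mem_filter, hS, Finset.mem_filter, Finset.mem_Ico] at hr
        have : u / h ≤ r / h := Nat.div_le_div_right hr.1.1.1
        omega
      rw [he, Finset.sum_empty, abs_zero]
      exact hC0 j
    rcases lt_or_ge (v / h) j with h4 | h4
    · have he : S.filter (fun r => r / h = j) = ∅ := by
        rw [Finset.eq_empty_iff_forall_notMem]
        intro r hr
        rw [Finset.mem_filter, hS, Finset.mem_filter, Finset.mem_Ico] at hr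
        have : r / h ≤ v / h := Nat.div_le_div_right hr.1.1.2.le
        omega
      rw [he, Finset.sum_empty, abs_zero]
      exact hC0 j
    have h5 : u / h + 1 ≤ j := by omega
    have h6 : j + 1 ≤ v / h := by omega
    have hu : u ≤ j * h := by
      have e1 : u < (u / h + 1) * h := by
        have := Nat.lt_div_mul_add (a := u) hh
        rw [add_mul, one_mul]
        exact this
      have e2 : (u / h + 1) * h ≤ j * h := Nat.mul_le_mul_right h h5
      omega
    have hv' : j * h + h ≤ v := by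
      have e1 : (j + 1) * h ≤ (v / h) * h := Nat.mul_le_mul_right h h6
      have e2 : (v / h) * h ≤ v := Nat.div_mul_le_self v h
      rw [add_mul, one_mul] at e1
      omega
    have he : S.filter (fun r => r / h = j) =
        (Finset.Ico (j * h) (j * h + h)).filter (fun r => r % q = ρ) := by
      ext r
      rw [Finset.mem_filter, hS, Finset.mem_filter, Finset.mem_filter, Finset.mem_Ico,
        Finset.mem_Ico, hdiv]
      constructor
      · rintro ⟨⟨_, h8⟩, h9⟩
        exact ⟨h9, h8⟩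
      · rintro ⟨h9, h8⟩
        exact ⟨⟨⟨by omega, by omega⟩, h8⟩, h9⟩
    rw [he]
    by_cases hρ : ρ < q
    · exact Finset.single_le_sum
        (f := fun c => |∑ r ∈ (Finset.Ico (j * h) (j * h + h)).filter (fun r => r % q = c), g r|)
        (fun _ _ => abs_nonneg _) (Finset.mem_range.mpr hρ)
    · have he2 : (Finset.Ico (j * h) (j * h + h)).filter (fun r => r % q = ρ) = ∅ := by
        rw [Finset.eq_empty_iff_forall_notMem]
        intro r hr
        rw [Finset.mem_filter] at hr
        have := Nat.mod_lt r hq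
        omega
      rw [he2, Finset.sum_empty, abs_zero]
      exact hC0 j
  have hone : ∀ w : ℕ, ∑ j ∈ Finset.range (2 * X / h + 1), (if j = w then (h:ℝ) else 0) ≤ h := by
    intro w
    rw [Finset.sum_ite_eq']
    split_ifs
    · exact le_rfl
    · positivity
  rw [hfib]
  calc |∑ j ∈ Finset.range (2 * X / h + 1), ∑ r ∈ S.filter (fun r => r / h = j), g r|
      ≤ ∑ j ∈ Finset.range (2 * X / h + 1), |∑ r ∈ S.filter (fun r => r / h = j), g r| :=
        Finset.abs_sum_le_sum_abs _ _
    _ ≤ ∑ j ∈ Finset.range (2 * X / h + 1),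
          (((if j = u / h then (h:ℝ) else 0) + (if j = v / h then (h:ℝ) else 0)) + C j) :=
        Finset.sum_le_sum hterm
    _ ≤ 2 * h + ∑ j ∈ Finset.range (2 * X / h + 1), C j := by
        rw [Finset.sum_add_distrib, Finset.sum_add_distrib]
        have h1 := hone (u / h)
        have h2 := hone (v / h)
        linarith

/-- A common bound for all sums over intervals in residue classes, small on average. -/
theorem grid_E {a : ℝ} (ha : 0 < a) {q : ℕ} (hq : 0 < q) {δ : ℝ} (hδ : 0 < δ) :
    ∃ X0 : ℕ, ∀ X ≥ X0, ∀ M : IMean, LogBound M → ∃ D : ℕ → ℝ, Bdd D ∧ M.E D ≤ δ * X ∧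
      ∀ n, ∀ u v ρ : ℕ, u ≤ v → v ≤ 2 * X →
        |∑ r ∈ (Finset.Ico u v).filter (fun r => r % q = ρ), lam (bt a n - r)| ≤ D n := by
  have hq0 : (0:ℝ) < q := by exact_mod_cast hq
  set d : ℝ := min δ 1 with hd
  have hd0 : 0 < d := lt_min hδ one_pos
  have hd1 : d ≤ 1 := min_le_right _ _
  have hdδ : d ≤ δ := min_le_left _ _
  obtain ⟨x0, hx0⟩ := beatty_class ha hq (ε := d / (8 * q)) (by positivity)
  refine ⟨⌈8 * ((x0:ℝ) + 1) / d⌉₊, fun X hX M hM => ?_⟩
  have hX' : 8 * ((x0:ℝ) + 1) / d ≤ X := (Nat.le_ceil _).trans (by exact_mod_cast hX)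
  have hXd : (x0:ℝ) + 1 ≤ d * X / 8 := by
    rw [div_le_iff₀ hd0] at hX'
    linarith
  set h : ℕ := ⌊d * X / 8⌋₊ with hh
  have hdX : 0 ≤ d * (X:ℝ) / 8 := by positivity
  have hhle : (h:ℝ) ≤ d * X / 8 := Nat.floor_le hdX
  have hhge : x0 + 1 ≤ h := by
    rw [hh, Nat.le_floor_iff hdX]
    push_cast
    exact hXd
  have hh0 : 0 < h := by omega
  have hh0' : (0:ℝ) < h := by exact_mod_cast hh0
  have hXpos : (0:ℝ) ≤ X := by positivity
  set T : ℕ → ℕ → ℕ → ℝ := fun j c n =>
    |∑ r ∈ (Finset.Ico (j * h) (j * h + h)).filter (fun r => r % q = c), lam (bt a n - r)| with hT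
  have hTle : ∀ j c n, |T j c n| ≤ h := by
    intro j c n
    rw [hT]
    dsimp only
    rw [abs_abs]
    refine (Finset.abs_sum_le_sum_abs _ _).trans ?_
    calc ∑ r ∈ (Finset.Ico (j * h) (j * h + h)).filter (fun r => r % q = c), |lam (bt a n - r)|
        = ∑ r ∈ (Finset.Ico (j * h) (j * h + h)).filter (fun r => r % q = c), (1:ℝ) := by
          simp [abs_lam]
      _ ≤ ∑ r ∈ Finset.Ico (j * h) (j * h + h), (1:ℝ) :=
          Finset.sum_le_sum_of_subset_of_nonneg (Finset.filter_subset _ _) fun _ _ _ => zero_le_one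
      _ = h := by simp
  have hTb : ∀ j c, Bdd (T j c) := fun j c => ⟨h, hTle j c⟩
  have hTE : ∀ j, ∀ c ∈ Finset.range q, M.E (T j c) ≤ h * (d / (8 * q)) := by
    intro j c hc
    have h1 := hx0 h (by omega) (j * h) c M hM
    have hcq : c % q = c := Nat.mod_eq_of_lt (Finset.mem_range.mp hc)
    rw [hcq] at h1
    have e : T j c = fun n => (h:ℝ) * |(1 / (h : ℝ)) *
        ∑ s ∈ (Finset.Ico (j * h) (j * h + h)).filter (fun s => s % q = c), lam (bt a n - s)| := by
      funext n
      rw [abs_mul, abs_of_pos (by positivity : (0:ℝ) < 1 / h), ← mul_assoc, mul_one_div,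
        div_self hh0'.ne', one_mul]
    have hb : Bdd (fun n => |(1 / (h : ℝ)) *
        ∑ s ∈ (Finset.Ico (j * h) (j * h + h)).filter (fun s => s % q = c), lam (bt a n - s)|) := by
      refine ⟨1, fun n => ?_⟩
      have h2 := hTle j c n
      rw [e] at h2
      dsimp only at h2
      rw [abs_mul, abs_of_pos hh0'] at h2
      have h3 : (h:ℝ) * |(|(1 / (h : ℝ)) *
        ∑ s ∈ (Finset.Ico (j * h) (j * h + h)).filter (fun s => s % q = c), lam (bt a n - s)|)| ≤
          h * 1 := by rw [mul_one]; exact h2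
      exact le_of_mul_le_mul_left h3 hh0'
    rw [e, M.smul _ _ hb]
    exact mul_le_mul_of_nonneg_left h1 hh0'.le
  refine ⟨fun n => 2 * (h:ℝ) + ∑ j ∈ Finset.range (2 * X / h + 1), ∑ c ∈ Finset.range q, T j c n,
    ?_, ?_, ?_⟩
  · exact (Bdd.const _).add (Bdd.sum _ fun j _ => Bdd.sum _ fun c _ => hTb j c)
  · rw [M.add _ _ (Bdd.const _) (Bdd.sum _ fun j _ => Bdd.sum _ fun c _ => hTb j c), M.E_const,
      M.E_sum _ fun j _ => Bdd.sum _ fun c _ => hTb j c]
    have h2 : ∀ j ∈ Finset.range (2 * X / h + 1),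
        M.E (fun n => ∑ c ∈ Finset.range q, T j c n) ≤ h * (d / 8) := by
      intro j _
      rw [M.E_sum _ fun c _ => hTb j c]
      calc ∑ c ∈ Finset.range q, M.E (T j c) ≤ ∑ c ∈ Finset.range q, (h:ℝ) * (d / (8 * q)) :=
            Finset.sum_le_sum (hTE j)
        _ = h * (d / 8) := by
            rw [Finset.sum_const, Finset.card_range, nsmul_eq_mul]
            field_simp
    have h3 : ∑ j ∈ Finset.range (2 * X / h + 1), M.E (fun n => ∑ c ∈ Finset.range q, T j c n) ≤
        (2 * X / h + 1 : ℕ) * ((h:ℝ) * (d / 8)) := by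
      refine (Finset.sum_le_sum h2).trans ?_
      rw [Finset.sum_const, Finset.card_range, nsmul_eq_mul]
    have h4 : ((2 * X / h + 1 : ℕ) : ℝ) * h ≤ 2 * X + h := by
      have e1 : (2 * X / h) * h ≤ 2 * X := Nat.div_mul_le_self _ _
      have e2 : (2 * X / h + 1) * h ≤ 2 * X + h := by
        rw [add_mul, one_mul]
        omega
      exact_mod_cast e2
    have h5 : (h:ℝ) ≤ X := by nlinarith
    have h6 : ((2 * X / h + 1 : ℕ) : ℝ) * ((h:ℝ) * (d / 8)) ≤ (3 * X) * (d / 8) := by
      rw [← mul_assoc]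
      refine mul_le_mul_of_nonneg_right ?_ (by positivity)
      linarith
    have h7 : d * X ≤ δ * X := mul_le_mul_of_nonneg_right hdδ hXpos
    have h8 : 0 ≤ d * (X:ℝ) := by positivity
    linarith
  · intro n u v ρ huv hv
    exact grid_bound hq (fun r => lam (bt a n - r)) (fun r => (abs_lam _).le) hh0 ρ huv hv

end Pool.MP_67663b_nt.PS
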