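import Pool.Agent.Lib.MP_67663b_nt.PS.ModelNear
import Pool.Agent.Lib.MP_67663b_nt.OddB.Close

set_option autoImplicit false
open Filter Topology
namespace Pool.MP_67663b_nt.PS
open Pool.MP_67663b_nt.Odd

/-- Products of two primes and the integers coprime to `W` have the same Fourier transform up to
`ε`. -/
theorem model_close {ε : ℝ} (hε : 0 < ε) : ∃ W : ℕ, 0 < W ∧ ∃ m0 : ℕ, ∀ m ≥ m0,
    ∃ X0 : ℝ, 0 < X0 ∧ ∀ X : ℕ, X0 ≤ (X : ℝ) → ∀ u v : ℝ, 1 ≤ u → u ≤ v → v ≤ 2 → ∀ φ : ℝ,
      ‖BB m X u v φ - NS W X u v φ‖ ≤ ε := by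
  obtain ⟨R, hR, M1, hmin⟩ := minor_arcs (half_pos hε)
  obtain ⟨M2, hM2⟩ := close_blk_large 1
  obtain ⟨W, hWdef⟩ : ∃ W : ℕ, W = Nat.factorial R := ⟨_, rfl⟩
  have hW : 0 < W := by rw [hWdef]; exact Nat.factorial_pos R
  refine ⟨W, hW, max (max M1 M2) W, fun m hm => ?_⟩
  have hm1 : M1 ≤ m := (le_max_left _ _).trans ((le_max_left _ _).trans hm)
  have hm2 : M2 ≤ m := (le_max_right _ _).trans ((le_max_left _ _).trans hm)
  have hmW : W ≤ m := (le_max_right _ _).trans hm
  have hW2m : W < 2 ^ m := lt_of_le_of_lt hmW Nat.lt_two_pow_self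
  have hbne : (blk m).Nonempty := by
    rw [← Finset.card_pos]
    have := lt_of_lt_of_le one_pos (hM2 m hm2)
    exact_mod_cast this
  obtain ⟨X1, B, hX1, hB, hA⟩ := hmin m hm1
  obtain ⟨B', hB'def⟩ : ∃ B' : ℝ, B' = max B (2 / ε) := ⟨_, rfl⟩
  have hBB' : B ≤ B' := by rw [hB'def]; exact le_max_left _ _
  have h2B' : 2 / ε ≤ B' := by rw [hB'def]; exact le_max_right _ _
  have hB'0 : 0 < B' := lt_of_lt_of_le hB hBB'
  obtain ⟨X2, hX2, hmaj⟩ := major_arcs W hW2m hbne B' (show 0 < ε / 4 by linarith)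
  have hWR : (0:ℝ) < W := by exact_mod_cast hW
  have e1 : 0 < 40 * W / ε := by positivity
  have e2 : 0 < 2 * B' * W := by positivity
  refine ⟨X1 + X2 + 40 * W / ε + 2 * B' * W + 1, by positivity, ?_⟩
  intro X hX u v hu huv hv φ
  have hX0 : (0:ℝ) < X := by linarith
  have hXn : 0 < X := by exact_mod_cast hX0
  have hXX1 : X1 ≤ X := by linarith
  have hXX2 : X2 ≤ X := by linarith
  have hX3 : 40 * W / ε ≤ X := by linarith
  have hX4 : 2 * B' * W < X := by linarith
  have hNSe : 10 * (W:ℝ) / X ≤ ε / 4 := by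
    rw [div_le_iff₀ hε] at hX3
    rw [div_le_iff₀ hX0]
    linarith
  have hBX : B' / X < 1 / (2 * W) := by
    rw [div_lt_div_iff₀ hX0 (by positivity)]
    linarith
  obtain ⟨a, ha⟩ : ∃ a : ℤ, a = round ((W:ℝ) * φ) := ⟨_, rfl⟩
  have hφa : |φ - (a : ℝ) / W| ≤ 1 / (2 * W) := by
    have h1 : φ - (a : ℝ) / W = ((W:ℝ) * φ - a) / W := by field_simp
    rw [h1, abs_div, abs_of_pos hWR, ha, div_le_iff₀ hWR]
    refine (abs_sub_round ((W:ℝ) * φ)).trans (le_of_eq ?_)
    field_simp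
  have hNS := model_near hW hXn hu huv hv a φ hφa
  by_cases hclose : |φ - (a : ℝ) / W| ≤ B' / X
  · have h1 := hmaj X hXX2 u v hu huv hv a W hW le_rfl φ hclose
    have h2 : BB m X u v φ - NS W X u v φ = (BB m X u v φ - MM a W X u v φ) -
        (NS W X u v φ - MM a W X u v φ) := by ring
    rw [h2]
    refine (norm_sub_le _ _).trans ?_
    linarith
  · push Not at hclose
    have hne : φ ≠ (a : ℝ) / W := by
      intro h
      rw [h, sub_self, abs_zero] at hclose
      have : 0 < B' / X := by positivity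
      linarith
    have hMM : ‖MM a W X u v φ‖ ≤ ε / 4 := by
      refine (MM_le a hW hX0 u v φ hne).trans ?_
      have h1 : B' < X * |φ - (a : ℝ) / W| := by
        rw [div_lt_iff₀ hX0] at hclose
        linarith
      have h2 : 2 / ε ≤ X * |φ - (a : ℝ) / W| := by linarith
      have hpi : (2:ℝ) ≤ Real.pi := by linarith [Real.pi_gt_three]
      have h3 : 4 / ε ≤ Real.pi * (X * |φ - (a : ℝ) / W|) := by
        calc 4 / ε = 2 * (2 / ε) := by ring
          _ ≤ Real.pi * (X * |φ - (a : ℝ) / W|) := by gcongr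
      calc 1 / (Real.pi * (X * |φ - (a : ℝ) / W|)) ≤ 1 / (4 / ε) := by gcongr
        _ = ε / 4 := by rw [one_div_div]
    have hNSn : ‖NS W X u v φ‖ ≤ ε / 2 := by
      have h2 : NS W X u v φ = (NS W X u v φ - MM a W X u v φ) + MM a W X u v φ := by ring
      rw [h2]
      refine (norm_add_le _ _).trans ?_
      linarith
    have hBBn : ‖BB m X u v φ‖ < ε / 2 := by
      by_contra hcon
      push Not at hcon
      obtain ⟨a1, r1, hr1, hr1R, hφ1⟩ := hA X hXX1 u v hu huv hv φ hcon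
      obtain ⟨s, hs⟩ : r1 ∣ W := by
        rw [hWdef]
        exact Nat.dvd_factorial hr1 hr1R
      have hs0 : 0 < s := by
        rcases Nat.eq_zero_or_pos s with h | h
        · rw [h, mul_zero] at hs
          omega
        · exact h
      have hr1R0 : (0:ℝ) < r1 := by exact_mod_cast hr1
      have hsR : (0:ℝ) < s := by exact_mod_cast hs0
      have hWrs : (W:ℝ) = r1 * s := by exact_mod_cast hs
      have h1 : (a1 : ℝ) / r1 = ((a1 * (s:ℤ) : ℤ) : ℝ) / W := by
        rw [hWrs]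
        push_cast
        field_simp
      have h2 : B / X ≤ B' / X := by gcongr
      rw [h1] at hφ1
      have h3 : |φ - ((a1 * (s:ℤ) : ℤ) : ℝ) / W| < 1 / (2 * W) := by linarith
      have h4 : |((a - a1 * (s:ℤ) : ℤ) : ℝ) / W| < 1 / W := by
        have h5 : ((a - a1 * (s:ℤ) : ℤ) : ℝ) / W = (φ - ((a1 * (s:ℤ) : ℤ) : ℝ) / W) -
            (φ - (a : ℝ) / W) := by
          push_cast
          ring
        rw [h5]
        refine lt_of_le_of_lt (abs_sub _ _) ?_
        have h6 : 1 / (W:ℝ) = 1 / (2 * W) + 1 / (2 * W) := by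
          field_simp
          norm_num
        rw [h6]
        linarith
      rw [abs_div, abs_of_pos hWR, div_lt_div_iff_of_pos_right hWR] at h4
      have h7 : a = a1 * (s:ℤ) := by
        by_contra hne'
        have h8 : a - a1 * (s:ℤ) ≠ 0 := sub_ne_zero.mpr hne'
        have h9 : (1:ℝ) ≤ |((a - a1 * (s:ℤ) : ℤ) : ℝ)| := by
          have := Int.one_le_abs h8
          exact_mod_cast this
        linarith
      rw [← h7] at hφ1
      linarith
    refine (norm_sub_le _ _).trans ?_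
    linarith

end Pool.MP_67663b_nt.PS
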