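import Pool.Agent.Lib.MP_67663b_nt.OddB.ExpDefs

/-!
# Model for the products of two primes: integers coprime to `W`
-/

set_option autoImplicit false
open Filter Topology
namespace Pool.MP_67663b_nt.PS
open Pool.MP_67663b_nt.Odd

/-- model weight on `[X, 2X)` -/
noncomputable def nu (W X x : ℕ) : ℝ :=
  if Nat.Coprime W x then (W : ℝ) / ((Nat.totient W : ℝ) * X) else 0

/-- its exponential sum over `[uX, vX)` -/
noncomputable def NS (W X : ℕ) (u v φ : ℝ) : ℂ :=
  ∑ x ∈ (Finset.Ico X (2 * X)).filter (fun x : ℕ => u * X ≤ (x : ℝ) ∧ (x : ℝ) < v * X),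
    (nu W X x : ℂ) * ee (x * φ)

theorem nu_nonneg (W X x : ℕ) : 0 ≤ nu W X x := by
  unfold nu
  split_ifs <;> positivity

theorem nu_mass {W X : ℕ} (hW : 0 < W) (hX : W ≤ X) :
    ∑ x ∈ Finset.Ico X (2 * X), nu W X x ≤ 2 := by
  have hW' : (0:ℝ) < W := by exact_mod_cast hW
  have hX' : (0:ℝ) < X := by exact_mod_cast (lt_of_lt_of_le hW hX)
  have hWX : (W:ℝ) ≤ X := by exact_mod_cast hX
  have hφ : (0:ℝ) < Nat.totient W := by exact_mod_cast Nat.totient_pos.mpr hW
  have h1 : ∑ x ∈ Finset.Ico X (2 * X), nu W X x =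
      (((Finset.Ico X (X + X)).filter (Nat.Coprime W)).card : ℝ) * ((W : ℝ) / ((Nat.totient W : ℝ) * X)) := by
    unfold nu
    rw [← Finset.sum_filter, Finset.sum_const, nsmul_eq_mul, two_mul]
  have h2 := Nat.Ico_filter_coprime_le (a := W) X X hW.ne'
  have h3 : (((Finset.Ico X (X + X)).filter (Nat.Coprime W)).card : ℝ) ≤
      (Nat.totient W : ℝ) * ((X : ℝ) / W + 1) := by
    have h4 : (((Finset.Ico X (X + X)).filter (Nat.Coprime W)).card : ℝ) ≤
        ((Nat.totient W * (X / W + 1) : ℕ) : ℝ) := by exact_mod_cast h2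
    refine h4.trans ?_
    push_cast
    have : ((X / W : ℕ) : ℝ) ≤ (X : ℝ) / W := Nat.cast_div_le
    gcongr
  rw [h1]
  calc (((Finset.Ico X (X + X)).filter (Nat.Coprime W)).card : ℝ) * ((W : ℝ) / ((Nat.totient W : ℝ) * X))
      ≤ ((Nat.totient W : ℝ) * ((X : ℝ) / W + 1)) * ((W : ℝ) / ((Nat.totient W : ℝ) * X)) := by gcongr
    _ = 1 + W / X := by field_simp
    _ ≤ 2 := by
        have : (W:ℝ) / X ≤ 1 := (div_le_one hX').mpr hWX
        linarith

end Pool.MP_67663b_nt.PS
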