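import Pool.Agent.Lib.MP_67663b_nt.PS.Fiber
import Pool.Agent.Lib.MP_67663b_nt.PS.ModelDefs

set_option autoImplicit false
open Filter Topology
namespace Pool.MP_67663b_nt.PS
open Pool.MP_67663b_nt.Odd

/-- Abel summation with a decreasing weight. -/
theorem ms_abel (w h : ℕ → ℝ) (M : ℝ) (hw0 : ∀ j, 0 ≤ w j) (hwa : ∀ j, w (j + 1) ≤ w j) (n : ℕ)
    (hH : ∀ m ≤ n, |∑ j ∈ Finset.range m, h j| ≤ M) :
    |∑ j ∈ Finset.range n, w j * h j| ≤ w 0 * M := by
  have hM : 0 ≤ M := by simpa using hH 0 (Nat.zero_le n)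
  rcases n with _ | n
  · simp only [Finset.range_zero, Finset.sum_empty, abs_zero]
    exact mul_nonneg (hw0 0) hM
  have key : ∀ m ≤ n, |∑ j ∈ Finset.range (m + 1), w j * h j -
      w m * ∑ j ∈ Finset.range (m + 1), h j| ≤ (w 0 - w m) * M := by
    intro m
    induction m with
    | zero =>
      intro _
      simp
    | succ m ih =>
      intro hm
      have h1 := ih (by omega)
      have h2 : ∑ j ∈ Finset.range (m + 1 + 1), w j * h j -
          w (m + 1) * ∑ j ∈ Finset.range (m + 1 + 1), h j =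
          (∑ j ∈ Finset.range (m + 1), w j * h j - w m * ∑ j ∈ Finset.range (m + 1), h j) +
          (w m - w (m + 1)) * ∑ j ∈ Finset.range (m + 1), h j := by
        rw [Finset.sum_range_succ (fun j => w j * h j) (m + 1),
          Finset.sum_range_succ h (m + 1)]
        ring
      rw [h2]
      refine (abs_add_le _ _).trans ?_
      have h3 : |(w m - w (m + 1)) * ∑ j ∈ Finset.range (m + 1), h j| ≤
          (w m - w (m + 1)) * M := by
        rw [abs_mul, abs_of_nonneg (sub_nonneg.mpr (hwa m))]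
        exact mul_le_mul_of_nonneg_left (hH _ (by omega)) (sub_nonneg.mpr (hwa m))
      calc _ ≤ (w 0 - w m) * M + (w m - w (m + 1)) * M := add_le_add h1 h3
        _ = (w 0 - w (m + 1)) * M := by ring
  have h1 := key n le_rfl
  have h2 : |w n * ∑ j ∈ Finset.range (n + 1), h j| ≤ w n * M := by
    rw [abs_mul, abs_of_nonneg (hw0 n)]
    exact mul_le_mul_of_nonneg_left (hH _ le_rfl) (hw0 n)
  calc |∑ j ∈ Finset.range (n + 1), w j * h j|
      = |(∑ j ∈ Finset.range (n + 1), w j * h j - w n * ∑ j ∈ Finset.range (n + 1), h j) +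
          w n * ∑ j ∈ Finset.range (n + 1), h j| := by
        congr 1
        ring
    _ ≤ (w 0 - w n) * M + w n * M := (abs_add_le _ _).trans (add_le_add h1 h2)
    _ = w 0 * M := by ring

variable {I : Type} [Fintype I] [DecidableEq I]

/-- The model average of `avT` is controlled by the sums of `f l` over intervals in residue
classes. (`fiber_bound` and Abel summation in `x` with the decreasing weight `x^(1-|I|)`.) -/
theorem model_sum (a : I → ℤ) {l : I} (hl : a l ≠ 0) {t : ℤ} (ht : t ≠ 0) {W : ℕ} (hW : 0 < W) :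
    ∃ C : ℝ, 0 < C ∧ ∀ X : ℕ, 0 < X → ∀ (s : ℤ) (f : I → ℕ → ℝ) (D : ℝ), 0 ≤ D →
      (∀ i r, |f i r| ≤ 1) →
      (∀ u v ρ : ℕ, u ≤ v → v ≤ 2 * X →
        |∑ r ∈ (Finset.Ico u v).filter (fun r => r % (t.natAbs * W) = ρ), f l r| ≤ D) →
      |∑ x ∈ Finset.Ico X (2 * X), nu W X x * avT a t x s f| ≤ C * (D / X) := by
  have hW' : (0:ℝ) < W := by exact_mod_cast hW
  have hφ : (0:ℝ) < Nat.totient W := by exact_mod_cast Nat.totient_pos.mpr hW
  have ht' : (0:ℝ) < t.natAbs := by exact_mod_cast Int.natAbs_pos.mpr ht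
  refine ⟨(W : ℝ) / Nat.totient W * 2 ^ (Fintype.card I - 1) * ((t.natAbs * W : ℕ) : ℝ), ?_, ?_⟩
  · have : (0:ℝ) < ((t.natAbs * W : ℕ) : ℝ) := by
      push_cast
      positivity
    positivity
  intro X hX s f D hD hf hsum
  have hX' : (0:ℝ) < X := by exact_mod_cast hX
  obtain ⟨k, hk⟩ : ∃ k, k = Fintype.card I - 1 := ⟨_, rfl⟩
  rw [← hk]
  -- the fiber sums
  obtain ⟨h, hh⟩ : ∃ h : ℕ → ℝ, h = fun x =>
      if Nat.Coprime W x then ∑ r ∈ RRT a t x s, ∏ i, f i (r i) else 0 := ⟨_, rfl⟩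
  obtain ⟨Mb, hMb⟩ : ∃ Mb : ℝ, Mb = (2 * (X : ℝ)) ^ k * (((t.natAbs * W : ℕ) : ℝ) * D) :=
    ⟨_, rfl⟩
  have hpart : ∀ m ≤ X, |∑ j ∈ Finset.range m, h (X + j)| ≤ Mb := by
    intro m hm
    have h1 := fiber_bound a hl ht hW hX (y := X + m) (by omega) (by omega) s f hf D hsum
    rw [Finset.sum_filter, ← hk, ← hMb] at h1
    have h2 : ∑ j ∈ Finset.range m, h (X + j) = ∑ x ∈ Finset.Ico X (X + m), h x := by
      rw [Finset.sum_Ico_eq_sum_range]
      congr 2
      omega
    rw [h2, hh]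
    exact h1
  have habel := ms_abel (fun j => 1 / ((X + j : ℕ) : ℝ) ^ k) (fun j => h (X + j)) Mb
    (fun j => by positivity) (fun j => by
      have h1 : (0:ℝ) < ((X + j : ℕ) : ℝ) := by
        exact_mod_cast (by omega : 0 < X + j)
      apply one_div_le_one_div_of_le (by positivity)
      apply pow_le_pow_left₀ h1.le
      exact_mod_cast (by omega : X + j ≤ X + (j + 1))) X hpart
  have hsumeq : ∑ x ∈ Finset.Ico X (2 * X), nu W X x * avT a t x s f =
      (W : ℝ) / ((Nat.totient W : ℝ) * X) *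
        ∑ j ∈ Finset.range X, (1 / ((X + j : ℕ) : ℝ) ^ k) * h (X + j) := by
    rw [Finset.sum_Ico_eq_sum_range, Finset.mul_sum]
    have : 2 * X - X = X := by omega
    rw [this]
    refine Finset.sum_congr rfl fun j _ => ?_
    rw [hh]
    unfold nu avT
    rw [← hk]
    dsimp only
    split_ifs
    · rfl
    · simp
  rw [hsumeq, abs_mul, abs_of_nonneg (by positivity)]
  have h0 : (1 / ((X + 0 : ℕ) : ℝ) ^ k) * Mb = 2 ^ k * (((t.natAbs * W : ℕ) : ℝ) * D) := by
    rw [hMb, add_zero, mul_pow]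
    field_simp
  calc (W : ℝ) / ((Nat.totient W : ℝ) * X) *
        |∑ j ∈ Finset.range X, (1 / ((X + j : ℕ) : ℝ) ^ k) * h (X + j)|
      ≤ (W : ℝ) / ((Nat.totient W : ℝ) * X) * (2 ^ k * (((t.natAbs * W : ℕ) : ℝ) * D)) := by
        refine mul_le_mul_of_nonneg_left ?_ (by positivity)
        rw [← h0]
        exact habel
    _ = (W : ℝ) / Nat.totient W * 2 ^ k * ((t.natAbs * W : ℕ) : ℝ) * (D / X) := by
        field_simp

end Pool.MP_67663b_nt.PS
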