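import Pool.Agent.Lib.MP_67663b_nt.PS.TDefs
import Pool.Agent.Lib.MP_67663b_nt.OddB.Wiener

set_option autoImplicit false
open Filter Topology
namespace Pool.MP_67663b_nt.PS
open Pool.MP_67663b_nt.Odd

variable {I : Type} [Fintype I] [DecidableEq I]

/-- Solutions of `Σ a_i r_i + s = y` with all coordinates `< N`. -/
def WienerT_SN (a : I → ℤ) (N : ℕ) (s y : ℤ) : Finset (I → ℕ) :=
  (Fintype.piFinset (fun _ : I => Finset.range N)).filter
    (fun r => ∑ i, a i * (r i : ℤ) + s = y)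

theorem WienerT_U_eq (a : I → ℤ) (N : ℕ) (s : ℤ) (f : I → ℕ → ℝ) (y : ℤ) :
    Wiener_U a N s f y = ∑ r ∈ WienerT_SN a N s y, ∏ i, f i (r i) := rfl

theorem WienerT_SN_subset (a : I → ℤ) (t : ℤ) {N x : ℕ} (hN : N ≤ x) (s : ℤ) :
    WienerT_SN a N s (t * x) ⊆ RRT a t x s := by
  intro r hr
  unfold WienerT_SN at hr
  unfold RRT
  rw [Finset.mem_filter, Fintype.mem_piFinset] at hr ⊢
  exact ⟨fun i => Finset.range_mono hN (hr.1 i), hr.2⟩

theorem WienerT_SN_subset_RN (a : I → ℤ) (t : ℤ) (N x : ℕ) (s : ℤ) :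
    WienerT_SN a N s (t * x) ⊆ Wiener_RN a N x s := by
  intro r hr
  unfold WienerT_SN at hr
  unfold Wiener_RN
  rw [Finset.mem_filter] at hr ⊢
  refine ⟨hr.1, ?_⟩
  rw [hr.2]
  exact dvd_mul_left _ _

theorem WienerT_diff_subset (a : I → ℤ) (t : ℤ) (N x : ℕ) (s : ℤ) :
    RRT a t x s \ WienerT_SN a N s (t * x) ⊆ RR a x s \ Wiener_RN a N x s := by
  intro r hr
  rw [Finset.mem_sdiff] at hr ⊢
  refine ⟨RRT_subset a t x s hr.1, fun h => hr.2 ?_⟩
  have h1 := hr.1
  unfold RRT at h1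
  unfold Wiener_RN at h
  unfold WienerT_SN
  rw [Finset.mem_filter] at h1 h ⊢
  exact ⟨h.1, h1.2⟩

theorem WienerT_sub (a : I → ℤ) (t : ℤ) {l l' : I} (hll : l ≠ l') (hl : a l ≠ 0) (hl' : a l' ≠ 0)
    {A : ℕ} (hA : (a l).natAbs ≤ A) (hA' : (a l').natAbs ≤ A)
    {N x : ℕ} (hN0 : 0 < N) (hN : N ≤ x) (s : ℤ) {f : I → ℕ → ℝ} (hf : ∀ i r, |f i r| ≤ 1) :
    |avT a t x s f - (1 / (N : ℝ) ^ (Fintype.card I - 1)) * Wiener_U a N s f (t * x)| ≤
      2 * Fintype.card I * A * (((x : ℝ) - N) / x) := by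
  have hx : 0 < x := lt_of_lt_of_le hN0 hN
  have hxR : (0:ℝ) < x := by exact_mod_cast hx
  have hNR : (0:ℝ) < N := by exact_mod_cast hN0
  have hNxR : (N:ℝ) ≤ x := by exact_mod_cast hN
  have hd : 2 ≤ Fintype.card I := by
    have : 1 < Fintype.card I := Fintype.one_lt_card_iff.mpr ⟨l, l', hll⟩
    omega
  set d := Fintype.card I with hdd
  set P := (x : ℝ) ^ (d - 1) with hP
  set Q := (N : ℝ) ^ (d - 1) with hQ
  have hP0 : 0 < P := by positivity
  have hQ0 : 0 < Q := by positivity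
  set SR := ∑ r ∈ RRT a t x s, ∏ i, f i (r i) with hSR
  rw [WienerT_U_eq]
  set SN := ∑ r ∈ WienerT_SN a N s (t * x), ∏ i, f i (r i) with hSN
  have h1 : |SR - SN| ≤ d * (A * (((x : ℝ) - N) * (x : ℝ) ^ (d - 2))) := by
    have : SR - SN = ∑ r ∈ RRT a t x s \ WienerT_SN a N s (t * x), ∏ i, f i (r i) := by
      rw [hSR, hSN, ← Finset.sum_sdiff (WienerT_SN_subset a t hN s)]
      ring
    rw [this]
    refine (Wiener_abs_sum_le hf _).trans ?_
    have := (Finset.card_le_card (WienerT_diff_subset a t N x s)).trans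
      (Wiener_card_diff a hll hl hl' hA hA' hx hN s)
    have h2 : ((RRT a t x s \ WienerT_SN a N s (t * x)).card : ℝ) ≤
        ((d * (A * ((x - N) * x ^ (d - 2))) : ℕ) : ℝ) := by exact_mod_cast this
    refine h2.trans (le_of_eq ?_)
    push_cast [Nat.cast_sub hN]
    ring
  have h2 : |SN| ≤ A * Q := by
    refine (Wiener_abs_sum_le hf _).trans ?_
    have := ((Finset.card_le_card (WienerT_SN_subset_RN a t N x s)).trans
      (Wiener_card_RN a hl hx hN s)).trans (Nat.mul_le_mul_right _ hA)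
    have h2 : ((WienerT_SN a N s (t * x)).card : ℝ) ≤ ((A * N ^ (d - 1) : ℕ) : ℝ) := by
      exact_mod_cast this
    refine h2.trans (le_of_eq ?_)
    push_cast
    ring
  have h3 : avT a t x s f - (1 / Q) * SN = (1 / P) * (SR - SN) - (1 / Q - 1 / P) * SN := by
    unfold avT
    ring
  have hQP : Q ≤ P := by
    rw [hQ, hP]
    gcongr
  have h4 : 0 ≤ 1 / Q - 1 / P := by
    rw [sub_nonneg]
    exact one_div_le_one_div_of_le hQ0 hQP
  have h5 : (x : ℝ) * (x : ℝ) ^ (d - 2) = P := by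
    rw [hP, ← pow_succ']
    congr 1
    omega
  have h6 : (1 / P) * |SR - SN| ≤ d * A * (((x : ℝ) - N) / x) := by
    calc (1 / P) * |SR - SN| ≤ (1 / P) * (d * (A * (((x : ℝ) - N) * (x : ℝ) ^ (d - 2)))) := by
          gcongr
      _ = d * A * (((x : ℝ) - N) / x) := by
          rw [← h5]
          have : (x : ℝ) ^ (d - 2) ≠ 0 := by positivity
          field_simp
  have h7 : (1 / Q - 1 / P) * |SN| ≤ d * A * (((x : ℝ) - N) / x) := by
    calc (1 / Q - 1 / P) * |SN| ≤ (1 / Q - 1 / P) * (A * Q) := by gcongr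
      _ = A * (1 - Q / P) := by
          field_simp
      _ ≤ A * ((d : ℝ) * (((x : ℝ) - N) / x)) := by
          gcongr
          have hb : 1 + ((d - 1 : ℕ) : ℝ) * (-(((x : ℝ) - N) / x)) ≤
              (1 + (-(((x : ℝ) - N) / x))) ^ (d - 1) := by
            apply one_add_mul_le_pow
            have : ((x : ℝ) - N) / x ≤ 1 := by
              rw [div_le_one hxR]
              linarith
            linarith
          have he : (1 + (-(((x : ℝ) - N) / x))) ^ (d - 1) = Q / P := by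
            rw [hQ, hP, ← div_pow]
            congr 1
            field_simp
            ring
          rw [he] at hb
          have h8 : ((d - 1 : ℕ) : ℝ) ≤ d := by
            exact_mod_cast Nat.sub_le _ _
          have h9 : 0 ≤ ((x : ℝ) - N) / x := div_nonneg (by linarith) hxR.le
          nlinarith
      _ = _ := by ring
  rw [h3]
  calc |(1 / P) * (SR - SN) - (1 / Q - 1 / P) * SN|
      ≤ |(1 / P) * (SR - SN)| + |(1 / Q - 1 / P) * SN| := abs_sub _ _
    _ = (1 / P) * |SR - SN| + (1 / Q - 1 / P) * |SN| := by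
        rw [abs_mul, abs_mul, abs_of_pos (by positivity : 0 < 1 / P), abs_of_nonneg h4]
    _ ≤ d * A * (((x : ℝ) - N) / x) + d * A * (((x : ℝ) - N) / x) := add_le_add h6 h7
    _ = _ := by ring



/-- Functions of the form `x ↦ avT a t x s f` see only the Fourier transform on short intervals
(compare `wiener` in `OddB.Wiener`). -/
theorem wiener_T (a : I → ℤ) {l l' : I} (hll : l ≠ l') (hl : a l ≠ 0) (hl' : a l' ≠ 0) (t : ℤ) :
    ∃ C : ℝ, 0 < C ∧ ∀ (X : ℕ), 0 < X → ∀ (K : ℕ), 0 < K → ∀ (μ : ℕ → ℝ) (ε M : ℝ), 0 ≤ ε →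
      (∑ x ∈ Finset.Ico X (2 * X), |μ x|) ≤ M →
      (∀ u v : ℝ, 1 ≤ u → u ≤ v → v ≤ 2 → ∀ φ : ℝ,
        ‖∑ x ∈ (Finset.Ico X (2 * X)).filter (fun x : ℕ => u * X ≤ (x : ℝ) ∧ (x : ℝ) < v * X),
          (μ x : ℂ) * ee (x * φ)‖ ≤ ε) →
      ∀ f : I → ℕ → ℝ, (∀ i r, |f i r| ≤ 1) → ∀ s : ℤ,
        |∑ x ∈ Finset.Ico X (2 * X), μ x * avT a t x s f| ≤ C * (K * ε + M / K) := by
  set A : ℕ := max (a l).natAbs (a l').natAbs with hAdef
  refine ⟨1 + 2 * Fintype.card I * A, by positivity, ?_⟩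
  intro X hX K hK μ ε M hε hM hW f hf s
  have hXR : (0:ℝ) < X := by exact_mod_cast hX
  have hKR : (0:ℝ) < K := by exact_mod_cast hK
  set W : ℕ → Finset ℕ := fun k => (Finset.Ico X (2 * X)).filter
    (fun x : ℕ => (1 + (k : ℝ) / K) * X ≤ (x : ℝ) ∧ (x : ℝ) < (1 + ((k : ℝ) + 1) / K) * X) with hWd
  set c : ℝ := 2 * Fintype.card I * A with hc
  have hc0 : 0 ≤ c := by positivity
  have hwin : ∀ k ∈ Finset.range K, |∑ x ∈ W k, μ x * avT a t x s f| ≤
      ε + c / K * ∑ x ∈ W k, |μ x| := by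
    intro k hk
    rw [Finset.mem_range] at hk
    have hkR : (k : ℝ) + 1 ≤ K := by exact_mod_cast hk
    set N := ⌈(1 + (k : ℝ) / K) * X⌉₊ with hN
    have hN0 : 0 < N := by
      rw [hN, Nat.ceil_pos]
      positivity
    have hNR : (0:ℝ) < N := by exact_mod_cast hN0
    have hNx : ∀ x ∈ W k, N ≤ x := by
      intro x hx
      rw [hWd, Finset.mem_filter] at hx
      exact Nat.ceil_le.mpr hx.2.1
    set V : ℕ → ℝ := fun x => (1 / (N : ℝ) ^ (Fintype.card I - 1)) * Wiener_U a N s f (t * x)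
      with hV
    have hmain : |∑ x ∈ W k, μ x * V x| ≤ ε := by
      have h1 : ∑ x ∈ W k, μ x * V x =
          (1 / (N : ℝ) ^ (Fintype.card I - 1)) * ∑ x ∈ W k, μ x * Wiener_U a N s f (t * x) := by
        rw [Finset.mul_sum]
        apply Finset.sum_congr rfl
        intro x _
        rw [hV]
        ring
      rw [h1, abs_mul, abs_of_pos (by positivity)]
      have h2 : |∑ x ∈ W k, μ x * Wiener_U a N s f (t * x)| ≤
          ε * (N : ℝ) ^ (Fintype.card I - 1) := by
        apply Wiener_fourier a hll hl hl' N s hf (W k) μ hε _ t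
        intro φ
        have h3 := hW (1 + (k : ℝ) / K) (1 + ((k : ℝ) + 1) / K) (by
          have : 0 ≤ (k : ℝ) / K := by positivity
          linarith) (by
          have : (k : ℝ) / K ≤ ((k : ℝ) + 1) / K := by
            gcongr
            linarith
          linarith) (by
          have : ((k : ℝ) + 1) / K ≤ 1 := by
            rw [div_le_one hKR]
            exact hkR
          linarith) φ
        exact h3
      calc 1 / (N : ℝ) ^ (Fintype.card I - 1) * |∑ x ∈ W k, μ x * Wiener_U a N s f (t * x)| ≤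
          1 / (N : ℝ) ^ (Fintype.card I - 1) *
            (ε * (N : ℝ) ^ (Fintype.card I - 1)) := by gcongr
        _ = ε := by
            have : (N : ℝ) ^ (Fintype.card I - 1) ≠ 0 := by positivity
            field_simp
    have herr : |∑ x ∈ W k, μ x * (avT a t x s f - V x)| ≤
        c / K * ∑ x ∈ W k, |μ x| := by
      rw [Finset.mul_sum]
      refine (Finset.abs_sum_le_sum_abs _ _).trans (Finset.sum_le_sum fun x hx => ?_)
      rw [abs_mul, mul_comm]
      apply mul_le_mul_of_nonneg_right _ (abs_nonneg _)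
      refine (WienerT_sub a t hll hl hl' (le_max_left _ _) (le_max_right _ _) hN0
        (hNx x hx) s hf).trans ?_
      rw [← hAdef, ← hc]
      have hxX : (X : ℝ) ≤ x := by
        rw [hWd, Finset.mem_filter, Finset.mem_Ico] at hx
        exact_mod_cast hx.1.1
      have hxR : (0:ℝ) < x := lt_of_lt_of_le hXR hxX
      have h1 : ((x : ℝ) - N) / x ≤ 1 / K := by
        rw [div_le_div_iff₀ hxR hKR]
        have hNle : (1 + (k : ℝ) / K) * X ≤ N := Nat.le_ceil _
        have hxlt : (x : ℝ) < (1 + ((k : ℝ) + 1) / K) * X := by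
          have := hx
          rw [hWd, Finset.mem_filter] at this
          exact this.2.2
        have h2 : (x : ℝ) - N ≤ X / K := by
          have : (1 + ((k : ℝ) + 1) / K) * X - (1 + (k : ℝ) / K) * X = X / K := by
            field_simp
            ring
          linarith
        calc ((x : ℝ) - N) * K ≤ X / K * K := by gcongr
          _ = X := by field_simp
          _ ≤ 1 * x := by linarith
      calc c * (((x : ℝ) - N) / x) ≤ c * (1 / K) := by gcongr
        _ = c / K := by ring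
    have hsplit : ∑ x ∈ W k, μ x * avT a t x s f = ∑ x ∈ W k, μ x * V x +
        ∑ x ∈ W k, μ x * (avT a t x s f - V x) := by
      rw [← Finset.sum_add_distrib]
      apply Finset.sum_congr rfl
      intro x _
      ring
    rw [hsplit]
    exact (abs_add_le _ _).trans (add_le_add hmain herr)
  have hM0 : 0 ≤ M := (Finset.sum_nonneg fun x _ => abs_nonneg _).trans hM
  calc |∑ x ∈ Finset.Ico X (2 * X), μ x * avT a t x s f|
      = |∑ k ∈ Finset.range K, ∑ x ∈ W k, μ x * avT a t x s f| := by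
        rw [Wiener_windows hX hK]
    _ ≤ ∑ k ∈ Finset.range K, |∑ x ∈ W k, μ x * avT a t x s f| := Finset.abs_sum_le_sum_abs _ _
    _ ≤ ∑ k ∈ Finset.range K, (ε + c / K * ∑ x ∈ W k, |μ x|) :=
        Finset.sum_le_sum hwin
    _ = K * ε + c / K * ∑ x ∈ Finset.Ico X (2 * X), |μ x| := by
        rw [Wiener_windows hX hK (fun x => |μ x|), Finset.sum_add_distrib, Finset.sum_const,
          Finset.card_range, nsmul_eq_mul, ← Finset.mul_sum]
    _ ≤ K * ε + c / K * M := by gcongr
    _ ≤ (1 + c) * (K * ε + M / K) := by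
        have h1 : 0 ≤ c * (K * ε) := by positivity
        have h2 : 0 ≤ M / K := by positivity
        have h3 : c / K * M = c * (M / K) := by ring
        rw [h3]
        nlinarith

end Pool.MP_67663b_nt.PS
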