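import Pool.Agent.Lib.MP_67663b_nt.PS.StepT
import Pool.Agent.Lib.MP_67663b_nt.PS.WienerT
import Pool.Agent.Lib.MP_67663b_nt.PS.ModelClose
import Pool.Agent.Lib.MP_67663b_nt.PS.ModelSum
import Pool.Agent.Lib.MP_67663b_nt.PS.Grid
import Pool.Agent.Lib.MP_67663b_nt.OddB.FinalB
import Pool.Agent.Lib.MP_67663b_nt.MR.FreeMain

/-!
# The correlation restricted to `s(n) = t`, `t ≠ 0`, vanishes
-/

set_option autoImplicit false
open Filter Topology
namespace Pool.MP_67663b_nt.PS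
open Pool.MP_67663b_nt.Odd Pool.MP_67663b_nt.MR

variable {I : Type} [Fintype I] [DecidableEq I]

/-- `step_T` for all primes of large blocks. -/
theorem step_T' (M : IMean) (α : I → ℝ) (hα : ∀ i, 0 < α i) (a : I → ℤ) (b t : ℤ)
    (hrel : (b : ℝ) = ∑ i, (a i : ℝ) * α i)
    (hind : ∀ c : I → ℤ, ∑ i, (c i : ℝ) * α i = 0 → ∀ i, c i = 0) (l : I) (hl : a l ≠ 0)
    (x : ℕ) :
    ∃ u : ℕ → ℝ, (∀ m, 0 ≤ u m) ∧ Summable u ∧ (0 < x → IsCoprime (a l) (x : ℤ) →
      ∀ m, (a l).natAbs < 2 ^ m →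
        ∑ p ∈ blk m, (gT M α a b t x - (-1) ^ (Fintype.card I + 1) * gT M α a b t (p * x)) ^ 2 ≤
          2 ^ m * u m) := by
  by_cases hx : 0 < x ∧ IsCoprime (a l) (x : ℤ)
  · obtain ⟨u, h0, hs, hu⟩ := step_T M α hα a b t hrel hind l hl hx.1 hx.2
    refine ⟨u, h0, hs, fun _ _ m hm => ?_⟩
    have hall : (blk m).filter (fun p : ℕ => IsCoprime (a l) (p : ℤ)) = blk m := by
      rw [Finset.filter_eq_self]
      intro p hp
      exact coprime_of_mem_blk hl hp hm
    have := hu m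
    rw [hall] at this
    exact this
  · exact ⟨fun _ => 0, fun _ => le_rfl, summable_zero, fun h1 h2 => absurd ⟨h1, h2⟩ hx⟩

theorem gT_one_small (M : IMean) (hM : LogBound M) (α : I → ℝ) (hα : ∀ i, 0 < α i) (a : I → ℤ)
    (b t : ℤ) (ht : t ≠ 0) (hrel : (b : ℝ) = ∑ i, (a i : ℝ) * α i)
    (hind : ∀ c : I → ℤ, ∑ i, (c i : ℝ) * α i = 0 → ∀ i, c i = 0) {l l' : I} (hll : l ≠ l')
    (hl : a l ≠ 0) (hl' : a l' ≠ 0) {ε : ℝ} (hε : 0 < ε) :
    |gT M α a b t 1| ≤ 5 * ε := by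
  set g : ℕ → ℝ := gT M α a b t with hg
  set σ : ℝ := (-1) ^ (Fintype.card I + 1) with hσ
  have hσ2 : σ * σ = 1 := by
    rw [hσ, ← mul_pow]
    simp
  have hσabs : |σ| = 1 := by
    rw [hσ, abs_pow, abs_neg, abs_one, one_pow]
  obtain ⟨Cw, hCw, hWi⟩ := wiener_T a hll hl hl' t
  choose u hu0 hus hu using step_T' M α hα a b t hrel hind l hl
  obtain ⟨cb, hcb, mb, hmb⟩ := card_blk_ge
  obtain ⟨K, hK⟩ := exists_nat_ge (12 * Cw / ε)
  have hKpos : 0 < K := by
    have : (0:ℝ) < K := lt_of_lt_of_le (by positivity) hK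
    exact_mod_cast this
  have hKpos' : (0:ℝ) < K := by exact_mod_cast hKpos
  set εF : ℝ := ε / (2 * Cw * K) with hεF
  have hεFpos : 0 < εF := by positivity
  obtain ⟨W, hW0, m0, hm0⟩ := model_close hεFpos
  obtain ⟨Cm, hCm, hmod⟩ := model_sum a hl ht hW0
  have hq : 0 < t.natAbs * W := Nat.mul_pos (Int.natAbs_pos.mpr ht) hW0
  obtain ⟨X1, hX1⟩ := grid_E (hα l) hq (δ := ε / Cm) (by positivity)
  set A := (a l).natAbs with hA
  -- first scale
  obtain ⟨m, hmN, -, hm⟩ := pick {1} u (fun i _ m => hu0 i m) (fun i _ => hus i) 0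
    (δ := cb * ε ^ 2) (by positivity) (max (max m0 mb) (A + 1))
  have hmm0 : m0 ≤ m := le_trans (le_trans (le_max_left _ _) (le_max_left _ _)) hmN
  have hmmb : mb ≤ m := le_trans (le_trans (le_max_right _ _) (le_max_left _ _)) hmN
  have hmA : A < 2 ^ m := by
    have h1 : A + 1 ≤ m := le_trans (le_max_right _ _) hmN
    have h2 : m < 2 ^ m := Nat.lt_two_pow_self
    omega
  have hm1 := hm 1 (Finset.mem_singleton_self 1) 0 le_rfl
  rw [Nat.sub_zero] at hm1
  have hcardm := hmb m hmmb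
  obtain ⟨X0, hX0, hclose⟩ := hm0 m hmm0
  obtain ⟨Z0, hZ0⟩ := theta_mass hε
  -- second scale
  set T : Finset ℕ := blk m with hT
  set S2 : ℕ := m + 3 with hS2
  obtain ⟨Mx, hMN, hMS, hMx⟩ := pick T u (fun i _ m => hu0 i m) (fun i _ => hus i) S2
    (δ := ε ^ 2 / 12) (by positivity)
    (max (max ⌈X0⌉₊ (max X1 W)) (max (⌈Z0⌉₊ + S2) (A + 1 + S2)))
  set X : ℕ := 2 ^ Mx with hX
  have hXpos : 0 < X := by positivity
  have hXpos' : (0:ℝ) < X := by exact_mod_cast hXpos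
  have hMxX : Mx ≤ X := (Nat.lt_two_pow_self).le
  have hXX0 : X0 ≤ (X:ℝ) := by
    have h1 : ⌈X0⌉₊ ≤ Mx := le_trans (le_trans (le_max_left _ _) (le_max_left _ _)) hMN
    have h2 : ((⌈X0⌉₊ : ℕ) : ℝ) ≤ (X:ℝ) := by exact_mod_cast h1.trans hMxX
    exact (Nat.le_ceil X0).trans h2
  have hXX1 : X1 ≤ X := by
    have h1 : X1 ≤ Mx :=
      le_trans (le_trans (le_max_left _ _) (le_trans (le_max_right _ _) (le_max_left _ _))) hMN
    exact h1.trans hMxX
  have hXW : W ≤ X := by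
    have h1 : W ≤ Mx :=
      le_trans (le_trans (le_max_right _ _) (le_trans (le_max_right _ _) (le_max_left _ _))) hMN
    exact h1.trans hMxX
  have hMZ : ⌈Z0⌉₊ + S2 ≤ Mx := le_trans (le_trans (le_max_left _ _) (le_max_right _ _)) hMN
  have hMA : A + 1 + S2 ≤ Mx := le_trans (le_trans (le_max_right _ _) (le_max_right _ _)) hMN
  -- the averaging estimate
  have key : ∀ x ∈ T, 0 < x → IsCoprime (a l) (x : ℤ) → ∀ Z : ℝ, (2:ℝ) ^ (Mx - S2) ≤ Z →
      Z ≤ 2 ^ (Mx - 1) →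
      (1 / Z) * ∑ p ∈ pr Z (2 * Z), Real.log p * |g x - σ * g (p * x)| ≤ ε ∧
      |(1 / Z) * ∑ p ∈ pr Z (2 * Z), Real.log p - 1| ≤ ε := by
    intro x hxT hx0 hxc Z hZ1 hZ2
    have hZge1 : (1:ℝ) ≤ Z := le_trans (one_le_pow₀ (by norm_num)) hZ1
    obtain ⟨k, hk1, hk2⟩ := exists_nat_pow_near hZge1 (by norm_num : (1:ℝ) < 2)
    have hkl : Mx - S2 ≤ k := by
      by_contra h
      push Not at h
      have : (2:ℝ) ^ (k + 1) ≤ 2 ^ (Mx - S2) := pow_le_pow_right₀ (by norm_num) h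
      linarith
    have hku : k ≤ Mx - 1 := by
      by_contra h
      push Not at h
      have : (2:ℝ) ^ (Mx - 1 + 1) ≤ 2 ^ k := pow_le_pow_right₀ (by norm_num) h
      rw [pow_succ] at this
      have h3 : (0:ℝ) < 2 ^ (Mx - 1) := by positivity
      linarith
    constructor
    · have hk : A < 2 ^ k := by
        have h2 : k < 2 ^ k := Nat.lt_two_pow_self
        omega
      have hk' : A < 2 ^ (k + 1) := by
        have h2 : k + 1 < 2 ^ (k + 1) := Nat.lt_two_pow_self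
        omega
      refine pr_avg hk1 hk2 (fun p => g x - σ * g (p * x)) (hu x hx0 hxc k hk)
        (hu x hx0 hxc (k + 1) hk') hε.le ?_
      have e1 : Mx - (Mx - k) = k := by omega
      have e2 : Mx - (Mx - (k + 1)) = k + 1 := by omega
      have b1 := hMx x hxT (Mx - k) (by omega)
      have b2 := hMx x hxT (Mx - (k + 1)) (by omega)
      rw [e1] at b1
      rw [e2] at b2
      have hkM : (k:ℝ) + 2 ≤ (Mx:ℝ) + 2 := by
        have : k ≤ Mx := by omega
        have : (k:ℝ) ≤ Mx := by exact_mod_cast this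
        linarith
      have c1 : ((k:ℝ) + 2) * u x k ≤ ε ^ 2 / 12 :=
        le_trans (mul_le_mul_of_nonneg_right hkM (hu0 x k)) b1
      have c2 : ((k:ℝ) + 2) * u x (k + 1) ≤ ε ^ 2 / 12 :=
        le_trans (mul_le_mul_of_nonneg_right hkM (hu0 x (k + 1))) b2
      nlinarith
    · refine hZ0 Z ?_
      have h1 : ((⌈Z0⌉₊ : ℕ) : ℝ) ≤ 2 ^ (Mx - S2) := by
        have h2 : ⌈Z0⌉₊ ≤ Mx - S2 := by omega
        have h3 : ⌈Z0⌉₊ ≤ 2 ^ (Mx - S2) := h2.trans (Nat.lt_two_pow_self).le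
        exact_mod_cast h3
      exact (Nat.le_ceil Z0).trans (h1.trans hZ1)
  -- facts about blocks
  have hblk : ∀ {mm q : ℕ}, q ∈ blk mm → A < 2 ^ mm → 0 < q ∧ IsCoprime (a l) (q : ℤ) ∧
      (2:ℝ) ≤ q ∧ (q:ℝ) ≤ 2 ^ (mm + 1) := by
    intro mm q hq hA'
    have hc := coprime_of_mem_blk hl hq hA'
    rw [mem_blk] at hq
    refine ⟨hq.1.pos, hc, by exact_mod_cast hq.1.two_le, ?_⟩
    have : (q:ℝ) ≤ ((2 ^ (mm + 1) : ℕ) : ℝ) := by exact_mod_cast hq.2.2.le
    simpa using this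
  have hnem : (blk m).Nonempty := by
    rw [← Finset.card_pos]
    by_contra h
    have h0 : (blk m).card = 0 := by omega
    rw [h0] at hcardm
    have : 0 < cb * 2 ^ m := by positivity
    simp at hcardm
    linarith
  have hNm : (0:ℝ) < ((blk m).card : ℝ) := by exact_mod_cast hnem.card_pos
  have hgle : ∀ x : ℕ, 0 < x → IsCoprime (a l) (x : ℤ) → |g x| ≤ 1 :=
    fun x h1 h2 => abs_gT_le_one M α b t h1 h2
  -- Z bounds
  have hpow : (X:ℝ) = 2 ^ Mx := by simp [hX]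
  have hZ1 : ∀ q : ℕ, (2:ℝ) ≤ q → (q:ℝ) ≤ 2 ^ S2 → (2:ℝ) ^ (Mx - S2) ≤ (X:ℝ) / q ∧
      (X:ℝ) / q ≤ 2 ^ (Mx - 1) := by
    intro q hq1 hq2
    have hq0 : (0:ℝ) < q := by linarith
    constructor
    · rw [le_div_iff₀ hq0, hpow]
      calc (2:ℝ) ^ (Mx - S2) * q ≤ 2 ^ (Mx - S2) * 2 ^ S2 := by gcongr
        _ = 2 ^ Mx := by rw [← pow_add]; congr 1; omega
    · rw [div_le_iff₀ hq0, hpow]
      calc (2:ℝ) ^ Mx = 2 ^ (Mx - 1) * 2 := by rw [← pow_succ]; congr 1; omega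
        _ ≤ 2 ^ (Mx - 1) * q := by gcongr
  -- L2
  have hL2 : |L2 m (X:ℝ) g + (1 / ((blk m).card : ℝ)) * ∑ q ∈ blk m, -(σ * g q)| ≤ 2 * ε := by
    have hall : ∀ q ∈ blk m, (1 / ((X:ℝ) / q)) * ∑ p ∈ pr ((X:ℝ) / q) (2 * ((X:ℝ) / q)),
        Real.log p * |-(σ * g q) + g (p * q)| ≤ ε ∧
        |(1 / ((X:ℝ) / q)) * ∑ p ∈ pr ((X:ℝ) / q) (2 * ((X:ℝ) / q)), Real.log p - 1| ≤ ε := by
      intro q hq
      obtain ⟨h1, h2, h3, h4⟩ := hblk hq hmA
      have h5 : (q:ℝ) ≤ 2 ^ S2 := h4.trans (pow_le_pow_right₀ (by norm_num) (by omega))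
      obtain ⟨h6, h7⟩ := hZ1 q h3 h5
      have hk := key q hq h1 h2 _ h6 h7
      refine ⟨?_, hk.2⟩
      have e : ∀ p : ℕ, |-(σ * g q) + g (p * q)| = |g q - σ * g (p * q)| := by
        intro p
        have e2 : -(σ * g q) + g (p * q) = -σ * (g q - σ * g (p * q)) := by
          linear_combination (-g (p * q)) * hσ2
        rw [e2, abs_mul, abs_neg, hσabs, one_mul]
      simp only [e]
      exact hk.1
    exact L2_close m hXpos' hnem g (fun q => -(σ * g q)) (fun q hq => (hall q hq).1)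
      (fun q hq => (hall q hq).2)
      (fun q hq => by
        rw [abs_neg, abs_mul, hσabs, one_mul]
        exact hgle q (hblk hq hmA).1 (hblk hq hmA).2.1)
  have hE1 : |g 1 - (1 / ((blk m).card : ℝ)) * ∑ q ∈ blk m, σ * g q| ≤ ε := by
    have h1 := block_avg hcb hcardm (fun p => g 1 - σ * g (p * 1))
      (hu 1 one_pos (by simpa using isCoprime_one_right) m hmA) (δ := ε)
      (by
        have : (m:ℝ) * u 1 m ≤ ((m:ℝ) + 2) * u 1 m :=
          mul_le_mul_of_nonneg_right (by linarith) (hu0 1 m)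
        linarith) hε.le
    refine le_trans ?_ h1
    have e : g 1 - (1 / ((blk m).card : ℝ)) * ∑ q ∈ blk m, σ * g q =
        (1 / ((blk m).card : ℝ)) * ∑ q ∈ blk m, (g 1 - σ * g (q * 1)) := by
      rw [Finset.sum_sub_distrib, Finset.sum_const, nsmul_eq_mul, mul_sub]
      simp only [mul_one]
      field_simp
    rw [e, abs_mul, abs_of_pos (by positivity : (0:ℝ) < 1 / ((blk m).card : ℝ))]
    exact mul_le_mul_of_nonneg_left (Finset.abs_sum_le_sum_abs _ _) (by positivity)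
  rw [Finset.sum_neg_distrib, mul_neg, ← sub_eq_add_neg] at hL2
  -- comparison with the model by the Wiener lemma
  set μ : ℕ → ℝ := fun x => L2 m (X:ℝ) (fun y => if y = x then (1:ℝ) else 0) - nu W X x with hμ
  have hexp : L2 m (X:ℝ) g - ∑ x ∈ Finset.Ico X (2 * X), nu W X x * g x =
      ∑ x ∈ Finset.Ico X (2 * X), μ x * g x := by
    rw [L2_expand m hXpos g, ← Finset.sum_sub_distrib]
    refine Finset.sum_congr rfl fun x _ => ?_
    simp only [smul_eq_mul, hμ]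
    ring
  have hmass : ∑ x ∈ Finset.Ico X (2 * X), |μ x| ≤ 6 := by
    have h2 := L2_expand m hXpos (fun _ => (1:ℝ))
    simp only [smul_eq_mul, mul_one] at h2
    have h4 := L2_one_le m hXpos'
    have h5 := nu_mass hW0 hXW
    have hnn : ∀ x : ℕ, ∀ y : ℕ, (0:ℝ) ≤ (if y = x then (1:ℝ) else 0) := by
      intro x y
      split_ifs <;> norm_num
    calc ∑ x ∈ Finset.Ico X (2 * X), |μ x|
        ≤ ∑ x ∈ Finset.Ico X (2 * X), (L2 m (X:ℝ) (fun y => if y = x then (1:ℝ) else 0) +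
            nu W X x) := by
          refine Finset.sum_le_sum fun x _ => ?_
          refine (abs_sub _ _).trans (le_of_eq ?_)
          rw [abs_of_nonneg (L2_nonneg m hXpos' (hnn x)), abs_of_nonneg (nu_nonneg W X x)]
      _ ≤ 6 := by
          rw [Finset.sum_add_distrib, ← h2]
          linarith
  have hfour : ∀ u v : ℝ, 1 ≤ u → u ≤ v → v ≤ 2 → ∀ φ : ℝ,
      ‖∑ x ∈ (Finset.Ico X (2 * X)).filter (fun x : ℕ => u * X ≤ (x : ℝ) ∧ (x : ℝ) < v * X),
        (μ x : ℂ) * ee (x * φ)‖ ≤ εF := by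
    intro u v hu1 huv hv2 φ
    have h1 := hclose X hXX0 u v hu1 huv hv2 φ
    unfold NS at h1
    rw [BB_eq_L2 m hXpos' hu1 hv2, L2_expand m hXpos] at h1
    refine le_trans (le_of_eq ?_) h1
    congr 1
    rw [Finset.sum_filter, Finset.sum_filter, ← Finset.sum_sub_distrib]
    refine Finset.sum_congr rfl fun x _ => ?_
    simp only [Complex.real_smul, hμ]
    split_ifs
    · push_cast
      ring
    · simp
  have hcomp : |∑ x ∈ Finset.Ico X (2 * X), μ x * g x| ≤ ε := by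
    have e1 : ∑ x ∈ Finset.Ico X (2 * X), μ x * g x =
        M.E (fun n => ∑ x ∈ Finset.Ico X (2 * X), μ x * (lam n *
          avT a t x (sB α a b n) (fun i r => lam (bt (α i) n - r)))) := by
      rw [M.E_sum _ fun x _ => (bdd_gT α a b t x).smul (μ x)]
      refine Finset.sum_congr rfl fun x _ => ?_
      rw [M.smul _ _ (bdd_gT α a b t x)]
      rfl
    rw [e1]
    refine M.abs_E_le (Bdd.sum _ fun x _ => (bdd_gT α a b t x).smul (μ x))
      (Eventually.of_forall fun n => ?_)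
    have e2 : ∑ x ∈ Finset.Ico X (2 * X), μ x * (lam n *
          avT a t x (sB α a b n) (fun i r => lam (bt (α i) n - r))) =
        lam n * ∑ x ∈ Finset.Ico X (2 * X), μ x *
          avT a t x (sB α a b n) (fun i r => lam (bt (α i) n - r)) := by
      rw [Finset.mul_sum]
      refine Finset.sum_congr rfl fun x _ => ?_
      ring
    rw [e2, abs_mul, abs_lam, one_mul]
    refine (hWi X hXpos K hKpos μ εF 6 hεFpos.le hmass hfour
      (fun i r => lam (bt (α i) n - r)) (fun i r => (abs_lam _).le) _).trans ?_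
    have h1 : Cw * (K * εF) = ε / 2 := by
      rw [hεF]
      field_simp
    have h2 : Cw * (6 / K) ≤ ε / 2 := by
      rw [div_le_iff₀ hε] at hK
      rw [mul_div_assoc', div_le_iff₀ hKpos']
      nlinarith
    calc Cw * (K * εF + 6 / K) = Cw * (K * εF) + Cw * (6 / K) := by ring
      _ ≤ ε / 2 + ε / 2 := by linarith
      _ = ε := by ring
  -- evaluation of the model
  have hmodel : |∑ x ∈ Finset.Ico X (2 * X), nu W X x * g x| ≤ ε := by
    obtain ⟨D, hDb, hDE, hD⟩ := hX1 X hXX1 M hM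
    have e1 : ∑ x ∈ Finset.Ico X (2 * X), nu W X x * g x =
        M.E (fun n => ∑ x ∈ Finset.Ico X (2 * X), nu W X x * (lam n *
          avT a t x (sB α a b n) (fun i r => lam (bt (α i) n - r)))) := by
      rw [M.E_sum _ fun x _ => (bdd_gT α a b t x).smul (nu W X x)]
      refine Finset.sum_congr rfl fun x _ => ?_
      rw [M.smul _ _ (bdd_gT α a b t x)]
      rfl
    rw [e1]
    have h1 : |M.E (fun n => ∑ x ∈ Finset.Ico X (2 * X), nu W X x * (lam n *
          avT a t x (sB α a b n) (fun i r => lam (bt (α i) n - r))))| ≤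
        M.E (fun n => (Cm / X) * D n) := by
      refine abs_E_le_E M (Bdd.sum _ fun x _ => (bdd_gT α a b t x).smul (nu W X x))
        (hDb.smul _) fun n => ?_
      have e2 : ∑ x ∈ Finset.Ico X (2 * X), nu W X x * (lam n *
            avT a t x (sB α a b n) (fun i r => lam (bt (α i) n - r))) =
          lam n * ∑ x ∈ Finset.Ico X (2 * X), nu W X x *
            avT a t x (sB α a b n) (fun i r => lam (bt (α i) n - r)) := by
        rw [Finset.mul_sum]
        refine Finset.sum_congr rfl fun x _ => ?_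
        ring
      rw [e2, abs_mul, abs_lam, one_mul]
      have hDn : 0 ≤ D n := (abs_nonneg _).trans (hD n 0 0 0 le_rfl (Nat.zero_le _))
      refine (hmod X hXpos (sB α a b n) (fun i r => lam (bt (α i) n - r)) (D n) hDn
        (fun i r => (abs_lam _).le) (hD n)).trans (le_of_eq ?_)
      ring
    refine h1.trans ?_
    rw [M.smul _ _ hDb]
    calc Cm / X * M.E D ≤ Cm / X * (ε / Cm * X) := by gcongr
      _ = ε := by field_simp
  rw [← hexp] at hcomp
  rw [abs_le] at hcomp hE1 hL2 hmodel ⊢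
  constructor <;> linarith [hcomp.1, hcomp.2, hE1.1, hE1.2, hL2.1, hL2.2, hmodel.1, hmodel.2]

theorem gT_one_eq_zero (M : IMean) (hM : LogBound M) (α : I → ℝ) (hα : ∀ i, 0 < α i) (a : I → ℤ)
    (b t : ℤ) (ht : t ≠ 0) (hrel : (b : ℝ) = ∑ i, (a i : ℝ) * α i)
    (hind : ∀ c : I → ℤ, ∑ i, (c i : ℝ) * α i = 0 → ∀ i, c i = 0) {l l' : I} (hll : l ≠ l')
    (hl : a l ≠ 0) (hl' : a l' ≠ 0) : gT M α a b t 1 = 0 := by
  by_contra hne
  have hpos : 0 < |gT M α a b t 1| := abs_pos.mpr hne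
  have := gT_one_small M hM α hα a b t ht hrel hind hll hl hl'
    (ε := |gT M α a b t 1| / 10) (by positivity)
  linarith

end Pool.MP_67663b_nt.PS
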