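import Pool.Agent.Lib.MP_67663b_nt.PS.UDefs
import Pool.Agent.Lib.MP_67663b_nt.MR.SmoothSum
import Pool.Agent.Lib.MP_67663b_nt.MR.SieveW

set_option autoImplicit false
open Filter Topology MeasureTheory
namespace Pool.MP_67663b_nt.PS
open Pool.MP_67663b_nt.Odd Pool.MP_67663b_nt.MR

variable {u : ℕ → ℂ}

/-- sums of `1/(1+(t-t')^2)` over well spaced points are bounded -/
private theorem prlsu_spaced : ∃ C : ℝ, 0 < C ∧ ∀ (S : Finset ℝ) (t : ℝ), Spaced S →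
    ∑ t' ∈ S, 1 / (1 + (t - t') ^ 2) ≤ C := by
  classical
  have hs1 : Summable (fun m : ℤ => 1 / (m : ℝ) ^ 2) :=
    Real.summable_one_div_int_pow.2 (by norm_num)
  have hs2 : Summable (fun m : ℤ => if m = 0 then (1 : ℝ) else 0) :=
    summable_of_hasFiniteSupport (Set.Finite.subset (Set.finite_singleton (0 : ℤ)) (by
      intro m hm
      simp only [Function.mem_support, ne_eq, ite_eq_right_iff, one_ne_zero, imp_false,
        not_not] at hm
      exact hm))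
  have hs3 : Summable (fun m : ℤ => 3 * (1 / (1 + (m : ℝ) ^ 2))) := by
    refine Summable.mul_left 3 (Summable.of_nonneg_of_le (fun m => by positivity) (fun m => ?_)
      (hs1.add hs2))
    by_cases hm : m = 0
    · subst hm; simp
    · have h1 : (0 : ℝ) < (m : ℝ) ^ 2 := by
        have : (m : ℝ) ≠ 0 := by exact_mod_cast hm
        positivity
      simp only [hm, if_false, add_zero]
      exact one_div_le_one_div_of_le h1 (by linarith)
  refine ⟨∑' m : ℤ, 3 * (1 / (1 + (m : ℝ) ^ 2)) + 1, ?_, ?_⟩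
  · have : 0 ≤ ∑' m : ℤ, 3 * (1 / (1 + (m : ℝ) ^ 2)) := tsum_nonneg fun m => by positivity
    linarith
  · intro S t hS
    have hinj : Set.InjOn (fun x : ℝ => ⌊x - t⌋) (S : Set ℝ) := by
      intro x hx y hy hxy
      by_contra hne
      have h1 := hS x hx y hy hne
      simp only at hxy
      have h2 := Int.floor_le (x - t)
      have h3 := Int.lt_floor_add_one (x - t)
      have h4 := Int.floor_le (y - t)
      have h5 := Int.lt_floor_add_one (y - t)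
      rw [hxy] at h2 h3
      have h6 : |x - y| < 1 := by
        rw [abs_lt]; constructor <;> linarith
      linarith
    have hle : ∑ t' ∈ S, 1 / (1 + (t - t') ^ 2) ≤
        ∑ t' ∈ S, 3 * (1 / (1 + ((⌊t' - t⌋ : ℤ) : ℝ) ^ 2)) := by
      refine Finset.sum_le_sum fun x _ => ?_
      set m : ℝ := ((⌊x - t⌋ : ℤ) : ℝ) with hm
      have h2 : m ≤ x - t := Int.floor_le (x - t)
      have h3 : x - t < m + 1 := Int.lt_floor_add_one (x - t)
      rw [mul_one_div, div_le_div_iff₀ (by positivity) (by positivity)]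
      have : 1 + m ^ 2 ≤ 3 * (1 + (x - t) ^ 2) := by
        nlinarith [sq_nonneg (x - t - 1 / 2), sq_nonneg (x - t), sq_nonneg (m - 3/2),
          sq_nonneg (x - t + 1)]
      nlinarith [this]
    have h2 : ∑ t' ∈ S, 3 * (1 / (1 + ((⌊t' - t⌋ : ℤ) : ℝ) ^ 2)) =
        ∑ m ∈ S.image (fun x : ℝ => ⌊x - t⌋), 3 * (1 / (1 + (m : ℝ) ^ 2)) :=
      (Finset.sum_image (f := fun m : ℤ => 3 * (1 / (1 + (m : ℝ) ^ 2))) hinj).symm
    have h3 := hs3.sum_le_tsum (S.image (fun x : ℝ => ⌊x - t⌋)) (fun m _ => by positivity)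
    linarith

/-- duality -/
private theorem prlsu_dual (hu : ∀ n, ‖u n‖ ≤ 1) (S : Finset ℝ) (s : Finset ℕ) (M : ℕ) (w : ℕ → ℝ)
    (hs : s ⊆ Finset.Icc 1 M) (hw0 : ∀ n, 0 ≤ w n) (hw1 : ∀ n ∈ s, 1 ≤ w n) (B : ℝ) (hB0 : 0 ≤ B)
    (hB : ∀ t ∈ S, ∑ t' ∈ S, ‖∑ n ∈ Finset.Icc 1 M, (w n : ℂ) * ep (t - t') n‖ ≤ B) :
    ∑ t ∈ S, ‖dp s u t‖ ^ 2 ≤ (s.card : ℝ) * B := by
  set Q : ℝ → ℂ := fun t => dp s u t with hQ
  set b : ℝ → ℂ := fun t => (starRingEnd ℂ) (Q t) with hb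
  set F : ℕ → ℂ := fun n => ∑ t ∈ S, b t * ep t n with hF
  set W : ℝ → ℂ := fun τ => ∑ n ∈ Finset.Icc 1 M, (w n : ℂ) * ep τ n with hW
  set Z : ℝ := ∑ t ∈ S, ‖Q t‖ ^ 2 with hZ
  have hZ0 : 0 ≤ Z := Finset.sum_nonneg fun t _ => by positivity
  have hbn : ∀ t, ‖b t‖ = ‖Q t‖ := fun t => by simp [hb]
  -- Z as a sum of F
  have h1 : (Z : ℂ) = ∑ p ∈ s, u p * F p := by
    simp only [hF, Finset.mul_sum]
    rw [Finset.sum_comm, hZ]
    push_cast
    refine Finset.sum_congr rfl fun t _ => ?_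
    have h2 : Q t = ∑ p ∈ s, u p * ep t p := by
      simp only [hQ, dp]
    have h3 : ∑ p ∈ s, u p * (b t * ep t p) = b t * ∑ p ∈ s, u p * ep t p := by
      rw [Finset.mul_sum]
      exact Finset.sum_congr rfl fun p _ => by ring
    rw [h3, ← h2, hb]
    simp only
    rw [← Complex.normSq_eq_conj_mul_self, Complex.normSq_eq_norm_sq]
    push_cast
    rfl
  have h2 : Z ≤ ∑ p ∈ s, ‖F p‖ := by
    have h3 : ‖(Z : ℂ)‖ = Z := by
      rw [Complex.norm_real, Real.norm_of_nonneg hZ0]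
    rw [← h3, h1]
    refine (norm_sum_le _ _).trans (Finset.sum_le_sum fun p _ => ?_)
    rw [norm_mul]
    have := hu p
    nlinarith [norm_nonneg (F p)]
  have h3 : Z ^ 2 ≤ (s.card : ℝ) * ∑ p ∈ s, ‖F p‖ ^ 2 := by
    refine (pow_le_pow_left₀ hZ0 h2 2).trans ?_
    exact sq_sum_le_card_mul_sum_sq
  have h4 : ∑ p ∈ s, ‖F p‖ ^ 2 ≤ ∑ n ∈ Finset.Icc 1 M, w n * ‖F n‖ ^ 2 := by
    calc ∑ p ∈ s, ‖F p‖ ^ 2 ≤ ∑ p ∈ s, w p * ‖F p‖ ^ 2 := by
          refine Finset.sum_le_sum fun p hp => ?_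
          have := hw1 p hp
          nlinarith [sq_nonneg ‖F p‖]
      _ ≤ ∑ n ∈ Finset.Icc 1 M, w n * ‖F n‖ ^ 2 :=
          Finset.sum_le_sum_of_subset_of_nonneg hs fun n _ _ => by
            have := hw0 n
            positivity
  have hWsymm : ∀ τ, ‖W (-τ)‖ = ‖W τ‖ := by
    intro τ
    have : W (-τ) = (starRingEnd ℂ) (W τ) := by
      simp only [hW]
      rw [map_sum]
      refine Finset.sum_congr rfl fun n _ => ?_
      rw [map_mul, Complex.conj_ofReal, ep_neg]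
    rw [this, RCLike.norm_conj]
  have h5 : ∑ n ∈ Finset.Icc 1 M, w n * ‖F n‖ ^ 2 ≤ Z * B := by
    have h6 : ((∑ n ∈ Finset.Icc 1 M, w n * ‖F n‖ ^ 2 : ℝ) : ℂ) =
        ∑ t ∈ S, ∑ t' ∈ S, b t * (starRingEnd ℂ) (b t') * W (t - t') := by
      have e1 : ∀ n, ((w n * ‖F n‖ ^ 2 : ℝ) : ℂ) =
          ∑ t ∈ S, ∑ t' ∈ S, b t * (starRingEnd ℂ) (b t') * ((w n : ℂ) * ep (t - t') n) := by
        intro n
        have e2 : ((‖F n‖ ^ 2 : ℝ) : ℂ) = F n * (starRingEnd ℂ) (F n) := by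
          rw [Complex.mul_conj, Complex.normSq_eq_norm_sq]
        rw [Complex.ofReal_mul, e2, hF]
        simp only
        rw [map_sum, Finset.sum_mul_sum, Finset.mul_sum]
        refine Finset.sum_congr rfl fun t _ => ?_
        rw [Finset.mul_sum]
        refine Finset.sum_congr rfl fun t' _ => ?_
        rw [map_mul, ep_sub]
        ring
      rw [Complex.ofReal_sum]
      rw [Finset.sum_congr rfl fun n _ => e1 n]
      rw [Finset.sum_comm]
      refine Finset.sum_congr rfl fun t _ => ?_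
      rw [Finset.sum_comm]
      refine Finset.sum_congr rfl fun t' _ => ?_
      rw [hW, Finset.mul_sum]
    have h7 : 0 ≤ ∑ n ∈ Finset.Icc 1 M, w n * ‖F n‖ ^ 2 :=
      Finset.sum_nonneg fun n _ => by
        have := hw0 n
        positivity
    have h8 : ∑ n ∈ Finset.Icc 1 M, w n * ‖F n‖ ^ 2 =
        ‖∑ t ∈ S, ∑ t' ∈ S, b t * (starRingEnd ℂ) (b t') * W (t - t')‖ := by
      rw [← h6, Complex.norm_real, Real.norm_of_nonneg h7]
    rw [h8]
    have h9 : ‖∑ t ∈ S, ∑ t' ∈ S, b t * (starRingEnd ℂ) (b t') * W (t - t')‖ ≤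
        ∑ t ∈ S, ∑ t' ∈ S, (‖Q t‖ ^ 2 + ‖Q t'‖ ^ 2) / 2 * ‖W (t - t')‖ := by
      refine (norm_sum_le _ _).trans (Finset.sum_le_sum fun t _ => ?_)
      refine (norm_sum_le _ _).trans (Finset.sum_le_sum fun t' _ => ?_)
      have e0 : ‖(starRingEnd ℂ) (b t')‖ = ‖Q t'‖ := by
        rw [RCLike.norm_conj]; exact hbn t'
      rw [norm_mul, norm_mul, e0, hbn]
      refine mul_le_mul_of_nonneg_right ?_ (norm_nonneg _)
      nlinarith [sq_nonneg (‖Q t‖ - ‖Q t'‖)]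
    refine h9.trans ?_
    have h10 : ∑ t ∈ S, ∑ t' ∈ S, (‖Q t‖ ^ 2 + ‖Q t'‖ ^ 2) / 2 * ‖W (t - t')‖ =
        ∑ t ∈ S, ‖Q t‖ ^ 2 * ∑ t' ∈ S, ‖W (t - t')‖ := by
      have e1 : ∑ t ∈ S, ∑ t' ∈ S, (‖Q t'‖ ^ 2) * ‖W (t - t')‖ =
          ∑ t ∈ S, ∑ t' ∈ S, (‖Q t‖ ^ 2) * ‖W (t - t')‖ := by
        rw [Finset.sum_comm]
        refine Finset.sum_congr rfl fun t _ => Finset.sum_congr rfl fun t' _ => ?_
        rw [← hWsymm (t - t'), neg_sub]
      have e2 : ∑ t ∈ S, ∑ t' ∈ S, (‖Q t‖ ^ 2 + ‖Q t'‖ ^ 2) / 2 * ‖W (t - t')‖ =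
          (∑ t ∈ S, ∑ t' ∈ S, (‖Q t‖ ^ 2) * ‖W (t - t')‖ +
            ∑ t ∈ S, ∑ t' ∈ S, (‖Q t'‖ ^ 2) * ‖W (t - t')‖) / 2 := by
        rw [← Finset.sum_add_distrib, Finset.sum_div]
        refine Finset.sum_congr rfl fun t _ => ?_
        rw [← Finset.sum_add_distrib, Finset.sum_div]
        refine Finset.sum_congr rfl fun t' _ => ?_
        ring
      rw [e2, e1]
      have e3 : ∀ t, ‖Q t‖ ^ 2 * ∑ t' ∈ S, ‖W (t - t')‖ = ∑ t' ∈ S, ‖Q t‖ ^ 2 * ‖W (t - t')‖ :=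
        fun t => Finset.mul_sum _ _ _
      simp only [e3]
      ring
    rw [h10, hZ, Finset.sum_mul]
    refine Finset.sum_le_sum fun t ht => ?_
    exact mul_le_mul_of_nonneg_left (hB t ht) (by positivity)
  have h11 : Z ^ 2 ≤ (s.card : ℝ) * (Z * B) :=
    h3.trans (mul_le_mul_of_nonneg_left (h4.trans h5) (Nat.cast_nonneg _))
  rcases hZ0.eq_or_lt with h0 | h0
  · rw [← h0]; positivity
  · have : Z * Z ≤ ((s.card : ℝ) * B) * Z := by nlinarith [h11]
    exact le_of_mul_le_mul_right this h0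

/-- the sieve weight -/
private noncomputable def prlsu_nu (D : ℕ) (ρ : ℕ → ℝ) (n : ℕ) : ℝ :=
  (∑ d ∈ (Finset.Icc 1 D).filter (fun d => d ∣ n), ρ d) ^ 2

private theorem prlsu_nu_expand (D : ℕ) (ρ : ℕ → ℝ) (n : ℕ) :
    prlsu_nu D ρ n = ∑ d ∈ Finset.Icc 1 D, ∑ e ∈ Finset.Icc 1 D,
      (if Nat.lcm d e ∣ n then ρ d * ρ e else 0) := by
  unfold prlsu_nu
  rw [Finset.sum_filter, sq, Finset.sum_mul_sum]
  refine Finset.sum_congr rfl fun d _ => Finset.sum_congr rfl fun e _ => ?_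
  have : Nat.lcm d e ∣ n ↔ d ∣ n ∧ e ∣ n := Nat.lcm_dvd_iff
  by_cases h1 : d ∣ n <;> by_cases h2 : e ∣ n <;> simp [this, h1, h2]

private theorem prlsu_nu_nonneg (D : ℕ) (ρ : ℕ → ℝ) (n : ℕ) : 0 ≤ prlsu_nu D ρ n := sq_nonneg _

private theorem prlsu_nu_prime (D : ℕ) (hD : 1 ≤ D) (ρ : ℕ → ℝ) (h1 : ρ 1 = 1) {p : ℕ} (hp : p.Prime)
    (hpD : D < p) : prlsu_nu D ρ p = 1 := by
  unfold prlsu_nu
  have : (Finset.Icc 1 D).filter (fun d => d ∣ p) = {1} := by
    ext d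
    simp only [Finset.mem_filter, Finset.mem_Icc, Finset.mem_singleton]
    constructor
    · rintro ⟨⟨h2, h3⟩, h4⟩
      rcases (Nat.dvd_prime hp).1 h4 with h5 | h5
      · exact h5
      · omega
    · rintro rfl
      exact ⟨⟨le_rfl, hD⟩, one_dvd _⟩
  rw [this, Finset.sum_singleton, h1, one_pow]

/-- the quadratic form is nonnegative -/
private theorem prlsu_form_nonneg (D : ℕ) (ρ : ℕ → ℝ) :
    0 ≤ ∑ d ∈ Finset.Icc 1 D, ∑ e ∈ Finset.Icc 1 D, ρ d * ρ e / (Nat.lcm d e : ℝ) := by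
  have hL : (0 : ℝ) < (D.factorial : ℝ) := by exact_mod_cast D.factorial_pos
  have h1 : (∑ d ∈ Finset.Icc 1 D, ∑ e ∈ Finset.Icc 1 D, ρ d * ρ e / (Nat.lcm d e : ℝ)) *
      (D.factorial : ℝ) = ∑ n ∈ Finset.Ioc 0 D.factorial, prlsu_nu D ρ n := by
    simp only [prlsu_nu_expand]
    have e0 : ∑ n ∈ Finset.Ioc 0 D.factorial, ∑ d ∈ Finset.Icc 1 D, ∑ e ∈ Finset.Icc 1 D,
        (if Nat.lcm d e ∣ n then ρ d * ρ e else 0) =
        ∑ d ∈ Finset.Icc 1 D, ∑ e ∈ Finset.Icc 1 D, ∑ n ∈ Finset.Ioc 0 D.factorial,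
        (if Nat.lcm d e ∣ n then ρ d * ρ e else 0) := by
      rw [Finset.sum_comm]
      refine Finset.sum_congr rfl fun d _ => ?_
      rw [Finset.sum_comm]
    rw [e0, Finset.sum_mul]
    refine Finset.sum_congr rfl fun d hd => ?_
    rw [Finset.sum_mul]
    refine Finset.sum_congr rfl fun e he => ?_
    rw [← Finset.sum_filter, Finset.sum_const, Nat.Ioc_filter_dvd_card_eq_div]
    rw [Finset.mem_Icc] at hd he
    have hdv : Nat.lcm d e ∣ D.factorial :=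
      Nat.lcm_dvd (Nat.dvd_factorial (by omega) hd.2) (Nat.dvd_factorial (by omega) he.2)
    have hpos : 0 < Nat.lcm d e := Nat.lcm_pos (by omega) (by omega)
    rw [nsmul_eq_mul, Nat.cast_div hdv (by positivity)]
    field_simp
  have h2 : 0 ≤ ∑ n ∈ Finset.Ioc 0 D.factorial, prlsu_nu D ρ n :=
    Finset.sum_nonneg fun n _ => prlsu_nu_nonneg _ _ _
  rw [← h1] at h2
  exact nonneg_of_mul_nonneg_left h2 hL

/-- expansion of the weighted exponential sum -/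
private theorem prlsu_expand (D : ℕ) (ρ : ℕ → ℝ) (M : ℕ) (u : ℕ → ℂ) :
    ∑ n ∈ Finset.Icc 1 M, (prlsu_nu D ρ n : ℂ) * u n =
      ∑ d ∈ Finset.Icc 1 D, ∑ e ∈ Finset.Icc 1 D, ((ρ d * ρ e : ℝ) : ℂ) *
        ∑ n ∈ (Finset.Icc 1 M).filter (fun n => Nat.lcm d e ∣ n), u n := by
  simp only [prlsu_nu_expand, Complex.ofReal_sum, Finset.sum_mul]
  rw [Finset.sum_comm]
  refine Finset.sum_congr rfl fun d _ => ?_
  rw [Finset.sum_comm]
  refine Finset.sum_congr rfl fun e _ => ?_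
  rw [Finset.mul_sum, Finset.sum_filter]
  refine Finset.sum_congr rfl fun n _ => ?_
  by_cases h : Nat.lcm d e ∣ n <;> simp [h]

/-- bound for the weighted sums, small `τ` -/
private theorem prlsu_small {Cw Ct Cs : ℝ} (hCs : 0 < Cs)
    (hw : ∀ M τ : ℝ, 0 < M → ‖Wi M τ‖ ≤ Cw * M / (1 + τ ^ 2))
    (ht : ∀ (M τ : ℝ) (e : ℕ), 1 ≤ M → 1 ≤ e →
      ‖∑ n ∈ (Finset.Icc 1 ⌊8 * M⌋₊).filter (fun n => e ∣ n), (trap M n : ℂ) * ep τ n -
        (1 / (e : ℂ)) * Wi M τ‖ ≤ Ct * (1 + |τ|))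
    (D : ℕ) (ρ : ℕ → ℝ) (hρ : ∀ d, |ρ d| ≤ 1)
    (hform : ∑ d ∈ Finset.Icc 1 D, ∑ e ∈ Finset.Icc 1 D, ρ d * ρ e / (Nat.lcm d e : ℝ) ≤
      Cs / Real.log D) (P τ : ℝ) (hP : 1 ≤ P) :
    ‖∑ n ∈ Finset.Icc 1 ⌊8 * P⌋₊, ((trap P n * prlsu_nu D ρ n : ℝ) : ℂ) * ep τ n‖ ≤
      (Cs / Real.log D) * (Cw * P / (1 + τ ^ 2)) + (D : ℝ) ^ 2 * (Ct * (1 + |τ|)) := by
  have h0 : ∑ n ∈ Finset.Icc 1 ⌊8 * P⌋₊, ((trap P n * prlsu_nu D ρ n : ℝ) : ℂ) * ep τ n =
      ∑ n ∈ Finset.Icc 1 ⌊8 * P⌋₊, (prlsu_nu D ρ n : ℂ) * ((trap P n : ℂ) * ep τ n) := by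
    refine Finset.sum_congr rfl fun n _ => ?_
    push_cast
    ring
  rw [h0, prlsu_expand]
  set SF : ℝ := ∑ d ∈ Finset.Icc 1 D, ∑ e ∈ Finset.Icc 1 D, ρ d * ρ e / (Nat.lcm d e : ℝ) with hSF
  have hSF0 : 0 ≤ SF := prlsu_form_nonneg D ρ
  have h1 : ∑ d ∈ Finset.Icc 1 D, ∑ e ∈ Finset.Icc 1 D, ((ρ d * ρ e : ℝ) : ℂ) *
        ∑ n ∈ (Finset.Icc 1 ⌊8 * P⌋₊).filter (fun n => Nat.lcm d e ∣ n), (trap P n : ℂ) * ep τ n =
      (SF : ℂ) * Wi P τ + ∑ d ∈ Finset.Icc 1 D, ∑ e ∈ Finset.Icc 1 D, ((ρ d * ρ e : ℝ) : ℂ) *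
        (∑ n ∈ (Finset.Icc 1 ⌊8 * P⌋₊).filter (fun n => Nat.lcm d e ∣ n), (trap P n : ℂ) * ep τ n -
          (1 / ((Nat.lcm d e : ℕ) : ℂ)) * Wi P τ) := by
    rw [hSF, Complex.ofReal_sum, Finset.sum_mul, ← Finset.sum_add_distrib]
    refine Finset.sum_congr rfl fun d _ => ?_
    rw [Complex.ofReal_sum, Finset.sum_mul, ← Finset.sum_add_distrib]
    refine Finset.sum_congr rfl fun e _ => ?_
    push_cast
    ring
  rw [h1]
  refine (norm_add_le _ _).trans (add_le_add ?_ ?_)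
  · rw [norm_mul, Complex.norm_real, Real.norm_of_nonneg hSF0]
    exact mul_le_mul hform (hw P τ (by linarith)) (norm_nonneg _) (hSF0.trans hform)
  · refine (norm_sum_le _ _).trans ?_
    have hterm : ∀ d ∈ Finset.Icc 1 D, ‖∑ e ∈ Finset.Icc 1 D, ((ρ d * ρ e : ℝ) : ℂ) *
        (∑ n ∈ (Finset.Icc 1 ⌊8 * P⌋₊).filter (fun n => Nat.lcm d e ∣ n), (trap P n : ℂ) * ep τ n -
          (1 / ((Nat.lcm d e : ℕ) : ℂ)) * Wi P τ)‖ ≤ D * (Ct * (1 + |τ|)) := by
      intro d hd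
      refine (norm_sum_le _ _).trans ?_
      have : ∑ e ∈ Finset.Icc 1 D, (Ct * (1 + |τ|)) = D * (Ct * (1 + |τ|)) := by
        rw [Finset.sum_const, Nat.card_Icc, nsmul_eq_mul]
        simp
      rw [← this]
      refine Finset.sum_le_sum fun e he => ?_
      rw [norm_mul, Complex.norm_real, Real.norm_eq_abs, abs_mul]
      rw [Finset.mem_Icc] at hd he
      have h2 := ht P τ (Nat.lcm d e) hP (Nat.lcm_pos (by omega) (by omega))
      have h3 : |ρ d| * |ρ e| ≤ 1 := by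
        have := hρ d
        have := hρ e
        nlinarith [abs_nonneg (ρ d), abs_nonneg (ρ e)]
      calc |ρ d| * |ρ e| * _ ≤ 1 * (Ct * (1 + |τ|)) :=
            mul_le_mul h3 h2 (norm_nonneg _) zero_le_one
        _ = Ct * (1 + |τ|) := one_mul _
    refine (Finset.sum_le_sum hterm).trans (le_of_eq ?_)
    rw [Finset.sum_const, Nat.card_Icc, nsmul_eq_mul, Nat.add_sub_cancel]
    ring

/-- bound for the weighted sums, large `τ` -/
private theorem prlsu_large {E : ℝ}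
    (D : ℕ) (ρ : ℕ → ℝ) (hρ : ∀ d, |ρ d| ≤ 1) (P τ : ℝ)
    (ht : ∀ e : ℕ, 1 ≤ e → e ≤ D ^ 2 →
      ‖∑ n ∈ (Finset.Icc 1 ⌊8 * P⌋₊).filter (fun n => e ∣ n), (trap P n : ℂ) * ep τ n‖ ≤ E) :
    ‖∑ n ∈ Finset.Icc 1 ⌊8 * P⌋₊, ((trap P n * prlsu_nu D ρ n : ℝ) : ℂ) * ep τ n‖ ≤
      (D : ℝ) ^ 2 * E := by
  have h0 : ∑ n ∈ Finset.Icc 1 ⌊8 * P⌋₊, ((trap P n * prlsu_nu D ρ n : ℝ) : ℂ) * ep τ n =
      ∑ n ∈ Finset.Icc 1 ⌊8 * P⌋₊, (prlsu_nu D ρ n : ℂ) * ((trap P n : ℂ) * ep τ n) := by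
    refine Finset.sum_congr rfl fun n _ => ?_
    push_cast
    ring
  rw [h0, prlsu_expand]
  refine (norm_sum_le _ _).trans ?_
  have hterm : ∀ d ∈ Finset.Icc 1 D, ‖∑ e ∈ Finset.Icc 1 D, ((ρ d * ρ e : ℝ) : ℂ) *
      (∑ n ∈ (Finset.Icc 1 ⌊8 * P⌋₊).filter (fun n => Nat.lcm d e ∣ n), (trap P n : ℂ) * ep τ n)‖
        ≤ D * E := by
    intro d hd
    refine (norm_sum_le _ _).trans ?_
    have : ∑ e ∈ Finset.Icc 1 D, E = D * E := by
      rw [Finset.sum_const, Nat.card_Icc, nsmul_eq_mul]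
      simp
    rw [← this]
    refine Finset.sum_le_sum fun e he => ?_
    rw [norm_mul, Complex.norm_real, Real.norm_eq_abs, abs_mul]
    rw [Finset.mem_Icc] at hd he
    have hle : Nat.lcm d e ≤ D ^ 2 := by
      have h4 : Nat.lcm d e ≤ d * e := Nat.le_of_dvd (Nat.mul_pos (by omega) (by omega))
        (Nat.lcm_dvd_mul d e)
      have h5 : d * e ≤ D * D := Nat.mul_le_mul hd.2 he.2
      rw [sq]
      exact h4.trans h5
    have h2 := ht (Nat.lcm d e) (Nat.lcm_pos (by omega) (by omega)) hle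
    have h3 : |ρ d| * |ρ e| ≤ 1 := by
      have := hρ d
      have := hρ e
      nlinarith [abs_nonneg (ρ d), abs_nonneg (ρ e)]
    calc |ρ d| * |ρ e| * _ ≤ 1 * E := mul_le_mul h3 h2 (norm_nonneg _) zero_le_one
      _ = E := one_mul _
  refine (Finset.sum_le_sum hterm).trans (le_of_eq ?_)
  rw [Finset.sum_const, Nat.card_Icc, nsmul_eq_mul, Nat.add_sub_cancel]
  ring

/-- Large sieve type inequality for primes with bounded coefficients and boundedly many points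
(compare `prime_ls` in `MR.PrimeLS`). -/
theorem prime_ls_u (hu : ∀ n, ‖u n‖ ≤ 1) {ε1 : ℝ} (hε1 : 0 < ε1) {K : ℕ} (hK : 1 ≤ K) :
    ∃ C : ℝ, 0 < C ∧ ∀ N0 : ℕ, ∃ X0 : ℝ,
    ∀ X ≥ X0, ∀ (v : ℕ) (S : Finset ℝ), ε1 * Real.log X ≤ (v : ℝ) / K → (v : ℝ) / K ≤ Real.log X →
    Spaced S → (∀ t ∈ S, |t| ≤ X) → S.card ≤ N0 →
    ∑ t ∈ S, ((v : ℝ) * ‖Qu u K v t‖ / Real.exp ((v : ℝ) / K)) ^ 2 ≤ C := by
  obtain ⟨Cw, hCw, hw⟩ := Wi_bound
  obtain ⟨Ct, hCt, ht⟩ := trap_small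
  obtain ⟨Cs, hCs, hs⟩ := sieve_weights
  obtain ⟨C1, hC1, hsp⟩ := prlsu_spaced
  set k : ℕ := ⌈4 / ε1⌉₊ with hk
  obtain ⟨c, hc, hc4, Cl, hCl, hl⟩ := trap_large k
  set θ : ℝ := c / 8 with hθ
  have hθ0 : 0 < θ := by positivity
  set A1 : ℝ := Cs * Cw * (2 / θ) with hA1
  have hA10 : 0 < A1 := by positivity
  have hKR : (0 : ℝ) < K := by exact_mod_cast hK
  refine ⟨(K : ℝ) ^ 2 * ((A1 + 1) * (A1 * C1 + 1)), by positivity, fun N0 => ?_⟩
  set G : ℝ := 9 * Ct + 8 * Cl with hG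
  have hG0 : 0 < G := by positivity
  have e1 : ∀ᶠ P : ℝ in atTop, 4 ≤ P ^ θ := (tendsto_rpow_atTop hθ0).eventually_ge_atTop 4
  have e2 : ∀ᶠ P : ℝ in atTop, 16 ≤ P ^ ((15 : ℝ) / 16) :=
    (tendsto_rpow_atTop (by norm_num)).eventually_ge_atTop 16
  have e3 : ∀ᶠ P : ℝ in atTop, 4 ≤ P ^ ((7 : ℝ) / 16) :=
    (tendsto_rpow_atTop (by norm_num)).eventually_ge_atTop 4
  have e4 : ∀ᶠ P : ℝ in atTop, ‖Real.log P‖ ≤ (1 / ((N0 + 1) * G)) * ‖P ^ (c / 2)‖ :=
    (isLittleO_log_rpow_atTop (half_pos hc)).bound (by positivity)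
  obtain ⟨P0, hP0⟩ := Filter.eventually_atTop.1 (e1.and (e2.and (e3.and e4)))
  refine ⟨max 2 (Real.exp (Real.log (max P0 2) / ε1)), ?_⟩
  intro X hX v S hv1 hv2 hS hSX hSN
  have hX2 : 2 ≤ X := (le_max_left _ _).trans hX
  have hX0 : 0 < X := by linarith
  set V : ℝ := (v : ℝ) / K with hV
  set P : ℝ := Real.exp V with hP
  have hPX : P ≤ X := by
    rw [hP, ← Real.exp_log hX0]
    exact Real.exp_le_exp.2 hv2
  have hXP : X ^ ε1 ≤ P := by
    rw [Real.rpow_def_of_pos hX0, hP, mul_comm]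
    exact Real.exp_le_exp.2 hv1
  have hPP0 : max P0 2 ≤ P := by
    have h1 : Real.exp (Real.log (max P0 2) / ε1) ≤ X := (le_max_right _ _).trans hX
    have h2 : Real.log (max P0 2) / ε1 ≤ Real.log X := by
      rw [← Real.log_exp (Real.log (max P0 2) / ε1)]
      exact Real.log_le_log (Real.exp_pos _) h1
    rw [div_le_iff₀ hε1] at h2
    have h3 : (0 : ℝ) < max P0 2 := lt_of_lt_of_le (by norm_num) (le_max_right _ _)
    rw [← Real.exp_log h3, hP]
    exact Real.exp_le_exp.2 (by linarith)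
  have hP2 : 2 ≤ P := (le_max_right _ _).trans hPP0
  have hPpos : 0 < P := by linarith
  have hP1 : 1 ≤ P := by linarith
  obtain ⟨f1, f2, f3, f4⟩ := hP0 P ((le_max_left _ _).trans hPP0)
  have hlogP : Real.log P = V := by rw [hP, Real.log_exp]
  have hlogpos : 0 < Real.log P := Real.log_pos (by linarith)
  -- the main numerical inequality
  have hE : ((N0 : ℝ) + 1) * (G * P ^ (1 - c / 2)) ≤ P / Real.log P := by
    rw [Real.norm_of_nonneg hlogpos.le, Real.norm_of_nonneg (Real.rpow_nonneg hPpos.le _)] at f4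
    rw [le_div_iff₀ hlogpos]
    have h1 : P ^ (c / 2) * P ^ (1 - c / 2) = P := by
      rw [← Real.rpow_add hPpos]
      rw [show c / 2 + (1 - c / 2) = 1 by ring, Real.rpow_one]
    have h2 : 0 < P ^ (1 - c / 2) := Real.rpow_pos_of_pos hPpos _
    calc ((N0 : ℝ) + 1) * (G * P ^ (1 - c / 2)) * Real.log P
        ≤ ((N0 : ℝ) + 1) * (G * P ^ (1 - c / 2)) * ((1 / ((N0 + 1) * G)) * P ^ (c / 2)) :=
          mul_le_mul_of_nonneg_left f4 (by positivity)
      _ = P ^ (c / 2) * P ^ (1 - c / 2) := by field_simp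
      _ = P := h1
  set E : ℝ := G * P ^ (1 - c / 2) with hEdef
  have hE0 : 0 ≤ E := by positivity
  -- the level
  set D : ℕ := ⌊P ^ θ⌋₊ with hD
  have hPθ : 0 ≤ P ^ θ := Real.rpow_nonneg hPpos.le _
  have hDle : (D : ℝ) ≤ P ^ θ := Nat.floor_le hPθ
  have hD4 : 4 ≤ D := Nat.le_floor (by exact_mod_cast f1)
  have hDge : P ^ θ / 2 ≤ D := by
    have := Nat.lt_floor_add_one (P ^ θ)
    rw [← hD] at this
    linarith
  have hlogD : θ / 2 * Real.log P ≤ Real.log D := by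
    have h1 : Real.log (P ^ θ / 2) ≤ Real.log D := Real.log_le_log (by positivity) hDge
    rw [Real.log_div (by positivity) (by norm_num), Real.log_rpow hPpos] at h1
    have h2 : Real.log 4 ≤ θ * Real.log P := by
      rw [← Real.log_rpow hPpos]
      exact Real.log_le_log (by norm_num) f1
    have h3 : Real.log 4 = 2 * Real.log 2 := by
      rw [show (4 : ℝ) = 2 ^ (2 : ℕ) by norm_num, Real.log_pow]; norm_num
    linarith
  have hlogDpos : 0 < Real.log D := lt_of_lt_of_le (by positivity) hlogD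
  have hD2 : (D : ℝ) ^ 2 ≤ P ^ (c / 4) := by
    have h1 : (P ^ θ) ^ 2 = P ^ (c / 4) := by
      rw [← Real.rpow_natCast, ← Real.rpow_mul hPpos.le]
      congr 1
      rw [hθ]; push_cast; ring
    rw [← h1]
    exact pow_le_pow_left₀ (Nat.cast_nonneg _) hDle 2
  have hD216 : (D : ℝ) ^ 2 ≤ P ^ ((1 : ℝ) / 16) :=
    hD2.trans (Real.rpow_le_rpow_of_exponent_le hP1 (by linarith))
  obtain ⟨ρ, hρ1, hρb, hρD, hform⟩ := hs D (by omega)
  set w : ℕ → ℝ := fun n => trap P n * prlsu_nu D ρ n with hwdef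
  have hw0 : ∀ n, 0 ≤ w n := fun n => mul_nonneg (trap_nonneg _ _) (prlsu_nu_nonneg _ _ _)
  -- bound for all τ
  have hbound : ∀ τ : ℝ, |τ| ≤ 2 * X →
      ‖∑ n ∈ Finset.Icc 1 ⌊8 * P⌋₊, (w n : ℂ) * ep τ n‖ ≤
        A1 * (P / Real.log P) * (1 / (1 + τ ^ 2)) + E := by
    intro τ hτ
    rcases le_or_gt |τ| ((8 * P) ^ (1 / 4 : ℝ)) with hcase | hcase
    · refine (prlsu_small hCs hw ht D ρ hρb hform P τ hP1).trans (add_le_add ?_ ?_)
      · have h1 : Cs / Real.log D ≤ Cs * (2 / θ) / Real.log P := by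
          rw [div_le_div_iff₀ hlogDpos hlogpos]
          have h2 : Real.log P ≤ 2 / θ * Real.log D := by
            rw [div_mul_eq_mul_div, le_div_iff₀ hθ0]
            nlinarith
          nlinarith
        calc Cs / Real.log D * (Cw * P / (1 + τ ^ 2))
            ≤ Cs * (2 / θ) / Real.log P * (Cw * P / (1 + τ ^ 2)) :=
              mul_le_mul_of_nonneg_right h1 (by positivity)
          _ = A1 * (P / Real.log P) * (1 / (1 + τ ^ 2)) := by
              rw [hA1]; field_simp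
      · have h1 : (1 : ℝ) ≤ P ^ ((1 : ℝ) / 4) := Real.one_le_rpow hP1 (by norm_num)
        have h2 : (8 * P) ^ (1 / 4 : ℝ) ≤ 8 * P ^ ((1 : ℝ) / 4) := by
          rw [Real.mul_rpow (by norm_num) hPpos.le]
          refine mul_le_mul_of_nonneg_right ?_ (by positivity)
          calc (8 : ℝ) ^ (1 / 4 : ℝ) ≤ 8 ^ (1 : ℝ) :=
                Real.rpow_le_rpow_of_exponent_le (by norm_num) (by norm_num)
            _ = 8 := Real.rpow_one _
        have h3 : 1 + |τ| ≤ 9 * P ^ ((1 : ℝ) / 4) := by linarith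
        have h4 : P ^ (c / 4) * P ^ ((1 : ℝ) / 4) ≤ P ^ (1 - c / 2) := by
          rw [← Real.rpow_add hPpos]
          exact Real.rpow_le_rpow_of_exponent_le hP1 (by linarith)
        calc (D : ℝ) ^ 2 * (Ct * (1 + |τ|)) ≤ P ^ (c / 4) * (Ct * (9 * P ^ ((1 : ℝ) / 4))) := by
              refine mul_le_mul hD2 (mul_le_mul_of_nonneg_left h3 hCt.le) (by positivity)
                (by positivity)
          _ = 9 * Ct * (P ^ (c / 4) * P ^ ((1 : ℝ) / 4)) := by ring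
          _ ≤ 9 * Ct * P ^ (1 - c / 2) := mul_le_mul_of_nonneg_left h4 (by positivity)
          _ ≤ E := by
              rw [hEdef, hG]
              have : 0 ≤ 8 * Cl * P ^ (1 - c / 2) := by positivity
              nlinarith
    · have h0 : 0 ≤ A1 * (P / Real.log P) * (1 / (1 + τ ^ 2)) := by positivity
      refine le_trans ?_ (le_add_of_nonneg_left h0)
      refine (prlsu_large (E := Cl * (8 * P) ^ (1 - c)) D ρ hρb P τ ?_).trans ?_
      · intro e he1 he2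
        have heR : (e : ℝ) ≤ P ^ ((1 : ℝ) / 16) :=
          le_trans (by exact_mod_cast he2) hD216
        have hePos : (0 : ℝ) < e := by exact_mod_cast he1
        have hsplit : P ^ ((1 : ℝ) / 16) * P ^ ((15 : ℝ) / 16) = P := by
          rw [← Real.rpow_add hPpos]; norm_num
        have h16 : (0 : ℝ) < P ^ ((1 : ℝ) / 16) := Real.rpow_pos_of_pos hPpos _
        refine hl P τ e he1 ?_ hcase.le ?_
        · calc (16 * e : ℝ) ≤ 16 * P ^ ((1 : ℝ) / 16) := by linarith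
            _ ≤ P ^ ((1 : ℝ) / 16) * P ^ ((15 : ℝ) / 16) := by nlinarith
            _ = P := hsplit
        · have h1 : P ^ ((1 : ℝ) / 2) ≤ P / (4 * e) := by
            rw [le_div_iff₀ (by positivity)]
            have h2 : P ^ ((1 : ℝ) / 2) * (P ^ ((7 : ℝ) / 16) * P ^ ((1 : ℝ) / 16)) = P := by
              rw [← Real.rpow_add hPpos, ← Real.rpow_add hPpos]; norm_num
            have h3 : 0 < P ^ ((1 : ℝ) / 2) := Real.rpow_pos_of_pos hPpos _
            calc P ^ ((1 : ℝ) / 2) * (4 * e) ≤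
                P ^ ((1 : ℝ) / 2) * (P ^ ((7 : ℝ) / 16) * P ^ ((1 : ℝ) / 16)) := by
                  refine mul_le_mul_of_nonneg_left ?_ h3.le
                  exact mul_le_mul f3 heR hePos.le (by positivity)
              _ = P := h2
          have h2 : (P ^ ((1 : ℝ) / 2)) ^ k ≤ (P / (4 * e)) ^ k :=
            pow_le_pow_left₀ (by positivity) h1 k
          refine le_trans ?_ h2
          have h3 : (P ^ ((1 : ℝ) / 2)) ^ k = P ^ ((k : ℝ) / 2) := by
            rw [← Real.rpow_natCast, ← Real.rpow_mul hPpos.le]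
            congr 1; ring
          have hk4 : 4 / ε1 ≤ k := Nat.le_ceil _
          have h4 : P ^ (2 / ε1) ≤ P ^ ((k : ℝ) / 2) :=
            Real.rpow_le_rpow_of_exponent_le hP1 (by
              have : 2 / ε1 = (4 / ε1) / 2 := by ring
              rw [this]; linarith)
          have h5 : (X ^ ε1) ^ (2 / ε1) ≤ P ^ (2 / ε1) :=
            Real.rpow_le_rpow (by positivity) hXP (by positivity)
          have h6 : (X ^ ε1) ^ (2 / ε1) = X ^ 2 := by
            rw [← Real.rpow_mul hX0.le, ← Real.rpow_natCast]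
            congr 1
            field_simp
            norm_num
          rw [h3]
          calc |τ| ≤ 2 * X := hτ
            _ ≤ X ^ 2 := by nlinarith
            _ = (X ^ ε1) ^ (2 / ε1) := h6.symm
            _ ≤ P ^ (2 / ε1) := h5
            _ ≤ _ := h4
      · have h1 : (8 * P) ^ (1 - c) ≤ 8 * P ^ (1 - c) := by
          rw [Real.mul_rpow (by norm_num) hPpos.le]
          refine mul_le_mul_of_nonneg_right ?_ (by positivity)
          calc (8 : ℝ) ^ (1 - c) ≤ 8 ^ (1 : ℝ) :=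
                Real.rpow_le_rpow_of_exponent_le (by norm_num) (by linarith)
            _ = 8 := Real.rpow_one _
        have h4 : P ^ (c / 4) * P ^ (1 - c) ≤ P ^ (1 - c / 2) := by
          rw [← Real.rpow_add hPpos]
          exact Real.rpow_le_rpow_of_exponent_le hP1 (by linarith)
        calc (D : ℝ) ^ 2 * (Cl * (8 * P) ^ (1 - c)) ≤ P ^ (c / 4) * (Cl * (8 * P ^ (1 - c))) := by
              refine mul_le_mul hD2 (mul_le_mul_of_nonneg_left h1 hCl.le) (by positivity)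
                (by positivity)
          _ = 8 * Cl * (P ^ (c / 4) * P ^ (1 - c)) := by ring
          _ ≤ 8 * Cl * P ^ (1 - c / 2) := mul_le_mul_of_nonneg_left h4 (by positivity)
          _ ≤ E := by
              rw [hEdef, hG]
              have : 0 ≤ 9 * Ct * P ^ (1 - c / 2) := by positivity
              nlinarith
  -- the slice
  have hE1 : E ≤ P / Real.log P := by
    have : (0 : ℝ) ≤ N0 := Nat.cast_nonneg _
    nlinarith
  have hslm : ∀ p ∈ sl K v, P < p ∧ (p : ℝ) ≤ 4 * P ∧ p.Prime := by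
    intro p hp
    rw [mem_sl] at hp
    refine ⟨hp.2.1, hp.2.2.trans ?_, hp.1⟩
    rw [show ((v : ℝ) + 1) / K = V + 1 / K by rw [hV]; ring, Real.exp_add, mul_comm]
    refine mul_le_mul_of_nonneg_right ?_ hPpos.le
    have h1 : (1 : ℝ) / K ≤ 1 := by
      rw [div_le_one hKR]; exact_mod_cast hK
    have h2 := Real.exp_one_lt_d9
    have h3 := Real.exp_le_exp.2 h1
    linarith
  have hsub : sl K v ⊆ Finset.Icc 1 ⌊8 * P⌋₊ := by
    intro p hp
    obtain ⟨h1, h2, h3⟩ := hslm p hp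
    rw [Finset.mem_Icc]
    exact ⟨h3.one_lt.le, Nat.le_floor (by linarith)⟩
  have hw1 : ∀ p ∈ sl K v, 1 ≤ w p := by
    intro p hp
    obtain ⟨h1, h2, h3⟩ := hslm p hp
    have hDp : D < p := by
      have : (D : ℝ) < p := by
        refine lt_of_le_of_lt (hDle.trans ?_) h1
        calc P ^ θ ≤ P ^ (1 : ℝ) := Real.rpow_le_rpow_of_exponent_le hP1 (by rw [hθ]; linarith)
          _ = P := Real.rpow_one _
      exact_mod_cast this
    have h4 : trap P p = 1 := by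
      unfold trap
      have h5 : 1 ≤ ((p : ℝ) - P / 2) / (P / 2) := by
        rw [le_div_iff₀ (by positivity)]; linarith
      have h6 : 1 ≤ (8 * P - (p : ℝ)) / (4 * P) := by
        rw [le_div_iff₀ (by positivity)]; linarith
      rw [min_eq_left (le_min h5 h6), max_eq_right zero_le_one]
    rw [hwdef]
    simp only
    rw [h4, prlsu_nu_prime D (by omega) ρ hρ1 h3 hDp, one_mul]
  have hcard : ((sl K v).card : ℝ) ≤ (A1 + 1) * (P / Real.log P) := by
    have h1 := hbound 0 (by simp; linarith)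
    have h2 : ∑ n ∈ Finset.Icc 1 ⌊8 * P⌋₊, (w n : ℂ) * ep 0 n =
        ((∑ n ∈ Finset.Icc 1 ⌊8 * P⌋₊, w n : ℝ) : ℂ) := by
      rw [Complex.ofReal_sum]
      refine Finset.sum_congr rfl fun n _ => ?_
      rw [ep_zero_left, mul_one]
    rw [h2, Complex.norm_real, Real.norm_of_nonneg (Finset.sum_nonneg fun n _ => hw0 n)] at h1
    have h3 : ((sl K v).card : ℝ) ≤ ∑ n ∈ Finset.Icc 1 ⌊8 * P⌋₊, w n := by
      calc ((sl K v).card : ℝ) = ∑ p ∈ sl K v, (1 : ℝ) := by simp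
        _ ≤ ∑ p ∈ sl K v, w p := Finset.sum_le_sum hw1
        _ ≤ _ := Finset.sum_le_sum_of_subset_of_nonneg hsub fun n _ _ => hw0 n
    have h4 : (1 : ℝ) / (1 + (0 : ℝ) ^ 2) = 1 := by norm_num
    rw [h4, mul_one] at h1
    linarith
  have hPl : 0 < P / Real.log P := by positivity
  have hB : ∀ t ∈ S, ∑ t' ∈ S, ‖∑ n ∈ Finset.Icc 1 ⌊8 * P⌋₊, (w n : ℂ) * ep (t - t') n‖ ≤
      (A1 * C1 + 1) * (P / Real.log P) := by
    intro t htS
    calc ∑ t' ∈ S, ‖∑ n ∈ Finset.Icc 1 ⌊8 * P⌋₊, (w n : ℂ) * ep (t - t') n‖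
        ≤ ∑ t' ∈ S, (A1 * (P / Real.log P) * (1 / (1 + (t - t') ^ 2)) + E) := by
          refine Finset.sum_le_sum fun t' ht' => hbound _ ?_
          have h1 := hSX t htS
          have h2 := hSX t' ht'
          have h3 := abs_sub t t'
          linarith
      _ = A1 * (P / Real.log P) * ∑ t' ∈ S, (1 / (1 + (t - t') ^ 2)) + S.card * E := by
          rw [Finset.sum_add_distrib, ← Finset.mul_sum, Finset.sum_const, nsmul_eq_mul]
      _ ≤ A1 * (P / Real.log P) * C1 + P / Real.log P := by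
          have h1 := hsp S t hS
          have h2 : (S.card : ℝ) * E ≤ P / Real.log P := by
            have h3 : (S.card : ℝ) ≤ N0 := by exact_mod_cast hSN
            have h4 : (S.card : ℝ) * E ≤ ((N0 : ℝ) + 1) * E :=
              mul_le_mul_of_nonneg_right (by linarith) hE0
            linarith
          have h3 : 0 ≤ A1 * (P / Real.log P) := by positivity
          have h4 := mul_le_mul_of_nonneg_left h1 h3
          linarith
      _ = _ := by ring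
  have hfin := prlsu_dual hu S (sl K v) ⌊8 * P⌋₊ w hsub hw0 hw1 _ (by positivity) hB
  have hvK : (v : ℝ) = K * Real.log P := by
    rw [hlogP, hV]; field_simp
  calc ∑ t ∈ S, ((v : ℝ) * ‖Qu u K v t‖ / P) ^ 2
      = ((v : ℝ) / P) ^ 2 * ∑ t ∈ S, ‖Qu u K v t‖ ^ 2 := by
        rw [Finset.mul_sum]
        refine Finset.sum_congr rfl fun t _ => ?_
        ring
    _ ≤ ((v : ℝ) / P) ^ 2 * (((A1 + 1) * (P / Real.log P)) * ((A1 * C1 + 1) * (P / Real.log P))) := by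
        refine mul_le_mul_of_nonneg_left ?_ (by positivity)
        refine hfin.trans (mul_le_mul_of_nonneg_right hcard (by positivity))
    _ = (K : ℝ) ^ 2 * ((A1 + 1) * (A1 * C1 + 1)) := by
        rw [hvK]
        have hne : Real.log P ≠ 0 := hlogpos.ne'
        field_simp

end Pool.MP_67663b_nt.PS
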