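import Pool.Agent.Lib.MP_67663b_nt.PS.UDefs
import Pool.Agent.Lib.MP_67663b_nt.MR.MVT

set_option autoImplicit false
open Filter Topology MeasureTheory
namespace Pool.MP_67663b_nt.PS
open Pool.MP_67663b_nt.Odd Pool.MP_67663b_nt.MR

variable {u : ℕ → ℂ}

private theorem tkf_count_le (N d : ℕ) :
    (((Finset.Icc 1 N).filter (fun n => d ∣ n)).card : ℝ) ≤ (N : ℝ) / d := by
  have h : Finset.Icc 1 N = Finset.Ioc 0 N := by
    ext n
    simp only [Finset.mem_Icc, Finset.mem_Ioc]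
    omega
  rw [h, Nat.Ioc_filter_dvd_card_eq_div]
  exact Nat.cast_div_le

private theorem tkf_count_ge (N d : ℕ) (hd : 0 < d) :
    (N : ℝ) / d - 1 ≤ (((Finset.Icc 1 N).filter (fun n => d ∣ n)).card : ℝ) := by
  have h : Finset.Icc 1 N = Finset.Ioc 0 N := by
    ext n
    simp only [Finset.mem_Icc, Finset.mem_Ioc]
    omega
  rw [h, Nat.Ioc_filter_dvd_card_eq_div]
  have h1 : N < d * (N / d + 1) := by
    have := Nat.div_add_mod N d
    have := Nat.mod_lt N hd
    nlinarith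
  have h2 : (N : ℝ) < d * ((N / d : ℕ) + 1) := by exact_mod_cast h1
  have hd' : (0 : ℝ) < d := by exact_mod_cast hd
  rw [sub_le_iff_le_add, div_le_iff₀ hd']
  nlinarith only [h2]

private theorem tkf_tk (P : Finset ℕ) (hP : ∀ p ∈ P, p.Prime) (N : ℕ) (hN : ∀ p ∈ P, p ≤ N) :
    ∑ n ∈ Finset.Icc 1 N, (((P.filter (fun p => p ∣ n)).card : ℝ) - ∑ p ∈ P, 1 / (p : ℝ)) ^ 2
      ≤ 3 * N * ∑ p ∈ P, 1 / (p : ℝ) := by
  classical
  set L : ℝ := ∑ p ∈ P, 1 / (p : ℝ) with hL
  have hL0 : 0 ≤ L := Finset.sum_nonneg fun p _ => by positivity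
  have hw : ∀ n : ℕ, ((P.filter (fun p => p ∣ n)).card : ℝ) = ∑ p ∈ P, if p ∣ n then (1 : ℝ) else 0 := by
    intro n
    rw [Finset.card_filter]
    push_cast
    rfl
  have h1 : (N : ℝ) * L - P.card ≤ ∑ n ∈ Finset.Icc 1 N, ((P.filter (fun p => p ∣ n)).card : ℝ) := by
    simp_rw [hw]
    rw [Finset.sum_comm]
    have : (N : ℝ) * L - P.card = ∑ p ∈ P, ((N : ℝ) / p - 1) := by
      rw [Finset.sum_sub_distrib, hL, Finset.mul_sum]
      simp [div_eq_mul_inv]
    rw [this]
    refine Finset.sum_le_sum fun p hp => ?_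
    rw [← Finset.sum_filter, Finset.sum_const, nsmul_eq_mul, mul_one]
    exact tkf_count_ge N p (hP p hp).pos
  have h2 : ∑ n ∈ Finset.Icc 1 N, ((P.filter (fun p => p ∣ n)).card : ℝ) ^ 2 ≤ N * L ^ 2 + N * L := by
    have e1 : ∀ n ∈ Finset.Icc 1 N, ((P.filter (fun p => p ∣ n)).card : ℝ) ^ 2
        = ∑ p ∈ P, ∑ q ∈ P, if p ∣ n ∧ q ∣ n then (1 : ℝ) else 0 := by
      intro n _
      rw [hw, sq, Finset.sum_mul_sum]
      refine Finset.sum_congr rfl fun p _ => Finset.sum_congr rfl fun q _ => ?_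
      by_cases hp : p ∣ n <;> by_cases hq : q ∣ n <;> simp [hp, hq]
    rw [Finset.sum_congr rfl e1, Finset.sum_comm]
    have e2 : ∀ p ∈ P, ∑ n ∈ Finset.Icc 1 N, ∑ q ∈ P, (if p ∣ n ∧ q ∣ n then (1 : ℝ) else 0)
        ≤ (N : ℝ) / p * L + N / p := by
      intro p hp
      rw [Finset.sum_comm]
      have e3 : ∀ q ∈ P, ∑ n ∈ Finset.Icc 1 N, (if p ∣ n ∧ q ∣ n then (1 : ℝ) else 0)
          ≤ (N : ℝ) / p * (1 / q) + if q = p then (N : ℝ) / p else 0 := by
        intro q hq
        rw [← Finset.sum_filter, Finset.sum_const, nsmul_eq_mul, mul_one]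
        by_cases hpq : q = p
        · subst hpq
          rw [if_pos rfl]
          have : (Finset.Icc 1 N).filter (fun n => q ∣ n ∧ q ∣ n) = (Finset.Icc 1 N).filter (fun n => q ∣ n) := by
            simp
          rw [this]
          have := tkf_count_le N q
          have h0 : 0 ≤ (N : ℝ) / q * (1 / q) := by (clear * -; positivity)
          linarith only [h0, this]
        · rw [if_neg hpq, add_zero]
          have hcop : Nat.Coprime p q := (Nat.coprime_primes (hP p hp) (hP q hq)).2 (Ne.symm hpq)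
          have : (Finset.Icc 1 N).filter (fun n => p ∣ n ∧ q ∣ n) = (Finset.Icc 1 N).filter (fun n => p * q ∣ n) := by
            refine Finset.filter_congr fun n _ => ?_
            constructor
            · rintro ⟨h1, h2⟩
              exact Nat.Coprime.mul_dvd_of_dvd_of_dvd hcop h1 h2
            · intro h
              exact ⟨(dvd_mul_right p q).trans h, (dvd_mul_left q p).trans h⟩
          rw [this]
          refine (tkf_count_le N (p * q)).trans (le_of_eq ?_)
          push_cast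
          rw [div_mul_div_comm, mul_one]
      refine (Finset.sum_le_sum e3).trans (le_of_eq ?_)
      rw [Finset.sum_add_distrib, ← Finset.mul_sum, Finset.sum_ite_eq' P p, if_pos hp, hL]
    refine (Finset.sum_le_sum e2).trans (le_of_eq ?_)
    rw [Finset.sum_add_distrib, ← Finset.sum_mul]
    have : ∑ p ∈ P, (N : ℝ) / p = N * L := by
      rw [hL, Finset.mul_sum]
      exact Finset.sum_congr rfl fun p _ => by ring
    rw [this]
    ring
  have hcard : (P.card : ℝ) ≤ N := by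
    have : P ⊆ Finset.Icc 1 N := by
      intro p hp
      rw [Finset.mem_Icc]
      exact ⟨(hP p hp).pos, hN p hp⟩
    have := Finset.card_le_card this
    rw [Nat.card_Icc] at this
    exact_mod_cast this
  have e : ∀ n ∈ Finset.Icc 1 N, (((P.filter (fun p => p ∣ n)).card : ℝ) - L) ^ 2
      = ((P.filter (fun p => p ∣ n)).card : ℝ) ^ 2 - 2 * L * ((P.filter (fun p => p ∣ n)).card : ℝ) + L ^ 2 := by
    intro n _
    ring
  rw [Finset.sum_congr rfl e, Finset.sum_add_distrib, Finset.sum_sub_distrib, ← Finset.mul_sum,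
    Finset.sum_const, Nat.card_Icc, nsmul_eq_mul]
  have : ((N + 1 - 1 : ℕ) : ℝ) = N := by simp
  rw [this]
  have h3 := mul_le_mul_of_nonneg_left h1 (by linarith : 0 ≤ 2 * L)
  have h4 := mul_le_mul_of_nonneg_left hcard hL0
  nlinarith only [h2, h3, h4]

private theorem tkf_sl_disj {K v w : ℕ} (hK : 1 ≤ K) (h : v < w) : Disjoint (sl K v) (sl K w) := by
  rw [Finset.disjoint_left]
  intro p hp hq
  rw [mem_sl] at hp hq
  have hK' : (0 : ℝ) < K := by exact_mod_cast hK
  have h1 : ((v : ℝ) + 1) / K ≤ (w : ℝ) / K := by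
    have : (v : ℝ) + 1 ≤ w := by exact_mod_cast h
    gcongr
  have := Real.exp_le_exp.2 h1
  linarith only [hp, hq, this, hp.2.2, hq.2.1]

/-- number of admissible prime divisors of `n` -/
private noncomputable def tkf_c (X : ℝ) (K v n : ℕ) : Finset ℕ :=
  (sl K v).filter (fun p => p ∣ n ∧ n / p ∈ seg (X * Real.exp (-((v : ℝ) / K)))
    (4 * (X * Real.exp (-((v : ℝ) / K)))))

private theorem tkf_mul_le {X : ℝ} {K v : ℕ} (hX : 0 ≤ X) (hK : 1 ≤ K) {p m : ℕ} (hp : p ∈ sl K v)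
    (hm : m ∈ seg (X * Real.exp (-((v : ℝ) / K))) (4 * (X * Real.exp (-((v : ℝ) / K))))) :
    X < ((p * m : ℕ) : ℝ) ∧ ((p * m : ℕ) : ℝ) ≤ 4 * X * Real.exp (1 / K) := by
  have hK' : (0 : ℝ) < K := by exact_mod_cast hK
  rw [mem_sl] at hp
  rw [mem_seg (by positivity) (by positivity)] at hm
  obtain ⟨hpp, hp1, hp2⟩ := hp
  obtain ⟨hm1, hm2⟩ := hm
  have hm0 : (0 : ℝ) < m := lt_of_le_of_lt (by positivity) hm1
  have hp0 : (0 : ℝ) < p := by exact_mod_cast hpp.pos
  have E1 : Real.exp (-((v : ℝ) / K)) * Real.exp ((v : ℝ) / K) = 1 := by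
    rw [← Real.exp_add]
    simp
  have E2 : Real.exp (-((v : ℝ) / K)) * Real.exp (((v : ℝ) + 1) / K) = Real.exp (1 / K) := by
    rw [← Real.exp_add]
    congr 1
    ring
  push_cast
  constructor
  · calc X = (X * Real.exp (-((v : ℝ) / K))) * Real.exp ((v : ℝ) / K) := by
          rw [mul_assoc, E1, mul_one]
      _ < (p : ℝ) * m := by
          rw [mul_comm (p : ℝ)]
          apply mul_lt_mul'' hm1 hp1 (by positivity) (by positivity)
  · calc (p : ℝ) * m ≤ Real.exp (((v : ℝ) + 1) / K) * (4 * (X * Real.exp (-((v : ℝ) / K)))) := by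
          apply mul_le_mul hp2 hm2 hm0.le (by positivity)
      _ = 4 * X * (Real.exp (-((v : ℝ) / K)) * Real.exp (((v : ℝ) + 1) / K)) := by ring
      _ = 4 * X * Real.exp (1 / K) := by rw [E2]

private theorem tkf_exp_le {K : ℕ} (hK : 1 ≤ K) : Real.exp (1 / (K : ℝ)) ≤ 1 + 2 / K := by
  have hK' : (1 : ℝ) ≤ K := by exact_mod_cast hK
  have h1 : (1 : ℝ) / K ≤ 1 := by
    rw [div_le_one (by linarith)]
    exact hK'
  have h0 : (0 : ℝ) ≤ 1 / K := by positivity
  have := Real.abs_exp_sub_one_le (x := 1 / (K : ℝ)) (by rw [abs_of_nonneg h0]; exact h1)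
  rw [abs_of_nonneg h0] at this
  have := (abs_le.1 this).2
  have e : (2 : ℝ) / K = 2 * (1 / K) := by ring
  linarith

private theorem tkf_exp_le3 {K : ℕ} (hK : 1 ≤ K) : 4 * Real.exp (1 / (K : ℝ)) ≤ 11 := by
  have hK' : (1 : ℝ) ≤ K := by exact_mod_cast hK
  have h1 : (1 : ℝ) / K ≤ 1 := by
    rw [div_le_one (by linarith)]
    exact hK'
  have := Real.exp_le_exp.2 h1
  have h2 := Real.exp_one_lt_d9
  linarith

private theorem tkf_poly (hu : CM u) {X : ℝ} {K v : ℕ} (hX : 0 ≤ X) (hK : 1 ≤ K) (t : ℝ) :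
    Qu u K v t * Ru u X K v t
      = ∑ n ∈ Finset.Icc 1 ⌊11 * X⌋₊, -((fu u n) * ((tkf_c X K v n).card : ℂ)) * ep t n := by
  classical
  unfold Qu Ru dp
  rw [Finset.sum_mul_sum]
  have key : ∀ p ∈ sl K v, ∑ m ∈ seg (X * Real.exp (-((v : ℝ) / K))) (4 * (X * Real.exp (-((v : ℝ) / K)))),
      (u p * ep t p) * ((fu u m) * ep t m)
      = ∑ n ∈ Finset.Icc 1 ⌊11 * X⌋₊, if (p ∣ n ∧ n / p ∈ seg (X * Real.exp (-((v : ℝ) / K)))
          (4 * (X * Real.exp (-((v : ℝ) / K))))) then -((fu u n)) * ep t n else 0 := by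
    intro p hp
    have hpp : p.Prime := (mem_sl.1 hp).1
    rw [← Finset.sum_filter]
    refine Finset.sum_nbij' (fun m => p * m) (fun n => n / p) ?_ ?_ ?_ ?_ ?_
    · intro m hm
      rw [Finset.mem_filter, Finset.mem_Icc]
      have h := tkf_mul_le hX hK hp hm
      have hm0 := pos_of_mem_seg hm
      refine ⟨⟨Nat.mul_pos hpp.pos hm0, Nat.le_floor (h.2.trans ?_)⟩, dvd_mul_right _ _, ?_⟩
      · nlinarith only [hK, hX, tkf_exp_le3 hK]
      · rw [Nat.mul_div_cancel_left _ hpp.pos]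
        exact hm
    · intro n hn
      rw [Finset.mem_filter] at hn
      exact hn.2.2
    · intro m _
      exact Nat.mul_div_cancel_left _ hpp.pos
    · intro n hn
      rw [Finset.mem_filter] at hn
      exact Nat.mul_div_cancel' hn.2.1
    · intro m hm
      have hm0 := pos_of_mem_seg hm
      rw [fu_prime_mul hu hpp hm0.ne', ep_mul t hpp.ne_zero hm0.ne']
      ring
  rw [Finset.sum_congr rfl key, Finset.sum_comm]
  refine Finset.sum_congr rfl fun n _ => ?_
  rw [← Finset.sum_filter, Finset.sum_const, nsmul_eq_mul]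
  unfold tkf_c
  ring

private theorem tkf_omega {K a b : ℕ} (hK : 1 ≤ K) (n : ℕ) :
    ((((Finset.Ico a b).biUnion (sl K)).filter (fun p => p ∣ n)).card)
      = ∑ v ∈ Finset.Ico a b, ((sl K v).filter (fun p => p ∣ n)).card := by
  classical
  rw [Finset.filter_biUnion, Finset.card_biUnion]
  intro v _ w _ hvw
  rcases lt_or_gt_of_ne hvw with h | h
  · exact Finset.disjoint_filter_filter (tkf_sl_disj hK h)
  · exact (Finset.disjoint_filter_filter (tkf_sl_disj hK h)).symm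

private theorem tkf_Lm {K a b : ℕ} (hK : 1 ≤ K) :
    ∑ p ∈ (Finset.Ico a b).biUnion (sl K), 1 / (p : ℝ) = Lm K a b := by
  classical
  unfold Lm
  rw [Finset.sum_biUnion]
  intro v _ w _ hvw
  rcases lt_or_gt_of_ne hvw with h | h
  · exact tkf_sl_disj hK h
  · exact (tkf_sl_disj hK h).symm

private theorem tkf_c_le (X : ℝ) {K : ℕ} (v n : ℕ) :
    (tkf_c X K v n).card ≤ ((sl K v).filter (fun p => p ∣ n)).card := by
  classical
  apply Finset.card_le_card
  unfold tkf_c
  intro p hp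
  rw [Finset.mem_filter] at hp ⊢
  exact ⟨hp.1, hp.2.1⟩

private theorem tkf_c_eq {X : ℝ} {K v n : ℕ} (hX : 0 ≤ X) (hK : 1 ≤ K)
    (h1 : X * Real.exp (1 / K) < n) (h2 : (n : ℝ) ≤ 4 * X) :
    (tkf_c X K v n).card = ((sl K v).filter (fun p => p ∣ n)).card := by
  classical
  congr 1
  unfold tkf_c
  refine Finset.filter_congr fun p hp => ⟨fun h => h.1, fun h => ⟨h, ?_⟩⟩
  have hK' : (0 : ℝ) < K := by exact_mod_cast hK
  rw [mem_sl] at hp
  obtain ⟨hpp, hp1, hp2⟩ := hp
  have hp0 : (0 : ℝ) < p := by exact_mod_cast hpp.pos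
  rw [mem_seg (by positivity) (by positivity), Nat.cast_div h hp0.ne']
  have E1 : Real.exp (-((v : ℝ) / K)) * Real.exp ((v : ℝ) / K) = 1 := by
    rw [← Real.exp_add]
    simp
  have E2 : Real.exp (-((v : ℝ) / K)) * Real.exp (((v : ℝ) + 1) / K) = Real.exp (1 / K) := by
    rw [← Real.exp_add]
    congr 1
    ring
  constructor
  · rw [lt_div_iff₀ hp0]
    refine lt_of_le_of_lt ?_ h1
    calc X * Real.exp (-((v : ℝ) / K)) * p ≤ X * Real.exp (-((v : ℝ) / K)) * Real.exp (((v : ℝ) + 1) / K) := by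
          apply mul_le_mul_of_nonneg_left hp2 (by positivity)
      _ = X * Real.exp (1 / K) := by rw [mul_assoc, E2]
  · rw [div_le_iff₀ hp0]
    refine h2.trans ?_
    calc 4 * X = 4 * (X * Real.exp (-((v : ℝ) / K))) * Real.exp ((v : ℝ) / K) := by
          rw [mul_assoc, mul_assoc, E1, mul_one]
      _ ≤ 4 * (X * Real.exp (-((v : ℝ) / K))) * p := by
          apply mul_le_mul_of_nonneg_left hp1.le (by positivity)

private theorem tkf_c_zero {X : ℝ} {K v n : ℕ} (hX : 0 ≤ X) (hK : 1 ≤ K)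
    (h : ¬ (X < (n : ℝ) ∧ (n : ℝ) ≤ 4 * X * Real.exp (1 / K))) :
    (tkf_c X K v n).card = 0 := by
  classical
  rw [Finset.card_eq_zero]
  unfold tkf_c
  rw [Finset.filter_eq_empty_iff]
  rintro p hp ⟨hd, hm⟩
  have := tkf_mul_le hX hK hp hm
  rw [Nat.mul_div_cancel' hd] at this
  exact h this

private theorem tkf_edge {X : ℝ} {K : ℕ} (hX : (K : ℝ) ≤ X) (hK : 1 ≤ K) :
    (((seg X (X * Real.exp (1 / K))) ∪ (seg (4 * X) (4 * X * Real.exp (1 / K)))).card : ℝ)
      ≤ 12 * (X / K) := by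
  classical
  have hK' : (0 : ℝ) < K := by exact_mod_cast hK
  have hX0 : 0 < X := by linarith
  have h1 := tkf_exp_le hK
  have h2 : (1 : ℝ) ≤ Real.exp (1 / K) := Real.one_le_exp (by positivity)
  have c1 := card_seg_le (x := X) (y := X * Real.exp (1 / K)) hX0.le (by nlinarith only [h2, hX])
  have c2 := card_seg_le (x := 4 * X) (y := 4 * X * Real.exp (1 / K)) (by positivity) (by nlinarith only [h2, hX])
  have c3 := Finset.card_union_le (seg X (X * Real.exp (1 / K))) (seg (4 * X) (4 * X * Real.exp (1 / K)))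
  have c4 : (((seg X (X * Real.exp (1 / K))) ∪ (seg (4 * X) (4 * X * Real.exp (1 / K)))).card : ℝ)
      ≤ ((seg X (X * Real.exp (1 / K))).card : ℝ) + ((seg (4 * X) (4 * X * Real.exp (1 / K))).card : ℝ) := by
    exact_mod_cast c3
  have h3 : X * Real.exp (1 / K) ≤ X + 2 * (X / K) := by
    calc X * Real.exp (1 / K) ≤ X * (1 + 2 / K) := by
          apply mul_le_mul_of_nonneg_left h1 hX0.le
      _ = X + 2 * (X / K) := by ring
  have h4 : 1 ≤ X / K := by
    rw [one_le_div hK']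
    exact hX
  linarith only [c1, c2, c4, h3, h4]

private theorem tkf_point {X : ℝ} {K a b n : ℕ} (hX : 0 ≤ X) (hK : 1 ≤ K) {L : ℝ} (hL : 0 < L) :
    ((if n ∈ seg X (4 * X) then (1 : ℝ) else 0)
        - ((∑ v ∈ Finset.Ico a b, (tkf_c X K v n).card : ℕ) : ℝ) / L) ^ 2
      ≤ 2 / L ^ 2 * ((((((Finset.Ico a b).biUnion (sl K)).filter (fun p => p ∣ n)).card : ℕ) : ℝ) - L) ^ 2
        + (if n ∈ (seg X (X * Real.exp (1 / K))) ∪ (seg (4 * X) (4 * X * Real.exp (1 / K))) then 8 else 0) := by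
  classical
  have hK' : (0 : ℝ) < K := by exact_mod_cast hK
  have h2 : (1 : ℝ) ≤ Real.exp (1 / K) := Real.one_le_exp (by positivity)
  set w : ℝ := ((((((Finset.Ico a b).biUnion (sl K)).filter (fun p => p ∣ n)).card : ℕ) : ℝ)) with hw
  have hw0 : 0 ≤ w := by (clear * -; positivity)
  by_cases hE : n ∈ (seg X (X * Real.exp (1 / K))) ∪ (seg (4 * X) (4 * X * Real.exp (1 / K)))
  · rw [if_pos hE]
    have hc : ((∑ v ∈ Finset.Ico a b, (tkf_c X K v n).card : ℕ) : ℝ) ≤ w := by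
      rw [hw, tkf_omega hK]
      exact_mod_cast Finset.sum_le_sum fun v _ => tkf_c_le X v n
    have hc0 : 0 ≤ ((∑ v ∈ Finset.Ico a b, (tkf_c X K v n).card : ℕ) : ℝ) := by (clear * -; positivity)
    set c : ℝ := ((∑ v ∈ Finset.Ico a b, (tkf_c X K v n).card : ℕ) : ℝ) with hcc
    have e1 : c / L ≤ w / L := by gcongr
    have e0 : 0 ≤ c / L := by (clear * - hL; positivity)
    have e2 : 2 / L ^ 2 * (w - L) ^ 2 = 2 * (w / L - 1) ^ 2 := by
      field_simp
    rw [e2]
    have e3 : ∀ i : ℝ, 0 ≤ i → i ≤ 1 → (i - c / L) ^ 2 ≤ 2 * (w / L - 1) ^ 2 + 8 := by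
      intro i hi0 hi1
      have : |i - c / L| ≤ |1 + w / L| := by
        rw [abs_of_nonneg (by (clear * - hL; positivity) : 0 ≤ 1 + w / L), abs_le]
        constructor <;> linarith
      have := sq_le_sq.2 this
      nlinarith only [this, sq_nonneg (w / L - 3)]
    split_ifs
    · exact e3 1 zero_le_one le_rfl
    · exact e3 0 le_rfl zero_le_one
  · rw [if_neg hE, add_zero]
    rw [Finset.mem_union, not_or, mem_seg hX (by positivity), mem_seg (by positivity) (by positivity)] at hE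
    by_cases hn : X < (n : ℝ) ∧ (n : ℝ) ≤ 4 * X * Real.exp (1 / K)
    · have hn1 : X * Real.exp (1 / K) < n := by
        by_contra hcon
        exact hE.1 ⟨hn.1, not_lt.1 hcon⟩
      have hn2 : (n : ℝ) ≤ 4 * X := by
        by_contra hcon
        exact hE.2 ⟨not_le.1 hcon, hn.2⟩
      have hmem : n ∈ seg X (4 * X) := by
        rw [mem_seg hX (by positivity)]
        exact ⟨hn.1, hn2⟩
      rw [if_pos hmem]
      have hc : ((∑ v ∈ Finset.Ico a b, (tkf_c X K v n).card : ℕ) : ℝ) = w := by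
        rw [hw, tkf_omega hK]
        congr 1
        exact Finset.sum_congr rfl fun v _ => tkf_c_eq hX hK hn1 hn2
      rw [hc]
      have : (1 - w / L) ^ 2 = 1 / L ^ 2 * (w - L) ^ 2 := by
        field_simp
        ring
      rw [this]
      have h3 : (1 : ℝ) / L ^ 2 ≤ 2 / L ^ 2 := by gcongr; norm_num
      exact mul_le_mul_of_nonneg_right h3 (sq_nonneg _)
    · have hmem : n ∉ seg X (4 * X) := by
        rw [mem_seg hX (by positivity)]
        rintro ⟨h3, h4⟩
        exact hn ⟨h3, h4.trans (by nlinarith only [h2, hX])⟩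
      rw [if_neg hmem]
      have hc : (∑ v ∈ Finset.Ico a b, (tkf_c X K v n).card) = 0 :=
        Finset.sum_eq_zero fun v _ => tkf_c_zero hX hK hn
      rw [hc]
      rw [Nat.cast_zero, zero_div, sub_zero, zero_pow two_ne_zero]
      positivity

/-- Turan-Kubilius factorisation. -/
theorem tk_factor_u (hu : CM u) : ∃ C : ℝ, 0 < C ∧ ∀ (X T : ℝ) (K a b : ℕ), 1 ≤ K → a < b →
    Real.exp ((b : ℝ) / K) ≤ X → (K : ℝ) ≤ X → 0 < Lm K a b → 1 ≤ T → T ≤ X →
    ∫ t in (-T)..T, ‖Gu u X t + ((1 / Lm K a b : ℝ) : ℂ) * ∑ v ∈ Finset.Ico a b, Qu u K v t * Ru u X K v t‖ ^ 2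
      ≤ C * X ^ 2 * (1 / Lm K a b + 1 / K) := by
  classical
  obtain ⟨C₀, hC₀, hmvt⟩ := mvt
  refine ⟨C₀ * 1152, by positivity, ?_⟩
  intro X T K a b hK hab hbX hKX hL hT hTX
  have hK' : (1 : ℝ) ≤ K := by exact_mod_cast hK
  have hX1 : 1 ≤ X := hK'.trans hKX
  have hX0 : 0 ≤ X := by linarith
  set L : ℝ := Lm K a b with hLdef
  set N : ℕ := ⌊11 * X⌋₊ with hN
  have hNle : (N : ℝ) ≤ 11 * X := Nat.floor_le (by positivity)
  set A : ℕ → ℂ := fun n => (fu u n) * (((if n ∈ seg X (4 * X) then (1 : ℝ) else 0)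
        - ((∑ v ∈ Finset.Ico a b, (tkf_c X K v n).card : ℕ) : ℝ) / L : ℝ) : ℂ) with hA
  have hpoly : ∀ t : ℝ, Gu u X t + ((1 / L : ℝ) : ℂ) * ∑ v ∈ Finset.Ico a b, Qu u K v t * Ru u X K v t
      = dp (Finset.Icc 1 N) A t := by
    intro t
    have hsub : seg X (4 * X) ⊆ Finset.Icc 1 N := by
      refine seg_subset.trans (Finset.Icc_subset_Icc le_rfl (Nat.floor_le_floor (by linarith)))
    have hG : Gu u X t = ∑ n ∈ Finset.Icc 1 N, (if n ∈ seg X (4 * X) then (fu u n) * ep t n else 0) := by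
      unfold Gu dp
      rw [Finset.sum_ite_mem, Finset.inter_eq_right.2 hsub]
    rw [hG, Finset.sum_congr rfl fun v _ => tkf_poly hu hX0 hK t, Finset.sum_comm, Finset.mul_sum,
      ← Finset.sum_add_distrib]
    unfold dp
    refine Finset.sum_congr rfl fun n _ => ?_
    rw [← Finset.sum_mul, Finset.sum_neg_distrib, ← Finset.mul_sum, hA]
    dsimp only
    split_ifs
    · push_cast
      ring
    · push_cast
      ring
  have hint : ∫ t in (-T)..T, ‖Gu u X t + ((1 / L : ℝ) : ℂ) * ∑ v ∈ Finset.Ico a b, Qu u K v t * Ru u X K v t‖ ^ 2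
      = ∫ t in (-T)..T, ‖dp (Finset.Icc 1 N) A t‖ ^ 2 := by
    congr 1
    ext t
    rw [hpoly]
  rw [hint]
  refine (hmvt N (Finset.Icc 1 N) A T hT le_rfl).trans ?_
  have hprime : ∀ p ∈ (Finset.Ico a b).biUnion (sl K), p.Prime := by
    intro p hp
    rw [Finset.mem_biUnion] at hp
    obtain ⟨v, _, hv⟩ := hp
    exact (mem_sl.1 hv).1
  have hle : ∀ p ∈ (Finset.Ico a b).biUnion (sl K), p ≤ N := by
    intro p hp
    rw [Finset.mem_biUnion] at hp
    obtain ⟨v, hv1, hv⟩ := hp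
    have h1 := (mem_sl.1 hv).2.2
    rw [Finset.mem_Ico] at hv1
    have h2 : ((v : ℝ) + 1) / K ≤ (b : ℝ) / K := by
      have : (v : ℝ) + 1 ≤ b := by exact_mod_cast hv1.2
      gcongr
    have h3 := Real.exp_le_exp.2 h2
    apply Nat.le_floor
    linarith only [h1, h3, hT, hTX, hbX]
  have htk := tkf_tk _ hprime N hle
  rw [tkf_Lm hK, ← hLdef] at htk
  have hsum : ∑ n ∈ Finset.Icc 1 N, ‖A n‖ ^ 2 ≤ 96 * X * (1 / L + 1 / K) := by
    have e1 : ∀ n ∈ Finset.Icc 1 N, ‖A n‖ ^ 2 ≤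
        2 / L ^ 2 * ((((((Finset.Ico a b).biUnion (sl K)).filter (fun p => p ∣ n)).card : ℕ) : ℝ) - L) ^ 2
        + (if n ∈ (seg X (X * Real.exp (1 / K))) ∪ (seg (4 * X) (4 * X * Real.exp (1 / K))) then 8 else 0) := by
      intro n _
      refine le_trans ?_ (tkf_point hX0 hK hL)
      rw [hA]
      dsimp only
      rw [norm_mul, Complex.norm_real, Real.norm_eq_abs, mul_pow, sq_abs]
      exact mul_le_of_le_one_left (sq_nonneg _) (pow_le_one₀ (norm_nonneg _) (norm_fu_le hu n))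
    refine (Finset.sum_le_sum e1).trans ?_
    rw [Finset.sum_add_distrib, ← Finset.mul_sum]
    have e2 : ∑ n ∈ Finset.Icc 1 N, (if n ∈ (seg X (X * Real.exp (1 / K))) ∪ (seg (4 * X) (4 * X * Real.exp (1 / K))) then (8 : ℝ) else 0)
        ≤ 8 * (12 * (X / K)) := by
      rw [← Finset.sum_filter, Finset.sum_const, nsmul_eq_mul]
      have : (((Finset.Icc 1 N).filter (fun n => n ∈ (seg X (X * Real.exp (1 / K))) ∪ (seg (4 * X) (4 * X * Real.exp (1 / K))))).card : ℝ)
          ≤ (((seg X (X * Real.exp (1 / K))) ∪ (seg (4 * X) (4 * X * Real.exp (1 / K)))).card : ℝ) := by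
        have : (Finset.Icc 1 N).filter (fun n => n ∈ (seg X (X * Real.exp (1 / K))) ∪ (seg (4 * X) (4 * X * Real.exp (1 / K))))
            ⊆ (seg X (X * Real.exp (1 / K))) ∪ (seg (4 * X) (4 * X * Real.exp (1 / K))) := by
          intro n hn
          rw [Finset.mem_filter] at hn
          exact hn.2
        exact_mod_cast Finset.card_le_card this
      have := tkf_edge hKX hK
      linarith
    have e3 : 2 / L ^ 2 * ∑ n ∈ Finset.Icc 1 N, ((((((Finset.Ico a b).biUnion (sl K)).filter (fun p => p ∣ n)).card : ℕ) : ℝ) - L) ^ 2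
        ≤ 66 * X * (1 / L) := by
      calc 2 / L ^ 2 * ∑ n ∈ Finset.Icc 1 N, ((((((Finset.Ico a b).biUnion (sl K)).filter (fun p => p ∣ n)).card : ℕ) : ℝ) - L) ^ 2
          ≤ 2 / L ^ 2 * (3 * N * L) := by
            apply mul_le_mul_of_nonneg_left htk (by positivity)
        _ = 6 * N * (1 / L) := by
            field_simp
            ring
        _ ≤ 66 * X * (1 / L) := by
            apply mul_le_mul_of_nonneg_right _ (by positivity)
            linarith
    have e4 : 8 * (12 * (X / K)) = 96 * X * (1 / K) := by ring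
    have e5 : 66 * X * (1 / L) ≤ 96 * X * (1 / L) := by
      apply mul_le_mul_of_nonneg_right _ (by positivity)
      linarith only [hT, hTX]
    calc _ ≤ 66 * X * (1 / L) + 8 * (12 * (X / K)) := add_le_add e3 e2
      _ ≤ 96 * X * (1 / L) + 96 * X * (1 / K) := by rw [e4]; linarith only [e5]
      _ = 96 * X * (1 / L + 1 / K) := by ring
  have hTN : T + N ≤ 12 * X := by linarith
  have hN0 : (0 : ℝ) ≤ N := by positivity
  calc C₀ * (T + N) * ∑ n ∈ Finset.Icc 1 N, ‖A n‖ ^ 2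
      ≤ C₀ * (12 * X) * (96 * X * (1 / L + 1 / K)) := by
        apply mul_le_mul _ hsum (Finset.sum_nonneg fun n _ => by positivity) (by positivity)
        exact mul_le_mul_of_nonneg_left hTN hC₀.le
    _ = C₀ * 1152 * X ^ 2 * (1 / L + 1 / K) := by ring

end Pool.MP_67663b_nt.PS
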