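import Pool.Agent.Lib.MP_67663b_nt.PS.UDefs

set_option autoImplicit false
open Filter Topology MeasureTheory
namespace Pool.MP_67663b_nt.PS
open Pool.MP_67663b_nt.Odd Pool.MP_67663b_nt.MR

variable {u : ℕ → ℂ}

private theorem WBound_sub (hu : CM u) (t : ℝ) {x y : ℝ} (hx : 0 ≤ x) (hxy : x ≤ y) :
    ‖dp (seg x y) (fu u) t‖ ≤ y - x + 1 := by
  refine (norm_dp_le _ _ _).trans ((Finset.sum_le_sum fun n _ => norm_fu_le hu n).trans ?_)
  rw [Finset.sum_const, nsmul_eq_mul, mul_one]
  exact card_seg_le hx hxy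

private theorem WBound_split (t : ℝ) {x y : ℝ} (hxy : x ≤ y) :
    dp (seg 0 x) (fu u) t + dp (seg x y) (fu u) t =
      dp (seg 0 y) (fu u) t := by
  unfold dp seg
  rw [Nat.floor_zero]
  exact Finset.sum_Ioc_consecutive _ (Nat.zero_le _) (Nat.floor_le_floor hxy)

private noncomputable def WBoundS (u : ℕ → ℂ) (t y : ℝ) : ℝ := ‖dp (seg 0 y) (fu u) t‖

private theorem WBoundS_nonneg (t y : ℝ) : 0 ≤ WBoundS u t y := norm_nonneg _

private theorem WBoundS_le (hu : CM u) (t : ℝ) {y : ℝ} (hy : 0 ≤ y) : WBoundS u t y ≤ y := by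
  unfold WBoundS
  refine (norm_dp_le _ _ _).trans ((Finset.sum_le_sum fun n _ => norm_fu_le hu n).trans ?_)
  rw [Finset.sum_const, nsmul_eq_mul, mul_one]
  unfold seg
  rw [Nat.card_Ioc, Nat.floor_zero, Nat.sub_zero]
  exact Nat.floor_le hy

private theorem WBoundS_sub (hu : CM u) (t : ℝ) {x y : ℝ} (hx : 0 ≤ x) (hxy : x ≤ y) :
    WBoundS u t x ≤ WBoundS u t y + (y - x + 1) := by
  unfold WBoundS
  have h1 := WBound_split (u := u) t hxy
  have h2 : dp (seg 0 x) (fu u) t = dp (seg 0 y) (fu u) t -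
      dp (seg x y) (fu u) t := by
    rw [← h1]
    ring
  rw [h2]
  exact (norm_sub_le _ _).trans (add_le_add le_rfl (WBound_sub hu t hx hxy))

private theorem WBoundS_meas (t : ℝ) : Measurable (WBoundS u t) := by
  have h : Measurable (fun k : ℕ => ‖∑ n ∈ Finset.Ioc ⌊(0 : ℝ)⌋₊ k, (fu u n) * ep t n‖) :=
    measurable_from_top
  exact h.comp Nat.measurable_floor

private theorem WBound_int (hu : CM u) (t : ℝ) {A B : ℝ} (hA : 0 < A) (hAB : A ≤ B) :
    IntegrableOn (fun y => WBoundS u t y / y ^ 2) (Set.Ioc A B) := by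
  have hinv : IntegrableOn (fun y : ℝ => y⁻¹) (Set.Ioc A B) := by
    have : IntervalIntegrable (fun y : ℝ => y⁻¹) volume A B := by
      rw [intervalIntegrable_inv_iff]
      right
      rw [Set.uIcc_of_le hAB, Set.mem_Icc]
      intro h
      linarith [h.1]
    rwa [intervalIntegrable_iff_integrableOn_Ioc_of_le hAB] at this
  refine Integrable.mono' hinv ?_ ?_
  · exact ((WBoundS_meas t).div (by fun_prop)).aestronglyMeasurable
  · refine (ae_restrict_iff' measurableSet_Ioc).mpr (Eventually.of_forall fun y hy => ?_)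
    have hy0 : 0 < y := lt_trans hA hy.1
    have h1 := WBoundS_le hu t hy0.le
    have h0 := WBoundS_nonneg (u := u) t y
    rw [Real.norm_eq_abs, abs_of_nonneg (by positivity), div_le_iff₀ (by positivity)]
    have : y⁻¹ * y ^ 2 = y := by field_simp
    rw [this]
    exact h1

private theorem WBound_avg (hu : CM u) (t : ℝ) {M N : ℝ} (hN : 1 ≤ N) (hM : N ≤ M) :
    WBoundS u t M / M ≤ 2 / N + 4 * N * ∫ y in Set.Ioc M (M * (1 + 1 / N)), WBoundS u t y / y ^ 2 := by
  have hN0 : 0 < N := by linarith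
  have hM0 : 0 < M := by linarith
  have hMM : M ≤ M * (1 + 1 / N) := by
    have : 0 < 1 / N := by positivity
    nlinarith only [hM, hN, this]
  have hvol : volume.real (Set.Ioc M (M * (1 + 1 / N))) = M / N := by
    rw [Real.volume_real_Ioc_of_le hMM]
    ring
  have hint := WBound_int hu t hM0 hMM
  have h1 : ∫ _ in Set.Ioc M (M * (1 + 1 / N)), WBoundS u t M ≤
      ∫ y in Set.Ioc M (M * (1 + 1 / N)), (4 * M ^ 2 * (WBoundS u t y / y ^ 2) + 2 * M / N) := by
    refine setIntegral_mono_on ?_ ?_ measurableSet_Ioc fun y hy => ?_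
    · exact integrableOn_const (by simp)
    · exact (hint.const_mul _).add (integrableOn_const (by simp))
    · have hy0 : 0 < y := lt_trans hM0 hy.1
      have h2 := WBoundS_sub hu t hM0.le hy.1.le
      have h3 : y - M ≤ M / N := by
        have := hy.2
        have h4 : M * (1 + 1 / N) = M + M / N := by ring
        linarith
      have h4 : 1 ≤ M / N := by
        rw [one_le_div hN0]
        exact hM
      have h5 : y ≤ 2 * M := by
        have : M / N ≤ M := div_le_self hM0.le hN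
        linarith
      have h6 : WBoundS u t y ≤ 4 * M ^ 2 * (WBoundS u t y / y ^ 2) := by
        have h0 := WBoundS_nonneg (u := u) t y
        rw [← mul_div_assoc, le_div_iff₀ (by positivity)]
        have h7 : y ^ 2 ≤ 4 * M ^ 2 := by nlinarith only [h5, hM, hN, hy0]
        nlinarith only [h0, h7]
      have h7 : 2 * M / N = M / N + M / N := by ring
      rw [h7]
      linarith
  rw [integral_add (hint.const_mul _) (integrableOn_const (by simp)), integral_const_mul,
    setIntegral_const, setIntegral_const, hvol, smul_eq_mul, smul_eq_mul] at h1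
  set I := ∫ y in Set.Ioc M (M * (1 + 1 / N)), WBoundS u t y / y ^ 2 with hI
  have h8 : (N / M ^ 2) * (M / N * WBoundS u t M) = WBoundS u t M / M := by
    field_simp
  have h9 : (N / M ^ 2) * (4 * M ^ 2 * I + M / N * (2 * M / N)) = 2 / N + 4 * N * I := by
    field_simp
    ring
  rw [← h8, ← h9]
  exact mul_le_mul_of_nonneg_left h1 (by positivity)

private theorem WBound_disj (hu : CM u) (t : ℝ) {K : ℕ} (hK : 1 ≤ K) {N : ℝ} (hN : (K : ℝ) ≤ N) {Y A B : ℝ}
    (hY : 0 < Y) (hA : 0 < A) (hAB : A ≤ B) (s : Finset ℕ)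
    (hs : ∀ v ∈ s, A ≤ Y * Real.exp (-((v : ℝ) / K)) ∧
      Y * Real.exp (-((v : ℝ) / K)) * (1 + 1 / N) ≤ B) :
    ∑ v ∈ s, ∫ y in Set.Ioc (Y * Real.exp (-((v : ℝ) / K)))
        (Y * Real.exp (-((v : ℝ) / K)) * (1 + 1 / N)), WBoundS u t y / y ^ 2 ≤
      ∫ y in Set.Ioc A B, WBoundS u t y / y ^ 2 := by
  have hK0 : (0 : ℝ) < K := by exact_mod_cast hK
  have hsub : ∀ v ∈ s, Set.Ioc (Y * Real.exp (-((v : ℝ) / K)))
        (Y * Real.exp (-((v : ℝ) / K)) * (1 + 1 / N)) ⊆ Set.Ioc A B := fun v hv =>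
    Set.Ioc_subset_Ioc (hs v hv).1 (hs v hv).2
  have hstep : ∀ v w : ℕ, v < w → Y * Real.exp (-((w : ℝ) / K)) * (1 + 1 / N) ≤
      Y * Real.exp (-((v : ℝ) / K)) := by
    intro v w hvw
    have h1 : 1 + 1 / N ≤ Real.exp (1 / K) := by
      have h2 := Real.add_one_le_exp (1 / (K : ℝ))
      have h3 : 1 / N ≤ 1 / (K : ℝ) := one_div_le_one_div_of_le hK0 hN
      linarith only [h2, h3]
    have h4 : Y * Real.exp (-((w : ℝ) / K)) * (1 + 1 / N) ≤
        Y * Real.exp (-((w : ℝ) / K)) * Real.exp (1 / K) :=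
      mul_le_mul_of_nonneg_left h1 (by positivity)
    refine h4.trans ?_
    rw [mul_assoc, ← Real.exp_add]
    refine mul_le_mul_of_nonneg_left (Real.exp_le_exp.mpr ?_) hY.le
    have h5 : (v : ℝ) + 1 ≤ w := by exact_mod_cast hvw
    have h6 : (v : ℝ) / K ≤ ((w : ℝ) - 1) / K := div_le_div_of_nonneg_right (by linarith) hK0.le
    have h7 : ((w : ℝ) - 1) / K = (w : ℝ) / K - 1 / K := by ring
    linarith only [h6, h7]
  have hdis : Set.PairwiseDisjoint (s : Set ℕ) (fun v : ℕ => Set.Ioc (Y * Real.exp (-((v : ℝ) / K)))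
        (Y * Real.exp (-((v : ℝ) / K)) * (1 + 1 / N))) := by
    have haux : ∀ v w : ℕ, v < w → Disjoint (Set.Ioc (Y * Real.exp (-((v : ℝ) / K)))
        (Y * Real.exp (-((v : ℝ) / K)) * (1 + 1 / N))) (Set.Ioc (Y * Real.exp (-((w : ℝ) / K)))
        (Y * Real.exp (-((w : ℝ) / K)) * (1 + 1 / N))) := by
      intro v w hvw
      rw [Set.disjoint_left]
      intro y hy hy2
      have := hstep v w hvw
      linarith [hy.1, hy2.2]
    intro v _ w _ hvw
    rcases lt_or_gt_of_ne hvw with h | h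
    · exact haux v w h
    · exact (haux w v h).symm
  have hint := WBound_int hu t hA hAB
  rw [← integral_biUnion_finset s (fun v _ => measurableSet_Ioc) hdis
    (fun v hv => hint.mono_set (hsub v hv))]
  refine setIntegral_mono_set hint (Eventually.of_forall fun y => ?_)
    (Eventually.of_forall (Set.iUnion₂_subset hsub))
  have h0 := WBoundS_nonneg (u := u) t y
  show 0 ≤ WBoundS u t y / y ^ 2
  positivity

/-- The Liouville polynomials are small on average over the slices. -/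
theorem w_bound_u (hu : CM u) (hH : HA u) {K : ℕ} (hK : 1 ≤ K) {ε1 δ : ℝ} (hε1 : 0 < ε1) (hδ : 0 < δ) : ∃ X0 : ℝ, ∀ X ≥ X0,
    ∀ (t : ℝ) (a b : ℕ), |t| ≤ X → ε1 * Real.log X ≤ (a : ℝ) / K → (b : ℝ) / K ≤ (1 / 10) * Real.log X →
    ∑ v ∈ Finset.Ico a b, (1 / (v : ℝ)) * (‖Ru u X K v t‖ / (X * Real.exp (-((v : ℝ) / K)))) ^ 2 ≤ δ := by
  have hK0 : (0 : ℝ) < K := by exact_mod_cast hK
  have hK1 : (1 : ℝ) ≤ K := by exact_mod_cast hK
  set N : ℝ := max K (8 / (ε1 * δ)) with hNdef
  have hNK : (K : ℝ) ≤ N := le_max_left _ _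
  have hN2 : 8 / (ε1 * δ) ≤ N := le_max_right _ _
  have hN1 : 1 ≤ N := hK1.trans hNK
  have hN0 : 0 < N := by linarith
  set δ' : ℝ := K * ε1 * δ / (256 * N) with hδ'
  have hδ'0 : 0 < δ' := by positivity
  obtain ⟨X1, hX1⟩ := hH _ hδ'0
  have hev := Real.tendsto_log_atTop.eventually (eventually_ge_atTop
    (max (max 1 (1 / ε1)) (2 * Real.log N)))
  obtain ⟨X2, hX2⟩ := eventually_atTop.mp hev
  refine ⟨max (max X1 X2) 3, fun X hX t a b ht ha hb => ?_⟩
  have hXX1 : X ≥ X1 := le_trans (le_trans (le_max_left _ _) (le_max_left _ _)) hX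
  have hXX2 : X ≥ X2 := le_trans (le_trans (le_max_right _ _) (le_max_left _ _)) hX
  have hX3 : 3 ≤ X := le_trans (le_max_right _ _) hX
  have hX0 : 0 < X := by linarith only [hX3]
  have hLL := hX2 X hXX2
  have hI := hX1 X hXX1 t ht
  set L := Real.log X with hLdef
  have hL1 : 1 ≤ L := le_trans (le_trans (le_max_left _ _) (le_max_left _ _)) hLL
  have hLε : 1 / ε1 ≤ L := le_trans (le_trans (le_max_right _ _) (le_max_left _ _)) hLL
  have hLN : 2 * Real.log N ≤ L := le_trans (le_max_right _ _) hLL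
  have hL0 : 0 < L := by linarith only [hL1]
  have hXexp : X = Real.exp L := (Real.exp_log hX0).symm
  have hsq : Real.sqrt X = Real.exp (L / 2) := by
    rw [hXexp, Real.sqrt_eq_rpow, ← Real.exp_mul]
    congr 1
    ring
  have hsqN : N ≤ Real.sqrt X := by
    rw [hsq, ← Real.exp_log hN0]
    exact Real.exp_le_exp.mpr (by linarith only [hLN])
  have hsq0 : 0 < Real.sqrt X := by linarith
  have hsqle : Real.sqrt X ≤ 4 * X := by
    rw [Real.sqrt_le_left (by linarith)]
    nlinarith only [hX3]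
  rw [intervalIntegral.integral_of_le hsqle] at hI
  have hI' : ∫ y in Set.Ioc (Real.sqrt X) (4 * X), WBoundS u t y / y ^ 2 ≤ δ' * L := hI
  have hεL : 1 ≤ ε1 * L := by
    rw [div_le_iff₀ hε1] at hLε
    linarith
  have haK : 0 < (a : ℝ) := by
    have h1 : 0 < (a : ℝ) / K := by linarith
    by_contra hcon
    push Not at hcon
    have : (a : ℝ) / K ≤ 0 := div_nonpos_of_nonpos_of_nonneg hcon hK0.le
    linarith
  have hM : ∀ v ∈ Finset.Ico a b, Real.sqrt X ≤ X * Real.exp (-((v : ℝ) / K)) ∧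
      X * Real.exp (-((v : ℝ) / K)) ≤ X / 2 := by
    intro v hv
    rw [Finset.mem_Ico] at hv
    have h1 : (a : ℝ) ≤ v := by exact_mod_cast hv.1
    have h2 : (v : ℝ) ≤ b := by exact_mod_cast hv.2.le
    have h3 : (a : ℝ) / K ≤ v / K := div_le_div_of_nonneg_right h1 hK0.le
    have h4 : (v : ℝ) / K ≤ b / K := div_le_div_of_nonneg_right h2 hK0.le
    constructor
    · have h5 : X * Real.exp (-((v : ℝ) / K)) = Real.exp (L + -((v : ℝ) / K)) := by
        rw [Real.exp_add, ← hXexp]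
      rw [hsq, h5]
      refine Real.exp_le_exp.mpr ?_
      linarith
    · have h5 : Real.exp (-((v : ℝ) / K)) ≤ Real.exp (-1) := Real.exp_le_exp.mpr (by linarith)
      have h6 : Real.exp (-1) ≤ 1 / 2 := by
        rw [Real.exp_neg, inv_eq_one_div]
        refine one_div_le_one_div_of_le (by norm_num) ?_
        have := Real.add_one_le_exp (1 : ℝ)
        linarith
      have h7 := mul_le_mul_of_nonneg_left (h5.trans h6) hX0.le
      linarith
  have hD1 := WBound_disj hu t hK hNK hX0 hsq0 hsqle (Finset.Ico a b) (fun v hv => by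
    obtain ⟨h1, h2⟩ := hM v hv
    refine ⟨h1, ?_⟩
    have h3 : 1 + 1 / N ≤ 2 := by
      have : 1 / N ≤ 1 := by
        rw [div_le_one hN0]
        exact hN1
      linarith
    have h4 : 0 < X * Real.exp (-((v : ℝ) / K)) := by positivity
    nlinarith only [h1, h2, h3, hNK, hX3, hsqN])
  have hD2 := WBound_disj hu t hK hNK (show 0 < 4 * X by linarith) hsq0 hsqle (Finset.Ico a b)
    (fun v hv => by
    obtain ⟨h1, h2⟩ := hM v hv
    have h3 : 1 + 1 / N ≤ 2 := by
      have : 1 / N ≤ 1 := by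
        rw [div_le_one hN0]
        exact hN1
      linarith only [this]
    have h4 : 0 < X * Real.exp (-((v : ℝ) / K)) := by positivity
    constructor
    · linarith
    · nlinarith only [h1, h2, h3, hNK, hsqN])
  set I1 : ℕ → ℝ := fun v => ∫ y in Set.Ioc (X * Real.exp (-((v : ℝ) / K)))
        (X * Real.exp (-((v : ℝ) / K)) * (1 + 1 / N)), WBoundS u t y / y ^ 2 with hI1
  set I2 : ℕ → ℝ := fun v => ∫ y in Set.Ioc (4 * X * Real.exp (-((v : ℝ) / K)))
        (4 * X * Real.exp (-((v : ℝ) / K)) * (1 + 1 / N)), WBoundS u t y / y ^ 2 with hI2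
  have hD1' : ∑ v ∈ Finset.Ico a b, I1 v ≤ δ' * L := hD1.trans hI'
  have hD2' : ∑ v ∈ Finset.Ico a b, I2 v ≤ δ' * L := hD2.trans hI'
  have hI1n : ∀ v, 0 ≤ I1 v := fun v => integral_nonneg fun y => by
    have h0 := WBoundS_nonneg (u := u) t y
    show 0 ≤ WBoundS u t y / y ^ 2
    positivity
  have hI2n : ∀ v, 0 ≤ I2 v := fun v => integral_nonneg fun y => by
    have h0 := WBoundS_nonneg (u := u) t y
    show 0 ≤ WBoundS u t y / y ^ 2
    positivity
  have hterm : ∀ v ∈ Finset.Ico a b, (1 / (v : ℝ)) *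
      (‖Ru u X K v t‖ / (X * Real.exp (-((v : ℝ) / K)))) ^ 2 ≤
      (1 / (K * ε1 * L)) * (4 * (10 / N + 16 * N * (I1 v + I2 v))) := by
    intro v hv
    obtain ⟨hM1, hM2⟩ := hM v hv
    rw [Finset.mem_Ico] at hv
    have h1 : (a : ℝ) ≤ v := by exact_mod_cast hv.1
    set M := X * Real.exp (-((v : ℝ) / K)) with hMdef
    have hMN : N ≤ M := hsqN.trans hM1
    have hM0 : 0 < M := by linarith only [hK0, hM1, hNK, hsqN]
    have hM1' : 1 ≤ M := by linarith
    have h4M : 4 * X * Real.exp (-((v : ℝ) / K)) = 4 * M := by rw [hMdef]; ring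
    have hR1 : ‖Ru u X K v t‖ ≤ 4 * M := by
      have := WBound_sub hu t hM0.le (show M ≤ 4 * M by linarith)
      have h2 : Ru u X K v t = dp (seg M (4 * M)) (fu u) t := rfl
      rw [h2]
      linarith
    have hR2 : ‖Ru u X K v t‖ ≤ WBoundS u t (4 * M) + WBoundS u t M := by
      have h2 : Ru u X K v t = dp (seg 0 (4 * M)) (fu u) t -
          dp (seg 0 M) (fu u) t := by
        rw [← WBound_split t (show M ≤ 4 * M by linarith)]
        have h2 : Ru u X K v t = dp (seg M (4 * M)) (fu u) t := rfl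
        rw [h2]
        ring
      rw [h2]
      exact norm_sub_le _ _
    have hA1 := WBound_avg hu t hN1 hMN
    have hA2 := WBound_avg hu t hN1 (show N ≤ 4 * M by linarith only [hK0, hM1, hNK, hsqN])
    have hA2' : WBoundS u t (4 * M) / M ≤ 4 * (2 / N + 4 * N * I2 v) := by
      have h3 : WBoundS u t (4 * M) / M = 4 * (WBoundS u t (4 * M) / (4 * M)) := by
        field_simp
      rw [h3]
      refine mul_le_mul_of_nonneg_left ?_ (by norm_num)
      rw [hI2]
      simp only
      rw [h4M]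
      exact hA2
    have hR3 : ‖Ru u X K v t‖ / M ≤ 10 / N + 16 * N * (I1 v + I2 v) := by
      have h3 : ‖Ru u X K v t‖ / M ≤ WBoundS u t (4 * M) / M + WBoundS u t M / M := by
        rw [← add_div]
        exact div_le_div_of_nonneg_right hR2 hM0.le
      refine h3.trans ((add_le_add hA2' hA1).trans ?_)
      have h4 : 0 ≤ N * I1 v := mul_nonneg hN0.le (hI1n v)
      have h5 : 4 * (2 / N + 4 * N * I2 v) + (2 / N + 4 * N * I1 v) =
        10 / N + 16 * N * (I1 v + I2 v) - 12 * (N * I1 v) := by ring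
      have h6 : ∫ y in Set.Ioc M (M * (1 + 1 / N)), WBoundS u t y / y ^ 2 = I1 v := rfl
      rw [h6, h5]
      linarith only [h4]
    have hR4 : ‖Ru u X K v t‖ / M ≤ 4 := by
      rw [div_le_iff₀ hM0]
      exact hR1
    have hR0 : 0 ≤ ‖Ru u X K v t‖ / M := by positivity
    have h6 : (‖Ru u X K v t‖ / M) ^ 2 ≤ 4 * (10 / N + 16 * N * (I1 v + I2 v)) := by
      nlinarith only [hR0, hR3, hR4]
    have h7 : 1 / (v : ℝ) ≤ 1 / (K * ε1 * L) := by
      refine one_div_le_one_div_of_le (by positivity) ?_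
      rw [le_div_iff₀ hK0] at ha
      linarith only [h1, ha]
    refine mul_le_mul h7 h6 (by positivity) (by positivity)
  refine (Finset.sum_le_sum hterm).trans ?_
  rw [← Finset.mul_sum, ← Finset.mul_sum, Finset.sum_add_distrib, ← Finset.mul_sum,
    Finset.sum_add_distrib, Finset.sum_const, Nat.card_Ico, nsmul_eq_mul]
  have hcard : ((b - a : ℕ) : ℝ) ≤ K * L / 10 := by
    have h1 : ((b - a : ℕ) : ℝ) ≤ b := by exact_mod_cast Nat.sub_le b a
    rw [div_le_iff₀ hK0] at hb
    linarith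
  have h1 : ((b - a : ℕ) : ℝ) * (10 / N) ≤ K * L / N := by
    have h2 := mul_le_mul_of_nonneg_right hcard (show 0 ≤ 10 / N by positivity)
    have h3 : K * L / 10 * (10 / N) = K * L / N := by ring
    linarith
  have h2 : 16 * N * (∑ v ∈ Finset.Ico a b, I1 v + ∑ v ∈ Finset.Ico a b, I2 v) ≤
      16 * N * (2 * (δ' * L)) := by
    refine mul_le_mul_of_nonneg_left ?_ (by positivity)
    linarith
  have h3 : (1 / (K * ε1 * L)) * (4 * (K * L / N + 16 * N * (2 * (δ' * L)))) ≤ δ := by
    have h4 : (1 / (K * ε1 * L)) * (4 * (K * L / N + 16 * N * (2 * (δ' * L)))) =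
        4 / (ε1 * N) + δ / 2 := by
      rw [hδ']
      field_simp
      ring
    rw [h4]
    have h5 : 4 / (ε1 * N) ≤ δ / 2 := by
      rw [div_le_iff₀ (by positivity)] at hN2 ⊢
      nlinarith only [hN2]
    linarith
  refine le_trans ?_ h3
  refine mul_le_mul_of_nonneg_left ?_ (by positivity)
  refine mul_le_mul_of_nonneg_left ?_ (by norm_num)
  exact add_le_add h1 h2

end Pool.MP_67663b_nt.PS
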