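import Pool.Agent.Lib.MP_67663b_nt.PS.UDefs
import Pool.Agent.Lib.MP_67663b_nt.PS.TKFu
import Pool.Agent.Lib.MP_67663b_nt.MR.HalMont
import Pool.Agent.Lib.MP_67663b_nt.PS.PrimeLSu
import Pool.Agent.Lib.MP_67663b_nt.PS.WBoundu
import Pool.Agent.Lib.MP_67663b_nt.MR.Disc
import Pool.Agent.Lib.MP_67663b_nt.MR.Mertens

set_option autoImplicit false
open Filter Topology MeasureTheory
namespace Pool.MP_67663b_nt.PS
open Pool.MP_67663b_nt.Odd Pool.MP_67663b_nt.MR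

variable {u : ℕ → ℂ}

/-- Choice of the slice range. -/
private theorem finalU_range {K : ℕ} (hK : 1 ≤ K) {R ε1 : ℝ} (hR : 1 ≤ R)
    (hε1 : ε1 = Real.exp (-R) / 80) {X : ℝ} (hX : 1 ≤ ε1 * Real.log X) :
    ∃ a b : ℕ, K ≤ a ∧ a < b ∧ R ≤ Real.log ((b : ℝ) / a) ∧ ε1 * Real.log X ≤ (a : ℝ) / K ∧
      (b : ℝ) / K ≤ (1 / 20) * Real.log X ∧ (b : ℝ) / a ≤ 1 / (20 * ε1) := by
  have hε1p : 0 < ε1 := by rw [hε1]; positivity
  have hK0 : (0 : ℝ) < K := by exact_mod_cast hK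
  have hK1 : (1 : ℝ) ≤ K := by exact_mod_cast hK
  set L := Real.log X with hL
  have hLp : 0 < L := by
    by_contra h
    have : ε1 * L ≤ 0 := mul_nonpos_of_nonneg_of_nonpos hε1p.le (not_lt.mp h)
    linarith only [hX, this]
  have hexp : Real.exp R * ε1 = 1 / 80 := by
    rw [hε1, ← mul_div_assoc, ← Real.exp_add]
    simp
  have hKL : (K : ℝ) ≤ K * (ε1 * L) := by nlinarith only [hX]
  set a : ℕ := ⌈(K : ℝ) * (ε1 * L)⌉₊ with ha
  set b : ℕ := ⌊(K : ℝ) * ((1 / 20) * L)⌋₊ with hb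
  have ha1 : (K : ℝ) * (ε1 * L) ≤ a := Nat.le_ceil _
  have ha2 : (a : ℝ) < K * (ε1 * L) + 1 := Nat.ceil_lt_add_one (by positivity)
  have ha3 : (a : ℝ) ≤ 2 * (K * (ε1 * L)) := by linarith only [hK1, hKL, ha2]
  have hb1 : (b : ℝ) ≤ K * ((1 / 20) * L) := Nat.floor_le (by positivity)
  have hb2 : (K : ℝ) * ((1 / 20) * L) < b + 1 := Nat.lt_floor_add_one _
  have hexpR : 2 ≤ Real.exp R := by
    have := Real.add_one_le_exp R
    linarith only [hR, this]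
  -- (1/20) = 4 ε1 exp R
  have h20 : (1 / 20 : ℝ) = 4 * (Real.exp R * ε1) := by rw [hexp]; norm_num
  have hb3 : Real.exp R * (2 * (K * (ε1 * L))) ≤ b := by
    have h1 : (K : ℝ) * ((1 / 20) * L) = 4 * Real.exp R * (K * (ε1 * L)) := by rw [h20]; ring
    have h2 : 1 ≤ (K : ℝ) * (ε1 * L) := hK1.trans hKL
    rw [h1] at hb2
    nlinarith only [h1, hK1, hKL, hb2, hexp, hexpR, hε1p]
  have ha0 : (0 : ℝ) < a := by linarith only [hK0, hKL, ha1]
  have hba : Real.exp R ≤ (b : ℝ) / a := by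
    rw [le_div_iff₀ ha0]
    refine le_trans ?_ hb3
    exact mul_le_mul_of_nonneg_left ha3 (Real.exp_pos _).le
  refine ⟨a, b, ?_, ?_, ?_, ?_, ?_, ?_⟩
  · have : (K : ℝ) ≤ a := hKL.trans ha1
    exact_mod_cast this
  · have h1 : (1 : ℝ) < (b : ℝ) / a := by linarith only [hba, hexpR]
    rw [lt_div_iff₀ ha0] at h1
    have h2 : (a : ℝ) < b := by linarith only [h1]
    exact_mod_cast h2
  · rw [Real.le_log_iff_exp_le (by linarith only [hba, hexpR])]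
    exact hba
  · rw [le_div_iff₀ hK0]
    linarith only [ha1]
  · rw [div_le_iff₀ hK0]
    linarith only [hb1]
  · rw [div_le_div_iff₀ ha0 (by positivity)]
    nlinarith only [ha1, hb1, hε1p]

/-- Cauchy-Schwarz with weights. -/
private theorem finalU_cs (I : Finset ℕ) (z w : ℕ → ℂ) (c d : ℕ → ℝ) (X : ℝ) (hX : 0 ≤ X)
    (h : ∀ v ∈ I, ‖z v * w v‖ ≤ X * ((1 / (v : ℝ)) * (c v * d v))) :
    ‖∑ v ∈ I, z v * w v‖ ^ 2 ≤ X ^ 2 * ((∑ v ∈ I, (1 / (v : ℝ)) * (c v) ^ 2) *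
      (∑ v ∈ I, (1 / (v : ℝ)) * (d v) ^ 2)) := by
  have h1 : ‖∑ v ∈ I, z v * w v‖ ≤ |X * ∑ v ∈ I, (1 / (v : ℝ)) * (c v * d v)| := by
    refine (norm_sum_le _ _).trans (le_trans (Finset.sum_le_sum h) ?_)
    rw [← Finset.mul_sum]
    exact le_abs_self _
  have h2 : (∑ v ∈ I, (1 / (v : ℝ)) * (c v * d v)) ^ 2 ≤ (∑ v ∈ I, (1 / (v : ℝ)) * (c v) ^ 2) *
      (∑ v ∈ I, (1 / (v : ℝ)) * (d v) ^ 2) := by
    have := Finset.sum_mul_sq_le_sq_mul_sq I (fun v => Real.sqrt (1 / (v : ℝ)) * c v)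
      (fun v => Real.sqrt (1 / (v : ℝ)) * d v)
    have e1 : ∀ v : ℕ, Real.sqrt (1 / (v : ℝ)) * Real.sqrt (1 / (v : ℝ)) = 1 / (v : ℝ) := fun v =>
      Real.mul_self_sqrt (by positivity)
    have e2 : (∑ v ∈ I, (Real.sqrt (1 / (v : ℝ)) * c v) * (Real.sqrt (1 / (v : ℝ)) * d v)) =
        ∑ v ∈ I, (1 / (v : ℝ)) * (c v * d v) := by
      refine Finset.sum_congr rfl fun v _ => ?_
      linear_combination (c v * d v) * e1 v
    have e3 : (∑ v ∈ I, (Real.sqrt (1 / (v : ℝ)) * c v) ^ 2) = ∑ v ∈ I, (1 / (v : ℝ)) * (c v) ^ 2 := by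
      refine Finset.sum_congr rfl fun v _ => ?_
      linear_combination (c v ^ 2) * e1 v
    have e4 : (∑ v ∈ I, (Real.sqrt (1 / (v : ℝ)) * d v) ^ 2) = ∑ v ∈ I, (1 / (v : ℝ)) * (d v) ^ 2 := by
      refine Finset.sum_congr rfl fun v _ => ?_
      linear_combination (d v ^ 2) * e1 v
    rw [e2, e3, e4] at this
    exact this
  calc ‖∑ v ∈ I, z v * w v‖ ^ 2 ≤ |X * ∑ v ∈ I, (1 / (v : ℝ)) * (c v * d v)| ^ 2 :=
        pow_le_pow_left₀ (norm_nonneg _) h1 2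
    _ = X ^ 2 * (∑ v ∈ I, (1 / (v : ℝ)) * (c v * d v)) ^ 2 := by rw [sq_abs]; ring
    _ ≤ _ := mul_le_mul_of_nonneg_left h2 (sq_nonneg _)

/-- The discrete bound. -/
private theorem finalU_disc (I : Finset ℕ) (S : Finset ℝ) (q r : ℕ → ℝ → ℝ) (L0 CP CH δ η : ℝ)
    (hCP : 0 ≤ CP) (hCH : 0 ≤ CH) (hδ : 0 ≤ δ) (hη : 0 < η)
    (hw : ∑ v ∈ I, (1 / (v : ℝ)) ≤ L0)
    (hq : ∀ S' ⊆ S, S'.card ≤ ⌊CP * L0 / η⌋₊ + 1 → ∀ v ∈ I, ∑ t ∈ S', (q v t) ^ 2 ≤ CP)
    (hr : ∀ v ∈ I, ∑ t ∈ S, (r v t) ^ 2 ≤ CH)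
    (hδw : ∀ t ∈ S, ∑ v ∈ I, (1 / (v : ℝ)) * (r v t) ^ 2 ≤ δ) :
    ∑ t ∈ S, (∑ v ∈ I, (1 / (v : ℝ)) * (q v t) ^ 2) * (∑ v ∈ I, (1 / (v : ℝ)) * (r v t) ^ 2)
      ≤ CP * L0 * δ + η * (CH * L0) := by
  classical
  set Z : ℝ → ℝ := fun t => ∑ v ∈ I, (1 / (v : ℝ)) * (q v t) ^ 2 with hZ
  set W : ℝ → ℝ := fun t => ∑ v ∈ I, (1 / (v : ℝ)) * (r v t) ^ 2 with hW
  have hZ0 : ∀ t, 0 ≤ Z t := fun t => Finset.sum_nonneg fun v _ => by positivity
  have hW0 : ∀ t, 0 ≤ W t := fun t => Finset.sum_nonneg fun v _ => by positivity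
  have hswap : ∀ (S' : Finset ℝ) (g : ℕ → ℝ → ℝ) (B : ℝ), 0 ≤ B → (∀ v ∈ I, ∑ t ∈ S', (g v t) ^ 2 ≤ B) →
      ∑ t ∈ S', ∑ v ∈ I, (1 / (v : ℝ)) * (g v t) ^ 2 ≤ B * L0 := by
    intro S' g B hB hg
    rw [Finset.sum_comm]
    calc ∑ v ∈ I, ∑ t ∈ S', (1 / (v : ℝ)) * (g v t) ^ 2 = ∑ v ∈ I, (1 / (v : ℝ)) * ∑ t ∈ S', (g v t) ^ 2 := by
          refine Finset.sum_congr rfl fun v _ => ?_
          rw [Finset.mul_sum]
      _ ≤ ∑ v ∈ I, (1 / (v : ℝ)) * B :=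
          Finset.sum_le_sum fun v hv => mul_le_mul_of_nonneg_left (hg v hv) (by positivity)
      _ = B * ∑ v ∈ I, (1 / (v : ℝ)) := by rw [← Finset.sum_mul, mul_comm]
      _ ≤ B * L0 := mul_le_mul_of_nonneg_left hw hB
  set S2 := S.filter (fun t => η < Z t) with hS2
  have hcard : S2.card ≤ ⌊CP * L0 / η⌋₊ + 1 := by
    by_contra hlt
    push Not at hlt
    obtain ⟨S', hS', hS'c⟩ := Finset.exists_subset_card_eq hlt.le
    have h1 : ∑ t ∈ S', Z t ≤ CP * L0 :=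
      hswap S' q CP hCP (hq S' (hS'.trans (Finset.filter_subset _ _)) hS'c.le)
    have h2 : (S'.card : ℝ) * η ≤ ∑ t ∈ S', Z t := by
      rw [← nsmul_eq_mul, ← Finset.sum_const]
      refine Finset.sum_le_sum fun t ht => ?_
      exact (Finset.mem_filter.mp (hS' ht)).2.le
    rw [hS'c] at h2
    have h3 : CP * L0 / η < (⌊CP * L0 / η⌋₊ : ℝ) + 1 := Nat.lt_floor_add_one _
    rw [div_lt_iff₀ hη] at h3
    push_cast at h2
    linarith only [h1, h2, h3]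
  have hsplit : ∑ t ∈ S, Z t * W t = ∑ t ∈ S2, Z t * W t + ∑ t ∈ S.filter (fun t => ¬ η < Z t), Z t * W t :=
    (Finset.sum_filter_add_sum_filter_not S _ _).symm
  rw [hsplit]
  have hA : ∑ t ∈ S2, Z t * W t ≤ CP * L0 * δ := by
    calc ∑ t ∈ S2, Z t * W t ≤ ∑ t ∈ S2, Z t * δ :=
          Finset.sum_le_sum fun t ht =>
            mul_le_mul_of_nonneg_left (hδw t (Finset.mem_filter.mp ht).1) (hZ0 t)
      _ = (∑ t ∈ S2, Z t) * δ := by rw [Finset.sum_mul]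
      _ ≤ CP * L0 * δ := mul_le_mul_of_nonneg_right
          (hswap S2 q CP hCP (hq S2 (Finset.filter_subset _ _) hcard)) hδ
  have hB : ∑ t ∈ S.filter (fun t => ¬ η < Z t), Z t * W t ≤ η * (CH * L0) := by
    calc ∑ t ∈ S.filter (fun t => ¬ η < Z t), Z t * W t
        ≤ ∑ t ∈ S.filter (fun t => ¬ η < Z t), η * W t :=
          Finset.sum_le_sum fun t ht =>
            mul_le_mul_of_nonneg_right (not_lt.mp (Finset.mem_filter.mp ht).2) (hW0 t)
      _ ≤ ∑ t ∈ S, η * W t := Finset.sum_le_sum_of_subset_of_nonneg (Finset.filter_subset _ _)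
          fun t _ _ => mul_nonneg hη.le (hW0 t)
      _ = η * ∑ t ∈ S, W t := by rw [Finset.mul_sum]
      _ ≤ η * (CH * L0) := mul_le_mul_of_nonneg_left (hswap S r CH hCH hr) hη.le
  exact add_le_add hA hB

/-- The contribution of a small exceptional set. -/
theorem final_U_u (hu : CM u) (hH : HA u) : ∃ c1 : ℝ, 0 < c1 ∧ ∀ ε : ℝ, 0 < ε → ∃ X0 : ℝ, ∀ X ≥ X0, ∀ U : Set ℝ, MeasurableSet U →
    U ⊆ Set.Icc (-X) X → (∀ S : Finset ℝ, Spaced S → (∀ t ∈ S, t ∈ U) → (S.card : ℝ) ≤ X ^ c1) →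
    ∫ t in U, ‖Gu u X t‖ ^ 2 ≤ ε * X ^ 2 := by
  obtain ⟨c1, hc1, CH, hCH, hal⟩ := hal_mont
  obtain ⟨CT, hCT, htk⟩ := tk_factor_u hu
  obtain ⟨c, hc, CM, hmert⟩ := mert_low
  refine ⟨c1, hc1, fun ε hε => ?_⟩
  -- parameters
  obtain ⟨K, hKbig⟩ := exists_nat_gt (8 * CT / ε)
  have hK0 : (0 : ℝ) < K := lt_trans (by positivity) hKbig
  have hK : 1 ≤ K := by
    have : 0 < K := by exact_mod_cast hK0
    omega
  have hKT : CT / K ≤ ε / 8 := by
    rw [div_lt_iff₀ hε] at hKbig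
    rw [div_le_iff₀ hK0]
    linarith
  set Ls : ℝ := max 1 (8 * CT / ε) with hLs
  have hLs1 : 1 ≤ Ls := le_max_left _ _
  have hLsT : CT / Ls ≤ ε / 8 := by
    have h1 : 8 * CT / ε ≤ Ls := le_max_right _ _
    rw [div_le_iff₀ hε] at h1
    rw [div_le_iff₀ (by linarith)]
    linarith
  set R : ℝ := max 1 ((Ls + CM) / c) with hRdef
  have hR1 : 1 ≤ R := le_max_left _ _
  have hRc : Ls + CM ≤ c * R := by
    have h1 : (Ls + CM) / c ≤ R := le_max_right _ _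
    rw [div_le_iff₀ hc] at h1
    linarith only [h1]
  set ε1 : ℝ := Real.exp (-R) / 80 with hε1def
  have hε1 : 0 < ε1 := by rw [hε1def]; positivity
  obtain ⟨CP, hCP, hprime⟩ := prime_ls_u hu.le hε1 hK
  set L0 : ℝ := 1 / (20 * ε1) with hL0def
  have hL0 : 0 < L0 := by rw [hL0def]; positivity
  set δ : ℝ := ε / (32 * (CP * L0)) with hδdef
  have hδ : 0 < δ := by rw [hδdef]; positivity
  set η : ℝ := ε / (32 * (CH * L0)) with hηdef
  have hη : 0 < η := by rw [hηdef]; positivity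
  obtain ⟨XP, hXP⟩ := hprime (⌊CP * L0 / η⌋₊ + 1)
  obtain ⟨XW, hXW⟩ := w_bound_u hu hH hK hε1 hδ
  refine ⟨max (max XP XW) (max (Real.exp (1 / ε1)) (max (K : ℝ) 1)), fun X hX U hU hUX hS => ?_⟩
  have hX1 : XP ≤ X := le_trans (le_trans (le_max_left _ _) (le_max_left _ _)) hX
  have hX2 : XW ≤ X := le_trans (le_trans (le_max_right _ _) (le_max_left _ _)) hX
  have hX3 : Real.exp (1 / ε1) ≤ X := le_trans (le_trans (le_max_left _ _) (le_max_right _ _)) hX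
  have hX4 : (K : ℝ) ≤ X :=
    le_trans (le_trans (le_max_left _ _) (le_trans (le_max_right _ _) (le_max_right _ _))) hX
  have hX5 : (1 : ℝ) ≤ X :=
    le_trans (le_trans (le_max_right _ _) (le_trans (le_max_right _ _) (le_max_right _ _))) hX
  have hX0 : 0 < X := by linarith
  have hlogX : 1 / ε1 ≤ Real.log X := (Real.le_log_iff_exp_le hX0).mpr hX3
  have hlog1 : 1 ≤ ε1 * Real.log X := by
    rw [div_le_iff₀ hε1] at hlogX
    linarith
  have hlogp : 0 ≤ Real.log X := Real.log_nonneg hX5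
  obtain ⟨a, b, hKa, hab, hRab, haX, hbX, hbaL⟩ := finalU_range hK hR1 hε1def hlog1
  have ha0 : (0 : ℝ) < a := by
    have : 0 < a := by omega
    exact_mod_cast this
  -- Lm
  have hLm : Ls ≤ Lm K a b := by
    have := hmert K a b hK hKa hab
    have h2 : c * R ≤ c * Real.log ((b : ℝ) / a) := mul_le_mul_of_nonneg_left hRab hc.le
    linarith only [h2, hRc, this]
  have hLm1 : 1 ≤ Lm K a b := hLs1.trans hLm
  have hLm0 : 0 < Lm K a b := by linarith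
  set L : ℝ := Lm K a b with hLdef
  -- the Turan-Kubilius part
  set F : ℝ → ℂ := fun t => ∑ v ∈ Finset.Ico a b, Qu u K v t * Ru u X K v t with hF
  have hFc : Continuous F := by
    rw [hF]
    exact continuous_finsetSum _ fun v _ => (continuous_Qu u K v).mul (continuous_Ru u X K v)
  set E : ℝ → ℂ := fun t => Gu u X t + ((1 / L : ℝ) : ℂ) * F t with hE
  have hEc : Continuous E := (continuous_Gu u X).add (continuous_const.mul hFc)
  have htk' : ∫ t in (-X)..X, ‖E t‖ ^ 2 ≤ CT * X ^ 2 * (1 / L + 1 / K) := by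
    refine htk X X K a b hK hab ?_ hX4 hLm0 hX5 le_rfl
    rw [← Real.le_log_iff_exp_le hX0]
    linarith only [hbX, hlogp]
  have hvol : volume U < ⊤ := lt_of_le_of_lt (measure_mono hUX) (by simp)
  have hint : ∀ g : ℝ → ℝ, Continuous g → IntegrableOn g U := fun g hg =>
    (hg.continuousOn.integrableOn_Icc (a := -X) (b := X)).mono_set hUX
  have hEint : ∫ t in U, ‖E t‖ ^ 2 ≤ CT * X ^ 2 * (1 / L + 1 / K) := by
    refine le_trans ?_ htk'
    rw [intervalIntegral.integral_of_le (by linarith only [hK0, hX4]), ← integral_Icc_eq_integral_Ioc]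
    refine setIntegral_mono_set ?_ ?_ (ae_of_all _ hUX)
    · exact (by fun_prop : Continuous fun t => ‖E t‖ ^ 2).continuousOn.integrableOn_Icc
    · exact ae_of_all _ fun t => by positivity
  -- the bilinear part
  have hFint : ∫ t in U, ‖F t‖ ^ 2 ≤ 4 * (X ^ 2 * (CP * L0 * δ + η * (CH * L0))) := by
    obtain ⟨S, hSsp, hSU, hSint⟩ := disc_le (fun t => ‖F t‖ ^ 2) (by fun_prop) (fun t => by positivity) U hU X hUX
    refine hSint.trans (mul_le_mul_of_nonneg_left ?_ (by norm_num))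
    have hSX : ∀ t ∈ S, |t| ≤ X := fun t ht => abs_le.mpr (hUX (hSU t ht))
    have hScard := hS S hSsp hSU
    have hvI : ∀ v ∈ Finset.Ico a b, ε1 * Real.log X ≤ (v : ℝ) / K ∧ (v : ℝ) / K ≤ (1 / 20) * Real.log X := by
      intro v hv
      rw [Finset.mem_Ico] at hv
      have h1 : (a : ℝ) ≤ v := by exact_mod_cast hv.1
      have h2 : (v : ℝ) ≤ b := by exact_mod_cast hv.2.le
      exact ⟨haX.trans (by gcongr), le_trans (by gcongr) hbX⟩
    have hCS : ∀ t ∈ S, ‖F t‖ ^ 2 ≤ X ^ 2 *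
        ((∑ v ∈ Finset.Ico a b, (1 / (v : ℝ)) * ((v : ℝ) * ‖Qu u K v t‖ / Real.exp ((v : ℝ) / K)) ^ 2) *
          (∑ v ∈ Finset.Ico a b, (1 / (v : ℝ)) * (‖Ru u X K v t‖ / (X * Real.exp (-((v : ℝ) / K)))) ^ 2)) := by
      intro t _
      refine finalU_cs (Finset.Ico a b) (fun v => Qu u K v t) (fun v => Ru u X K v t)
        (fun v => (v : ℝ) * ‖Qu u K v t‖ / Real.exp ((v : ℝ) / K))
        (fun v => ‖Ru u X K v t‖ / (X * Real.exp (-((v : ℝ) / K)))) X hX0.le ?_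
      intro v hv
      rw [Finset.mem_Ico] at hv
      have hv0 : (v : ℝ) ≠ 0 := by
        have : 0 < v := by omega
        exact_mod_cast this.ne'
      rw [norm_mul, Real.exp_neg]
      refine le_of_eq ?_
      have := (Real.exp_pos ((v : ℝ) / K)).ne'
      field_simp
    refine (Finset.sum_le_sum hCS).trans ?_
    rw [← Finset.mul_sum]
    refine mul_le_mul_of_nonneg_left ?_ (by positivity)
    refine finalU_disc (Finset.Ico a b) S (fun v t => (v : ℝ) * ‖Qu u K v t‖ / Real.exp ((v : ℝ) / K))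
      (fun v t => ‖Ru u X K v t‖ / (X * Real.exp (-((v : ℝ) / K)))) L0 CP CH δ η hCP.le hCH.le hδ.le hη
      ?_ ?_ ?_ ?_
    · calc ∑ v ∈ Finset.Ico a b, (1 / (v : ℝ)) ≤ ∑ v ∈ Finset.Ico a b, (1 / (a : ℝ)) := by
            refine Finset.sum_le_sum fun v hv => ?_
            rw [Finset.mem_Ico] at hv
            have h1 : (a : ℝ) ≤ v := by exact_mod_cast hv.1
            exact one_div_le_one_div_of_le ha0 h1
        _ = ((b : ℝ) - a) * (1 / a) := by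
            rw [Finset.sum_const, Nat.card_Ico, nsmul_eq_mul, Nat.cast_sub hab.le]
        _ ≤ (b : ℝ) / a := by
            rw [mul_one_div, div_le_div_iff_of_pos_right ha0]
            linarith only [ha0]
        _ ≤ L0 := hbaL
    · intro S' hS' hcard v hv
      obtain ⟨h1, h2⟩ := hvI v hv
      exact hXP X hX1 v S' h1 (h2.trans (by linarith only [h1, h2, hlog1])) (hSsp.subset hS')
        (fun t ht => hSX t (hS' ht)) hcard
    · intro v hv
      obtain ⟨h1, h2⟩ := hvI v hv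
      have hM0 : 0 < X * Real.exp (-((v : ℝ) / K)) := by positivity
      have h3 := hal X (X * Real.exp (-((v : ℝ) / K))) (fu u) S hX5 ?_ ?_
        (fun m => norm_fu_le hu m) hSsp hSX hScard
      · have h4 : ∑ t ∈ S, (‖Ru u X K v t‖ / (X * Real.exp (-((v : ℝ) / K)))) ^ 2 =
            (∑ t ∈ S, ‖Ru u X K v t‖ ^ 2) / (X * Real.exp (-((v : ℝ) / K))) ^ 2 := by
          rw [Finset.sum_div]
          exact Finset.sum_congr rfl fun t _ => div_pow _ _ _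
        rw [h4, div_le_iff₀ (by positivity)]
        exact h3
      · have h5 : X ^ (9 / 10 : ℝ) = Real.exp (Real.log X * (9 / 10)) := Real.rpow_def_of_pos hX0 _
        have h6 : X * Real.exp (-((v : ℝ) / K)) = Real.exp (Real.log X + -((v : ℝ) / K)) := by
          rw [Real.exp_add, Real.exp_log hX0]
        rw [h5, h6]
        apply Real.exp_le_exp.mpr
        linarith only [h1, h2, hlog1]
      · have h7 : Real.exp (-((v : ℝ) / K)) ≤ 1 := by
          rw [Real.exp_le_one_iff]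
          have : (0 : ℝ) ≤ (v : ℝ) / K := by positivity
          linarith
        nlinarith only [h7, hX4]
    · intro t ht
      exact hXW X hX2 t a b (hSX t ht) haX (hbX.trans (by linarith only [hlogp]))
  -- combination
  have hpt : ∀ t, ‖Gu u X t‖ ^ 2 ≤ 2 * ‖E t‖ ^ 2 + 2 * ‖F t‖ ^ 2 := by
    intro t
    have h1 : Gu u X t = E t - ((1 / L : ℝ) : ℂ) * F t := by rw [hE]; ring
    have h2 : ‖((1 / L : ℝ) : ℂ) * F t‖ ≤ ‖F t‖ := by
      rw [norm_mul, Complex.norm_real, Real.norm_eq_abs, abs_of_pos (by positivity)]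
      have : 1 / L ≤ 1 := by
        rw [div_le_one hLm0]
        exact hLm1
      nlinarith only [this, norm_nonneg (F t)]
    have h3 : ‖Gu u X t‖ ≤ ‖E t‖ + ‖F t‖ := by
      rw [h1]
      exact (norm_sub_le _ _).trans (by linarith)
    have h4 : ‖Gu u X t‖ ^ 2 ≤ (‖E t‖ + ‖F t‖) ^ 2 := pow_le_pow_left₀ (norm_nonneg _) h3 2
    nlinarith only [h4, sq_nonneg (‖E t‖ - ‖F t‖)]
  have hiE : IntegrableOn (fun t => ‖E t‖ ^ 2) U := hint _ (by fun_prop)
  have hiF : IntegrableOn (fun t => ‖F t‖ ^ 2) U := hint _ (by fun_prop)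
  have hiG : IntegrableOn (fun t => ‖Gu u X t‖ ^ 2) U := hint _ ((continuous_Gu u X).norm.pow 2)
  have hmain : ∫ t in U, ‖Gu u X t‖ ^ 2 ≤ 2 * (∫ t in U, ‖E t‖ ^ 2) + 2 * (∫ t in U, ‖F t‖ ^ 2) := by
    rw [← integral_const_mul, ← integral_const_mul, ← integral_add (hiE.const_mul 2) (hiF.const_mul 2)]
    exact setIntegral_mono hiG ((hiE.const_mul 2).add (hiF.const_mul 2)) hpt
  refine hmain.trans ?_
  have hX2' : 0 < X ^ 2 := by positivity
  have h1 : CT * X ^ 2 * (1 / L + 1 / K) ≤ X ^ 2 * (ε / 4) := by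
    have h2 : CT / L ≤ CT / Ls := div_le_div_of_nonneg_left hCT.le (by linarith) hLm
    have h3 : CT * X ^ 2 * (1 / L + 1 / K) = X ^ 2 * (CT / L + CT / K) := by ring
    rw [h3]
    refine mul_le_mul_of_nonneg_left ?_ hX2'.le
    linarith only [h2, hKT, hLsT]
  have h4 : CP * L0 * δ = ε / 32 := by
    rw [hδdef]
    field_simp
  have h5 : η * (CH * L0) = ε / 32 := by
    rw [hηdef]
    field_simp
  rw [h4, h5] at hFint
  nlinarith only [h1, hEint, hFint]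

end Pool.MP_67663b_nt.PS
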