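import Pool.Agent.Lib.MP_67663b_nt.PS.LamSeriesu
import Pool.Agent.Lib.MP_67663b_nt.MR.PlanL

set_option autoImplicit false
open Filter Topology MeasureTheory
namespace Pool.MP_67663b_nt.PS
open Pool.MP_67663b_nt.Odd Pool.MP_67663b_nt.MR

variable {u : ℕ → ℂ}

private theorem norm_ftu_mul_le (hu : CM u) (t : ℝ) (n : ℕ) (z : ℂ) : ‖ftu u t n * z‖ ≤ ‖z‖ := by
  rw [norm_mul]
  exact mul_le_of_le_one_left (norm_nonneg _) (norm_ftu_le hu t n)

private theorem dp_eq (t y : ℝ) :
    dp (seg 0 y) (fu u) t = ∑ n ∈ Finset.Icc 1 ⌊y⌋₊, ftu u t n := by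
  unfold dp seg
  rw [Nat.floor_zero]
  have : Finset.Ioc 0 ⌊y⌋₊ = Finset.Icc 1 ⌊y⌋₊ := by
    ext n
    rw [Finset.mem_Ioc, Finset.mem_Icc]
    omega
  rw [this]
  rfl

private theorem sum_log_eq (N : ℕ) :
    ∑ n ∈ Finset.Icc 1 N, Real.log (n : ℝ) = Real.log (N.factorial : ℝ) := by
  induction N with
  | zero => simp
  | succ m ih =>
    rw [Finset.sum_Icc_succ_top (by omega), ih, Nat.factorial_succ, Nat.cast_mul,
      Real.log_mul (by positivity) (by positivity)]
    ring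

private theorem sum_log_sub_le {y : ℝ} (hy : 1 ≤ y) :
    ∑ n ∈ Finset.Icc 1 ⌊y⌋₊, (Real.log y - Real.log (n : ℝ)) ≤ y := by
  rw [Finset.sum_sub_distrib, sum_log_eq, Finset.sum_const, Nat.card_Icc, Nat.add_sub_cancel,
    nsmul_eq_mul]
  have h := Real.pow_div_factorial_le_exp y (by linarith) ⌊y⌋₊
  have hy0 : 0 < y := by linarith
  have h2 := Real.log_le_log (by positivity) h
  rw [Real.log_exp, Real.log_div (by positivity) (by positivity), Real.log_pow] at h2
  exact h2

private theorem S_log_le (hu : CM u) (t : ℝ) {y : ℝ} (hy : 1 ≤ y) :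
    ‖dp (seg 0 y) (fu u) t‖ * Real.log y ≤
      ‖∑ n ∈ Finset.Icc 1 ⌊y⌋₊, ftu u t n * (Real.log n : ℂ)‖ + y := by
  rw [dp_eq]
  have hlog : 0 ≤ Real.log y := Real.log_nonneg hy
  have h1 : (∑ n ∈ Finset.Icc 1 ⌊y⌋₊, ftu u t n) * (Real.log y : ℂ) =
      (∑ n ∈ Finset.Icc 1 ⌊y⌋₊, ftu u t n * (Real.log n : ℂ)) +
      ∑ n ∈ Finset.Icc 1 ⌊y⌋₊, ftu u t n * ((Real.log y - Real.log n : ℝ) : ℂ) := by
    rw [Finset.sum_mul, ← Finset.sum_add_distrib]
    refine Finset.sum_congr rfl fun n _ => ?_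
    push_cast
    ring
  have h2 : ‖∑ n ∈ Finset.Icc 1 ⌊y⌋₊, ftu u t n‖ * Real.log y =
      ‖(∑ n ∈ Finset.Icc 1 ⌊y⌋₊, ftu u t n) * (Real.log y : ℂ)‖ := by
    rw [norm_mul, Complex.norm_real, Real.norm_eq_abs, abs_of_nonneg hlog]
  rw [h2, h1]
  refine (norm_add_le _ _).trans (add_le_add le_rfl ?_)
  refine (norm_sum_le _ _).trans (le_trans (Finset.sum_le_sum fun n hn => ?_) (sum_log_sub_le hy))
  rw [Finset.mem_Icc] at hn
  refine (norm_ftu_mul_le hu t n _).trans ?_
  rw [Complex.norm_real, Real.norm_eq_abs, abs_of_nonneg]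
  have hn1 : (n : ℝ) ≤ y := by
    have := Nat.floor_le (by linarith : (0 : ℝ) ≤ y)
    exact le_trans (by exact_mod_cast hn.2) this
  have := Real.log_le_log (by exact_mod_cast hn.1) hn1
  linarith

/-- crude bound for the series of `f log` -/
private theorem ev_crude (hu : CM u) : ∀ᶠ L : ℝ in atTop, ∀ t ω : ℝ,
    ‖LSeries (fun n => ftu u t n * (Real.log n : ℂ)) (((1 + 1 / L : ℝ) : ℂ) + (ω : ℂ) * Complex.I)‖ ≤
      8 * L ^ 2 := by
  have h1 : Tendsto (fun L : ℝ => 1 + 1 / (2 * L)) atTop (𝓝[>] 1) := by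
    rw [tendsto_nhdsWithin_iff]
    refine ⟨?_, ?_⟩
    · have : Tendsto (fun L : ℝ => 1 / (2 * L)) atTop (𝓝 0) := by
        refine Tendsto.div_atTop tendsto_const_nhds ?_
        exact tendsto_id.const_mul_atTop (by norm_num)
      simpa using this.const_add 1
    · filter_upwards [eventually_gt_atTop 0] with L hL
      rw [Set.mem_Ioi]
      have : 0 < 1 / (2 * L) := by positivity
      linarith
  have h2 := tendsto_sub_mul_tsum_nat_rpow.comp h1
  have h3 := h2.eventually (gt_mem_nhds (show (1 : ℝ) < 2 by norm_num))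
  filter_upwards [h3, eventually_gt_atTop 0] with L hL hL0 t ω
  simp only [Function.comp_apply, add_sub_cancel_left] at hL
  have hsum : Summable (fun n : ℕ => 1 / (n : ℝ) ^ (1 + 1 / (2 * L))) := by
    rw [Real.summable_one_div_nat_rpow]
    have : 0 < 1 / (2 * L) := by positivity
    linarith
  have hb : ∑' n : ℕ, 1 / (n : ℝ) ^ (1 + 1 / (2 * L)) ≤ 4 * L := by
    have h5 : 1 / (2 * L) * ∑' n : ℕ, 1 / (n : ℝ) ^ (1 + 1 / (2 * L)) =
      (∑' n : ℕ, 1 / (n : ℝ) ^ (1 + 1 / (2 * L))) / (2 * L) := by ring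
    rw [h5, div_lt_iff₀ (by positivity)] at hL
    linarith
  have hs2 : HasSum (fun n : ℕ => (2 * L) * (1 / (n : ℝ) ^ (1 + 1 / (2 * L))))
      ((2 * L) * ∑' n : ℕ, 1 / (n : ℝ) ^ (1 + 1 / (2 * L))) := hsum.hasSum.mul_left _
  have hterm : ∀ n : ℕ, ‖LSeries.term (fun n => ftu u t n * (Real.log n : ℂ))
      (((1 + 1 / L : ℝ) : ℂ) + (ω : ℂ) * Complex.I) n‖ ≤
      (2 * L) * (1 / (n : ℝ) ^ (1 + 1 / (2 * L))) := by
    intro n
    rw [LSeries.norm_term_eq]
    split_ifs with hn
    · positivity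
    · have hn0 : 0 < (n : ℝ) := by
        have := Nat.pos_of_ne_zero hn
        exact_mod_cast this
      have hn1 : 1 ≤ (n : ℝ) := by
        have := Nat.pos_of_ne_zero hn
        exact_mod_cast this
      have hre : (((1 + 1 / L : ℝ) : ℂ) + (ω : ℂ) * Complex.I).re = 1 + 1 / L := by simp
      rw [hre]
      refine (div_le_div_of_nonneg_right (norm_ftu_mul_le hu t n _) (by positivity)).trans ?_
      rw [Complex.norm_real, Real.norm_eq_abs, abs_of_nonneg (Real.log_nonneg hn1)]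
      have h6 := Real.log_le_rpow_div hn0.le (show 0 < 1 / (2 * L) by positivity)
      have h7 : (n : ℝ) ^ (1 + 1 / L) = (n : ℝ) ^ (1 + 1 / (2 * L)) * (n : ℝ) ^ (1 / (2 * L)) := by
        rw [← Real.rpow_add hn0]
        congr 1
        field_simp
        ring
      rw [h7]
      have h8 : 0 < (n : ℝ) ^ (1 + 1 / (2 * L)) := Real.rpow_pos_of_pos hn0 _
      have h9 : 0 < (n : ℝ) ^ (1 / (2 * L)) := Real.rpow_pos_of_pos hn0 _
      rw [div_le_iff₀ (by positivity)]
      have h10 : 2 * L * (1 / (n : ℝ) ^ (1 + 1 / (2 * L))) * ((n : ℝ) ^ (1 + 1 / (2 * L)) *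
        (n : ℝ) ^ (1 / (2 * L))) = 2 * L * (n : ℝ) ^ (1 / (2 * L)) := by
        field_simp
      rw [h10]
      refine h6.trans (le_of_eq ?_)
      field_simp
  unfold LSeries
  refine (tsum_of_norm_bounded hs2 hterm).trans ?_
  nlinarith

/-- the square mean of the series of `f Λ` -/
private theorem sq_mean_vM (hu : CM u) (t : ℝ) {L : ℝ} (hL : 0 < L) :
    ∫ ω : ℝ, ‖LSeries (fun n => ftu u t n * (ArithmeticFunction.vonMangoldt n : ℂ))
        (((1 + 1 / L : ℝ) : ℂ) + (ω : ℂ) * Complex.I) /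
        (((1 + 1 / L : ℝ) : ℂ) + (ω : ℂ) * Complex.I)‖ ^ 2 ≤
      Real.pi * (Real.log 4 + 4) ^ 2 * L := by
  have hL' : 0 < 1 / L := by positivity
  have hσ : 1 < 1 + 1 / L := by linarith
  have ha : ∀ n, 1 ≤ n → ‖ftu u t n * (ArithmeticFunction.vonMangoldt n : ℂ)‖ ≤ 1 + Real.log n := by
    intro n _
    refine (norm_ftu_mul_le hu t n _).trans ?_
    rw [Complex.norm_real, Real.norm_eq_abs,
      abs_of_nonneg ArithmeticFunction.vonMangoldt_nonneg]
    have := @ArithmeticFunction.vonMangoldt_le_log n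
    linarith
  rw [plan_L _ ha hσ]
  have hb : ∫ y in Set.Ioi (1 : ℝ), ‖∑ n ∈ Finset.Icc 1 ⌊y⌋₊,
      ftu u t n * (ArithmeticFunction.vonMangoldt n : ℂ)‖ ^ 2 * y ^ (-1 - 2 * (1 + 1 / L)) ≤
      ∫ y in Set.Ioi (1 : ℝ), (Real.log 4 + 4) ^ 2 * y ^ (-1 - 2 / L) := by
    refine integral_mono_of_nonneg ?_ ?_ ?_
    · refine (ae_restrict_iff' measurableSet_Ioi).mpr (Eventually.of_forall fun y hy => ?_)
      have : 0 < y := lt_trans one_pos hy
      positivity
    · refine Integrable.const_mul ?_ _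
      refine integrableOn_Ioi_rpow_of_lt ?_ one_pos
      have : 0 < 2 / L := by positivity
      linarith
    · refine (ae_restrict_iff' measurableSet_Ioi).mpr (Eventually.of_forall fun y hy => ?_)
      have hy0 : 0 < y := lt_trans one_pos hy
      have h1 : ‖∑ n ∈ Finset.Icc 1 ⌊y⌋₊, ftu u t n * (ArithmeticFunction.vonMangoldt n : ℂ)‖ ≤
          (Real.log 4 + 4) * y := by
        refine (norm_sum_le _ _).trans ?_
        have h2 : ∑ n ∈ Finset.Icc 1 ⌊y⌋₊, ‖ftu u t n * (ArithmeticFunction.vonMangoldt n : ℂ)‖ ≤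
            Chebyshev.psi y := by
          rw [Chebyshev.psi_eq_sum_Icc]
          refine le_trans (Finset.sum_le_sum fun n _ => ?_) (Finset.sum_le_sum_of_subset_of_nonneg
            (Finset.Icc_subset_Icc_left (zero_le_one)) fun n _ _ =>
              ArithmeticFunction.vonMangoldt_nonneg)
          refine (norm_ftu_mul_le hu t n _).trans ?_
          rw [Complex.norm_real, Real.norm_eq_abs,
            abs_of_nonneg ArithmeticFunction.vonMangoldt_nonneg]
        exact h2.trans (Chebyshev.psi_le_const_mul_self hy0.le)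
      have h3 : y ^ (-1 - 2 / L) = y ^ 2 * y ^ (-1 - 2 * (1 + 1 / L)) := by
        rw [← Real.rpow_natCast, ← Real.rpow_add hy0]
        congr 1
        push_cast
        ring
      show _ * _ ≤ (Real.log 4 + 4) ^ 2 * y ^ (-1 - 2 / L)
      rw [h3, ← mul_assoc, ← mul_pow]
      refine mul_le_mul_of_nonneg_right ?_ (Real.rpow_nonneg hy0.le _)
      exact pow_le_pow_left₀ (norm_nonneg _) h1 2
  have hc : ∫ y in Set.Ioi (1 : ℝ), (Real.log 4 + 4) ^ 2 * y ^ (-1 - 2 / L) =
      (Real.log 4 + 4) ^ 2 * (L / 2) := by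
    rw [integral_const_mul, integral_Ioi_rpow_of_lt _ one_pos]
    · rw [Real.one_rpow]
      congr 1
      have : -1 - 2 / L + 1 = -(2 / L) := by ring
      rw [this]
      field_simp
    · have : 0 < 2 / L := by positivity
      linarith
  rw [hc] at hb
  have hpi := Real.pi_pos
  calc 2 * Real.pi * _ ≤ 2 * Real.pi * ((Real.log 4 + 4) ^ 2 * (L / 2)) :=
        mul_le_mul_of_nonneg_left hb (by positivity)
    _ = Real.pi * (Real.log 4 + 4) ^ 2 * L := by ring

/-- the square mean of the sums of `f log` -/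
private theorem sq_mean_A (hu : CM u) (hLL : LL u) {δ : ℝ} (hδ : 0 < δ) : ∃ X0 : ℝ, ∀ X ≥ X0, ∀ t : ℝ, |t| ≤ X →
    ∫ y in Set.Ioi (1 : ℝ), ‖∑ n ∈ Finset.Icc 1 ⌊y⌋₊, ftu u t n * (Real.log n : ℂ)‖ ^ 2 *
        y ^ (-1 - 2 * (1 + 1 / Real.log X)) ≤
      (2 * δ ^ 2 * (Real.log 4 + 4) ^ 2) * Real.log X ^ 3 + 64 * Real.log X ^ 4 / X := by
  obtain ⟨X1, hX1⟩ := hLL δ hδ
  have hev := Real.tendsto_log_atTop.eventually (ev_crude (u := u) hu)
  rw [eventually_atTop] at hev
  obtain ⟨X2, hX2⟩ := hev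
  refine ⟨max (max X1 X2) 3, fun X hX t ht => ?_⟩
  have hXX1 : X ≥ X1 := le_trans (le_trans (le_max_left _ _) (le_max_left _ _)) hX
  have hXX2 : X ≥ X2 := le_trans (le_trans (le_max_right _ _) (le_max_left _ _)) hX
  have hX3 : 3 ≤ X := le_trans (le_max_right _ _) hX
  have hX0 : 0 < X := by linarith
  set L := Real.log X with hLdef
  have hL : 0 < L := Real.log_pos (by linarith)
  have hL' : 0 < 1 / L := by positivity
  have hσ : 1 < 1 + 1 / L := by linarith
  have ha : ∀ n, 1 ≤ n → ‖ftu u t n * (Real.log n : ℂ)‖ ≤ 1 + Real.log n := by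
    intro n hn
    refine (norm_ftu_mul_le hu t n _).trans ?_
    rw [Complex.norm_real, Real.norm_eq_abs,
      abs_of_nonneg (Real.log_nonneg (by exact_mod_cast hn))]
    linarith
  have hav : ∀ n, 1 ≤ n → ‖ftu u t n * (ArithmeticFunction.vonMangoldt n : ℂ)‖ ≤ 1 + Real.log n := by
    intro n _
    refine (norm_ftu_mul_le hu t n _).trans ?_
    rw [Complex.norm_real, Real.norm_eq_abs,
      abs_of_nonneg ArithmeticFunction.vonMangoldt_nonneg]
    have := @ArithmeticFunction.vonMangoldt_le_log n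
    linarith
  have hP := plan_L _ ha hσ
  have hVint := plan_L_int_left _ hav hσ
  have hV := sq_mean_vM hu t hL
  set s : ℝ → ℂ := fun ω => ((1 + 1 / L : ℝ) : ℂ) + (ω : ℂ) * Complex.I with hs
  set V : ℝ → ℝ := fun ω => ‖LSeries (fun n => ftu u t n * (ArithmeticFunction.vonMangoldt n : ℂ))
        (s ω) / s ω‖ ^ 2 with hVd
  set M : ℝ → ℝ := fun ω => (2 / X ^ 2) * (1 + (ω / X) ^ 2)⁻¹ with hM
  have hMint : Integrable M := by
    refine Integrable.const_mul ?_ _
    exact (integrable_inv_one_add_sq).comp_div hX0.ne'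
  have hMval : ∫ ω, M ω = 2 * Real.pi / X := by
    rw [hM, integral_const_mul, Measure.integral_comp_div (fun x : ℝ => (1 + x ^ 2)⁻¹) X,
      integral_univ_inv_one_add_sq, abs_of_pos hX0, smul_eq_mul]
    field_simp
  have hmain : ∫ ω : ℝ, ‖LSeries (fun n => ftu u t n * (Real.log n : ℂ)) (s ω) / s ω‖ ^ 2 ≤
      ∫ ω : ℝ, ((2 * δ * L) ^ 2 * V ω + (8 * L ^ 2) ^ 2 * M ω) := by
    refine integral_mono_of_nonneg (Eventually.of_forall fun ω => by positivity)
      ((hVint.const_mul _).add (hMint.const_mul _)) (Eventually.of_forall fun ω => ?_)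
    show ‖LSeries (fun n => ftu u t n * (Real.log n : ℂ)) (s ω) / s ω‖ ^ 2 ≤
      (2 * δ * L) ^ 2 * V ω + (8 * L ^ 2) ^ 2 * M ω
    have hV0 : 0 ≤ V ω := by positivity
    have hM0 : 0 ≤ M ω := by positivity
    have hre : (s ω).re = 1 + 1 / L := by simp [hs]
    by_cases hω : |ω| ≤ X
    · have h1 : 1 < (s ω).re := by rw [hre]; exact hσ
      rw [lam_series_log_u hu t h1]
      have h2 : ‖LSeries (ftu u t) (s ω)‖ ≤ 2 * δ * L := by
        have h3 := lam_series_u hu t hσ ω
        have h4 : |ω + t| ≤ 2 * X := by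
          refine (abs_add_le _ _).trans ?_
          linarith
        have h5 := hX1 X hXX1 (ω + t) h4
        rw [← hLdef] at h5
        have h6 : ((1 + 1 / L : ℝ) : ℂ) + ((ω + t : ℝ) : ℂ) * Complex.I =
            1 + ((1 / L : ℝ) : ℂ) + ((ω + t : ℝ) : ℂ) * Complex.I := by
          push_cast
          ring
        rw [h6] at h3
        have h7 := mul_le_mul_of_nonneg_left h5 (norm_nonneg (LSeries (ftu u t) (s ω)))
        have h8 := mul_le_mul_of_nonneg_left h3 (show 0 ≤ δ * L by positivity)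
        have h9 : ‖LSeries (ftu u t) (s ω)‖ *
            (δ * L * ‖LSeries u (1 + ((1 / L : ℝ) : ℂ) + ((ω + t : ℝ) : ℂ) * Complex.I)‖) =
            δ * L * (‖LSeries (ftu u t) (s ω)‖ *
              ‖LSeries u (1 + ((1 / L : ℝ) : ℂ) + ((ω + t : ℝ) : ℂ) * Complex.I)‖) := by ring
        rw [h9, mul_one] at h7
        refine h7.trans (h8.trans (le_of_eq ?_))
        ring
      have h7 : ‖LSeries (ftu u t) (s ω) * LSeries (fun n => ftu u t n *
          (ArithmeticFunction.vonMangoldt n : ℂ)) (s ω) / s ω‖ ^ 2 =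
          ‖LSeries (ftu u t) (s ω)‖ ^ 2 * V ω := by
        rw [hVd]
        simp only
        rw [mul_div_assoc, norm_mul, mul_pow]
      rw [h7]
      have h8 : ‖LSeries (ftu u t) (s ω)‖ ^ 2 ≤ (2 * δ * L) ^ 2 :=
        pow_le_pow_left₀ (norm_nonneg _) h2 2
      have h9 : 0 ≤ (8 * L ^ 2) ^ 2 * M ω := by positivity
      have h10 := mul_le_mul_of_nonneg_right h8 hV0
      linarith
    · push Not at hω
      have h1 := hX2 X hXX2 t ω
      rw [← hLdef] at h1
      have h2 : |ω| ≤ ‖s ω‖ := by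
        have h21 : (s ω).im = ω := by simp [hs]
        have h22 := Complex.abs_im_le_norm (s ω)
        rwa [h21] at h22
      have hω0 : 0 < |ω| := lt_trans hX0 hω
      have h3 : ‖LSeries (fun n => ftu u t n * (Real.log n : ℂ)) (s ω) / s ω‖ ≤ (8 * L ^ 2) / |ω| := by
        rw [norm_div]
        exact div_le_div₀ (by positivity) h1 hω0 h2
      have h4 : ‖LSeries (fun n => ftu u t n * (Real.log n : ℂ)) (s ω) / s ω‖ ^ 2 ≤
          (8 * L ^ 2) ^ 2 * (1 / ω ^ 2) := by
        refine (pow_le_pow_left₀ (norm_nonneg _) h3 2).trans (le_of_eq ?_)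
        rw [div_pow, sq_abs]
        ring
      have h5 : 1 / ω ^ 2 ≤ M ω := by
        have hωX : X ^ 2 ≤ ω ^ 2 := by
          rw [← sq_abs ω]
          exact pow_le_pow_left₀ hX0.le hω.le 2
        have hω2 : 0 < ω ^ 2 := by
          rw [← sq_abs ω]
          positivity
        have h6 : M ω = 2 / (X ^ 2 + ω ^ 2) := by
          rw [hM]
          simp only
          field_simp
        rw [h6, div_le_div_iff₀ hω2 (by positivity)]
        linarith
      have h6 : 0 ≤ (2 * δ * L) ^ 2 * V ω := by positivity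
      have h7 := mul_le_mul_of_nonneg_left h5 (show 0 ≤ (8 * L ^ 2) ^ 2 by positivity)
      linarith
  rw [integral_add (hVint.const_mul _) (hMint.const_mul _), integral_const_mul,
    integral_const_mul, hMval] at hmain
  have hpi := Real.pi_pos
  have h2pi : 0 < 2 * Real.pi := by positivity
  rw [hP] at hmain
  have h11 : (2 * δ * L) ^ 2 * ∫ ω, V ω ≤
      (2 * δ * L) ^ 2 * (Real.pi * (Real.log 4 + 4) ^ 2 * L) :=
    mul_le_mul_of_nonneg_left hV (by positivity)
  have h12 := hmain.trans (add_le_add h11 le_rfl)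
  have h13 : (2 * δ * L) ^ 2 * (Real.pi * (Real.log 4 + 4) ^ 2 * L) +
      (8 * L ^ 2) ^ 2 * (2 * Real.pi / X) =
      2 * Real.pi * ((2 * δ ^ 2 * (Real.log 4 + 4) ^ 2) * L ^ 3 + 64 * L ^ 4 / X) := by
    field_simp
    ring
  rw [h13] at h12
  exact le_of_mul_le_mul_left h12 h2pi

/-- Averaged Halasz estimate for `λ(n) u(n) n^{-it}`, uniformly in `|t| ≤ X` (compare `hal_avg` in
`MR.HalAvg`). -/
theorem hal_avg_u (hu : CM u) (hL : LL u) : HA u := by
  have hLL := hL
  clear hL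
  intro δ hδ
  set C : ℝ := (Real.log 4 + 4) ^ 2 with hC
  have hC0 : 0 < C := by
    have : 0 < Real.log 4 := Real.log_pos (by norm_num)
    positivity
  set D : ℝ := 4 * (C + 1 / 2 + Real.exp 4) with hD
  have hD0 : 0 < D := by positivity
  set e : ℝ := δ / D with he
  have he0 : 0 < e := by positivity
  obtain ⟨X1, hX1⟩ := sq_mean_A hu hLL he0
  have hlim : Tendsto (fun X : ℝ => 64 * Real.log X / X) atTop (𝓝 0) := by
    have h := Real.isLittleO_log_id_atTop.tendsto_div_nhds_zero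
    have h2 := h.const_mul 64
    rw [mul_zero] at h2
    refine h2.congr fun x => ?_
    simp only [id]
    ring
  have hev1 := hlim.eventually (gt_mem_nhds (show (0 : ℝ) < e ^ 2 by positivity))
  have hev2 := Real.tendsto_log_atTop.eventually (eventually_ge_atTop (max 8 (8 / δ)))
  obtain ⟨X2, hX2⟩ := eventually_atTop.mp (hev1.and hev2)
  refine ⟨max (max X1 X2) 4, fun X hX t ht => ?_⟩
  have hXX1 : X ≥ X1 := le_trans (le_trans (le_max_left _ _) (le_max_left _ _)) hX
  have hXX2 : X ≥ X2 := le_trans (le_trans (le_max_right _ _) (le_max_left _ _)) hX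
  have hX4 : 4 ≤ X := le_trans (le_max_right _ _) hX
  have hX0 : 0 < X := by linarith
  obtain ⟨hsmall, hlarge⟩ := hX2 X hXX2
  have hA := hX1 X hXX1 t ht
  set L := Real.log X with hLdef
  have hL8 : 8 ≤ L := le_trans (le_max_left _ _) hlarge
  have hL8' : 8 / δ ≤ L := le_trans (le_max_right _ _) hlarge
  have hL : 0 < L := by linarith
  have hsq1 : 1 < Real.sqrt X := by
    rw [Real.lt_sqrt (by norm_num)]
    linarith
  have hsqle : Real.sqrt X ≤ 4 * X := by
    rw [Real.sqrt_le_left (by linarith)]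
    nlinarith
  set A : ℝ → ℝ := fun y => ‖∑ n ∈ Finset.Icc 1 ⌊y⌋₊, ftu u t n * (Real.log n : ℂ)‖ with hAdef
  have hav : ∀ n, 1 ≤ n → ‖ftu u t n * (Real.log n : ℂ)‖ ≤ 1 + Real.log n := by
    intro n hn
    refine (norm_ftu_mul_le hu t n _).trans ?_
    rw [Complex.norm_real, Real.norm_eq_abs,
      abs_of_nonneg (Real.log_nonneg (by exact_mod_cast hn))]
    linarith
  have hσ : 1 < 1 + 1 / L := by
    have : 0 < 1 / L := by positivity
    linarith
  have hAint := plan_L_int_right _ hav hσ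
  set G1 : ℝ → ℝ := fun y => A y ^ 2 * y ^ (-1 - 2 * (1 + 1 / L)) with hG1
  have hsub : Set.Ioc (Real.sqrt X) (4 * X) ⊆ Set.Ioi 1 := fun y hy => lt_trans hsq1 hy.1
  have hG1i : IntegrableOn G1 (Set.Ioc (Real.sqrt X) (4 * X)) := hAint.mono_set hsub
  have hinv : IntegrableOn (fun y : ℝ => y⁻¹) (Set.Ioc (Real.sqrt X) (4 * X)) := by
    have : IntervalIntegrable (fun y : ℝ => y⁻¹) volume (Real.sqrt X) (4 * X) := by
      rw [intervalIntegrable_inv_iff]
      right
      rw [Set.uIcc_of_le hsqle, Set.mem_Icc]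
      intro h
      linarith [h.1]
    rwa [intervalIntegrable_iff_integrableOn_Ioc_of_le hsqle] at this
  have hptw : ∀ y ∈ Set.Ioc (Real.sqrt X) (4 * X), ‖dp (seg 0 y) (fu u) t‖ / y ^ 2 ≤
      (2 / L) * (1 / (2 * e * L)) * G1 y + ((2 / L) * (e * L / 2 * Real.exp 4 + 1)) * y⁻¹ := by
    intro y hy
    have hy1 : 1 < y := hsub hy
    have hy0 : 0 < y := by linarith
    have hlogy : L / 2 ≤ Real.log y := by
      have h1 := Real.log_le_log (by linarith) hy.1.le
      rw [Real.log_sqrt hX0.le] at h1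
      exact h1
    have hS := S_log_le hu t hy1.le
    have h1 : ‖dp (seg 0 y) (fu u) t‖ * (L / 2) ≤ A y + y :=
      (mul_le_mul_of_nonneg_left hlogy (norm_nonneg _)).trans hS
    have h2 : ‖dp (seg 0 y) (fu u) t‖ ≤ (2 / L) * (A y + y) := by
      rw [div_mul_eq_mul_div, le_div_iff₀ hL]
      linarith
    have hA0 : 0 ≤ A y := norm_nonneg _
    set v : ℝ := A y * y ^ (-(3 : ℝ) / 2 - 1 / L) with hv
    set w : ℝ := y ^ (-(1 : ℝ) / 2 + 1 / L) with hw
    have huw : A y / y ^ 2 = v * w := by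
      rw [hv, hw, mul_assoc, ← Real.rpow_add hy0]
      have : (-(3 : ℝ) / 2 - 1 / L + (-(1 : ℝ) / 2 + 1 / L)) = -(2 : ℕ) := by push_cast; ring
      rw [this, Real.rpow_neg hy0.le, Real.rpow_natCast]
      rfl
    have hu2 : v ^ 2 = G1 y := by
      rw [hv, mul_pow, hG1]
      simp only
      congr 1
      rw [← Real.rpow_natCast, ← Real.rpow_mul hy0.le]
      congr 1
      push_cast
      ring
    have hw2 : w ^ 2 ≤ Real.exp 4 * y⁻¹ := by
      have h3 : w ^ 2 = y ^ (2 / L) * y⁻¹ := by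
        rw [hw, ← Real.rpow_natCast, ← Real.rpow_mul hy0.le, ← Real.rpow_neg_one,
          ← Real.rpow_add hy0]
        congr 1
        push_cast
        ring
      rw [h3]
      refine mul_le_mul_of_nonneg_right ?_ (by positivity)
      rw [Real.rpow_def_of_pos hy0]
      refine Real.exp_le_exp.mpr ?_
      have h4 : Real.log y ≤ 2 * L := by
        have h5 := Real.log_le_log hy0 hy.2
        rw [Real.log_mul (by norm_num) hX0.ne'] at h5
        have h6 : Real.log 4 ≤ L := Real.log_le_log (by norm_num) hX4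
        linarith
      rw [show Real.log y * (2 / L) = (Real.log y * 2) / L by ring, div_le_iff₀ hL]
      linarith
    have hag : v * w ≤ (1 / (2 * e * L)) * v ^ 2 + (e * L / 2) * w ^ 2 := by
      have h7 : 0 ≤ (v - e * L * w) ^ 2 := sq_nonneg _
      have h8 : (1 / (2 * e * L)) * v ^ 2 + (e * L / 2) * w ^ 2 - v * w =
        (v - e * L * w) ^ 2 / (2 * e * L) := by
        field_simp
        ring
      have h9 : 0 ≤ (v - e * L * w) ^ 2 / (2 * e * L) := by positivity
      linarith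
    calc ‖dp (seg 0 y) (fu u) t‖ / y ^ 2
        ≤ (2 / L) * (A y + y) / y ^ 2 := div_le_div_of_nonneg_right h2 (by positivity)
      _ = (2 / L) * (A y / y ^ 2 + y⁻¹) := by
        field_simp
      _ ≤ (2 / L) * (((1 / (2 * e * L)) * G1 y + (e * L / 2) * (Real.exp 4 * y⁻¹)) + y⁻¹) := by
        refine mul_le_mul_of_nonneg_left ?_ (by positivity)
        refine add_le_add ?_ le_rfl
        rw [huw, ← hu2]
        refine hag.trans (add_le_add le_rfl ?_)
        exact mul_le_mul_of_nonneg_left hw2 (by positivity)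
      _ = _ := by ring
  rw [intervalIntegral.integral_of_le hsqle]
  have hint : ∫ y in Set.Ioc (Real.sqrt X) (4 * X), ‖dp (seg 0 y) (fu u) t‖ / y ^ 2 ≤
      ∫ y in Set.Ioc (Real.sqrt X) (4 * X), ((2 / L) * (1 / (2 * e * L)) * G1 y +
        ((2 / L) * (e * L / 2 * Real.exp 4 + 1)) * y⁻¹) := by
    refine integral_mono_of_nonneg (Eventually.of_forall fun y => by positivity)
      ((hG1i.const_mul _).add (hinv.const_mul _)) ?_
    exact (ae_restrict_iff' measurableSet_Ioc).mpr (Eventually.of_forall hptw)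
  rw [integral_add (hG1i.const_mul _) (hinv.const_mul _), integral_const_mul,
    integral_const_mul] at hint
  have hG1b : ∫ y in Set.Ioc (Real.sqrt X) (4 * X), G1 y ≤ 2 * e ^ 2 * C * L ^ 3 + e ^ 2 * L ^ 3 := by
    have h1 : ∫ y in Set.Ioc (Real.sqrt X) (4 * X), G1 y ≤ ∫ y in Set.Ioi (1 : ℝ), G1 y := by
      refine setIntegral_mono_set hAint ?_ (Eventually.of_forall hsub)
      refine (ae_restrict_iff' measurableSet_Ioi).mpr (Eventually.of_forall fun y hy => ?_)
      have : 0 < y := lt_trans one_pos hy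
      show 0 ≤ A y ^ 2 * y ^ (-1 - 2 * (1 + 1 / L))
      positivity
    refine h1.trans (hA.trans (add_le_add (le_of_eq rfl) ?_))
    have h2 : 64 * L ^ 4 / X = (64 * L / X) * L ^ 3 := by ring
    rw [h2]
    exact mul_le_mul_of_nonneg_right hsmall.le (by positivity)
  have hinvb : ∫ y in Set.Ioc (Real.sqrt X) (4 * X), y⁻¹ ≤ 2 * L := by
    rw [← intervalIntegral.integral_of_le hsqle, integral_inv_of_pos (by linarith) (by linarith),
      Real.log_div (by positivity) (by positivity), Real.log_sqrt hX0.le,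
      Real.log_mul (by norm_num) hX0.ne']
    have h6 : Real.log 4 ≤ L := Real.log_le_log (by norm_num) hX4
    linarith
  have h1 := mul_le_mul_of_nonneg_left hG1b (show 0 ≤ (2 / L) * (1 / (2 * e * L)) by positivity)
  have h2 := mul_le_mul_of_nonneg_left hinvb
    (show 0 ≤ (2 / L) * (e * L / 2 * Real.exp 4 + 1) by positivity)
  refine hint.trans ((add_le_add h1 h2).trans ?_)
  have h3 : (2 / L) * (1 / (2 * e * L)) * (2 * e ^ 2 * C * L ^ 3 + e ^ 2 * L ^ 3) +
      (2 / L) * (e * L / 2 * Real.exp 4 + 1) * (2 * L) =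
      2 * e * L * (C + 1 / 2 + Real.exp 4) + 4 := by
    field_simp
    ring
  rw [h3]
  have h4 : 2 * e * L * (C + 1 / 2 + Real.exp 4) = δ * L / 2 := by
    rw [he, hD]
    field_simp
    ring
  rw [h4]
  have h5 : 8 ≤ δ * L := by
    rw [div_le_iff₀ hδ] at hL8'
    linarith
  linarith

end Pool.MP_67663b_nt.PS
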