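import Pool.Agent.Lib.MP_67663b_nt.PS.EulerIneq
import Pool.Agent.Lib.MP_67663b_nt.MR.ZetaLow

set_option autoImplicit false
open Filter Topology
namespace Pool.MP_67663b_nt.PS
open Pool.MP_67663b_nt.Odd Pool.MP_67663b_nt.MR

private theorem LLow_real : ∀ᶠ L : ℝ in atTop, ‖riemannZeta (1 + ((1 / L : ℝ) : ℂ))‖ ≤ 2 * L ∧
    L / 2 ≤ ‖riemannZeta (1 + ((1 / L : ℝ) : ℂ))‖ := by
  have h := riemannZeta_residue_one
  have h1 : Tendsto (fun L : ℝ => (1 : ℂ) + ((1 / L : ℝ) : ℂ)) atTop (𝓝[≠] 1) := by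
    rw [tendsto_nhdsWithin_iff]
    refine ⟨?_, ?_⟩
    · have h2 : Tendsto (fun L : ℝ => ((1 / L : ℝ) : ℂ)) atTop (𝓝 0) := by
        have h3 : Tendsto (fun L : ℝ => 1 / L) atTop (𝓝 0) :=
          tendsto_const_nhds.div_atTop tendsto_id
        have h4 := (Complex.continuous_ofReal.tendsto 0).comp h3
        rw [Complex.ofReal_zero] at h4
        exact h4
      simpa using h2.const_add 1
    · filter_upwards [eventually_gt_atTop 0] with L hL
      rw [Set.mem_compl_iff, Set.mem_singleton_iff]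
      intro h5
      have h6 : ((1 / L : ℝ) : ℂ) = 0 := by
        have := add_left_cancel (a := (1 : ℂ)) (b := ((1 / L : ℝ) : ℂ)) (c := 0) (by rw [h5, add_zero])
        exact this
      rw [Complex.ofReal_eq_zero] at h6
      have : 0 < 1 / L := by positivity
      linarith
  have h2 := (h.comp h1).norm
  rw [norm_one] at h2
  filter_upwards [h2.eventually (gt_mem_nhds (show (1 : ℝ) < 2 by norm_num)),
    h2.eventually (lt_mem_nhds (show (1 / 2 : ℝ) < 1 by norm_num)), eventually_gt_atTop 0]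
    with L hL hL' hL0
  simp only [Function.comp_apply, add_sub_cancel_left, norm_mul] at hL hL'
  rw [Complex.norm_real, Real.norm_eq_abs, abs_of_pos (by positivity)] at hL hL'
  have h3 : 1 / L * ‖riemannZeta (1 + ((1 / L : ℝ) : ℂ))‖ =
    ‖riemannZeta (1 + ((1 / L : ℝ) : ℂ))‖ / L := by ring
  rw [h3] at hL hL'
  rw [div_lt_iff₀ hL0] at hL
  rw [lt_div_iff₀ hL0] at hL'
  exact ⟨hL.le, by linarith⟩

/-- a lower bound for the `L`-function on a compact set -/
private theorem LLow_compact {q : ℕ} [NeZero q] {χ : DirichletCharacter ℂ q} (hχ : χ ≠ 1) :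
    ∃ m : ℝ, 0 < m ∧ ∀ s : ℂ, 1 ≤ s.re → s.re ≤ 2 → |s.im| ≤ 1 →
      m ≤ ‖DirichletCharacter.LFunction χ s‖ := by
  have hK : IsCompact (Set.Icc (1 : ℝ) 2 ×ℂ Set.Icc (-1 : ℝ) 1) :=
    isCompact_Icc.reProdIm isCompact_Icc
  have hne : (Set.Icc (1 : ℝ) 2 ×ℂ Set.Icc (-1 : ℝ) 1).Nonempty :=
    ⟨1, by simp [Complex.mem_reProdIm]⟩
  obtain ⟨s0, hs0, hmin⟩ := hK.exists_isMinOn hne
    ((DirichletCharacter.differentiable_LFunction hχ).continuous.norm.continuousOn)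
  rw [Complex.mem_reProdIm] at hs0
  refine ⟨‖DirichletCharacter.LFunction χ s0‖, ?_, fun s h1 h2 h3 => ?_⟩
  · rw [norm_pos_iff]
    exact DirichletCharacter.LFunction_ne_zero_of_one_le_re χ (Or.inl hχ) hs0.1.1
  · have hs : s ∈ Set.Icc (1 : ℝ) 2 ×ℂ Set.Icc (-1 : ℝ) 1 := by
      rw [Complex.mem_reProdIm]
      exact ⟨⟨h1, h2⟩, abs_le.mp h3⟩
    exact hmin hs

/-- the principal character -/
private theorem LLow_one {q : ℕ} [NeZero q] : LL (chi (1 : DirichletCharacter ℂ q)) := by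
  intro δ hδ
  have hP : (0 : ℝ) < (1 / 2 : ℝ) ^ q.primeFactors.card := by positivity
  obtain ⟨X1, hX1⟩ := zeta_low (show 0 < δ * (1 / 2 : ℝ) ^ q.primeFactors.card by positivity)
  obtain ⟨X2, hX2⟩ := eventually_atTop.mp (Real.tendsto_log_atTop.eventually (eventually_ge_atTop 1))
  refine ⟨max X1 X2, fun X hX τ hτ => ?_⟩
  have hL1 := hX2 X (le_trans (le_max_right _ _) hX)
  have hlow := hX1 X (le_trans (le_max_left _ _) hX) τ hτ
  obtain ⟨L, hLdef⟩ : ∃ L, L = Real.log X := ⟨_, rfl⟩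
  rw [← hLdef] at hL1 hlow ⊢
  have hL0 : 0 < L := by linarith
  have hα : 0 < 1 / L := by positivity
  obtain ⟨s, hs⟩ : ∃ s : ℂ, s = 1 + ((1 / L : ℝ) : ℂ) + (τ : ℂ) * Complex.I := ⟨_, rfl⟩
  rw [← hs] at hlow ⊢
  have hre : s.re = 1 + 1 / L := by simp [hs]
  have hre1 : 1 < s.re := by rw [hre]; linarith
  have hs1 : s ≠ 1 := by
    intro h
    rw [h, Complex.one_re] at hre
    linarith
  have hz0 : 0 < ‖riemannZeta s‖ := by
    rw [norm_pos_iff]
    exact riemannZeta_ne_zero_of_one_le_re hre1.le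
  rw [div_le_iff₀ hz0] at hlow
  have e1 : LSeries (chi (1 : DirichletCharacter ℂ q)) s =
      (∏ p ∈ q.primeFactors, (1 - (p : ℂ) ^ (-s))) * riemannZeta s := by
    rw [← DirichletCharacter.LFunctionTrivChar_eq_mul_riemannZeta hs1,
      DirichletCharacter.LFunctionTrivChar, DirichletCharacter.LFunction_eq_LSeries _ hre1]
    rfl
  have e2 : (1 / 2 : ℝ) ^ q.primeFactors.card ≤ ‖∏ p ∈ q.primeFactors, (1 - (p : ℂ) ^ (-s))‖ := by
    rw [norm_prod, ← Finset.prod_const]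
    refine Finset.prod_le_prod (fun _ _ => by norm_num) fun p hp => ?_
    have hp2 : 2 ≤ p := (Nat.prime_of_mem_primeFactors hp).two_le
    have hp0 : (0 : ℝ) < p := by
      have : 0 < p := by omega
      exact_mod_cast this
    have h1 : ‖(p : ℂ) ^ (-s)‖ ≤ 1 / 2 := by
      rw [Complex.norm_natCast_cpow_of_pos (by omega), Complex.neg_re]
      calc (p : ℝ) ^ (-s.re) ≤ (p : ℝ) ^ (-1 : ℝ) := by
            apply Real.rpow_le_rpow_of_exponent_le
            · have : 1 ≤ p := by omega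
              exact_mod_cast this
            · linarith
        _ = 1 / (p : ℝ) := by rw [Real.rpow_neg_one, one_div]
        _ ≤ 1 / 2 := by
            apply one_div_le_one_div_of_le (by norm_num)
            exact_mod_cast hp2
    have h2 := norm_sub_norm_le (1 : ℂ) ((p : ℂ) ^ (-s))
    rw [norm_one] at h2
    linarith
  rw [e1, norm_mul]
  have h3 : δ * (1 / 2 : ℝ) ^ q.primeFactors.card * L * ‖riemannZeta s‖ ≤
      δ * L * (‖∏ p ∈ q.primeFactors, (1 - (p : ℂ) ^ (-s))‖ * ‖riemannZeta s‖) := by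
    have h4 : (1 / 2 : ℝ) ^ q.primeFactors.card * (δ * L * ‖riemannZeta s‖) ≤
        ‖∏ p ∈ q.primeFactors, (1 - (p : ℂ) ^ (-s))‖ * (δ * L * ‖riemannZeta s‖) :=
      mul_le_mul_of_nonneg_right e2 (by positivity)
    calc _ = (1 / 2 : ℝ) ^ q.primeFactors.card * (δ * L * ‖riemannZeta s‖) := by ring
      _ ≤ _ := h4
      _ = _ := by ring
  exact hlow.trans h3

/-- `1/|L(1+1/log X+iτ, χ)| = o(log X)` for `|τ| ≤ 2X`, for every Dirichlet character. -/
theorem ll_chi {q : ℕ} [NeZero q] (χ : DirichletCharacter ℂ q) : LL (chi χ) := by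
  by_cases hχ : χ = 1
  · rw [hχ]
    exact LLow_one
  intro δ hδ
  obtain ⟨N, hNdef⟩ : ∃ N : ℕ, N = 2 * Fintype.card (ZMod q)ˣ := ⟨_, rfl⟩
  have hN : 0 < N := by
    rw [hNdef]
    have : 0 < Fintype.card (ZMod q)ˣ := Fintype.card_pos
    omega
  have hev : Even N := ⟨Fintype.card (ZMod q)ˣ, by rw [hNdef]; ring⟩
  have hχN : χ ^ N = 1 := by
    rw [hNdef, mul_comm, pow_mul, MulChar.pow_card_eq_one, one_pow]
  obtain ⟨c, hc, hEI⟩ := euler_ineq χ hN hev hχN
  obtain ⟨ε, hεdef⟩ : ∃ ε : ℝ, ε = c * (δ / 2) ^ (N ^ 2) / 4 := ⟨_, rfl⟩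
  have hε : 0 < ε := by rw [hεdef]; positivity
  obtain ⟨X1, hX1⟩ := zeta_up hε
  obtain ⟨m, hm, hmin⟩ := LLow_compact hχ
  have hev2 := Real.tendsto_log_atTop.eventually
    (LLow_real.and (eventually_ge_atTop (max 1 (1 / (m * δ)))))
  obtain ⟨X2, hX2⟩ := eventually_atTop.mp hev2
  refine ⟨max (max X1 X2) (max (N : ℝ) 1), fun X hX τ hτ => ?_⟩
  have hXN : (N : ℝ) ≤ X := le_trans (le_max_left _ _) (le_trans (le_max_right _ _) hX)
  have hXone : (1 : ℝ) ≤ X := le_trans (le_max_right _ _) (le_trans (le_max_right _ _) hX)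
  have hXX1 : X1 ≤ X := le_trans (le_max_left _ _) (le_trans (le_max_left _ _) hX)
  have hXX2 : X2 ≤ X := le_trans (le_max_right _ _) (le_trans (le_max_left _ _) hX)
  have hX0 : 0 < X := by linarith
  obtain ⟨⟨hreal, hreal'⟩, hL⟩ := hX2 X hXX2
  have hN1 : (1 : ℝ) ≤ N := by exact_mod_cast hN
  have hlogNX : Real.log (N * X) ≤ 2 * Real.log X := by
    rw [Real.log_mul (by positivity) (by positivity)]
    have : Real.log N ≤ Real.log X := Real.log_le_log (by positivity) hXN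
    linarith
  have hup := hX1 (N * X) (by nlinarith)
  obtain ⟨L, hLdef⟩ : ∃ L, L = Real.log X := ⟨_, rfl⟩
  rw [← hLdef] at hreal hreal' hL hlogNX ⊢
  have hL1 : 1 ≤ L := le_trans (le_max_left _ _) hL
  have hL2 : 1 / (m * δ) ≤ L := le_trans (le_max_right _ _) hL
  have hL0 : 0 < L := by linarith
  have hα : 0 < 1 / L := by positivity
  have hα1 : 1 / L ≤ 1 := by
    rw [div_le_one hL0]
    exact hL1
  by_cases h1 : |τ| ≤ 1
  · have hre : (1 + ((1 / L : ℝ) : ℂ) + (τ : ℂ) * Complex.I).re = 1 + 1 / L := by simp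
    have him : (1 + ((1 / L : ℝ) : ℂ) + (τ : ℂ) * Complex.I).im = τ := by simp
    have h2 := hmin (1 + ((1 / L : ℝ) : ℂ) + (τ : ℂ) * Complex.I) (by rw [hre]; linarith)
      (by rw [hre]; linarith) (by rw [him]; exact h1)
    rw [DirichletCharacter.LFunction_eq_LSeries χ (by rw [hre]; linarith)] at h2
    have h3 : m ≤ ‖LSeries (chi χ) (1 + ((1 / L : ℝ) : ℂ) + (τ : ℂ) * Complex.I)‖ := h2
    rw [div_le_iff₀ (by positivity)] at hL2
    calc (1 : ℝ) ≤ L * (m * δ) := hL2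
      _ = δ * L * m := by ring
      _ ≤ _ := mul_le_mul_of_nonneg_left h3 (by positivity)
  · push Not at h1
    have h2 := hEI (1 / L) τ hα hα1
    have h3 : |(N : ℝ) * τ| ≤ 4 * (N * X) := by
      rw [abs_mul, abs_of_pos (by positivity : (0 : ℝ) < N)]
      calc (N : ℝ) * |τ| ≤ N * (2 * X) := mul_le_mul_of_nonneg_left hτ (by positivity)
        _ ≤ 4 * (N * X) := by nlinarith
    have h4 : 1 ≤ |(N : ℝ) * τ| := by
      rw [abs_mul, abs_of_pos (by positivity : (0 : ℝ) < N)]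
      nlinarith
    have h5 := hup (1 / L) (N * τ) hα hα1 h4 h3
    have h5' : ‖riemannZeta (1 + ((1 / L : ℝ) : ℂ) + ((N * τ : ℝ) : ℂ) * Complex.I)‖ ≤
        ε * (2 * L) := h5.trans (mul_le_mul_of_nonneg_left hlogNX hε.le)
    have h6 : ‖riemannZeta (1 + ((1 / L : ℝ) : ℂ))‖ ^ (N ^ 2) ≤ (2 * L) ^ (N ^ 2) :=
      pow_le_pow_left₀ (norm_nonneg _) hreal _
    obtain ⟨A, hA⟩ : ∃ A, A = ‖LSeries (chi χ) (1 + ((1 / L : ℝ) : ℂ) + (τ : ℂ) * Complex.I)‖ :=
      ⟨_, rfl⟩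
    rw [← hA] at h2 ⊢
    have hA0 : 0 ≤ A := by rw [hA]; exact norm_nonneg _
    have h7 : c * (L / 2) ≤ A ^ (N ^ 2) * (2 * L) ^ (N ^ 2) * (ε * (2 * L)) := by
      calc c * (L / 2) ≤ c * ‖riemannZeta (1 + ((1 / L : ℝ) : ℂ))‖ :=
            mul_le_mul_of_nonneg_left hreal' hc.le
        _ ≤ _ := h2
        _ ≤ _ := by
            refine mul_le_mul ?_ h5' (norm_nonneg _) (by positivity)
            exact mul_le_mul_of_nonneg_left h6 (by positivity)
    by_contra hcon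
    push Not at hcon
    have h8 : 2 * L * A < 2 / δ := by
      rw [lt_div_iff₀ hδ]
      linarith
    have h9 : A ^ (N ^ 2) * (2 * L) ^ (N ^ 2) < (2 / δ) ^ (N ^ 2) := by
      rw [← mul_pow]
      refine pow_lt_pow_left₀ (by linarith) (by positivity) ?_
      positivity
    have h10 : (2 / δ) ^ (N ^ 2) * (δ / 2) ^ (N ^ 2) = 1 := by
      rw [← mul_pow]
      have : 2 / δ * (δ / 2) = 1 := by field_simp
      rw [this, one_pow]
    have h11 : A ^ (N ^ 2) * (2 * L) ^ (N ^ 2) * (ε * (2 * L)) <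
        (2 / δ) ^ (N ^ 2) * (ε * (2 * L)) := mul_lt_mul_of_pos_right h9 (by positivity)
    have h12 : (2 / δ) ^ (N ^ 2) * (ε * (2 * L)) = c * (L / 2) := by
      rw [hεdef]
      calc (2 / δ) ^ (N ^ 2) * (c * (δ / 2) ^ (N ^ 2) / 4 * (2 * L)) =
          ((2 / δ) ^ (N ^ 2) * (δ / 2) ^ (N ^ 2)) * (c * (L / 2)) := by ring
        _ = _ := by rw [h10, one_mul]
    linarith

end Pool.MP_67663b_nt.PS
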