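import Pool.Agent.Lib.MP_67663b_nt.PS.UDefs

set_option autoImplicit false
open Filter Topology MeasureTheory
namespace Pool.MP_67663b_nt.PS
open Pool.MP_67663b_nt.Odd Pool.MP_67663b_nt.MR

variable {u : ℕ → ℂ}

/-- `n ↦ g(n) n^{-s}` as a monoid with zero hom -/
private noncomputable def LSuHom (g : ℕ → ℂ) (h1 : g 1 = 1)
    (hm : ∀ m n : ℕ, m ≠ 0 → n ≠ 0 → g (m * n) = g m * g n) {s : ℂ} (hs : s ≠ 0) : ℕ →*₀ ℂ where
  toFun n := g n * (n : ℂ) ^ (-s)
  map_zero' := by
    have : ((0 : ℕ) : ℂ) ^ (-s) = 0 := by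
      rw [Nat.cast_zero, Complex.zero_cpow (neg_ne_zero.mpr hs)]
    rw [this, mul_zero]
  map_one' := by simp [h1]
  map_mul' m n := by
    by_cases hm0 : m = 0
    · subst hm0
      rw [zero_mul, Nat.cast_zero, Complex.zero_cpow (neg_ne_zero.mpr hs)]
      ring
    by_cases hn0 : n = 0
    · subst hn0
      rw [mul_zero, Nat.cast_zero, Complex.zero_cpow (neg_ne_zero.mpr hs)]
      ring
    rw [hm m n hm0 hn0, Nat.cast_mul, Complex.natCast_mul_natCast_cpow]
    ring

private theorem LSu_prod (g : ℕ → ℂ) (h1 : g 1 = 1)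
    (hm : ∀ m n : ℕ, m ≠ 0 → n ≠ 0 → g (m * n) = g m * g n) (hg : ∀ n, ‖g n‖ ≤ 1) {s : ℂ}
    (hs : 1 < s.re) :
    HasProd (fun p : Nat.Primes => (1 - g p * ((p : ℕ) : ℂ) ^ (-s))⁻¹) (LSeries g s) := by
  have hs0 : s ≠ 0 := by
    intro h
    rw [h, Complex.zero_re] at hs
    linarith
  have hterm : ∀ n : ℕ, ‖LSuHom g h1 hm hs0 n‖ ≤ ‖riemannZetaSummandHom hs0 n‖ := by
    intro n
    show ‖g n * (n : ℂ) ^ (-s)‖ ≤ ‖(n : ℂ) ^ (-s)‖
    rw [norm_mul]
    exact mul_le_of_le_one_left (norm_nonneg _) (hg n)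
  have hsum : Summable (fun n => ‖LSuHom g h1 hm hs0 n‖) :=
    Summable.of_nonneg_of_le (fun _ => norm_nonneg _) hterm (summable_riemannZetaSummand hs)
  have h2 := EulerProduct.eulerProduct_completely_multiplicative_hasProd hsum
  have h7 : ∑' n : ℕ, LSuHom g h1 hm hs0 n = LSeries g s := by
    unfold LSeries
    refine tsum_congr fun n => ?_
    by_cases hn : n = 0
    · subst hn
      rw [LSeries.term_zero, map_zero]
    · rw [LSeries.term_of_ne_zero hn]
      show g n * (n : ℂ) ^ (-s) = _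
      rw [Complex.cpow_neg]
      rfl
  rw [h7] at h2
  exact h2

private theorem LSu_one (hu : CM u) {s : ℂ} (hs : 1 < s.re) :
    ‖LSeries (fu u) s‖ * ‖LSeries u s‖ ≤ 2 := by
  have hs0 : s ≠ 0 := by
    intro h
    rw [h, Complex.zero_re] at hs
    linarith
  have h2s : 1 < (2 * s).re := by
    have : (2 * s).re = 2 * s.re := by simp
    rw [this]
    linarith
  have hfu1 : fu u 1 = 1 := by simp [fu, lam, hu.one]
  have p1 := LSu_prod (fu u) hfu1 (fun m n hm hn => fu_mul hu hm hn) (norm_fu_le hu) hs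
  have p2 := LSu_prod u hu.one (fun m n _ _ => hu.mul m n) hu.le hs
  have hsq : ∀ n, ‖u n ^ 2‖ ≤ 1 := by
    intro n
    rw [norm_pow]
    exact pow_le_one₀ (norm_nonneg _) (hu.le n)
  have p3 := LSu_prod (fun n => u n ^ 2) (by simp [hu.one])
    (fun m n _ _ => by simp only [hu.mul]; ring) hsq h2s
  have h4 := p1.mul p2
  have h5 : ∀ p : Nat.Primes, (1 - fu u p * ((p : ℕ) : ℂ) ^ (-s))⁻¹ *
      (1 - u p * ((p : ℕ) : ℂ) ^ (-s))⁻¹ = (1 - u p ^ 2 * ((p : ℕ) : ℂ) ^ (-(2 * s)))⁻¹ := by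
    intro p
    have e1 : fu u p = -(u p) := by
      unfold fu
      rw [lam_prime p.prop]
      push_cast
      ring
    have e2 : ((p : ℕ) : ℂ) ^ (-(2 * s)) = (((p : ℕ) : ℂ) ^ (-s)) ^ 2 := by
      rw [show -(2 * s) = ((2 : ℕ) : ℂ) * (-s) by push_cast; ring, Complex.cpow_nat_mul]
    rw [e1, e2, ← mul_inv]
    congr 1
    ring
  simp_rw [h5] at h4
  have h6 := h4.unique p3
  rw [← norm_mul, h6]
  unfold LSeries
  have h8 : ∀ n : ℕ, ‖LSeries.term (fun n => u n ^ 2) (2 * s) n‖ ≤ 1 / (n : ℝ) ^ 2 := by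
    intro n
    by_cases hn : n = 0
    · subst hn
      rw [LSeries.term_zero]
      simp
    · have hn1 : (1 : ℝ) ≤ n := by
        have := Nat.pos_of_ne_zero hn
        exact_mod_cast this
      have hn0 : (0 : ℝ) < n := by linarith
      rw [LSeries.term_of_ne_zero hn, norm_div,
        Complex.norm_natCast_cpow_of_pos (Nat.pos_of_ne_zero hn)]
      have e1 : (n : ℝ) ^ 2 ≤ (n : ℝ) ^ (2 * s).re := by
        rw [← Real.rpow_natCast]
        refine Real.rpow_le_rpow_of_exponent_le hn1 ?_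
        have : (2 * s).re = 2 * s.re := by simp
        rw [this]
        push_cast
        linarith
      exact div_le_div₀ zero_le_one (hsq n) (by positivity) e1
  refine (tsum_of_norm_bounded hasSum_zeta_two h8).trans ?_
  have h9 := Real.pi_lt_d2
  have h10 := Real.pi_pos
  nlinarith

private theorem LSu_shift (t : ℝ) (s : ℂ) :
    LSeries (ftu u t) s = LSeries (fu u) (s + (t : ℂ) * Complex.I) := by
  unfold LSeries
  refine tsum_congr fun n => ?_
  by_cases hn : n = 0
  · subst hn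
    rw [LSeries.term_zero, LSeries.term_zero]
  · rw [LSeries.term_of_ne_zero hn, LSeries.term_of_ne_zero hn]
    have hn0 : (n : ℂ) ≠ 0 := by exact_mod_cast hn
    unfold ftu ep
    rw [Complex.cpow_add _ _ hn0]
    have h1 : (n : ℂ) ^ ((t : ℂ) * Complex.I) =
        Complex.exp (((t * Real.log (n : ℝ) : ℝ) : ℂ) * Complex.I) := by
      rw [Complex.cpow_def_of_ne_zero hn0, ← Complex.natCast_log]
      congr 1
      push_cast
      ring
    rw [h1, Complex.exp_neg]
    have h2 : Complex.exp (((t * Real.log (n : ℝ) : ℝ) : ℂ) * Complex.I) ≠ 0 :=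
      Complex.exp_ne_zero _
    have h3 : (n : ℂ) ^ s ≠ 0 := by
      rw [Complex.cpow_def_of_ne_zero hn0]
      exact Complex.exp_ne_zero _
    field_simp

/-- the series of `λ(n) u(n) n^{-it}` times the series of `u` is bounded (compare `lam_series`) -/
theorem lam_series_u (hu : CM u) (t : ℝ) {σ : ℝ} (hσ : 1 < σ) (ω : ℝ) :
    ‖LSeries (ftu u t) ((σ : ℂ) + (ω : ℂ) * Complex.I)‖ *
      ‖LSeries u ((σ : ℂ) + ((ω + t : ℝ) : ℂ) * Complex.I)‖ ≤ 2 := by
  have hre : 1 < ((σ : ℂ) + ((ω + t : ℝ) : ℂ) * Complex.I).re := by simp [hσ]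
  rw [LSu_shift]
  have h1 : (σ : ℂ) + (ω : ℂ) * Complex.I + (t : ℂ) * Complex.I =
      (σ : ℂ) + ((ω + t : ℝ) : ℂ) * Complex.I := by
    push_cast
    ring
  rw [h1]
  exact LSu_one hu hre

/-- logarithmic derivative: series of `f log` = series of `f` times series of `f Λ`
(compare `lam_series_log`) -/
theorem lam_series_log_u (hu : CM u) (t : ℝ) {s : ℂ} (hs : 1 < s.re) :
    LSeries (fun n => ftu u t n * (Real.log n : ℂ)) s =
      LSeries (ftu u t) s *
        LSeries (fun n => ftu u t n * (ArithmeticFunction.vonMangoldt n : ℂ)) s := by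
  have h1 : LSeriesSummable (ftu u t) s :=
    LSeriesSummable_of_bounded_of_one_lt_re (m := 1) (fun n _ => norm_ftu_le hu t n) hs
  have h2 : LSeriesSummable (fun n => ftu u t n * (ArithmeticFunction.vonMangoldt n : ℂ)) s := by
    have h3 := ArithmeticFunction.LSeriesSummable_vonMangoldt hs
    rw [LSeriesSummable, ← summable_norm_iff] at h3 ⊢
    refine Summable.of_nonneg_of_le (fun _ => norm_nonneg _) (fun n => ?_) h3
    rw [LSeries.norm_term_eq, LSeries.norm_term_eq]
    split_ifs with hn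
    · exact le_refl _
    · rw [norm_mul]
      have h4 := norm_ftu_le hu t n
      gcongr
      exact mul_le_of_le_one_left (norm_nonneg _) h4
  rw [← LSeries_convolution' h1 h2, LSeries.convolution_def]
  refine LSeries_congr (fun {n} hn => ?_) s
  have h4 : ∀ p ∈ n.divisorsAntidiagonal, ftu u t p.1 * (ftu u t p.2 *
      (ArithmeticFunction.vonMangoldt p.2 : ℂ)) =
      ftu u t n * (ArithmeticFunction.vonMangoldt p.2 : ℂ) := by
    intro p hp
    rw [Nat.mem_divisorsAntidiagonal] at hp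
    have hp1 : p.1 ≠ 0 := by
      intro h
      rw [h, zero_mul] at hp
      exact hp.2 hp.1.symm
    have hp2 : p.2 ≠ 0 := by
      intro h
      rw [h, mul_zero] at hp
      exact hp.2 hp.1.symm
    rw [← hp.1]
    unfold ftu
    rw [fu_mul hu hp1 hp2, ep_mul t hp1 hp2]
    ring
  rw [Finset.sum_congr rfl h4, ← Finset.mul_sum]
  congr 1
  rw [← ArithmeticFunction.vonMangoldt_sum (n := n), Complex.ofReal_sum,
    ← Nat.sum_divisorsAntidiagonal' (f := fun _ b => (ArithmeticFunction.vonMangoldt b : ℂ))]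

end Pool.MP_67663b_nt.PS
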