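import Pool.Agent.Lib.MP_67663b_nt.PS.UDefs
import Pool.Agent.Lib.MP_67663b_nt.MR.MVTDisc

set_option autoImplicit false
open Filter Topology MeasureTheory
namespace Pool.MP_67663b_nt.PS
open Pool.MP_67663b_nt.Odd Pool.MP_67663b_nt.MR

variable {u : ℕ → ℂ}

private lemma largeSet_ep_prod (t : ℝ) (k : ℕ) (f : Fin k → ℕ) (hf : ∀ i, f i ≠ 0) :
    ep t (∏ i, f i) = ∏ i, ep t (f i) := by
  induction k with
  | zero => simp [ep_one]
  | succ k ih =>
    rw [Fin.prod_univ_succ, Fin.prod_univ_succ, ep_mul t (hf 0)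
      (Finset.prod_ne_zero_iff.2 fun i _ => hf _), ih _ (fun i => hf _)]

private lemma largeSet_fiber (s : Finset ℕ) (hs : ∀ p ∈ s, p.Prime) (k n : ℕ) :
    ((Fintype.piFinset (fun _ : Fin k => s)).filter (fun f => ∏ i, f i = n)).card ≤ k.factorial := by
  rcases Finset.eq_empty_or_nonempty
    ((Fintype.piFinset (fun _ : Fin k => s)).filter (fun f => ∏ i, f i = n)) with h0 | ⟨f₀, hf₀⟩
  · rw [h0, Finset.card_empty]; exact Nat.zero_le _
  have hperm : ∀ f ∈ (Fintype.piFinset (fun _ : Fin k => s)).filter (fun f => ∏ i, f i = n),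
      (List.ofFn f).Perm n.primeFactorsList := by
    intro f hf
    rw [Finset.mem_filter, Fintype.mem_piFinset] at hf
    apply Nat.primeFactorsList_unique
    · rw [List.prod_ofFn]; exact hf.2
    · intro p hp
      rw [List.mem_ofFn] at hp
      obtain ⟨i, rfl⟩ := hp
      exact hs _ (hf.1 i)
  have hlen : n.primeFactorsList.length = k := by
    rw [← (hperm f₀ hf₀).length_eq, List.length_ofFn]
  calc ((Fintype.piFinset (fun _ : Fin k => s)).filter (fun f => ∏ i, f i = n)).card
      ≤ (n.primeFactorsList.permutations.toFinset).card := by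
        refine Finset.card_le_card_of_injOn (fun f => List.ofFn f) ?_ ?_
        · intro f hf
          simp only [List.coe_toFinset, Set.mem_setOf_eq, List.mem_permutations]
          exact hperm f hf
        · intro f _ g _ hfg
          exact List.ofFn_injective hfg
    _ ≤ n.primeFactorsList.permutations.length := List.toFinset_card_le _
    _ = k.factorial := by rw [List.length_permutations, hlen]

private lemma largeSet_u_prod (hu : CM u) (k : ℕ) (f : Fin k → ℕ) :
    u (∏ i, f i) = ∏ i, u (f i) := by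
  induction k with
  | zero => simpa using hu.one
  | succ k ih => rw [Fin.prod_univ_succ, Fin.prod_univ_succ, hu.mul, ih]

private lemma largeSet_pow (hu : CM u) (s : Finset ℕ) (hs : ∀ p ∈ s, p.Prime) (k : ℕ) (t : ℝ) :
    dp s u t ^ k =
      dp ((Fintype.piFinset (fun _ : Fin k => s)).image (fun f => ∏ i, f i))
        (fun n => (((Fintype.piFinset (fun _ : Fin k => s)).filter
          (fun f => ∏ i, f i = n)).card : ℂ) * u n) t := by
  unfold dp
  have h1 : (∑ n ∈ s, u n * ep t n) ^ k = ∏ _i : Fin k, ∑ n ∈ s, u n * ep t n := by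
    rw [Finset.prod_const, Finset.card_univ, Fintype.card_fin]
  rw [h1, Finset.prod_univ_sum]
  have h2 : ∀ f ∈ Fintype.piFinset (fun _ : Fin k => s), ∏ i, (u (f i) * ep t (f i)) =
      u (∏ i, f i) * ep t (∏ i, f i) := by
    intro f hf
    rw [Fintype.mem_piFinset] at hf
    rw [Finset.prod_mul_distrib, largeSet_u_prod hu,
      largeSet_ep_prod t k f (fun i => (hs _ (hf i)).ne_zero)]
  rw [Finset.sum_congr rfl h2,
    Finset.sum_comp (fun n => u n * ep t n) (fun f : Fin k → ℕ => ∏ i, f i)]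
  refine Finset.sum_congr rfl (fun n _ => ?_)
  rw [nsmul_eq_mul, mul_assoc]

/-- Number of well spaced large values of a slice polynomial. -/
theorem large_set_u (hu : CM u) : ∃ C : ℝ, 0 < C ∧ ∀ (X α : ℝ) (K v : ℕ) (S : Finset ℝ), 1 ≤ K → 1 ≤ (v : ℝ) / K →
    Real.exp ((v : ℝ) / K) ≤ X → 0 ≤ α → α ≤ 1 / 4 → Spaced S → (∀ t ∈ S, |t| ≤ X) →
    (∀ t ∈ S, Real.exp ((1 - α) * ((v : ℝ) / K)) ≤ ‖Qu u K v t‖) →
    (S.card : ℝ) ≤ C * (1 + Real.log X) * Real.exp ((v : ℝ) / K) *
      Real.exp (2 * ⌈Real.log X / ((v : ℝ) / K)⌉₊) *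
      (⌈Real.log X / ((v : ℝ) / K)⌉₊.factorial : ℝ) * X ^ (2 * α) := by
  obtain ⟨C, hC, hmvt⟩ := mvt_disc
  refine ⟨6 * C, by positivity, ?_⟩
  intro X α K v S hK hV hX hα0 hα hS hT hlarge
  set V : ℝ := (v : ℝ) / K with hVdef
  set k : ℕ := ⌈Real.log X / V⌉₊ with hk
  have hV0 : 0 < V := by linarith
  have hX0 : 0 < X := lt_of_lt_of_le (Real.exp_pos _) hX
  have hX1 : 1 ≤ X := by
    refine le_trans ?_ hX
    exact Real.one_le_exp hV0.le
  have hlogX : V ≤ Real.log X := by
    rw [Real.le_log_iff_exp_le hX0]; exact hX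
  have hk1 : Real.log X ≤ k * V := by
    have := Nat.le_ceil (Real.log X / V)
    rw [← hk, div_le_iff₀ hV0] at this
    exact this
  have hk2 : k * V ≤ Real.log X + V := by
    have h0 : 0 ≤ Real.log X / V := by
      apply div_nonneg _ hV0.le
      linarith
    have := Nat.ceil_lt_add_one h0
    rw [← hk] at this
    have h2 : (k : ℝ) * V ≤ (Real.log X / V + 1) * V := mul_le_mul_of_nonneg_right this.le hV0.le
    have h3 : (Real.log X / V + 1) * V = Real.log X + V := by field_simp
    linarith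
  have hk3 : (k : ℝ) ≤ Real.log X + 1 := by
    have h0 : 0 ≤ Real.log X / V := by
      apply div_nonneg _ hV0.le
      linarith
    have h1 := Nat.ceil_lt_add_one h0
    rw [← hk] at h1
    have h2 : Real.log X / V ≤ Real.log X := div_le_self (by linarith) hV
    linarith
  have hsp : ∀ p ∈ sl K v, p.Prime := fun p hp => (mem_sl.1 hp).1
  set P := Fintype.piFinset (fun _ : Fin k => sl K v) with hP
  set a : ℕ → ℂ := fun n => ((P.filter (fun f => ∏ i, f i = n)).card : ℂ) * u n with ha
  set s := P.image (fun f => ∏ i, f i) with hs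
  set N : ℕ := ⌊Real.exp (k * V + k)⌋₊ with hN
  have hK0 : (0 : ℝ) < K := by exact_mod_cast hK
  have hup : ∀ p ∈ sl K v, (p : ℝ) ≤ Real.exp (V + 1) := by
    intro p hp
    refine (mem_sl.1 hp).2.2.trans (Real.exp_le_exp.2 ?_)
    rw [add_div, ← hVdef]
    have : 1 / (K : ℝ) ≤ 1 := by
      rw [div_le_one hK0]
      exact_mod_cast hK
    linarith
  have hcard : ((sl K v).card : ℝ) ≤ Real.exp (V + 1) := by
    have h1 : sl K v ⊆ Finset.Icc 1 ⌊Real.exp (V + 1)⌋₊ := by
      intro p hp
      rw [Finset.mem_Icc]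
      exact ⟨(hsp p hp).one_lt.le, Nat.le_floor (hup p hp)⟩
    have h2 := Finset.card_le_card h1
    rw [Nat.card_Icc, Nat.add_sub_cancel] at h2
    exact (by exact_mod_cast h2 : ((sl K v).card : ℝ) ≤ (⌊Real.exp (V + 1)⌋₊ : ℝ)).trans
      (Nat.floor_le (Real.exp_pos _).le)
  have hsN : s ⊆ Finset.Icc 1 N := by
    intro n hn
    rw [hs, Finset.mem_image] at hn
    obtain ⟨f, hf, rfl⟩ := hn
    rw [hP, Fintype.mem_piFinset] at hf
    rw [Finset.mem_Icc]
    constructor
    · exact Nat.one_le_iff_ne_zero.2 (Finset.prod_ne_zero_iff.2 fun i _ => (hsp _ (hf i)).ne_zero)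
    · rw [hN]
      apply Nat.le_floor
      push_cast
      calc ∏ i, (f i : ℝ) ≤ ∏ _i : Fin k, Real.exp (V + 1) :=
            Finset.prod_le_prod (fun i _ => Nat.cast_nonneg _) (fun i _ => hup _ (hf i))
        _ = Real.exp (k * V + k) := by
            rw [Finset.prod_const, Finset.card_univ, Fintype.card_fin, ← Real.exp_nat_mul]
            congr 1
            ring
  have hsum1 : ∑ n ∈ s, ‖a n‖ ^ 2 ≤ k.factorial * Real.exp (k * V + k) := by
    have h1 : ∀ n ∈ s, ‖a n‖ ^ 2 ≤ k.factorial * ((P.filter (fun f => ∏ i, f i = n)).card : ℝ) := by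
      intro n _
      rw [ha]
      simp only [norm_mul, Complex.norm_natCast]
      rw [mul_pow]
      refine (mul_le_of_le_one_right (by positivity)
        (pow_le_one₀ (norm_nonneg _) (hu.le n))).trans ?_
      rw [sq]
      refine mul_le_mul_of_nonneg_right ?_ (Nat.cast_nonneg _)
      exact_mod_cast largeSet_fiber (sl K v) hsp k n
    refine (Finset.sum_le_sum h1).trans ?_
    rw [← Finset.mul_sum, ← Nat.cast_sum, hs, ← Finset.card_eq_sum_card_image, hP,
      Fintype.card_piFinset_const]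
    refine mul_le_mul_of_nonneg_left ?_ (Nat.cast_nonneg _)
    push_cast
    calc ((sl K v).card : ℝ) ^ k ≤ Real.exp (V + 1) ^ k := pow_le_pow_left₀ (Nat.cast_nonneg _) hcard k
      _ = Real.exp (k * V + k) := by
          rw [← Real.exp_nat_mul]
          congr 1
          ring
  have hmain := hmvt N s a X S hX1 hsN hS hT
  have hlow : (S.card : ℝ) * Real.exp (2 * k * ((1 - α) * V)) ≤ ∑ t ∈ S, ‖dp s a t‖ ^ 2 := by
    rw [← nsmul_eq_mul]
    apply Finset.card_nsmul_le_sum
    intro t ht
    have h1 : dp s a t = Qu u K v t ^ k := by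
      unfold Qu
      rw [largeSet_pow hu _ hsp]
    rw [h1, norm_pow, ← pow_mul]
    have h2 := hlarge t ht
    calc Real.exp (2 * k * ((1 - α) * V)) = Real.exp ((1 - α) * V) ^ (k * 2) := by
          rw [← Real.exp_nat_mul]
          congr 1
          push_cast
          ring
      _ ≤ ‖Qu u K v t‖ ^ (k * 2) := pow_le_pow_left₀ (Real.exp_pos _).le h2 _
  have hNle : (N : ℝ) ≤ Real.exp (k * V + k) := Nat.floor_le (Real.exp_pos _).le
  have hXle : X ≤ Real.exp (k * V + k) := by
    rw [← Real.exp_log hX0]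
    apply Real.exp_le_exp.2
    have : (0 : ℝ) ≤ k := Nat.cast_nonneg _
    linarith
  have hN1 : 1 ≤ N := by
    rw [hN]
    apply Nat.le_floor
    rw [Nat.cast_one]
    exact Real.one_le_exp (by positivity)
  have hlogN : Real.log N ≤ k * V + k := by
    have h1 : (0 : ℝ) < N := by exact_mod_cast hN1
    rw [← Real.log_exp (k * V + k)]
    exact Real.log_le_log h1 hNle
  have hlogN0 : 0 ≤ Real.log N := Real.log_natCast_nonneg N
  have hb : C * (X + N) * (1 + Real.log N) * ∑ n ∈ s, ‖a n‖ ^ 2 ≤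
      C * (2 * Real.exp (k * V + k)) * (3 * (1 + Real.log X)) *
        (k.factorial * Real.exp (k * V + k)) := by
    have h1 : X + N ≤ 2 * Real.exp (k * V + k) := by linarith
    have h2 : 1 + Real.log N ≤ 3 * (1 + Real.log X) := by linarith
    have h3 : 0 ≤ ∑ n ∈ s, ‖a n‖ ^ 2 := Finset.sum_nonneg fun _ _ => sq_nonneg _
    have h4 : 0 ≤ 1 + Real.log X := by linarith
    gcongr
  have hfin : (S.card : ℝ) * Real.exp (2 * k * ((1 - α) * V)) ≤
      6 * C * (1 + Real.log X) * k.factorial * Real.exp (2 * (k * V + k)) := by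
    refine (hlow.trans (hmain.trans hb)).trans (le_of_eq ?_)
    have : Real.exp (2 * (k * V + k)) = Real.exp (k * V + k) * Real.exp (k * V + k) := by
      rw [← Real.exp_add]; congr 1; ring
    rw [this]
    ring
  have hexp : Real.exp (2 * (k * V + k)) ≤
      Real.exp V * Real.exp (2 * k) * X ^ (2 * α) * Real.exp (2 * k * ((1 - α) * V)) := by
    rw [Real.rpow_def_of_pos hX0, ← Real.exp_add, ← Real.exp_add, ← Real.exp_add]
    apply Real.exp_le_exp.2
    have h1 : 2 * α * (k * V) ≤ 2 * α * (Real.log X + V) :=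
      mul_le_mul_of_nonneg_left hk2 (by linarith)
    have h2 : 2 * α * V ≤ V := by
      have : 2 * α ≤ 1 := by linarith
      calc 2 * α * V ≤ 1 * V := mul_le_mul_of_nonneg_right this hV0.le
        _ = V := one_mul V
    linarith
  have hpos : 0 < Real.exp (2 * k * ((1 - α) * V)) := Real.exp_pos _
  have h6 : (S.card : ℝ) * Real.exp (2 * k * ((1 - α) * V)) ≤
      (6 * C * (1 + Real.log X) * Real.exp V * Real.exp (2 * k) * (k.factorial : ℝ) *
        X ^ (2 * α)) * Real.exp (2 * k * ((1 - α) * V)) := by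
    refine hfin.trans ?_
    have h4 : 0 ≤ 1 + Real.log X := by linarith
    calc 6 * C * (1 + Real.log X) * k.factorial * Real.exp (2 * (k * V + k)) ≤
        6 * C * (1 + Real.log X) * k.factorial *
          (Real.exp V * Real.exp (2 * k) * X ^ (2 * α) * Real.exp (2 * k * ((1 - α) * V))) :=
          mul_le_mul_of_nonneg_left hexp (by positivity)
      _ = _ := by ring
  exact le_of_mul_le_mul_right h6 hpos

end Pool.MP_67663b_nt.PS
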