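import Pool.Agent.Lib.MP_67663b_nt.PS.UDefs
import Pool.Agent.Lib.MP_67663b_nt.MR.MVT

set_option autoImplicit false
open Filter Topology MeasureTheory
namespace Pool.MP_67663b_nt.PS
open Pool.MP_67663b_nt.Odd Pool.MP_67663b_nt.MR

variable {u : ℕ → ℂ}

private def momOm (P : Finset ℕ) (n : ℕ) : ℕ := (P.filter (fun p => p ∣ n)).card

private theorem momOm_div_le (P : Finset ℕ) {n p : ℕ} (h : p ∣ n) :
    momOm P (n / p) ≤ momOm P n := by
  unfold momOm
  refine Finset.card_le_card fun q hq => ?_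
  rw [Finset.mem_filter] at hq ⊢
  exact ⟨hq.1, hq.2.trans (Nat.div_dvd_of_dvd h)⟩

private theorem moment_coeff (hu : CM u) (K v : ℕ) (M : ℕ) (s : Finset ℕ) (a : ℕ → ℂ)
    (hs : s ⊆ Finset.Icc 1 M) (ha : ∀ m ∈ s, ‖a m‖ ≤ 1) (l : ℕ) :
    ∃ f : ℕ → ℂ, (∀ n, f n ≠ 0 → 1 ≤ n ∧ (n : ℝ) ≤ M * Real.exp (((v : ℝ) + 1) / K) ^ l) ∧
      (∀ n, ‖f n‖ ≤ (momOm (sl K v) n : ℝ) ^ l) ∧
      ∀ t, Qu u K v t ^ l * dp s a t =
        dp (Finset.Icc 1 ⌊(M : ℝ) * Real.exp (((v : ℝ) + 1) / K) ^ l⌋₊) f t := by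
  classical
  set E : ℝ := Real.exp (((v : ℝ) + 1) / K) with hE
  have hE0 : 0 < E := Real.exp_pos _
  induction l with
  | zero =>
    refine ⟨fun n => if n ∈ s then a n else 0, ?_, ?_, ?_⟩
    · intro n hn
      have hns : n ∈ s := by
        by_contra h
        simp [h] at hn
      have := Finset.mem_Icc.1 (hs hns)
      refine ⟨this.1, ?_⟩
      rw [pow_zero, mul_one]
      exact_mod_cast this.2
    · intro n
      rw [pow_zero]
      dsimp only
      split_ifs with h
      · exact ha n h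
      · simp
    · intro t
      rw [pow_zero, pow_zero, one_mul, mul_one, Nat.floor_natCast]
      unfold dp
      rw [← Finset.sum_subset hs]
      · refine Finset.sum_congr rfl fun n hn => ?_
        simp [hn]
      · intro n _ hn
        simp [hn]
  | succ l ih =>
    obtain ⟨f, hf1, hf2, hf3⟩ := ih
    refine ⟨fun n => ∑ p ∈ (sl K v).filter (fun p => p ∣ n), u p * f (n / p), ?_, ?_, ?_⟩
    · intro n hn
      obtain ⟨p, hp, hfp'⟩ := Finset.exists_ne_zero_of_sum_ne_zero hn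
      have hfp := right_ne_zero_of_mul hfp'
      rw [Finset.mem_filter, mem_sl] at hp
      obtain ⟨⟨hpp, _, hpE⟩, hpn⟩ := hp
      obtain ⟨h1, h2⟩ := hf1 _ hfp
      have hn' : n = p * (n / p) := (Nat.mul_div_cancel' hpn).symm
      constructor
      · rw [hn']
        exact Nat.one_le_iff_ne_zero.2 (Nat.mul_ne_zero hpp.ne_zero (by omega))
      · have h3 : (n : ℝ) = (p : ℝ) * ((n / p : ℕ) : ℝ) := by exact_mod_cast hn'
        rw [h3, pow_succ]
        calc (p : ℝ) * ((n / p : ℕ) : ℝ) ≤ E * (M * E ^ l) :=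
              mul_le_mul hpE h2 (Nat.cast_nonneg _) hE0.le
          _ = M * (E ^ l * E) := by ring
    · intro n
      dsimp only
      refine (norm_sum_le _ _).trans ?_
      have : ∀ p ∈ (sl K v).filter (fun p => p ∣ n), ‖u p * f (n / p)‖ ≤ (momOm (sl K v) n : ℝ) ^ l := by
        intro p hp
        rw [Finset.mem_filter] at hp
        rw [norm_mul]
        refine (mul_le_of_le_one_left (norm_nonneg _) (hu.le p)).trans ((hf2 _).trans ?_)
        refine pow_le_pow_left₀ (Nat.cast_nonneg _) ?_ l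
        exact_mod_cast momOm_div_le (sl K v) hp.2
      refine (Finset.sum_le_card_nsmul _ _ _ this).trans ?_
      rw [nsmul_eq_mul, pow_succ, mul_comm]
      rfl
    · intro t
      rw [pow_succ, mul_comm (Qu u K v t ^ l) (Qu u K v t), mul_assoc, hf3 t]
      have hstep : dp (Finset.Icc 1 ⌊(M : ℝ) * E ^ (l + 1)⌋₊)
          (fun n => ∑ p ∈ (sl K v).filter (fun p => p ∣ n), u p * f (n / p)) t =
          ∑ p ∈ sl K v, ∑ n ∈ Finset.Icc 1 ⌊(M : ℝ) * E ^ (l + 1)⌋₊,
            (if p ∣ n then u p * f (n / p) * ep t n else 0) := by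
        rw [Finset.sum_comm]
        unfold dp
        refine Finset.sum_congr rfl fun n _ => ?_
        rw [Finset.sum_mul, Finset.sum_filter]
      rw [hstep]
      unfold Qu
      conv_lhs => rw [dp]
      rw [Finset.sum_mul]
      refine Finset.sum_congr rfl fun p hp => ?_
      rw [mem_sl] at hp
      obtain ⟨hpp, _, hpE⟩ := hp
      unfold dp
      rw [Finset.mul_sum]
      have hinj : Set.InjOn (fun m => p * m) ↑(Finset.Icc 1 ⌊(M : ℝ) * E ^ l⌋₊) := by
        intro x _ y _ hxy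
        exact Nat.eq_of_mul_eq_mul_left hpp.pos hxy
      have h1 : ∑ m ∈ Finset.Icc 1 ⌊(M : ℝ) * E ^ l⌋₊, u p * ep t p * (f m * ep t m) =
          ∑ n ∈ (Finset.Icc 1 ⌊(M : ℝ) * E ^ l⌋₊).image (fun m => p * m),
            (if p ∣ n then u p * f (n / p) * ep t n else 0) := by
        rw [Finset.sum_image hinj]
        refine Finset.sum_congr rfl fun m hm => ?_
        rw [Finset.mem_Icc] at hm
        rw [if_pos (Dvd.intro m rfl), Nat.mul_div_cancel_left m hpp.pos,
          ep_mul t hpp.ne_zero (by omega)]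
        ring
      rw [h1]
      refine Finset.sum_subset ?_ ?_
      · intro n hn
        rw [Finset.mem_image] at hn
        obtain ⟨m, hm, rfl⟩ := hn
        rw [Finset.mem_Icc] at hm ⊢
        refine ⟨Nat.one_le_iff_ne_zero.2 (Nat.mul_ne_zero hpp.ne_zero (by omega)), ?_⟩
        refine Nat.le_floor ?_
        have h2 : (m : ℝ) ≤ M * E ^ l := (Nat.le_floor_iff (by positivity)).1 hm.2
        push_cast
        calc (p : ℝ) * (m : ℝ) ≤ E * (M * E ^ l) :=
              mul_le_mul hpE h2 (Nat.cast_nonneg _) hE0.le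
          _ = M * E ^ (l + 1) := by ring
      · intro n hn hn'
        split_ifs with hpn
        · by_cases hfn : f (n / p) = 0
          · rw [hfn, mul_zero, zero_mul]
          · exfalso
            apply hn'
            rw [Finset.mem_image]
            obtain ⟨h3, h4⟩ := hf1 _ hfn
            refine ⟨n / p, ?_, Nat.mul_div_cancel' hpn⟩
            rw [Finset.mem_Icc]
            exact ⟨h3, Nat.le_floor h4⟩
        · rfl

private theorem moment_expsum (P : Finset ℕ) (hP : ∀ p ∈ P, p.Prime) (N : ℕ) :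
    ∑ n ∈ Finset.Icc 1 N, Real.exp (momOm P n) ≤
      N * Real.exp ((Real.exp 1 - 1) * ∑ p ∈ P, 1 / (p : ℝ)) := by
  classical
  set c : ℝ := Real.exp 1 - 1 with hc
  have hc0 : 0 ≤ c := by
    have := Real.add_one_le_exp (1 : ℝ)
    rw [hc]; linarith
  have h1 : ∀ n : ℕ, Real.exp (momOm P n) =
      ∑ D ∈ P.powerset, (if D.prod id ∣ n then c ^ D.card else 0) := by
    intro n
    have : Real.exp (momOm P n) = ∏ p ∈ P, (1 + (if p ∣ n then c else 0)) := by
      unfold momOm
      have e1 : ∀ p ∈ P, (1 + (if p ∣ n then c else 0)) = (if p ∣ n then Real.exp 1 else 1) := by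
        intro p _
        split_ifs
        · rw [hc]; ring
        · exact add_zero 1
      rw [Finset.prod_congr rfl e1, ← Finset.prod_filter, Finset.prod_const, ← Real.exp_nat_mul,
        mul_one]
    rw [this, Finset.prod_one_add]
    refine Finset.sum_congr rfl fun D hD => ?_
    rw [Finset.mem_powerset] at hD
    by_cases hDn : D.prod id ∣ n
    · rw [if_pos hDn]
      have : ∀ p ∈ D, (if p ∣ n then c else 0) = c := by
        intro p hp
        have hpn : p ∣ n := (Finset.dvd_prod_of_mem id hp).trans hDn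
        rw [if_pos hpn]
      rw [Finset.prod_congr rfl this, Finset.prod_const]
    · rw [if_neg hDn]
      by_contra hne
      apply hDn
      refine Finset.prod_primes_dvd n (fun p hp => (hP p (hD hp)).prime) fun p hp => ?_
      by_contra hpn
      apply hne
      refine Finset.prod_eq_zero hp ?_
      rw [if_neg hpn]
  calc ∑ n ∈ Finset.Icc 1 N, Real.exp (momOm P n)
      = ∑ n ∈ Finset.Icc 1 N, ∑ D ∈ P.powerset, (if D.prod id ∣ n then c ^ D.card else 0) :=
        Finset.sum_congr rfl fun n _ => h1 n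
    _ = ∑ D ∈ P.powerset, ∑ n ∈ Finset.Icc 1 N, (if D.prod id ∣ n then c ^ D.card else 0) :=
        Finset.sum_comm
    _ ≤ ∑ D ∈ P.powerset, (N : ℝ) * ∏ p ∈ D, (c * (1 / (p : ℝ))) := by
        refine Finset.sum_le_sum fun D hD => ?_
        rw [← Finset.sum_filter, Finset.sum_const, nsmul_eq_mul]
        have hcard : ((Finset.Icc 1 N).filter (fun n => D.prod id ∣ n)).card = N / D.prod id := by
          have : (Finset.Icc 1 N) = Finset.Ioc 0 N := rfl
          rw [this]
          exact Nat.Ioc_filter_dvd_card_eq_div N (D.prod id)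
        rw [hcard, Finset.prod_mul_distrib, Finset.prod_const, Finset.prod_div_distrib,
          Finset.prod_const_one]
        have h2 : ((N / D.prod id : ℕ) : ℝ) ≤ (N : ℝ) / ∏ p ∈ D, (p : ℝ) := by
          refine Nat.cast_div_le.trans ?_
          rw [Nat.cast_prod]
          exact le_of_eq rfl
        have h3 : (0 : ℝ) ≤ c ^ D.card := by positivity
        calc ((N / D.prod id : ℕ) : ℝ) * c ^ D.card ≤ (N : ℝ) / (∏ p ∈ D, (p : ℝ)) * c ^ D.card :=
              mul_le_mul_of_nonneg_right h2 h3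
          _ = (N : ℝ) * (c ^ D.card * (1 / ∏ p ∈ D, (p : ℝ))) := by ring
    _ = N * ∏ p ∈ P, (1 + c * (1 / (p : ℝ))) := by
        rw [← Finset.mul_sum, Finset.prod_one_add]
    _ ≤ N * Real.exp (c * ∑ p ∈ P, 1 / (p : ℝ)) := by
        refine mul_le_mul_of_nonneg_left ?_ (Nat.cast_nonneg _)
        rw [Finset.mul_sum, Real.exp_sum]
        refine Finset.prod_le_prod (fun p _ => by positivity) fun p _ => ?_
        rw [add_comm]
        exact Real.add_one_le_exp _

private theorem moment_slsum (K v : ℕ) (hK : 1 ≤ K) (hv : 2 ≤ Real.exp ((v : ℝ) / K)) :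
    ∑ p ∈ sl K v, 1 / (p : ℝ) ≤ 3 := by
  set V : ℝ := (v : ℝ) / K with hV
  have hK0 : (0 : ℝ) < K := by exact_mod_cast hK
  have hE : ((v : ℝ) + 1) / K = V + 1 / K := by rw [hV]; ring
  have h1 : ∀ p ∈ sl K v, 1 / (p : ℝ) ≤ 1 / Real.exp V := by
    intro p hp
    rw [mem_sl] at hp
    exact one_div_le_one_div_of_le (Real.exp_pos _) hp.2.1.le
  refine (Finset.sum_le_card_nsmul _ _ _ h1).trans ?_
  rw [nsmul_eq_mul]
  have hle : Real.exp V ≤ Real.exp (((v : ℝ) + 1) / K) := by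
    rw [hE]
    exact Real.exp_le_exp.2 (by have : (0 : ℝ) ≤ 1 / K := by positivity
                                linarith)
  have h2 : ((sl K v).card : ℝ) ≤ Real.exp (((v : ℝ) + 1) / K) - Real.exp V + 1 := by
    refine le_trans ?_ (card_seg_le (Real.exp_pos _).le hle)
    unfold sl
    exact_mod_cast Finset.card_filter_le _ _
  have h3 : Real.exp (((v : ℝ) + 1) / K) ≤ Real.exp V * 3 := by
    rw [hE, Real.exp_add]
    refine mul_le_mul_of_nonneg_left ?_ (Real.exp_pos _).le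
    calc Real.exp (1 / (K : ℝ)) ≤ Real.exp 1 := by
          refine Real.exp_le_exp.2 ?_
          rw [div_le_one hK0]
          exact_mod_cast hK
      _ ≤ 3 := by
          have := Real.exp_one_lt_d9
          linarith
  have h4 : ((sl K v).card : ℝ) ≤ 3 * Real.exp V := by
    linarith
  rw [mul_one_div, div_le_iff₀ (Real.exp_pos _)]
  exact h4

/-- Moments of a slice polynomial times a polynomial with bounded coefficients. -/
theorem moment_u (hu : CM u) : ∃ C : ℝ, 0 < C ∧ ∀ (K v l M : ℕ) (s : Finset ℕ) (a : ℕ → ℂ) (T : ℝ), 1 ≤ K →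
    2 ≤ Real.exp ((v : ℝ) / K) → s ⊆ Finset.Icc 1 M → (∀ m ∈ s, ‖a m‖ ≤ 1) → 1 ≤ T →
    ∫ t in (-T)..T, ‖Qu u K v t ^ l * dp s a t‖ ^ 2 ≤
      C * (T + M * Real.exp (l * (((v : ℝ) + 1) / K))) *
        (M * Real.exp (l * (((v : ℝ) + 1) / K))) * (2 * l).factorial := by
  obtain ⟨C0, hC0, hmvt⟩ := mvt
  refine ⟨C0 * Real.exp ((Real.exp 1 - 1) * 3), by positivity, ?_⟩
  intro K v l M s a T hK hv hs ha hT
  obtain ⟨f, -, hf2, hf3⟩ := moment_coeff hu K v M s a hs ha l
  have hEl : Real.exp (l * (((v : ℝ) + 1) / K)) = Real.exp (((v : ℝ) + 1) / K) ^ l :=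
    Real.exp_nat_mul _ _
  rw [hEl]
  set Y : ℝ := (M : ℝ) * Real.exp (((v : ℝ) + 1) / K) ^ l with hY
  have hY0 : 0 ≤ Y := by positivity
  have hint : ∫ t in (-T)..T, ‖Qu u K v t ^ l * dp s a t‖ ^ 2 =
      ∫ t in (-T)..T, ‖dp (Finset.Icc 1 ⌊Y⌋₊) f t‖ ^ 2 := by
    congr 1
    ext t
    rw [hf3 t]
  rw [hint]
  refine (hmvt ⌊Y⌋₊ (Finset.Icc 1 ⌊Y⌋₊) f T hT (Finset.Subset.refl _)).trans ?_
  have hN : ((⌊Y⌋₊ : ℕ) : ℝ) ≤ Y := Nat.floor_le hY0
  have hsum : ∑ n ∈ Finset.Icc 1 ⌊Y⌋₊, ‖f n‖ ^ 2 ≤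
      Y * Real.exp ((Real.exp 1 - 1) * 3) * (2 * l).factorial := by
    have h1 : ∀ n ∈ Finset.Icc 1 ⌊Y⌋₊, ‖f n‖ ^ 2 ≤
        Real.exp (momOm (sl K v) n) * (2 * l).factorial := by
      intro n _
      have h2 : ‖f n‖ ^ 2 ≤ (momOm (sl K v) n : ℝ) ^ (2 * l) := by
        calc ‖f n‖ ^ 2 ≤ ((momOm (sl K v) n : ℝ) ^ l) ^ 2 :=
              pow_le_pow_left₀ (norm_nonneg _) (hf2 n) 2
          _ = (momOm (sl K v) n : ℝ) ^ (2 * l) := by rw [← pow_mul, mul_comm]
      refine h2.trans ?_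
      have h3 := Real.pow_div_factorial_le_exp (momOm (sl K v) n : ℝ) (Nat.cast_nonneg _) (2 * l)
      rw [div_le_iff₀ (by exact_mod_cast Nat.factorial_pos _)] at h3
      exact h3
    refine (Finset.sum_le_sum h1).trans ?_
    rw [← Finset.sum_mul]
    refine mul_le_mul_of_nonneg_right ?_ (Nat.cast_nonneg _)
    refine (moment_expsum (sl K v) (fun p hp => (mem_sl.1 hp).1) ⌊Y⌋₊).trans ?_
    have hc0 : (0 : ℝ) ≤ Real.exp 1 - 1 := by
      have := Real.add_one_le_exp (1 : ℝ)
      linarith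
    refine mul_le_mul hN ?_ (Real.exp_pos _).le hY0
    refine Real.exp_le_exp.2 (mul_le_mul_of_nonneg_left (moment_slsum K v hK hv) hc0)
  have hCT : 0 ≤ C0 * (T + Y) := by positivity
  calc C0 * (T + (⌊Y⌋₊ : ℕ)) * ∑ n ∈ Finset.Icc 1 ⌊Y⌋₊, ‖f n‖ ^ 2
      ≤ C0 * (T + Y) * (Y * Real.exp ((Real.exp 1 - 1) * 3) * (2 * l).factorial) := by
        refine mul_le_mul ?_ hsum (Finset.sum_nonneg fun _ _ => by positivity) hCT
        refine mul_le_mul_of_nonneg_left ?_ hC0.le
        linarith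
    _ = C0 * Real.exp ((Real.exp 1 - 1) * 3) * (T + Y) * Y * (2 * l).factorial := by ring

end Pool.MP_67663b_nt.PS
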