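import Pool.Agent.Lib.MP_67663b_nt.PS.UDefs
import Pool.Agent.Lib.MP_67663b_nt.PS.Momentu

set_option autoImplicit false
open Filter Topology MeasureTheory
namespace Pool.MP_67663b_nt.PS
open Pool.MP_67663b_nt.Odd Pool.MP_67663b_nt.MR

variable {u : ℕ → ℂ}

/-- From level `K'` to level `K`. -/
theorem level_step_u (hu : CM u) : ∃ C : ℝ, 0 < C ∧ ∀ (X T α α' : ℝ) (K v K' v' l : ℕ) (S : Set ℝ), 1 ≤ K → 1 ≤ K' →
    2 ≤ Real.exp ((v' : ℝ) / K') → (v' : ℝ) / K' ≤ (v : ℝ) / K → Real.exp ((v : ℝ) / K) ≤ X →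
    0 ≤ α' → α' ≤ α → α ≤ 1 → 1 ≤ T → T ≤ X →
    MeasurableSet S → S ⊆ Set.Icc (-T) T →
    (∀ t ∈ S, ‖Qu u K v t‖ ≤ Real.exp ((1 - α) * ((v : ℝ) / K))) →
    (∀ t ∈ S, Real.exp ((1 - α') * ((v' : ℝ) / K')) ≤ ‖Qu u K' v' t‖) →
    l = ⌈((v : ℝ) / K) / ((v' : ℝ) / K')⌉₊ →
    2 * ((v' : ℝ) / K') + 2 * l * (Real.log (2 * l) + 1) ≤ (α - α') * ((v : ℝ) / K) →
    ∫ t in S, ‖Qu u K v t * Ru u X K v t‖ ^ 2 ≤ C * X ^ 2 * Real.exp (-((α - α') * ((v : ℝ) / K))) := by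
  obtain ⟨C0, hC0, hmom⟩ := moment_u hu
  refine ⟨20 * C0, by positivity, ?_⟩
  intro X T α α' K v K' v' l S hK hK' h2 hVV hVX hα' hαα hα1 hT hTX hSm hS hQ hQ' hl hmain
  set V : ℝ := (v : ℝ) / K with hV
  set V' : ℝ := (v' : ℝ) / K' with hV'
  have hV0 : 0 ≤ V := by rw [hV]; positivity
  have hX0 : 0 < X := lt_of_lt_of_le (by linarith) hTX
  have hV'0 : 0 < V' := by
    by_contra h
    have : Real.exp V' ≤ Real.exp 0 := Real.exp_le_exp.2 (not_lt.1 h)
    rw [Real.exp_zero] at this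
    linarith
  have hlge : V ≤ l * V' := by
    have : V / V' ≤ l := by rw [hl]; exact Nat.le_ceil _
    rwa [div_le_iff₀ hV'0] at this
  have hlle : l * V' ≤ V + V' := by
    have h3 : (l : ℝ) ≤ V / V' + 1 := by
      rw [hl]
      exact (Nat.ceil_lt_add_one (by positivity)).le
    calc (l : ℝ) * V' ≤ (V / V' + 1) * V' := mul_le_mul_of_nonneg_right h3 hV'0.le
      _ = V + V' := by field_simp
  -- the data for the moment estimate
  set x : ℝ := X * Real.exp (-V) with hx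
  have hx0 : 0 < x := by positivity
  have hs : seg x (4 * x) ⊆ Finset.Icc 1 ⌊4 * x⌋₊ := seg_subset
  have hM : ((⌊4 * x⌋₊ : ℕ) : ℝ) ≤ 4 * x := Nat.floor_le (by positivity)
  have hRp : ∀ t, Ru u X K v t = dp (seg x (4 * x)) (fu u) t := fun t => rfl
  have hm := hmom K' v' l ⌊4 * x⌋₊ (seg x (4 * x)) (fu u) T hK' h2 hs
    (fun m _ => norm_fu_le hu m) hT
  set A : ℝ := Real.exp (2 * ((1 - α) * V) - 2 * (l * ((1 - α') * V'))) with hA
  have hA0 : 0 < A := Real.exp_pos _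
  have hcont : Continuous (fun t => A * ‖Qu u K' v' t ^ l * dp (seg x (4 * x)) (fu u) t‖ ^ 2) :=
    continuous_const.mul (((((continuous_Qu u K' v').pow l).mul (continuous_dp _ _)).norm).pow 2)
  have hcont1 : Continuous (fun t => ‖Qu u K v t * Ru u X K v t‖ ^ 2) :=
    (((continuous_Qu u K v).mul (continuous_Ru u X K v)).norm).pow 2
  have hpt : ∀ t ∈ S, ‖Qu u K v t * Ru u X K v t‖ ^ 2 ≤
      A * ‖Qu u K' v' t ^ l * dp (seg x (4 * x)) (fu u) t‖ ^ 2 := by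
    intro t ht
    rw [← hRp t, norm_mul, norm_mul, norm_pow, mul_pow, mul_pow]
    have h3 : ‖Qu u K v t‖ ^ 2 ≤ Real.exp (2 * ((1 - α) * V)) := by
      calc ‖Qu u K v t‖ ^ 2 ≤ (Real.exp ((1 - α) * V)) ^ 2 :=
            pow_le_pow_left₀ (norm_nonneg _) (hQ t ht) 2
        _ = Real.exp (2 * ((1 - α) * V)) := by
            rw [← Real.exp_nat_mul]; norm_num
    have h4 : Real.exp (2 * (l * ((1 - α') * V'))) ≤ (‖Qu u K' v' t‖ ^ l) ^ 2 := by
      calc Real.exp (2 * (l * ((1 - α') * V'))) = (Real.exp ((1 - α') * V') ^ l) ^ 2 := by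
            rw [← Real.exp_nat_mul, ← Real.exp_nat_mul]; norm_num
        _ ≤ (‖Qu u K' v' t‖ ^ l) ^ 2 :=
            pow_le_pow_left₀ (by positivity) (pow_le_pow_left₀ (Real.exp_pos _).le (hQ' t ht) l) 2
    have h5 : Real.exp (2 * ((1 - α) * V)) ≤ A * (‖Qu u K' v' t‖ ^ l) ^ 2 := by
      calc Real.exp (2 * ((1 - α) * V)) = A * Real.exp (2 * (l * ((1 - α') * V'))) := by
            rw [hA, ← Real.exp_add]; congr 1; ring
        _ ≤ A * (‖Qu u K' v' t‖ ^ l) ^ 2 := mul_le_mul_of_nonneg_left h4 hA0.le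
    calc ‖Qu u K v t‖ ^ 2 * ‖Ru u X K v t‖ ^ 2 ≤ (A * (‖Qu u K' v' t‖ ^ l) ^ 2) * ‖Ru u X K v t‖ ^ 2 :=
          mul_le_mul_of_nonneg_right (h3.trans h5) (by positivity)
      _ = A * ((‖Qu u K' v' t‖ ^ l) ^ 2 * ‖Ru u X K v t‖ ^ 2) := by ring
  have hSint : ∫ t in S, ‖Qu u K v t * Ru u X K v t‖ ^ 2 ≤
      A * ∫ t in (-T)..T, ‖Qu u K' v' t ^ l * dp (seg x (4 * x)) (fu u) t‖ ^ 2 := by
    rw [← intervalIntegral.integral_const_mul, intervalIntegral.integral_of_le (by linarith),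
      ← integral_Icc_eq_integral_Ioc]
    have hi1 : IntegrableOn (fun t => A * ‖Qu u K' v' t ^ l * dp (seg x (4 * x))
        (fu u) t‖ ^ 2) (Set.Icc (-T) T) := hcont.integrableOn_Icc
    have hi2 : IntegrableOn (fun t => ‖Qu u K v t * Ru u X K v t‖ ^ 2) (Set.Icc (-T) T) :=
      hcont1.integrableOn_Icc
    refine (setIntegral_mono_on (hi2.mono_set hS) (hi1.mono_set hS) hSm hpt).trans ?_
    refine setIntegral_mono_set hi1 ?_ ?_
    · exact Filter.Eventually.of_forall fun t => by positivity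
    · exact Filter.Eventually.of_forall hS
  refine hSint.trans ?_
  refine (mul_le_mul_of_nonneg_left hm hA0.le).trans ?_
  -- numerical part
  have hK'0 : (0 : ℝ) < K' := by exact_mod_cast hK'
  have hl0 : (0 : ℝ) ≤ l := Nat.cast_nonneg l
  have hexp1 : (l : ℝ) * (((v' : ℝ) + 1) / K') ≤ l * V' + l := by
    have : ((v' : ℝ) + 1) / K' = V' + 1 / K' := by rw [hV']; ring
    rw [this, mul_add]
    have h6 : 1 / (K' : ℝ) ≤ 1 := by
      rw [div_le_one hK'0]; exact_mod_cast hK'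
    nlinarith
  set F : ℝ := Real.exp (l * V' - V + l) with hF
  have hF1 : 1 ≤ F := by
    rw [hF]
    exact Real.one_le_exp (by linarith)
  have hY : ((⌊4 * x⌋₊ : ℕ) : ℝ) * Real.exp (l * (((v' : ℝ) + 1) / K')) ≤ 4 * X * F := by
    calc ((⌊4 * x⌋₊ : ℕ) : ℝ) * Real.exp (l * (((v' : ℝ) + 1) / K'))
        ≤ (4 * x) * Real.exp (l * V' + l) :=
          mul_le_mul hM (Real.exp_le_exp.2 hexp1) (Real.exp_pos _).le (by positivity)
      _ = 4 * X * F := by
          rw [hx, hF]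
          have : Real.exp (l * V' - V + l) = Real.exp (-V) * Real.exp (l * V' + l) := by
            rw [← Real.exp_add]; congr 1; ring
          rw [this]; ring
  have hY0 : 0 ≤ ((⌊4 * x⌋₊ : ℕ) : ℝ) * Real.exp (l * (((v' : ℝ) + 1) / K')) := by positivity
  have hTY : T + ((⌊4 * x⌋₊ : ℕ) : ℝ) * Real.exp (l * (((v' : ℝ) + 1) / K')) ≤ 5 * X * F := by
    have : T ≤ X * F := hTX.trans (by nlinarith)
    linarith
  have hfac : ((2 * l).factorial : ℝ) ≤ Real.exp (2 * l * Real.log (2 * l)) := by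
    rcases Nat.eq_zero_or_pos l with h0 | hpos
    · rw [h0]; simp
    · have h7 : ((2 * l).factorial : ℝ) ≤ ((2 * l : ℕ) : ℝ) ^ (2 * l) := by
        exact_mod_cast Nat.factorial_le_pow (2 * l)
      refine h7.trans (le_of_eq ?_)
      have h8 : (0 : ℝ) < ((2 * l : ℕ) : ℝ) := by exact_mod_cast (by omega : 0 < 2 * l)
      calc ((2 * l : ℕ) : ℝ) ^ (2 * l) = (Real.exp (Real.log ((2 * l : ℕ) : ℝ))) ^ (2 * l) := by
            rw [Real.exp_log h8]
        _ = Real.exp (2 * l * Real.log (2 * l)) := by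
            rw [← Real.exp_nat_mul]; push_cast; rfl
  have hprod : C0 * (T + ((⌊4 * x⌋₊ : ℕ) : ℝ) * Real.exp (l * (((v' : ℝ) + 1) / K'))) *
        (((⌊4 * x⌋₊ : ℕ) : ℝ) * Real.exp (l * (((v' : ℝ) + 1) / K'))) * (2 * l).factorial ≤
      C0 * (5 * X * F) * (4 * X * F) * Real.exp (2 * l * Real.log (2 * l)) := by
    refine mul_le_mul ?_ hfac (Nat.cast_nonneg _) (by positivity)
    refine mul_le_mul ?_ hY hY0 (by positivity)
    exact mul_le_mul_of_nonneg_left hTY hC0.le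
  refine (mul_le_mul_of_nonneg_left hprod hA0.le).trans ?_
  have hcomb : A * (C0 * (5 * X * F) * (4 * X * F) * Real.exp (2 * l * Real.log (2 * l))) =
      20 * C0 * X ^ 2 * Real.exp (2 * ((1 - α) * V) - 2 * (l * ((1 - α') * V')) +
        (l * V' - V + l) + (l * V' - V + l) + 2 * l * Real.log (2 * l)) := by
    rw [Real.exp_add, Real.exp_add, Real.exp_add, ← hA, ← hF]
    ring
  rw [hcomb]
  refine mul_le_mul_of_nonneg_left ?_ (by positivity)
  refine Real.exp_le_exp.2 ?_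
  have h9 : α' * (l * V') ≤ α' * (V + V') := mul_le_mul_of_nonneg_left hlle hα'
  have h10 : α' * V' ≤ V' := by
    have : α' ≤ 1 := hαα.trans hα1
    nlinarith
  nlinarith

end Pool.MP_67663b_nt.PS
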