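import Pool.Agent.Lib.MP_67663b_nt.PS.UDefs
import Pool.Agent.Lib.MP_67663b_nt.MR.Lev
import Pool.Agent.Lib.MP_67663b_nt.PS.TKFu
import Pool.Agent.Lib.MP_67663b_nt.PS.LevelOneu
import Pool.Agent.Lib.MP_67663b_nt.PS.LevelStepu

set_option autoImplicit false
open Filter Topology MeasureTheory
namespace Pool.MP_67663b_nt.PS
open Pool.MP_67663b_nt.Odd Pool.MP_67663b_nt.MR

variable {u : ℕ → ℂ}

theorem LevelsBoundu_cover {ι : Type} (s : Finset ι) (T : ι → Set ℝ) (S : Set ℝ) (hS : MeasurableSet S)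
    (hT : ∀ i ∈ s, MeasurableSet (T i)) (f : ℝ → ℝ) (hf0 : ∀ t, 0 ≤ f t)
    (hfi : ∀ i ∈ s, IntegrableOn f (T i)) (hcov : ∀ t ∈ S, ∃ i ∈ s, t ∈ T i) :
    ∫ t in S, f t ≤ ∑ i ∈ s, ∫ t in T i, f t := by
  have e1 : ∑ i ∈ s, ∫ t in T i, f t = ∫ t, ∑ i ∈ s, (T i).indicator f t := by
    rw [integral_finset_sum]
    · refine Finset.sum_congr rfl fun i hi => ?_
      rw [integral_indicator (hT i hi)]
    · intro i hi
      exact (integrable_indicator_iff (hT i hi)).mpr (hfi i hi)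
  rw [e1, ← integral_indicator hS]
  refine integral_mono_of_nonneg (Eventually.of_forall fun t => ?_) ?_ (Eventually.of_forall fun t => ?_)
  · exact Set.indicator_nonneg (fun t _ => hf0 t) t
  · exact integrable_finset_sum _ fun i hi => (integrable_indicator_iff (hT i hi)).mpr (hfi i hi)
  · show S.indicator f t ≤ ∑ i ∈ s, (T i).indicator f t
    by_cases ht : t ∈ S
    · obtain ⟨i, hi, hti⟩ := hcov t ht
      rw [Set.indicator_of_mem ht]
      calc f t = (T i).indicator f t := by rw [Set.indicator_of_mem hti]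
        _ ≤ _ := Finset.single_le_sum (f := fun i => (T i).indicator f t)
            (fun j _ => Set.indicator_nonneg (fun t _ => hf0 t) t) hi
    · rw [Set.indicator_of_notMem ht]
      exact Finset.sum_nonneg fun j _ => Set.indicator_nonneg (fun t _ => hf0 t) t

theorem LevelsBoundu_intOn {f : ℝ → ℝ} (hf : Continuous f) {S : Set ℝ} {T : ℝ} (hS : S ⊆ Set.Icc (-T) T) :
    IntegrableOn f S :=
  (hf.continuousOn.integrableOn_compact isCompact_Icc).mono_set hS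

theorem LevelsBoundu_cs {ι : Type} (s : Finset ι) (z : ι → ℂ) :
    ‖∑ i ∈ s, z i‖ ^ 2 ≤ (s.card : ℝ) * ∑ i ∈ s, ‖z i‖ ^ 2 := by
  calc ‖∑ i ∈ s, z i‖ ^ 2 ≤ (∑ i ∈ s, ‖z i‖) ^ 2 := by gcongr; exact norm_sum_le _ _
    _ ≤ _ := sq_sum_le_card_mul_sum_sq

theorem LevelsBoundu_sum_sq (n : ℕ) : ∑ j ∈ Finset.range (n + 1), 1 / ((j : ℝ) + 1) ^ 2 ≤ 2 - 1 / ((n : ℝ) + 1) := by
  induction n with
  | zero => norm_num
  | succ n ih =>
    rw [Finset.sum_range_succ]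
    have h1 : (0 : ℝ) < (n : ℝ) + 1 := by positivity
    have h2 : (0 : ℝ) < (n : ℝ) + 2 := by positivity
    have h3 : 1 / ((n : ℝ) + 2) ^ 2 ≤ 1 / ((n : ℝ) + 1) - 1 / ((n : ℝ) + 2) := by
      rw [div_sub_div _ _ h1.ne' h2.ne', div_le_div_iff₀ (by positivity) (by positivity)]
      nlinarith
    have e : ((n + 1 : ℕ) : ℝ) + 1 = (n : ℝ) + 2 := by push_cast; ring
    rw [e]
    linarith

theorem LevelsBoundu_sum_sq_two (n : ℕ) : ∑ j ∈ Finset.range n, 1 / ((j : ℝ) + 1) ^ 2 ≤ 2 := by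
  rcases n with _ | n
  · simp
  · have h := LevelsBoundu_sum_sq n
    have h1 : 0 < 1 / ((n : ℝ) + 1) := by positivity
    linarith

/-- Everything except the set `U`. -/
theorem levels_bound_u (hu : CM u) : ∃ C : ℝ, 0 < C ∧ ∀ (κ a0 D0 : ℝ) (L : Lev κ a0 D0), κ ≤ 1 → a0 ≤ 1 →
    ∀ (J : ℕ) (X T H : ℝ), Real.exp ((L.b 0 : ℝ) / L.K 0) ≤ H → H ≤ X →
    (∀ j ≤ J, Real.exp ((L.b j : ℝ) / L.K j) ≤ X ∧ (L.K j : ℝ) ≤ X) →
    X / H ≤ T → T ≤ X →
    ∫ t in Set.Icc (-T) T \ LevU L u J T, ‖Gu u X t‖ ^ 2 ≤ C * κ * (T * H * X) := by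
  obtain ⟨C1, hC1, htk⟩ := tk_factor_u hu
  obtain ⟨C2, hC2, hl1⟩ := level_one_u hu
  obtain ⟨C3, hC3, hls⟩ := level_step_u hu
  refine ⟨4 * C1 + 2 * C2 + 4 * C3, by positivity, ?_⟩
  intro κ a0 D0 L hκ ha0 J X T H hbH hHX hJ hT hTX
  have hH1 : 1 ≤ H := le_trans (Real.one_le_exp (by positivity)) hbH
  have hH0 : 0 < H := by linarith
  have hX0 : 0 < X := by linarith
  have hT1 : 1 ≤ T := le_trans (by rw [le_div_iff₀ hH0]; linarith) hT
  have hXTH : X ≤ T * H := by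
    rw [div_le_iff₀ hH0] at hT
    exact hT
  have hX2 : X ^ 2 ≤ T * H * X := by nlinarith
  have hκ0 : 0 ≤ κ := le_trans (by positivity) L.h0
  -- sets
  set Gd : ℕ → Set ℝ := fun j => {t | ∀ v ∈ Finset.Ico (L.a j) (L.b j),
    ‖Qu u (L.K j) v t‖ ≤ Real.exp ((1 - L.α j) * ((v : ℝ) / L.K j))} with hGd
  have hGm : ∀ j, MeasurableSet (Gd j) := by
    intro j
    have : Gd j = ⋂ v ∈ Finset.Ico (L.a j) (L.b j), {t | ‖Qu u (L.K j) v t‖ ≤ Real.exp ((1 - L.α j) * ((v : ℝ) / L.K j))} := by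
      ext t
      simp [hGd]
    rw [this]
    refine Finset.measurableSet_biInter _ fun v _ => ?_
    exact (isClosed_le (continuous_Qu u _ _).norm continuous_const).measurableSet
  set TT : ℕ → Set ℝ := fun j => (Set.Icc (-T) T ∩ Gd j) \ ⋃ i ∈ Finset.range j, Gd i with hTT
  have hTm : ∀ j, MeasurableSet (TT j) := by
    intro j
    exact (measurableSet_Icc.inter (hGm j)).diff (Finset.measurableSet_biUnion _ fun i _ => hGm i)
  have hTI : ∀ j, TT j ⊆ Set.Icc (-T) T := fun j t ht => ht.1.1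
  have hUm : MeasurableSet (LevU L u J T) := by
    have : LevU L u J T = Set.Icc (-T) T ∩ ⋂ j ∈ Finset.range (J + 1), (Gd j)ᶜ := by
      ext t
      simp only [LevU, Set.mem_setOf_eq, Set.mem_inter_iff, Set.mem_iInter, Finset.mem_range, Set.mem_compl_iff, hGd,
        not_forall, not_le, exists_prop, Nat.lt_succ_iff]
    rw [this]
    exact measurableSet_Icc.inter (Finset.measurableSet_biInter _ fun j _ => (hGm j).compl)
  have hcov : ∀ t ∈ Set.Icc (-T) T \ LevU L u J T, ∃ j ∈ Finset.range (J + 1), t ∈ TT j := by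
    intro t ht
    have hex : ∃ j, j ≤ J ∧ t ∈ Gd j := by
      by_contra hno
      push Not at hno
      refine ht.2 ⟨ht.1, fun j hj => ?_⟩
      have := hno j hj
      simp only [hGd, Set.mem_setOf_eq, not_forall, not_le, exists_prop] at this
      exact this
    classical
    have hf := Nat.find_spec hex
    refine ⟨Nat.find hex, Finset.mem_range.mpr (by omega), ⟨ht.1, hf.2⟩, ?_⟩
    intro hmem
    simp only [Set.mem_iUnion, Finset.mem_range, exists_prop] at hmem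
    obtain ⟨i, hi, hti⟩ := hmem
    exact Nat.find_min hex hi ⟨by omega, hti⟩
  have hGc : Continuous (fun t => ‖Gu u X t‖ ^ 2) := (continuous_Gu u X).norm.pow 2
  have hmain := LevelsBoundu_cover (Finset.range (J + 1)) TT (Set.Icc (-T) T \ LevU L u J T) (measurableSet_Icc.diff hUm)
    (fun j _ => hTm j) (fun t => ‖Gu u X t‖ ^ 2) (fun t => by positivity)
    (fun j _ => LevelsBoundu_intOn hGc (hTI j)) hcov
  refine hmain.trans ?_
  -- notation
  set SQ : ℕ → ℝ → ℂ := fun j t => ∑ v ∈ Finset.Ico (L.a j) (L.b j), Qu u (L.K j) v t * Ru u X (L.K j) v t with hSQ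
  have hSQc : ∀ j, Continuous (SQ j) := fun j =>
    continuous_finsetSum _ fun v _ => (continuous_Qu u _ _).mul (continuous_Ru u _ _ _)
  -- bound for one level by the two pieces
  have hpiece : ∀ j ≤ J, ∫ t in TT j, ‖Gu u X t‖ ^ 2 ≤ 2 * C1 * X ^ 2 * (κ / ((j : ℝ) + 1) ^ 2) +
      2 * ∫ t in TT j, ‖SQ j t‖ ^ 2 := by
    intro j hj
    set Λ := Lm (L.K j) (L.a j) (L.b j) with hΛ
    have hΛ0 : 0 < Λ := L.hL0 j
    have hKj := L.hK j
    have hLj := L.hL j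
    have hKinv : 0 ≤ 1 / (L.K j : ℝ) := by positivity
    have hj1 : κ / ((j : ℝ) + 1) ^ 2 ≤ 1 := by
      rw [div_le_one (by positivity)]
      have : (0 : ℝ) ≤ j := Nat.cast_nonneg j
      nlinarith
    have hΛ1 : 1 / Λ ≤ 1 := by linarith
    have hΛpos : 0 ≤ 1 / Λ := by positivity
    have hpt : ∀ t, ‖Gu u X t‖ ^ 2 ≤ 2 * ‖Gu u X t + ((1 / Λ : ℝ) : ℂ) * SQ j t‖ ^ 2 + 2 * ‖SQ j t‖ ^ 2 := by
      intro t
      have h1 : ‖Gu u X t‖ ≤ ‖Gu u X t + ((1 / Λ : ℝ) : ℂ) * SQ j t‖ + ‖SQ j t‖ := by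
        have h2 : ‖((1 / Λ : ℝ) : ℂ) * SQ j t‖ ≤ ‖SQ j t‖ := by
          rw [norm_mul, Complex.norm_real, Real.norm_eq_abs, abs_of_nonneg hΛpos]
          exact mul_le_of_le_one_left (norm_nonneg _) hΛ1
        calc ‖Gu u X t‖ = ‖(Gu u X t + ((1 / Λ : ℝ) : ℂ) * SQ j t) - ((1 / Λ : ℝ) : ℂ) * SQ j t‖ := by
              rw [add_sub_cancel_right]
          _ ≤ _ := (norm_sub_le _ _).trans (by linarith)
      have h3 : 0 ≤ ‖Gu u X t‖ := norm_nonneg _
      nlinarith [sq_nonneg (‖Gu u X t + ((1 / Λ : ℝ) : ℂ) * SQ j t‖ - ‖SQ j t‖)]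
    have hc1 : Continuous (fun t => ‖Gu u X t + ((1 / Λ : ℝ) : ℂ) * SQ j t‖ ^ 2) :=
      (((continuous_Gu u X).add (continuous_const.mul (hSQc j))).norm.pow 2)
    have hc2 : Continuous (fun t => ‖SQ j t‖ ^ 2) := (hSQc j).norm.pow 2
    have hi1 := LevelsBoundu_intOn hc1 (hTI j)
    have hi2 := LevelsBoundu_intOn hc2 (hTI j)
    have hint : ∫ t in TT j, ‖Gu u X t‖ ^ 2 ≤ 2 * (∫ t in TT j, ‖Gu u X t + ((1 / Λ : ℝ) : ℂ) * SQ j t‖ ^ 2) +
        2 * ∫ t in TT j, ‖SQ j t‖ ^ 2 := by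
      rw [← integral_const_mul, ← integral_const_mul, ← integral_add (hi1.const_mul 2) (hi2.const_mul 2)]
      exact integral_mono (LevelsBoundu_intOn hGc (hTI j)) ((hi1.const_mul 2).add (hi2.const_mul 2)) hpt
    have h4 : ∫ t in TT j, ‖Gu u X t + ((1 / Λ : ℝ) : ℂ) * SQ j t‖ ^ 2 ≤ C1 * X ^ 2 * (κ / ((j : ℝ) + 1) ^ 2) := by
      calc ∫ t in TT j, ‖Gu u X t + ((1 / Λ : ℝ) : ℂ) * SQ j t‖ ^ 2
          ≤ ∫ t in Set.Icc (-T) T, ‖Gu u X t + ((1 / Λ : ℝ) : ℂ) * SQ j t‖ ^ 2 := by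
            refine setIntegral_mono_set (LevelsBoundu_intOn hc1 subset_rfl) (Eventually.of_forall fun t => by positivity)
              (HasSubset.Subset.eventuallyLE (hTI j))
        _ = ∫ t in (-T)..T, ‖Gu u X t + ((1 / Λ : ℝ) : ℂ) * SQ j t‖ ^ 2 := by
            rw [intervalIntegral.integral_of_le (by linarith), integral_Icc_eq_integral_Ioc]
        _ ≤ C1 * X ^ 2 * (1 / Λ + 1 / (L.K j : ℝ)) :=
            htk X T (L.K j) (L.a j) (L.b j) hKj (L.hab j) (hJ j hj).1 (hJ j hj).2 hΛ0 hT1 hTX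
        _ ≤ _ := by gcongr
    linarith
  -- level zero
  have hzero : ∫ t in TT 0, ‖SQ 0 t‖ ^ 2 ≤ C2 * κ * (T * H * X) := by
    have h := hl1 X T H (L.α 0) (L.K 0) (L.a 0) (L.b 0) (TT 0) (L.hK 0) (L.hab 0) hbH hHX (L.hα0 0).le
      ((L.hαa 0).trans ha0) hT hTX (hTm 0) (hTI 0) (fun t ht v hv => ht.1.2 v hv)
    refine h.trans ?_
    have hp : 0 ≤ T * H * X := by positivity
    have h2 := mul_le_mul_of_nonneg_left L.h0 hC2.le
    calc C2 * (L.b 0 : ℝ) ^ 2 * Real.exp (-(2 * L.α 0 * ((L.a 0 : ℝ) / L.K 0))) * (T * H * X)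
        = (C2 * ((L.b 0 : ℝ) ^ 2 * Real.exp (-(2 * L.α 0 * ((L.a 0 : ℝ) / L.K 0))))) * (T * H * X) := by ring
      _ ≤ _ := mul_le_mul_of_nonneg_right h2 hp
  -- higher levels
  have hstep : ∀ i, i + 1 ≤ J → ∫ t in TT (i + 1), ‖SQ (i + 1) t‖ ^ 2 ≤ C3 * X ^ 2 * (κ / ((i : ℝ) + 1) ^ 2) := by
    intro i hi
    set e : ℝ := Real.exp (-((L.α (i + 1) - L.α i) * ((L.a (i + 1) : ℝ) / L.K (i + 1)))) with he
    have hKpos : (0 : ℝ) < L.K (i + 1) := by exact_mod_cast L.hK (i + 1)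
    have hKpos' : (0 : ℝ) < L.K i := by exact_mod_cast L.hK i
    have hαi : 0 ≤ L.α (i + 1) - L.α i := by linarith [L.hαm i]
    have hone : ∀ v ∈ Finset.Ico (L.a (i + 1)) (L.b (i + 1)),
        ∫ t in TT (i + 1), ‖Qu u (L.K (i + 1)) v t * Ru u X (L.K (i + 1)) v t‖ ^ 2 ≤ (L.b i : ℝ) * (C3 * X ^ 2 * e) := by
      intro v hv
      have hv' := Finset.mem_Ico.mp hv
      set W : ℕ → Set ℝ := fun v' => TT (i + 1) ∩ {t | Real.exp ((1 - L.α i) * ((v' : ℝ) / L.K i)) ≤ ‖Qu u (L.K i) v' t‖} with hW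
      have hWm : ∀ v', MeasurableSet (W v') := fun v' =>
        (hTm (i + 1)).inter (isClosed_le continuous_const (continuous_Qu u _ _).norm).measurableSet
      have hWI : ∀ v', W v' ⊆ Set.Icc (-T) T := fun v' t ht => hTI (i + 1) ht.1
      have hc : Continuous (fun t => ‖Qu u (L.K (i + 1)) v t * Ru u X (L.K (i + 1)) v t‖ ^ 2) :=
        ((continuous_Qu u _ _).mul (continuous_Ru u _ _ _)).norm.pow 2
      have h1 := LevelsBoundu_cover (Finset.Ico (L.a i) (L.b i)) W (TT (i + 1)) (hTm (i + 1))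
        (fun v' _ => hWm v') (fun t => ‖Qu u (L.K (i + 1)) v t * Ru u X (L.K (i + 1)) v t‖ ^ 2) (fun t => by positivity)
        (fun v' _ => LevelsBoundu_intOn hc (hWI v')) (by
          intro t ht
          have hnot : t ∉ Gd i := by
            intro hmem
            apply ht.2
            simp only [Set.mem_iUnion, Finset.mem_range, exists_prop]
            exact ⟨i, by omega, hmem⟩
          simp only [hGd, Set.mem_setOf_eq, not_forall, not_le, exists_prop] at hnot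
          obtain ⟨v', hv'1, hv'2⟩ := hnot
          exact ⟨v', hv'1, ht, hv'2.le⟩)
      refine h1.trans ?_
      have h2 : ∀ v' ∈ Finset.Ico (L.a i) (L.b i),
          ∫ t in W v', ‖Qu u (L.K (i + 1)) v t * Ru u X (L.K (i + 1)) v t‖ ^ 2 ≤ C3 * X ^ 2 * e := by
        intro v' hv'1
        have hm := Finset.mem_Ico.mp hv'1
        have hV'1 : 1 ≤ (v' : ℝ) / L.K i := by
          rw [le_div_iff₀ hKpos', one_mul]
          exact_mod_cast (L.ha i).trans hm.1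
        have h3 := hls X T (L.α (i + 1)) (L.α i) (L.K (i + 1)) v (L.K i) v'
          ⌈((v : ℝ) / L.K (i + 1)) / ((v' : ℝ) / L.K i)⌉₊ (W v') (L.hK (i + 1)) (L.hK i)
          (by
            have := Real.add_one_le_exp ((v' : ℝ) / L.K i)
            linarith)
          (L.hord i v' hv'1 v hv)
          (by
            refine le_trans (Real.exp_le_exp.mpr ?_) (hJ (i + 1) hi).1
            gcongr
            exact hv'.2.le)
          (L.hα0 i).le (L.hαm i) ((L.hαa (i + 1)).trans ha0) hT1 hTX (hWm v') (hWI v')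
          (fun t ht => ht.1.1.2 v hv) (fun t ht => ht.2) rfl (L.hstep i v' hv'1 v hv)
        refine h3.trans ?_
        have h4 : Real.exp (-((L.α (i + 1) - L.α i) * ((v : ℝ) / L.K (i + 1)))) ≤ e := by
          apply Real.exp_le_exp.mpr
          apply neg_le_neg
          gcongr
          exact hv'.1
        gcongr
      calc ∑ v' ∈ Finset.Ico (L.a i) (L.b i), ∫ t in W v', ‖Qu u (L.K (i + 1)) v t * Ru u X (L.K (i + 1)) v t‖ ^ 2
          ≤ ∑ v' ∈ Finset.Ico (L.a i) (L.b i), C3 * X ^ 2 * e := Finset.sum_le_sum h2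
        _ = ((L.b i - L.a i : ℕ) : ℝ) * (C3 * X ^ 2 * e) := by
            rw [Finset.sum_const, Nat.card_Ico, nsmul_eq_mul]
        _ ≤ (L.b i : ℝ) * (C3 * X ^ 2 * e) := by
            gcongr
            omega
    have hcs : ∀ t, ‖SQ (i + 1) t‖ ^ 2 ≤ (L.b (i + 1) : ℝ) *
        ∑ v ∈ Finset.Ico (L.a (i + 1)) (L.b (i + 1)), ‖Qu u (L.K (i + 1)) v t * Ru u X (L.K (i + 1)) v t‖ ^ 2 := by
      intro t
      refine (LevelsBoundu_cs _ _).trans ?_
      have : 0 ≤ ∑ v ∈ Finset.Ico (L.a (i + 1)) (L.b (i + 1)), ‖Qu u (L.K (i + 1)) v t * Ru u X (L.K (i + 1)) v t‖ ^ 2 :=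
        Finset.sum_nonneg fun _ _ => by positivity
      gcongr
      rw [Nat.card_Ico]
      omega
    have hci : ∀ v, IntegrableOn (fun t => ‖Qu u (L.K (i + 1)) v t * Ru u X (L.K (i + 1)) v t‖ ^ 2) (TT (i + 1)) := fun v =>
      LevelsBoundu_intOn (((continuous_Qu u _ _).mul (continuous_Ru u _ _ _)).norm.pow 2) (hTI (i + 1))
    calc ∫ t in TT (i + 1), ‖SQ (i + 1) t‖ ^ 2
        ≤ ∫ t in TT (i + 1), (L.b (i + 1) : ℝ) *
          ∑ v ∈ Finset.Ico (L.a (i + 1)) (L.b (i + 1)), ‖Qu u (L.K (i + 1)) v t * Ru u X (L.K (i + 1)) v t‖ ^ 2 := by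
          refine integral_mono (LevelsBoundu_intOn ((hSQc (i + 1)).norm.pow 2) (hTI (i + 1))) ?_ hcs
          exact (integrable_finset_sum _ fun v _ => hci v).const_mul _
      _ = (L.b (i + 1) : ℝ) * ∑ v ∈ Finset.Ico (L.a (i + 1)) (L.b (i + 1)),
          ∫ t in TT (i + 1), ‖Qu u (L.K (i + 1)) v t * Ru u X (L.K (i + 1)) v t‖ ^ 2 := by
          rw [integral_const_mul, integral_finset_sum _ fun v _ => hci v]
      _ ≤ (L.b (i + 1) : ℝ) * ∑ v ∈ Finset.Ico (L.a (i + 1)) (L.b (i + 1)), (L.b i : ℝ) * (C3 * X ^ 2 * e) := by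
          gcongr with v hv
          exact hone v hv
      _ = (L.b (i + 1) : ℝ) * (((L.b (i + 1) - L.a (i + 1) : ℕ) : ℝ) * ((L.b i : ℝ) * (C3 * X ^ 2 * e))) := by
          rw [Finset.sum_const, Nat.card_Ico, nsmul_eq_mul]
      _ ≤ (L.b (i + 1) : ℝ) * ((L.b (i + 1) : ℝ) * ((L.b i : ℝ) * (C3 * X ^ 2 * e))) := by
          gcongr
          omega
      _ = C3 * X ^ 2 * ((L.b (i + 1) : ℝ) ^ 2 * L.b i * e) := by ring
      _ ≤ _ := by
          gcongr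
          exact L.hsum i
  -- total
  rw [Finset.sum_range_succ']
  have hcast : ∀ i : ℕ, ((i + 1 : ℕ) : ℝ) + 1 = (i : ℝ) + 2 := fun i => by push_cast; ring
  have hA : ∑ i ∈ Finset.range J, ∫ t in TT (i + 1), ‖Gu u X t‖ ^ 2 ≤
      ∑ i ∈ Finset.range J, (2 * C1 * X ^ 2 * (κ / (((i + 1 : ℕ) : ℝ) + 1) ^ 2) + 2 * (C3 * X ^ 2 * (κ / ((i : ℝ) + 1) ^ 2))) := by
    refine Finset.sum_le_sum fun i hi => ?_
    rw [Finset.mem_range] at hi
    have h1 := hpiece (i + 1) (by omega)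
    have h2 := hstep i (by omega)
    linarith
  have hB := hpiece 0 (Nat.zero_le _)
  have hS1 : ∑ i ∈ Finset.range J, 1 / (((i + 1 : ℕ) : ℝ) + 1) ^ 2 + 1 ≤ 2 := by
    have h := LevelsBoundu_sum_sq_two (J + 1)
    rw [Finset.sum_range_succ'] at h
    norm_num at h ⊢
    linarith
  have hS2 := LevelsBoundu_sum_sq_two J
  have hA' : ∑ i ∈ Finset.range J, (2 * C1 * X ^ 2 * (κ / (((i + 1 : ℕ) : ℝ) + 1) ^ 2) + 2 * (C3 * X ^ 2 * (κ / ((i : ℝ) + 1) ^ 2))) =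
      2 * C1 * X ^ 2 * κ * ∑ i ∈ Finset.range J, 1 / (((i + 1 : ℕ) : ℝ) + 1) ^ 2 +
      2 * C3 * X ^ 2 * κ * ∑ i ∈ Finset.range J, 1 / ((i : ℝ) + 1) ^ 2 := by
    rw [Finset.sum_add_distrib, Finset.mul_sum, Finset.mul_sum]
    congr 1
    · refine Finset.sum_congr rfl fun i _ => by ring
    · refine Finset.sum_congr rfl fun i _ => by ring
  have hm1 : 2 * C1 * X ^ 2 * κ * (∑ i ∈ Finset.range J, 1 / (((i + 1 : ℕ) : ℝ) + 1) ^ 2 + 1) ≤ 2 * C1 * X ^ 2 * κ * 2 := by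
    gcongr
  have hm2 : 2 * C3 * X ^ 2 * κ * ∑ i ∈ Finset.range J, 1 / ((i : ℝ) + 1) ^ 2 ≤ 2 * C3 * X ^ 2 * κ * 2 := by
    gcongr
  have hm3 : (4 * C1 + 4 * C3) * κ * X ^ 2 ≤ (4 * C1 + 4 * C3) * κ * (T * H * X) := by gcongr
  have e0 : κ / (((0 : ℕ) : ℝ) + 1) ^ 2 = κ := by simp
  rw [e0] at hB
  nlinarith

end Pool.MP_67663b_nt.PS
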