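import Pool.Agent.Lib.MP_67663b_nt.PS.MeanGu
import Pool.Agent.Lib.MP_67663b_nt.MR.ShortInt
import Pool.Agent.Lib.MP_67663b_nt.Odd.WordsDefs
import Pool.Agent.Lib.MP_67663b_nt.MR.MRShort

set_option autoImplicit false
open Filter Topology MeasureTheory
namespace Pool.MP_67663b_nt.PS
open Pool.MP_67663b_nt.Odd Pool.MP_67663b_nt.MR

variable {u : ℕ → ℂ}

/-- Matomaki-Radziwill for the Liouville function (qualitative). -/
theorem mr_short_u (hu : CM u) (hHA : HA u) {ε : ℝ} (hε : 0 < ε) : ∃ H0 : ℕ, 1 ≤ H0 ∧ ∀ H ≥ H0, ∃ X0 : ℕ, ∀ X ≥ X0,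
    ∑ n ∈ Finset.Ico X (2 * X), ‖∑ m ∈ Finset.Ioc n (n + H), fu u m‖ ^ 2 ≤ ε * (H : ℝ) ^ 2 * X := by
  obtain ⟨C, hC, hsh⟩ := short_le
  obtain ⟨H1, hH1, hw⟩ := weighted_G_u hu hHA (show 0 < ε / C by positivity)
  refine ⟨⌈H1⌉₊, ?_, fun H hH => ?_⟩
  · exact Nat.one_le_ceil_iff.mpr (by linarith)
  have hH1' : H1 ≤ (H : ℝ) := (Nat.le_ceil H1).trans (by exact_mod_cast hH)
  have hHr : (1 : ℝ) ≤ H := hH1.trans hH1'
  have hHn : 1 ≤ H := by exact_mod_cast hHr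
  obtain ⟨X1, hX1⟩ := hw H hH1'
  refine ⟨max ⌈X1⌉₊ (9 * H), fun X hX => ?_⟩
  have hXX1 : X1 ≤ (X : ℝ) := (Nat.le_ceil X1).trans (by exact_mod_cast (le_max_left _ _).trans hX)
  have hX9 : 9 * H ≤ X := (le_max_right _ _).trans hX
  have hXpos : (0 : ℝ) < X := by
    have : 0 < X := by omega
    exact_mod_cast this
  have h1 := hsh X H (fu u) hHn hX9
  have h2 := hX1 X hXX1
  refine h1.trans ?_
  unfold Gu at h2
  calc C * ((H : ℝ) ^ 2 / X) * ∫ t : ℝ, ‖dp (seg X (4 * X)) (fu u) t‖ ^ 2 * wt ((X : ℝ) / H) t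
      ≤ C * ((H : ℝ) ^ 2 / X) * (ε / C * (X : ℝ) ^ 2) := by gcongr
    _ = _ := by field_simp

/-- first absolute moment on dyadic blocks -/
theorem MRShortu_block (hu : CM u) (hHA : HA u) {δ : ℝ} (hδ : 0 < δ) : ∃ H0 : ℕ, 1 ≤ H0 ∧ ∀ H ≥ H0, ∃ X0 : ℕ, 1 ≤ X0 ∧ ∀ X ≥ X0,
    ∑ n ∈ Finset.Ico X (2 * X), ‖avu u H n‖ ≤ δ * X := by
  obtain ⟨H0, hH0, hm⟩ := mr_short_u hu hHA (show 0 < (δ / 2) ^ 2 by positivity)
  refine ⟨H0, hH0, fun H hH => ?_⟩
  obtain ⟨X1, hX1⟩ := hm H hH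
  refine ⟨max (max X1 1) ⌈2 * H / δ⌉₊, (le_max_right _ _).trans (le_max_left _ _), fun X hX => ?_⟩
  have hHpos : 0 < H := by omega
  have hHr : (0 : ℝ) < H := by exact_mod_cast hHpos
  have hXX1 : X1 ≤ X := ((le_max_left _ _).trans (le_max_left _ _)).trans hX
  have hX1n : 1 ≤ X := ((le_max_right _ _).trans (le_max_left _ _)).trans hX
  have hXr : (0 : ℝ) < X := by exact_mod_cast hX1n
  have hXH : (H : ℝ) ≤ δ / 2 * X := by
    have h1 : 2 * H / δ ≤ (X : ℝ) := (Nat.le_ceil _).trans (by exact_mod_cast (le_max_right _ _).trans hX)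
    rw [div_le_iff₀ hδ] at h1
    linarith
  have h1 := hX1 X hXX1
  -- Cauchy-Schwarz
  have hcs : (∑ n ∈ Finset.Ico X (2 * X), ‖∑ m ∈ Finset.Ioc n (n + H), fu u m‖) ≤ δ / 2 * H * X := by
    have h2 : (∑ n ∈ Finset.Ico X (2 * X), ‖∑ m ∈ Finset.Ioc n (n + H), fu u m‖) ^ 2 ≤ (δ / 2 * H * X) ^ 2 := by
      have h3 := sq_sum_le_card_mul_sum_sq (s := Finset.Ico X (2 * X)) (f := fun n => ‖∑ m ∈ Finset.Ioc n (n + H), fu u m‖)
      rw [Nat.card_Ico] at h3
      have h4 : ((2 * X - X : ℕ) : ℝ) = X := by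
        congr 1
        omega
      rw [h4] at h3
      calc _ ≤ (X : ℝ) * ∑ n ∈ Finset.Ico X (2 * X), ‖∑ m ∈ Finset.Ioc n (n + H), fu u m‖ ^ 2 := h3
        _ ≤ (X : ℝ) * ((δ / 2) ^ 2 * (H : ℝ) ^ 2 * X) := by gcongr
        _ = _ := by ring
    exact le_of_sq_le_sq h2 (by positivity)
  -- compare
  have hsplit : ∑ n ∈ Finset.Ico X (2 * X), ‖avu u H n‖ ≤ H + (1 / (H : ℝ)) *
      ∑ n ∈ Finset.Ico X (2 * X), ‖∑ m ∈ Finset.Ioc n (n + H), fu u m‖ := by
    have hsub : Finset.Ico X (2 * X) ⊆ Finset.Ico X (X + H) ∪ Finset.Ico (X + H) (2 * X + H) := by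
      intro n hn
      rw [Finset.mem_Ico] at hn
      rw [Finset.mem_union, Finset.mem_Ico, Finset.mem_Ico]
      omega
    have hdisj : Disjoint (Finset.Ico X (X + H)) (Finset.Ico (X + H) (2 * X + H)) :=
      Finset.Ico_disjoint_Ico_consecutive _ _ _
    calc ∑ n ∈ Finset.Ico X (2 * X), ‖avu u H n‖
        ≤ ∑ n ∈ Finset.Ico X (X + H) ∪ Finset.Ico (X + H) (2 * X + H), ‖avu u H n‖ :=
          Finset.sum_le_sum_of_subset_of_nonneg hsub fun _ _ _ => norm_nonneg _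
      _ = (∑ n ∈ Finset.Ico X (X + H), ‖avu u H n‖) + ∑ n ∈ Finset.Ico (X + H) (2 * X + H), ‖avu u H n‖ :=
          Finset.sum_union hdisj
      _ ≤ H + (1 / (H : ℝ)) * ∑ n ∈ Finset.Ico X (2 * X), ‖∑ m ∈ Finset.Ioc n (n + H), fu u m‖ := by
          refine add_le_add ?_ (le_of_eq ?_)
          · calc (∑ n ∈ Finset.Ico X (X + H), ‖avu u H n‖) ≤ ∑ n ∈ Finset.Ico X (X + H), (1 : ℝ) :=
                  Finset.sum_le_sum fun n _ => norm_avu_le hu _ _
              _ = H := by simp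
          · rw [← Finset.sum_Ico_add' (fun n => ‖avu u H n‖) X (2 * X) H, Finset.mul_sum]
            refine Finset.sum_congr rfl fun n _ => ?_
            unfold avu
            rw [norm_mul, norm_div, norm_one, Complex.norm_natCast]
            congr 2
            refine Finset.sum_nbij' (i := fun s => n + H - s) (j := fun m => n + H - m) ?_ ?_ ?_ ?_ ?_
            · intro s hs
              rw [Finset.mem_range] at hs
              rw [Finset.mem_Ioc]
              omega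
            · intro m hm
              rw [Finset.mem_Ioc] at hm
              rw [Finset.mem_range]
              omega
            · intro s hs
              rw [Finset.mem_range] at hs
              show n + H - (n + H - s) = s
              omega
            · intro m hm
              rw [Finset.mem_Ioc] at hm
              show n + H - (n + H - m) = m
              omega
            · intro s _
              rfl
  have h5 : (1 / (H : ℝ)) * (δ / 2 * H * X) = δ / 2 * X := by field_simp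
  have h6 : (1 / (H : ℝ)) * ∑ n ∈ Finset.Ico X (2 * X), ‖∑ m ∈ Finset.Ioc n (n + H), fu u m‖ ≤
      (1 / (H : ℝ)) * (δ / 2 * H * X) := by gcongr
  linarith

/-- Logarithmic average of the short averages. -/
theorem log_av_u (hu : CM u) (hHA : HA u) {ε : ℝ} (hε : 0 < ε) : ∃ H0 : ℕ, 1 ≤ H0 ∧ ∀ H ≥ H0, ∀ᶠ N in atTop,
    logMean (fun n => ‖avu u H n‖) N ≤ ε := by
  obtain ⟨H0, hH0, hb⟩ := MRShortu_block hu hHA (show 0 < ε / 4 by positivity)
  refine ⟨H0, hH0, fun H hH => ?_⟩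
  obtain ⟨X0, hX0, hX⟩ := hb H hH
  set C0 : ℝ := ∑ n ∈ Finset.Ico 1 X0, (1 / (n : ℝ)) * ‖avu u H n‖ with hC0
  have hlog : Tendsto (fun N : ℕ => Real.log (N : ℝ)) atTop atTop :=
    Real.tendsto_log_atTop.comp tendsto_natCast_atTop_atTop
  filter_upwards [hlog.eventually_ge_atTop (2 * (C0 + ε / 4) / ε), eventually_ge_atTop 2] with N hN1 hN2
  have hlN : 0 < Real.log (N : ℝ) := Real.log_pos (by exact_mod_cast (by omega : 1 < N))
  set k := Nat.log 2 N + 1 with hk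
  have hNk : N < 2 ^ k := Nat.lt_pow_succ_log_self (by norm_num) N
  have hsub : Finset.Icc 1 N ⊆ Finset.Ico 1 (2 ^ k * X0) := by
    intro n hn
    rw [Finset.mem_Icc] at hn
    rw [Finset.mem_Ico]
    refine ⟨hn.1, lt_of_le_of_lt hn.2 (lt_of_lt_of_le hNk (Nat.le_mul_of_pos_right _ hX0))⟩
  have h1 := MRShort_dyadic (fun n => ‖avu u H n‖) (fun n => norm_nonneg _) hX0 hX k
  have h2 : ∑ n ∈ Finset.Icc 1 N, (1 / (n : ℝ)) * ‖avu u H n‖ ≤ C0 + k * (ε / 4) :=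
    (Finset.sum_le_sum_of_subset_of_nonneg hsub fun n _ _ => by positivity).trans h1
  have hl2 : 0 < Real.log 2 := Real.log_pos (by norm_num)
  have h3 : (Nat.log 2 N : ℝ) * Real.log 2 ≤ Real.log N := by
    rw [← Real.log_pow]
    apply Real.log_le_log (by positivity)
    exact_mod_cast Nat.pow_log_le_self 2 (by omega)
  have h4 : (Nat.log 2 N : ℝ) ≤ 2 * Real.log N := by
    have h5 := Real.log_two_gt_d9
    have h6 : (0 : ℝ) ≤ Nat.log 2 N := Nat.cast_nonneg _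
    nlinarith
  have h7 : (k : ℝ) = Nat.log 2 N + 1 := by
    rw [hk]
    push_cast
    ring
  have h8 : C0 + ε / 4 ≤ Real.log N * (ε / 2) := by
    rw [div_le_iff₀ hε] at hN1
    linarith
  have h9 : ∑ n ∈ Finset.Icc 1 N, (1 / (n : ℝ)) * ‖avu u H n‖ ≤ Real.log N * ε := by
    rw [h7] at h2
    nlinarith
  unfold logMean
  calc (1 / Real.log (N : ℝ)) * ∑ n ∈ Finset.Icc 1 N, (1 / (n : ℝ)) * ‖avu u H n‖
      ≤ (1 / Real.log (N : ℝ)) * (Real.log N * ε) := by gcongr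
    _ = ε := by field_simp

end Pool.MP_67663b_nt.PS
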