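import Pool.Agent.Lib.MP_67663b_nt.PS.FinalT

/-!
# Conclusion: slopes with a relation `b = Σ a_i α_i`
-/

set_option autoImplicit false
open Filter Topology
namespace Pool.MP_67663b_nt.PS
open Pool.MP_67663b_nt.Odd Pool.MP_67663b_nt.MR

theorem exists_second {I : Type} [Fintype I] (α : I → ℝ) (hirr : ∀ i, Irrational (α i))
    (a : I → ℤ) (b : ℤ) (hrel : (b : ℝ) = ∑ i, (a i : ℝ) * α i) {l : I} (hl : a l ≠ 0) :
    ∃ l', l ≠ l' ∧ a l' ≠ 0 := by
  classical
  by_contra hno
  push Not at hno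
  have h1 : ∑ i, (a i : ℝ) * α i = a l * α l := by
    refine Finset.sum_eq_single l (fun i _ hi => ?_) (fun h => absurd (Finset.mem_univ l) h)
    rw [hno i (Ne.symm hi)]
    simp
  rw [h1] at hrel
  have h2 : (a l : ℝ) ≠ 0 := by exact_mod_cast hl
  have h3 : α l = (b : ℝ) / (a l : ℝ) := by
    rw [hrel]
    field_simp
  apply hirr l
  refine ⟨(b : ℚ) / (a l : ℚ), ?_⟩
  rw [h3]
  push_cast
  ring

/-- The averages restricted to `s(n) ≠ 0` tend to `0`. -/
theorem main_nonzero {I : Type} [Fintype I] (α : I → ℝ) (hα : ∀ i, 0 < α i)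
    (hirr : ∀ i, Irrational (α i))
    (hind : ∀ c : I → ℤ, ∑ i, (c i : ℝ) * α i = 0 → ∀ i, c i = 0)
    (a : I → ℤ) (b : ℤ) (hrel : (b : ℝ) = ∑ i, (a i : ℝ) * α i) (ha : ∃ l, a l ≠ 0) :
    Tendsto (logMean (fun n => if sB α a b n = 0 then 0 else lam n * ∏ i, lam (bt (α i) n)))
      atTop (𝓝 0) := by
  classical
  obtain ⟨l, hl⟩ := ha
  obtain ⟨l', hll, hl'⟩ := exists_second α hirr a b hrel hl
  have hb1 : Bdd (fun n => lam n * ∏ i, lam (bt (α i) n)) :=
    bdd_lam.mul (Bdd.prod _ fun i _ => bdd_lam.comp _)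
  refine tendsto_of_logbound (Bdd.ite _ (Bdd.const 0) hb1) fun M hM => ?_
  set S : ℤ := ∑ i, |a i| with hS
  set T : Finset ℤ := (Finset.Icc (-S) S).erase 0 with hT
  have e : (fun n => if sB α a b n = 0 then 0 else lam n * ∏ i, lam (bt (α i) n)) =
      fun n => ∑ t ∈ T, (if sB α a b n = t then lam n * ∏ i, lam (bt (α i) n) else 0) := by
    funext n
    rw [Finset.sum_ite_eq]
    have hmem : sB α a b n ∈ Finset.Icc (-S) S := by
      rw [Finset.mem_Icc]
      exact abs_le.mp (abs_sB_le α hα a b hrel n)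
    by_cases h : sB α a b n = 0
    · rw [if_pos h, if_neg]
      rw [hT, Finset.mem_erase]
      exact fun h' => h'.1 h
    · rw [if_neg h, if_pos]
      rw [hT, Finset.mem_erase]
      exact ⟨h, hmem⟩
  rw [e, M.E_sum _ fun t _ => Bdd.ite _ hb1 (Bdd.const 0)]
  refine Finset.sum_eq_zero fun t ht => ?_
  rw [← gT_one M α a b t]
  exact gT_one_eq_zero M hM α hα a b t (Finset.ne_of_mem_erase ht) hrel hind hll hl hl'

/-- Common denominator. -/
theorem exists_denom {I : Type} [Fintype I] (c : I → ℚ) :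
    ∃ b : ℤ, 0 < b ∧ ∃ a : I → ℤ, ∀ i, (a i : ℚ) = b * c i := by
  classical
  refine ⟨∏ i, ((c i).den : ℤ), Finset.prod_pos fun i _ => by exact_mod_cast (c i).den_pos, ?_⟩
  have h : ∀ i, ∃ z : ℤ, (z : ℚ) = ((∏ i, ((c i).den : ℤ) : ℤ) : ℚ) * c i := by
    intro i
    obtain ⟨k, hk⟩ : ((c i).den : ℤ) ∣ ∏ i, ((c i).den : ℤ) :=
      Finset.dvd_prod_of_mem _ (Finset.mem_univ i)
    refine ⟨k * (c i).num, ?_⟩
    rw [hk]
    have h1 : ((c i).den : ℚ) * c i = (c i).num := Rat.den_mul_eq_num (c i)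
    push_cast
    linear_combination (-(k : ℚ)) * h1
  choose a ha using h
  exact ⟨a, ha⟩

theorem sB_eq_zero_iff {I : Type} [Fintype I] (α : I → ℝ) (c : I → ℚ) (a : I → ℤ) (b : ℤ)
    (hb : 0 < b) (hab : ∀ i, (a i : ℚ) = b * c i) (n : ℕ) :
    sB α a b n = 0 ↔ (n : ℚ) = ∑ i, c i * (bt (α i) n : ℚ) := by
  have hb' : (b : ℚ) ≠ 0 := by exact_mod_cast hb.ne'
  have h1 : ((sB α a b n : ℤ) : ℚ) = b * ((n : ℚ) - ∑ i, c i * (bt (α i) n : ℚ)) := by
    unfold sB
    push_cast
    rw [mul_sub, Finset.mul_sum]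
    congr 1
    refine Finset.sum_congr rfl fun i _ => ?_
    rw [hab i]
    ring
  constructor
  · intro h
    rw [h] at h1
    simp only [Int.cast_zero] at h1
    have := (mul_eq_zero.mp h1.symm).resolve_left hb'
    linarith
  · intro h
    rw [← h, sub_self, mul_zero] at h1
    exact_mod_cast h1

theorem sB_pos {I : Type} [Fintype I] (α : I → ℝ) (hα : ∀ i, 0 < α i)
    (hirr : ∀ i, Irrational (α i)) (a : I → ℤ) (b : ℤ)
    (hrel : (b : ℝ) = ∑ i, (a i : ℝ) * α i) (ha : ∃ l, a l ≠ 0) (hnn : ∀ i, 0 ≤ a i) {n : ℕ}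
    (hn : 0 < n) : 0 < sB α a b n := by
  obtain ⟨l, hl⟩ := ha
  have h1 : ((sB α a b n : ℤ) : ℝ) = ∑ i, (a i : ℝ) * (α i * n - (bt (α i) n : ℝ)) := by
    unfold sB
    push_cast
    rw [hrel, Finset.sum_mul, ← Finset.sum_sub_distrib]
    refine Finset.sum_congr rfl fun i _ => ?_
    ring
  have hfr : ∀ i, 0 < α i * n - (bt (α i) n : ℝ) := by
    intro i
    have h2 : (bt (α i) n : ℝ) ≤ α i * n := Nat.floor_le (by have := hα i; positivity)
    have h3 : (bt (α i) n : ℝ) ≠ α i * n := by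
      intro h
      have h4 : Irrational (α i * (n : ℝ)) := (hirr i).mul_natCast hn.ne'
      exact h4 ⟨(bt (α i) n : ℚ), by rw [← h]; push_cast; rfl⟩
    have := lt_of_le_of_ne h2 h3
    linarith
  have h5 : (0:ℝ) < ((sB α a b n : ℤ) : ℝ) := by
    rw [h1]
    refine Finset.sum_pos' (fun i _ => mul_nonneg (by exact_mod_cast hnn i) (hfr i).le)
      ⟨l, Finset.mem_univ l, mul_pos ?_ (hfr l)⟩
    have : 0 < a l := lt_of_le_of_ne (hnn l) (Ne.symm hl)
    exact_mod_cast this
  exact_mod_cast h5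

theorem logMean_add (f g : ℕ → ℝ) (N : ℕ) :
    logMean (fun n => f n + g n) N = logMean f N + logMean g N := by
  unfold logMean
  rw [← mul_add, ← Finset.sum_add_distrib]
  congr 1
  refine Finset.sum_congr rfl fun n _ => ?_
  ring

theorem logMean_congr {f g : ℕ → ℝ} (h : ∀ n, 0 < n → f n = g n) (N : ℕ) :
    logMean f N = logMean g N := by
  unfold logMean
  congr 1
  refine Finset.sum_congr rfl fun n hn => ?_
  rw [h n (Finset.mem_Icc.mp hn).1]

/-- Slopes with `1 = Σ c_i α_i`, `c_i` rational. -/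
theorem main_rel {I : Type} [Fintype I] (α : I → ℝ) (hα : ∀ i, 0 < α i)
    (hirr : ∀ i, Irrational (α i))
    (hind : ∀ c : I → ℤ, ∑ i, (c i : ℝ) * α i = 0 → ∀ i, c i = 0)
    (c : I → ℚ) (hc : ∑ i, (c i : ℝ) * α i = 1) :
    Tendsto (logMean (fun n => if (n : ℚ) = ∑ i, c i * (bt (α i) n : ℚ) then 0 else
        lam n * ∏ i, lam (bt (α i) n))) atTop (𝓝 0) ∧
    ((∀ i, 0 ≤ c i) →
      Tendsto (logMean (fun n => lam n * ∏ i, lam (bt (α i) n))) atTop (𝓝 0)) ∧
    (Tendsto (logMean (fun n => lam n * ∏ i, lam (bt (α i) n))) atTop (𝓝 0) ↔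
      Tendsto (logMean (fun n => if (n : ℚ) = ∑ i, c i * (bt (α i) n : ℚ) then
        lam n * ∏ i, lam (bt (α i) n) else 0)) atTop (𝓝 0)) := by
  obtain ⟨b, hb, a, hab⟩ := exists_denom c
  have hb' : (b : ℝ) ≠ 0 := by exact_mod_cast hb.ne'
  have habR : ∀ i, (a i : ℝ) = b * (c i : ℝ) := by
    intro i
    have := hab i
    exact_mod_cast this
  have hrel : (b : ℝ) = ∑ i, (a i : ℝ) * α i := by
    have : ∑ i, (a i : ℝ) * α i = b * ∑ i, (c i : ℝ) * α i := by
      rw [Finset.mul_sum]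
      refine Finset.sum_congr rfl fun i _ => ?_
      rw [habR i]
      ring
    rw [this, hc, mul_one]
  have ha : ∃ l, a l ≠ 0 := by
    by_contra hno
    push Not at hno
    rw [Finset.sum_eq_zero fun i _ => by rw [hno i]; simp] at hrel
    exact hb' hrel
  have hA : Tendsto (logMean (fun n => if (n : ℚ) = ∑ i, c i * (bt (α i) n : ℚ) then 0 else
        lam n * ∏ i, lam (bt (α i) n))) atTop (𝓝 0) := by
    have h := main_nonzero α hα hirr hind a b hrel ha
    refine h.congr fun N => logMean_congr (fun n _ => ?_) N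
    by_cases h0 : sB α a b n = 0
    · rw [if_pos h0, if_pos ((sB_eq_zero_iff α c a b hb hab n).mp h0)]
    · rw [if_neg h0, if_neg fun h1 => h0 ((sB_eq_zero_iff α c a b hb hab n).mpr h1)]
  refine ⟨hA, fun hpos => ?_, ?_⟩
  · refine hA.congr fun N => logMean_congr (fun n hn => ?_) N
    rw [if_neg]
    intro h1
    have hnn : ∀ i, 0 ≤ a i := by
      intro i
      have h2 : (0:ℚ) ≤ (a i : ℚ) := by
        rw [hab i]
        exact mul_nonneg (by exact_mod_cast hb.le) (hpos i)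
      exact_mod_cast h2
    have := sB_pos α hα hirr a b hrel ha hnn hn
    rw [(sB_eq_zero_iff α c a b hb hab n).mpr h1] at this
    exact lt_irrefl _ this
  · have hsplit : ∀ N, logMean (fun n => lam n * ∏ i, lam (bt (α i) n)) N =
        logMean (fun n => if (n : ℚ) = ∑ i, c i * (bt (α i) n : ℚ) then 0 else
          lam n * ∏ i, lam (bt (α i) n)) N +
        logMean (fun n => if (n : ℚ) = ∑ i, c i * (bt (α i) n : ℚ) then
          lam n * ∏ i, lam (bt (α i) n) else 0) N := by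
      intro N
      rw [← logMean_add]
      refine logMean_congr (fun n _ => ?_) N
      split_ifs <;> ring
    constructor
    · intro h
      have h1 := h.sub hA
      rw [sub_zero] at h1
      refine h1.congr fun N => ?_
      rw [hsplit N]
      ring
    · intro h
      have h1 := hA.add h
      rw [add_zero] at h1
      refine h1.congr fun N => ?_
      rw [hsplit N]

end Pool.MP_67663b_nt.PS
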