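import Pool.Agent.Lib.MP_67663b_nt.PS.ModelDefs

set_option autoImplicit false
open Filter Topology
namespace Pool.MP_67663b_nt.PS
open Pool.MP_67663b_nt.Odd

private theorem ModelNear_ee_ge {x : ℝ} (hx : |x| ≤ 1 / 2) : 4 * |x| ≤ ‖ee x - 1‖ := by
  unfold ee
  have h : (2 * Real.pi * x * Complex.I : ℂ) = Complex.I * ((2 * Real.pi * x : ℝ) : ℂ) := by
    push_cast
    ring
  rw [h, Complex.norm_exp_I_mul_ofReal_sub_one, Real.norm_eq_abs, abs_mul, abs_two]
  have h1 : 2 * Real.pi * x / 2 = Real.pi * x := by ring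
  rw [h1]
  have h2 : |Real.pi * x| ≤ Real.pi / 2 := by
    rw [abs_mul, abs_of_pos Real.pi_pos]
    nlinarith [Real.pi_pos]
  have h3 := Real.mul_abs_le_abs_sin h2
  have h4 : 2 / Real.pi * |Real.pi * x| = 2 * |x| := by
    rw [abs_mul, abs_of_pos Real.pi_pos]
    field_simp
  rw [h4] at h3
  linarith

private theorem ModelNear_ee_nat (n : ℕ) (x : ℝ) : ee (n * x) = ee x ^ n := by
  unfold ee
  rw [← Complex.exp_nat_mul]
  congr 1
  push_cast
  ring

private theorem ModelNear_cont (β : ℝ) : Continuous (fun y : ℝ => ee (β * y)) := by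
  unfold ee
  fun_prop

private theorem ModelNear_ii (β a b : ℝ) :
    IntervalIntegrable (fun y : ℝ => ee (β * y)) MeasureTheory.volume a b :=
  (ModelNear_cont β).intervalIntegrable a b

/-- Geometric sum. -/
private theorem ModelNear_geo (c W n : ℕ) {β : ℝ} (h : |(W : ℝ) * β| ≤ 1 / 2) :
    ‖∑ j ∈ Finset.range n, ee (((c : ℝ) + j * W) * β)‖ * (4 * |(W : ℝ) * β|) ≤ 2 := by
  have h1 : ∑ j ∈ Finset.range n, ee (((c : ℝ) + j * W) * β) =
      ee (c * β) * ∑ j ∈ Finset.range n, ee (W * β) ^ j := by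
    rw [Finset.mul_sum]
    refine Finset.sum_congr rfl fun j _ => ?_
    rw [← ModelNear_ee_nat, ← ee_add]
    congr 1
    ring
  have h2 : (∑ j ∈ Finset.range n, ee (W * β) ^ j) * (ee (W * β) - 1) = ee (W * β) ^ n - 1 :=
    geom_sum_mul _ _
  have h3 := ModelNear_ee_ge h
  rw [h1, norm_mul, norm_ee, one_mul]
  calc ‖∑ j ∈ Finset.range n, ee (W * β) ^ j‖ * (4 * |(W : ℝ) * β|)
      ≤ ‖∑ j ∈ Finset.range n, ee (W * β) ^ j‖ * ‖ee (W * β) - 1‖ :=
        mul_le_mul_of_nonneg_left h3 (norm_nonneg _)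
    _ = ‖ee (W * β) ^ n - 1‖ := by rw [← norm_mul, h2]
    _ ≤ ‖ee (W * β) ^ n‖ + ‖(1 : ℂ)‖ := norm_sub_le _ _
    _ = 2 := by rw [norm_pow, norm_ee, one_pow, norm_one]; norm_num

private theorem ModelNear_kap (W : ℕ) (β : ℝ) :
    ‖(W : ℂ) - ∫ y in (0 : ℝ)..(W : ℝ), ee (β * y)‖ ≤ Real.pi * |β| * (W : ℝ) ^ 2 := by
  have h1 : (W : ℂ) - ∫ y in (0 : ℝ)..(W : ℝ), ee (β * y) =
      ∫ y in (0 : ℝ)..(W : ℝ), (1 - ee (β * y)) := by
    rw [intervalIntegral.integral_sub (by simp) (ModelNear_ii _ _ _)]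
    simp
  rw [h1]
  have hW : (0 : ℝ) ≤ W := Nat.cast_nonneg W
  have h2 : ‖∫ y in (0 : ℝ)..(W : ℝ), (1 - ee (β * y))‖ ≤
      ∫ y in (0 : ℝ)..(W : ℝ), 2 * Real.pi * |β| * y := by
    refine intervalIntegral.norm_integral_le_of_norm_le hW ?_ ?_
    · refine Filter.Eventually.of_forall fun y hy => ?_
      rw [norm_sub_rev]
      refine (norm_ee_sub_one_le _).trans ?_
      rw [abs_mul, abs_of_pos hy.1]
      linarith
    · exact (continuous_const.mul continuous_id).intervalIntegrable _ _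
  refine h2.trans ?_
  rw [intervalIntegral.integral_const_mul, integral_id]
  apply le_of_eq
  ring

/-- Complete cells. -/
private theorem ModelNear_cells (c W n : ℕ) {β : ℝ} (h : |(W : ℝ) * β| ≤ 1 / 2) :
    ‖(W : ℂ) * ∑ j ∈ Finset.range n, ee (((c : ℝ) + j * W) * β) -
      ∫ y in (c : ℝ)..((c : ℝ) + n * W), ee (β * y)‖ ≤ Real.pi / 2 * W := by
  have h1 : ∫ y in (c : ℝ)..((c : ℝ) + n * W), ee (β * y) =
      ∑ j ∈ Finset.range n, ∫ y in ((c : ℝ) + j * W)..((c : ℝ) + (j + 1 : ℕ) * W), ee (β * y) := by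
    have := intervalIntegral.sum_integral_adjacent_intervals
      (f := fun y : ℝ => ee (β * y)) (μ := MeasureTheory.volume)
      (a := fun j : ℕ => (c : ℝ) + j * W) (n := n) (fun k _ => ModelNear_ii _ _ _)
    rw [this]
    simp
  have h2 : ∀ j : ℕ, ∫ y in ((c : ℝ) + j * W)..((c : ℝ) + (j + 1 : ℕ) * W), ee (β * y) =
      ee (((c : ℝ) + j * W) * β) * ∫ y in (0 : ℝ)..(W : ℝ), ee (β * y) := by
    intro j
    have h3 := intervalIntegral.integral_comp_add_right (a := (0 : ℝ)) (b := (W : ℝ))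
      (fun y : ℝ => ee (β * y)) ((c : ℝ) + j * W)
    have h4 : (0 : ℝ) + ((c : ℝ) + j * W) = (c : ℝ) + j * W := by ring
    have h5 : (W : ℝ) + ((c : ℝ) + j * W) = (c : ℝ) + (j + 1 : ℕ) * W := by
      push_cast
      ring
    rw [h4, h5] at h3
    rw [← h3, ← intervalIntegral.integral_const_mul]
    refine intervalIntegral.integral_congr fun y _ => ?_
    rw [← ee_add]
    congr 1
    ring
  rw [h1, Finset.sum_congr rfl fun j _ => h2 j, ← Finset.sum_mul]
  set S := ∑ j ∈ Finset.range n, ee (((c : ℝ) + j * W) * β) with hS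
  set J := ∫ y in (0 : ℝ)..(W : ℝ), ee (β * y) with hJ
  have h3 : (W : ℂ) * S - S * J = S * ((W : ℂ) - J) := by ring
  rw [h3, norm_mul]
  have hg : ‖S‖ * (4 * |(W : ℝ) * β|) ≤ 2 := ModelNear_geo c W n h
  have hk : ‖(W : ℂ) - J‖ ≤ Real.pi * |β| * (W : ℝ) ^ 2 := ModelNear_kap W β
  have hW : (0 : ℝ) ≤ W := Nat.cast_nonneg W
  calc ‖S‖ * ‖(W : ℂ) - J‖ ≤ ‖S‖ * (Real.pi * |β| * (W : ℝ) ^ 2) :=
        mul_le_mul_of_nonneg_left hk (norm_nonneg _)
    _ = (‖S‖ * (4 * |(W : ℝ) * β|)) * (Real.pi / 4 * W) := by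
        rw [abs_mul, abs_of_nonneg hW]
        ring
    _ ≤ 2 * (Real.pi / 4 * W) := by
        refine mul_le_mul_of_nonneg_right hg ?_
        have := Real.pi_pos
        positivity
    _ = Real.pi / 2 * W := by ring

/-- The integers below `M` in the class of `c`. -/
private theorem ModelNear_class {c W : ℕ} (hc : c < W) (g : ℕ → ℂ) (M : ℕ) :
    ∑ x ∈ (Finset.range M).filter (fun x => x % W = c), g x =
      ∑ j ∈ Finset.range ((M + (W - 1 - c)) / W), g (c + j * W) := by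
  have hW : 0 < W := by omega
  induction M with
  | zero =>
    have : (0 + (W - 1 - c)) / W = 0 := Nat.div_eq_of_lt (by omega)
    rw [this]
    simp
  | succ M ih =>
    rw [Finset.range_add_one, Finset.filter_insert]
    have h1 : (M + 1 + (W - 1 - c)) = (M + (W - 1 - c)) + 1 := by ring
    rw [h1, Nat.succ_div]
    by_cases hM : M % W = c
    · obtain ⟨q, hq⟩ : ∃ q, M = c + q * W := ⟨M / W, by
        have := Nat.mod_add_div M W
        rw [hM] at this
        rw [mul_comm (M / W) W]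
        omega⟩
      have h2 : W ∣ M + (W - 1 - c) + 1 := ⟨q + 1, by
        rw [hq]
        have : W * (q + 1) = q * W + W := by ring
        omega⟩
      have h3 : (M + (W - 1 - c)) / W = q := by
        rw [hq]
        have : c + q * W + (W - 1 - c) = (W - 1) + q * W := by omega
        rw [this, Nat.add_mul_div_right _ _ hW, Nat.div_eq_of_lt (by omega), zero_add]
      rw [if_pos hM, if_pos h2, Finset.sum_insert (by simp), ih, h3, Finset.sum_range_succ, ← hq,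
        add_comm]
    · have h2 : ¬ W ∣ M + (W - 1 - c) + 1 := by
        rintro ⟨q, hq⟩
        apply hM
        have h3 : M + W = W * q + c := by omega
        have h4 : (M + W) % W = (W * q + c) % W := by rw [h3]
        rw [Nat.add_mod_right, Nat.mul_add_mod, Nat.mod_eq_of_lt hc] at h4
        exact h4
      rw [if_neg hM, if_neg h2, ih, add_zero]

private theorem ModelNear_int_le (β a b : ℝ) (hab : a ≤ b) :
    ‖∫ y in a..b, ee (β * y)‖ ≤ b - a := by
  have := intervalIntegral.norm_integral_le_of_norm_le_const (a := a) (b := b)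
    (f := fun y : ℝ => ee (β * y)) (C := 1) (fun y _ => (norm_ee _).le)
  rwa [one_mul, abs_of_nonneg (by linarith)] at this

/-- All integers below `M`. -/
private theorem ModelNear_below {c W : ℕ} (hc : c < W) {β : ℝ} (h : |(W : ℝ) * β| ≤ 1 / 2)
    (M : ℕ) :
    ‖(W : ℂ) * ∑ x ∈ (Finset.range M).filter (fun x => x % W = c), ee ((x : ℝ) * β) -
      ∫ y in (0 : ℝ)..(M : ℝ), ee (β * y)‖ ≤ (2 + Real.pi / 2) * W := by
  have hW : 0 < W := by omega
  rw [ModelNear_class hc (fun x => ee ((x : ℝ) * β)) M]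
  set n := (M + (W - 1 - c)) / W with hn
  have hn1 : n * W ≤ M + (W - 1 - c) := Nat.div_mul_le_self _ _
  have hn2 : M + (W - 1 - c) < (n + 1) * W := by
    have := Nat.lt_div_mul_add (a := M + (W - 1 - c)) hW
    rw [← hn] at this
    linarith [this, add_mul n 1 W, one_mul W]
  have hx1 : (M : ℝ) ≤ (c : ℝ) + n * W := by
    have : M ≤ c + n * W := by
      have : (n + 1) * W = n * W + W := by ring
      omega
    exact_mod_cast this
  have hx2 : (c : ℝ) + n * W ≤ (M : ℝ) + W := by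
    have : c + n * W ≤ M + W := by omega
    exact_mod_cast this
  have h1 := ModelNear_cells c W n h
  have e1 : ∀ j : ℕ, ee (((c + j * W : ℕ) : ℝ) * β) = ee (((c : ℝ) + j * W) * β) := by
    intro j
    push_cast
    rfl
  rw [Finset.sum_congr rfl fun j _ => e1 j]
  set S := ∑ j ∈ Finset.range n, ee (((c : ℝ) + j * W) * β) with hS
  have h2 : ∫ y in (0 : ℝ)..(M : ℝ), ee (β * y) =
      (∫ y in (0 : ℝ)..(c : ℝ), ee (β * y)) + (∫ y in (c : ℝ)..((c : ℝ) + n * W), ee (β * y)) -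
        ∫ y in (M : ℝ)..((c : ℝ) + n * W), ee (β * y) := by
    rw [intervalIntegral.integral_add_adjacent_intervals (ModelNear_ii _ _ _) (ModelNear_ii _ _ _),
      ← intervalIntegral.integral_add_adjacent_intervals (a := (0 : ℝ)) (b := (M : ℝ))
        (c := (c : ℝ) + n * W) (ModelNear_ii _ _ _) (ModelNear_ii _ _ _)]
    ring
  have h3 := ModelNear_int_le β 0 c (Nat.cast_nonneg c)
  have h4 := ModelNear_int_le β M ((c : ℝ) + n * W) hx1
  have hcW : (c : ℝ) ≤ W := by exact_mod_cast hc.le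
  rw [h2]
  have h5 : (W : ℂ) * S - ((∫ y in (0 : ℝ)..(c : ℝ), ee (β * y)) +
      (∫ y in (c : ℝ)..((c : ℝ) + n * W), ee (β * y)) -
        ∫ y in (M : ℝ)..((c : ℝ) + n * W), ee (β * y)) =
      ((W : ℂ) * S - ∫ y in (c : ℝ)..((c : ℝ) + n * W), ee (β * y)) -
      (∫ y in (0 : ℝ)..(c : ℝ), ee (β * y)) + ∫ y in (M : ℝ)..((c : ℝ) + n * W), ee (β * y) := by
    ring
  rw [h5]
  refine (norm_add_le _ _).trans ?_
  refine (add_le_add_left (norm_sub_le _ _) _).trans ?_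
  linarith

/-- The integers of `[A, B)` in the class of `c`. -/
private theorem ModelNear_seg {c W : ℕ} (hc : c < W) {β : ℝ} (h : |(W : ℝ) * β| ≤ 1 / 2)
    {A B : ℝ} (hA : 0 ≤ A) (hAB : A ≤ B) :
    ‖(W : ℂ) * ∑ x ∈ (Finset.Ico ⌈A⌉₊ ⌈B⌉₊).filter (fun x => x % W = c), ee ((x : ℝ) * β) -
      ∫ y in A..B, ee (β * y)‖ ≤ 10 * W := by
  have hW1 : (1 : ℝ) ≤ W := by exact_mod_cast (by omega : 1 ≤ W)
  have hcl : ⌈A⌉₊ ≤ ⌈B⌉₊ := Nat.ceil_mono hAB
  have h1 := ModelNear_below hc h ⌈A⌉₊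
  have h2 := ModelNear_below hc h ⌈B⌉₊
  have h3 : ∑ x ∈ (Finset.Ico ⌈A⌉₊ ⌈B⌉₊).filter (fun x => x % W = c), ee ((x : ℝ) * β) =
      ∑ x ∈ (Finset.range ⌈B⌉₊).filter (fun x => x % W = c), ee ((x : ℝ) * β) -
      ∑ x ∈ (Finset.range ⌈A⌉₊).filter (fun x => x % W = c), ee ((x : ℝ) * β) := by
    rw [Finset.sum_filter, Finset.sum_filter, Finset.sum_filter, Finset.sum_Ico_eq_sub _ hcl]
  have hA1 : A ≤ (⌈A⌉₊ : ℝ) := Nat.le_ceil A
  have hA2 : (⌈A⌉₊ : ℝ) < A + 1 := Nat.ceil_lt_add_one hA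
  have hB1 : B ≤ (⌈B⌉₊ : ℝ) := Nat.le_ceil B
  have hB2 : (⌈B⌉₊ : ℝ) < B + 1 := Nat.ceil_lt_add_one (hA.trans hAB)
  have h4 := ModelNear_int_le β A ⌈A⌉₊ hA1
  have h5 := ModelNear_int_le β B ⌈B⌉₊ hB1
  have h6 : ∫ y in A..B, ee (β * y) =
      (∫ y in (0 : ℝ)..(⌈B⌉₊ : ℝ), ee (β * y)) - (∫ y in (0 : ℝ)..(⌈A⌉₊ : ℝ), ee (β * y)) +
      (∫ y in A..(⌈A⌉₊ : ℝ), ee (β * y)) - ∫ y in B..(⌈B⌉₊ : ℝ), ee (β * y) := by
    have e1 := intervalIntegral.integral_add_adjacent_intervals (a := (0 : ℝ)) (b := A)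
      (c := B) (ModelNear_ii β _ _) (ModelNear_ii β _ _)
    have e2 := intervalIntegral.integral_add_adjacent_intervals (a := (0 : ℝ)) (b := A)
      (c := (⌈A⌉₊ : ℝ)) (ModelNear_ii β _ _) (ModelNear_ii β _ _)
    have e3 := intervalIntegral.integral_add_adjacent_intervals (a := (0 : ℝ)) (b := B)
      (c := (⌈B⌉₊ : ℝ)) (ModelNear_ii β _ _) (ModelNear_ii β _ _)
    rw [← e3, ← e2, ← e1]
    ring
  rw [h3, h6, mul_sub]
  set S1 := ∑ x ∈ (Finset.range ⌈A⌉₊).filter (fun x => x % W = c), ee ((x : ℝ) * β)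
  set S2 := ∑ x ∈ (Finset.range ⌈B⌉₊).filter (fun x => x % W = c), ee ((x : ℝ) * β)
  set I1 := ∫ y in (0 : ℝ)..(⌈A⌉₊ : ℝ), ee (β * y)
  set I2 := ∫ y in (0 : ℝ)..(⌈B⌉₊ : ℝ), ee (β * y)
  set I3 := ∫ y in A..(⌈A⌉₊ : ℝ), ee (β * y)
  set I4 := ∫ y in B..(⌈B⌉₊ : ℝ), ee (β * y)
  have h7 : (W : ℂ) * S2 - (W : ℂ) * S1 - (I2 - I1 + I3 - I4) =
      ((W : ℂ) * S2 - I2) - ((W : ℂ) * S1 - I1) - I3 + I4 := by ring
  rw [h7]
  have h8 : ‖((W : ℂ) * S2 - I2) - ((W : ℂ) * S1 - I1) - I3 + I4‖ ≤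
      ‖(W : ℂ) * S2 - I2‖ + ‖(W : ℂ) * S1 - I1‖ + ‖I3‖ + ‖I4‖ := by
    refine (norm_add_le _ _).trans (add_le_add_left ?_ _)
    refine (norm_sub_le _ _).trans (add_le_add_left ?_ _)
    exact norm_sub_le _ _
  refine h8.trans ?_
  have hpi : Real.pi ≤ 3.15 := by linarith [Real.pi_lt_d2]
  nlinarith [hpi, hW1]

/-- The exponential sum of the model near `a / W` is the main term `MM`, uniformly. -/
theorem model_near {W : ℕ} (hW : 0 < W) {X : ℕ} (hX : 0 < X) {u v : ℝ} (hu : 1 ≤ u) (huv : u ≤ v)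
    (hv : v ≤ 2) (a : ℤ) (φ : ℝ) (hφ : |φ - (a : ℝ) / W| ≤ 1 / (2 * W)) :
    ‖NS W X u v φ - MM a W X u v φ‖ ≤ 10 * W / X := by
  have hW' : (0 : ℝ) < W := by exact_mod_cast hW
  have hX' : (0 : ℝ) < X := by exact_mod_cast hX
  have hφ0 : 0 < Nat.totient W := Nat.totient_pos.mpr hW
  have hφ1 : (0 : ℝ) < Nat.totient W := by exact_mod_cast hφ0
  have hφC : (Nat.totient W : ℂ) ≠ 0 := by exact_mod_cast hφ0.ne'
  have hXC : (X : ℂ) ≠ 0 := by exact_mod_cast hX.ne'
  set β : ℝ := φ - (a : ℝ) / W with hβ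
  have hWβ : |(W : ℝ) * β| ≤ 1 / 2 := by
    rw [abs_mul, abs_of_pos hW']
    calc (W : ℝ) * |β| ≤ W * (1 / (2 * W)) := mul_le_mul_of_nonneg_left hφ hW'.le
      _ = 1 / 2 := by field_simp
  -- the segment
  have hA : (0 : ℝ) ≤ u * X := by positivity
  have hAB : u * X ≤ v * (X : ℝ) := mul_le_mul_of_nonneg_right huv hX'.le
  have hset : (Finset.Ico X (2 * X)).filter (fun x : ℕ => u * X ≤ (x : ℝ) ∧ (x : ℝ) < v * X) =
      Finset.Ico ⌈u * (X : ℝ)⌉₊ ⌈v * (X : ℝ)⌉₊ := by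
    ext x
    rw [Finset.mem_filter, Finset.mem_Ico, Finset.mem_Ico, Nat.ceil_le, Nat.lt_ceil]
    constructor
    · rintro ⟨-, h1, h2⟩
      exact ⟨h1, h2⟩
    · rintro ⟨h1, h2⟩
      refine ⟨⟨?_, ?_⟩, h1, h2⟩
      · have : (X : ℝ) ≤ x := by nlinarith
        exact_mod_cast this
      · have : (x : ℝ) < 2 * X := by nlinarith
        exact_mod_cast this
  set T := Finset.Ico ⌈u * (X : ℝ)⌉₊ ⌈v * (X : ℝ)⌉₊ with hT
  set U := (Finset.range W).filter (Nat.Coprime W) with hU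
  -- the sum over classes
  have hNS : NS W X u v φ = ∑ c ∈ U, (1 / (Nat.totient W : ℂ)) * ee ((a : ℝ) * c / W) *
      (1 / (X : ℂ) * ((W : ℂ) * ∑ x ∈ T.filter (fun x => x % W = c), ee ((x : ℝ) * β))) := by
    unfold NS
    rw [hset]
    have e1 : ∑ x ∈ T, (nu W X x : ℂ) * ee (x * φ) =
        ∑ x ∈ T.filter (fun x => Nat.Coprime W x),
          ((W : ℂ) / ((Nat.totient W : ℂ) * X)) * ee (x * φ) := by
      rw [Finset.sum_filter]
      refine Finset.sum_congr rfl fun x _ => ?_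
      unfold nu
      split_ifs
      · push_cast
        rfl
      · simp
    rw [e1]
    have hmaps : ∀ x ∈ T.filter (fun x => Nat.Coprime W x), x % W ∈ U := by
      intro x hx
      rw [Finset.mem_filter] at hx
      rw [hU, Finset.mem_filter, Finset.mem_range]
      refine ⟨Nat.mod_lt _ hW, ?_⟩
      have h1 := hx.2
      unfold Nat.Coprime at h1 ⊢
      rw [Nat.gcd_comm, ← Nat.gcd_rec]
      exact h1
    rw [← Finset.sum_fiberwise_of_maps_to hmaps]
    refine Finset.sum_congr rfl fun c hc => ?_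
    rw [hU, Finset.mem_filter, Finset.mem_range] at hc
    have e2 : (T.filter (fun x => Nat.Coprime W x)).filter (fun x => x % W = c) =
        T.filter (fun x => x % W = c) := by
      ext x
      rw [Finset.mem_filter, Finset.mem_filter, Finset.mem_filter]
      constructor
      · rintro ⟨⟨h1, -⟩, h2⟩
        exact ⟨h1, h2⟩
      · rintro ⟨h1, h2⟩
        refine ⟨⟨h1, ?_⟩, h2⟩
        have h3 := hc.2
        unfold Nat.Coprime at h3 ⊢
        rw [Nat.gcd_rec, Nat.gcd_comm, h2]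
        exact h3
    rw [e2, Finset.mul_sum, Finset.mul_sum, Finset.mul_sum]
    refine Finset.sum_congr rfl fun x hx => ?_
    rw [Finset.mem_filter] at hx
    have e3 : ee ((x : ℝ) * φ) = ee ((a : ℝ) * c / W) * ee ((x : ℝ) * β) := by
      obtain ⟨k, hk⟩ : ∃ k : ℕ, x = c + W * k := ⟨x / W, by
        have := Nat.mod_add_div x W
        rw [hx.2] at this
        exact this.symm⟩
      have hx1 : (x : ℝ) = c + W * (k : ℝ) := by exact_mod_cast hk
      have hxe : (x : ℝ) * φ = ((a : ℝ) * c / W + (x : ℝ) * β) + ((a * (k : ℤ) : ℤ) : ℝ) := by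
        have : (x : ℝ) * φ = (x : ℝ) * ((a : ℝ) / W) + (x : ℝ) * β := by
          rw [hβ]
          ring
        rw [this]
        have h2 : (x : ℝ) * ((a : ℝ) / W) = (a : ℝ) * c / W + ((a * (k : ℤ) : ℤ) : ℝ) := by
          rw [hx1]
          push_cast
          field_simp
        rw [h2]
        ring
      rw [hxe, ee_add_int, ee_add]
    rw [e3]
    field_simp
  have hMM : MM a W X u v φ = ∑ c ∈ U, (1 / (Nat.totient W : ℂ)) * ee ((a : ℝ) * c / W) *
      (1 / (X : ℂ) * ∫ y in (u * X)..(v * X), ee (β * y)) := by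
    unfold MM
    have e1 : ∫ t in u..v, ee ((X : ℝ) * (φ - (a : ℝ) / W) * t) =
        1 / (X : ℂ) * ∫ y in (u * X)..(v * X), ee (β * y) := by
      have := intervalIntegral.integral_comp_mul_left (a := u) (b := v)
        (fun y : ℝ => ee (β * y)) hX'.ne'
      rw [mul_comm (X : ℝ) u, mul_comm (X : ℝ) v] at this
      have e2 : ∫ t in u..v, ee ((X : ℝ) * (φ - (a : ℝ) / W) * t) =
          ∫ t in u..v, ee (β * ((X : ℝ) * t)) := by
        refine intervalIntegral.integral_congr fun t _ => ?_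
        congr 1
        rw [hβ]
        ring
      rw [e2, this, Complex.real_smul]
      push_cast
      rw [one_div]
    rw [e1, Finset.mul_sum, Finset.sum_mul]
  rw [hNS, hMM, ← Finset.sum_sub_distrib]
  have hterm : ∀ c ∈ U, ‖(1 / (Nat.totient W : ℂ)) * ee ((a : ℝ) * c / W) *
      (1 / (X : ℂ) * ((W : ℂ) * ∑ x ∈ T.filter (fun x => x % W = c), ee ((x : ℝ) * β))) -
      (1 / (Nat.totient W : ℂ)) * ee ((a : ℝ) * c / W) *
      (1 / (X : ℂ) * ∫ y in (u * X)..(v * X), ee (β * y))‖ ≤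
      1 / (Nat.totient W : ℝ) * (10 * W / X) := by
    intro c hc
    rw [hU, Finset.mem_filter, Finset.mem_range] at hc
    have h1 := ModelNear_seg hc.1 hWβ hA hAB
    rw [← mul_sub, ← mul_sub, norm_mul, norm_mul, norm_mul, norm_ee, mul_one, norm_div, norm_one,
      Complex.norm_natCast, norm_div, norm_one, Complex.norm_natCast]
    refine mul_le_mul_of_nonneg_left ?_ (by positivity)
    calc 1 / (X : ℝ) * _ ≤ 1 / (X : ℝ) * (10 * W) :=
          mul_le_mul_of_nonneg_left h1 (by positivity)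
      _ = 10 * W / X := by ring
  refine (norm_sum_le _ _).trans ((Finset.sum_le_sum hterm).trans ?_)
  rw [Finset.sum_const, nsmul_eq_mul]
  have hcard : U.card = Nat.totient W := rfl
  rw [hcard]
  apply le_of_eq
  field_simp

/-- Decay of the main term. -/
theorem MM_le (a : ℤ) {r : ℕ} (hr : 0 < r) {X : ℝ} (hX : 0 < X) (u v φ : ℝ)
    (hφ : φ ≠ (a : ℝ) / r) : ‖MM a r X u v φ‖ ≤ 1 / (Real.pi * (X * |φ - (a : ℝ) / r|)) := by
  have hφ0 : 0 < Nat.totient r := Nat.totient_pos.mpr hr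
  have hφ1 : (0 : ℝ) < Nat.totient r := by exact_mod_cast hφ0
  unfold MM
  rw [norm_mul, norm_mul, norm_div, norm_one, Complex.norm_natCast]
  have h1 : ‖∑ c ∈ (Finset.range r).filter (Nat.Coprime r), ee ((a : ℝ) * c / r)‖ ≤
      (Nat.totient r : ℝ) := by
    refine (norm_sum_le _ _).trans ?_
    rw [Finset.sum_congr rfl fun c _ => norm_ee _, Finset.sum_const, nsmul_eq_mul, mul_one]
    exact le_of_eq rfl
  have h2 : 1 / (Nat.totient r : ℝ) *
      ‖∑ c ∈ (Finset.range r).filter (Nat.Coprime r), ee ((a : ℝ) * c / r)‖ ≤ 1 := by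
    calc 1 / (Nat.totient r : ℝ) *
        ‖∑ c ∈ (Finset.range r).filter (Nat.Coprime r), ee ((a : ℝ) * c / r)‖ ≤
        1 / (Nat.totient r : ℝ) * (Nat.totient r : ℝ) :=
          mul_le_mul_of_nonneg_left h1 (by positivity)
      _ = 1 := by field_simp
  set γ : ℝ := X * (φ - (a : ℝ) / r) with hγ
  have hγ0 : γ ≠ 0 := mul_ne_zero hX.ne' (sub_ne_zero.mpr hφ)
  have hγa : |γ| = X * |φ - (a : ℝ) / r| := by rw [hγ, abs_mul, abs_of_pos hX]
  have hγ1 : 0 < |γ| := abs_pos.mpr hγ0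
  have hc : (2 * Real.pi * γ * Complex.I : ℂ) ≠ 0 := by
    have : ((2 * Real.pi * γ : ℝ) : ℂ) * Complex.I ≠ 0 := by
      refine mul_ne_zero ?_ Complex.I_ne_zero
      have : (2 * Real.pi * γ : ℝ) ≠ 0 := by
        have := Real.pi_pos.ne'
        positivity
      exact_mod_cast this
    push_cast at this
    exact this
  have h3 : ∫ t in u..v, ee (γ * t) =
      (ee (γ * v) - ee (γ * u)) / (2 * Real.pi * γ * Complex.I) := by
    have e1 : ∀ t : ℝ, ee (γ * t) = Complex.exp ((2 * Real.pi * γ * Complex.I) * (t : ℂ)) := by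
      intro t
      unfold ee
      congr 1
      push_cast
      ring
    rw [intervalIntegral.integral_congr (g := fun t : ℝ =>
      Complex.exp ((2 * Real.pi * γ * Complex.I) * (t : ℂ))) (fun t _ => e1 t),
      integral_exp_mul_complex hc, e1, e1]
  have h4 : ‖∫ t in u..v, ee (γ * t)‖ ≤ 1 / (Real.pi * |γ|) := by
    rw [h3, norm_div]
    have e1 : ‖(2 * Real.pi * γ * Complex.I : ℂ)‖ = 2 * Real.pi * |γ| := by
      have : (2 * Real.pi * γ * Complex.I : ℂ) = ((2 * Real.pi * γ : ℝ) : ℂ) * Complex.I := by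
        push_cast
        ring
      rw [this, norm_mul, Complex.norm_I, mul_one, Complex.norm_real, Real.norm_eq_abs, abs_mul,
        abs_of_pos (by positivity : (0 : ℝ) < 2 * Real.pi)]
    rw [e1]
    have e2 : ‖ee (γ * v) - ee (γ * u)‖ ≤ 2 := by
      refine (norm_sub_le _ _).trans ?_
      rw [norm_ee, norm_ee]
      norm_num
    have hpi := Real.pi_pos
    rw [div_le_div_iff₀ (by positivity) (by positivity)]
    nlinarith [mul_pos hpi hγ1]
  rw [← hγa]
  calc 1 / (Nat.totient r : ℝ) *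
        ‖∑ c ∈ (Finset.range r).filter (Nat.Coprime r), ee ((a : ℝ) * c / r)‖ *
        ‖∫ t in u..v, ee (γ * t)‖ ≤ 1 * (1 / (Real.pi * |γ|)) :=
        mul_le_mul h2 h4 (norm_nonneg _) zero_le_one
    _ = 1 / (Real.pi * |γ|) := one_mul _

end Pool.MP_67663b_nt.PS
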