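import Pool.Agent.Lib.MP_67663b_nt.PS.ResChi
import Pool.Agent.Lib.MP_67663b_nt.MR.BeattyAv

set_option autoImplicit false
open Filter Topology
namespace Pool.MP_67663b_nt.PS
open Pool.MP_67663b_nt.Odd Pool.MP_67663b_nt.MR

/-- The sum over a class reduces to a reduced class after division by the gcd. -/
theorem ResAv_sum {g q' c' : ℕ} (hg : 0 < g) {H m : ℕ} (hHg : g ≤ H) (hm : H ≤ m) :
    ∃ H' : ℕ, (H' = H / g ∨ H' = H / g + 1) ∧
      ∑ s ∈ (Finset.range H).filter (fun s => (m - s) % (g * q') = (g * c') % (g * q')), lam (m - s) =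
        lam g * ∑ s ∈ (Finset.range H').filter (fun s => (m / g - s) % q' = c' % q'), lam (m / g - s) := by
  set M := m / g with hM
  set ρ := m % g with hρ
  have hmM : m = g * M + ρ := (Nat.div_add_mod m g).symm
  have hρg : ρ < g := Nat.mod_lt _ hg
  refine ⟨(H - 1 - ρ) / g + 1, ?_, ?_⟩
  · have h1 : (H - 1 - ρ) / g + 1 = (H - 1 - ρ + g) / g := by rw [Nat.add_div_right _ hg]
    rw [h1]
    have h2 : H / g ≤ (H - 1 - ρ + g) / g := Nat.div_le_div_right (by omega)
    have h3 : (H - 1 - ρ + g) / g ≤ H / g + 1 := by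
      rw [← Nat.add_div_right _ hg]
      exact Nat.div_le_div_right (by omega)
    omega
  · rw [Finset.mul_sum]
    symm
    refine Finset.sum_bij' (fun s _ => g * s + ρ) (fun s _ => s / g) ?_ ?_ ?_ ?_ ?_
    · intro s hs
      rw [Finset.mem_filter, Finset.mem_range] at hs ⊢
      obtain ⟨hs1, hs2⟩ := hs
      have h4 : s ≤ (H - 1 - ρ) / g := by omega
      have h5 : g * s ≤ H - 1 - ρ := by
        calc g * s ≤ g * ((H - 1 - ρ) / g) := Nat.mul_le_mul_left _ h4
          _ ≤ _ := Nat.mul_div_le _ _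
      have h6 : m - (g * s + ρ) = g * (M - s) := by
        rw [Nat.mul_sub]
        omega
      refine ⟨by omega, ?_⟩
      rw [h6, Nat.mul_mod_mul_left, Nat.mul_mod_mul_left, hs2]
    · intro s hs
      rw [Finset.mem_filter, Finset.mem_range] at hs ⊢
      obtain ⟨hs1, hs2⟩ := hs
      have hd : g ∣ m - s := by
        have h7 : g ∣ (g * c') % (g * q') := by
          rw [Nat.mul_mod_mul_left]
          exact Dvd.intro _ rfl
        have h8 : g ∣ (m - s) % (g * q') := hs2 ▸ h7
        exact (Nat.dvd_mod_iff (Dvd.intro _ rfl)).mp h8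
      obtain ⟨k, hk⟩ := hd
      have hmod : s % g = ρ := by
        have h9 : m = g * k + s := by omega
        rw [hρ, h9, Nat.mul_add_mod]
      have hs3 : s = g * (s / g) + ρ := by
        rw [← hmod]
        exact (Nat.div_add_mod s g).symm
      have h10 : k = M - s / g := by
        have h11 : g * k = g * (M - s / g) := by
          rw [Nat.mul_sub, ← hk]
          omega
        exact Nat.eq_of_mul_eq_mul_left hg h11
      refine ⟨?_, ?_⟩
      · rw [Nat.lt_succ_iff, Nat.le_div_iff_mul_le hg, mul_comm]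
        omega
      · rw [hk, Nat.mul_mod_mul_left, Nat.mul_mod_mul_left] at hs2
        rw [← h10]
        exact Nat.eq_of_mul_eq_mul_left hg hs2
    · intro s hs
      show (g * s + ρ) / g = s
      rw [Nat.mul_add_div hg, Nat.div_eq_of_lt hρg, add_zero]
    · intro s hs
      rw [Finset.mem_filter, Finset.mem_range] at hs
      obtain ⟨hs1, hs2⟩ := hs
      have hd : g ∣ m - s := by
        have h7 : g ∣ (g * c') % (g * q') := by
          rw [Nat.mul_mod_mul_left]
          exact Dvd.intro _ rfl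
        have h8 : g ∣ (m - s) % (g * q') := hs2 ▸ h7
        exact (Nat.dvd_mod_iff (Dvd.intro _ rfl)).mp h8
      obtain ⟨k, hk⟩ := hd
      have hmod : s % g = ρ := by
        have h9 : m = g * k + s := by omega
        rw [hρ, h9, Nat.mul_add_mod]
      show g * (s / g) + ρ = s
      rw [← hmod]
      exact Nat.div_add_mod s g
    · intro s hs
      rw [Finset.mem_filter, Finset.mem_range] at hs
      obtain ⟨hs1, hs2⟩ := hs
      have h4 : s ≤ (H - 1 - ρ) / g := by omega
      have h5 : g * s ≤ H - 1 - ρ := by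
        calc g * s ≤ g * ((H - 1 - ρ) / g) := Nat.mul_le_mul_left _ h4
          _ ≤ _ := Nat.mul_div_le _ _
      have h6 : m - (g * s + ρ) = g * (M - s) := by
        rw [Nat.mul_sub]
        omega
      have h7 : M - s ≠ 0 := by
        intro h0
        rw [h0, mul_zero] at h6
        omega
      rw [h6, lam_mul hg.ne' h7]

theorem ResAv_le {g q' c' : ℕ} (hg : 0 < g) {H m : ℕ} (hHg : g ≤ H) (hm : H ≤ m) :
    |avr (g * q') (g * c') H m| ≤ |avr q' c' (H / g) (m / g)| + 1 / (H : ℝ) := by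
  obtain ⟨H', hH', hsum⟩ := ResAv_sum (q' := q') (c' := c') hg hHg hm
  have hH : (0 : ℝ) < H := by exact_mod_cast lt_of_lt_of_le hg hHg
  have hHg0 : 0 < H / g := Nat.div_pos hHg hg
  have hHg1 : (0 : ℝ) < ((H / g : ℕ) : ℝ) := by exact_mod_cast hHg0
  have hHg2 : ((H / g : ℕ) : ℝ) ≤ H := by exact_mod_cast Nat.div_le_self _ _
  have h1 : |∑ s ∈ (Finset.range H').filter (fun s => (m / g - s) % q' = c' % q'), lam (m / g - s)| ≤
      |∑ s ∈ (Finset.range (H / g)).filter (fun s => (m / g - s) % q' = c' % q'), lam (m / g - s)| + 1 := by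
    rcases hH' with h | h
    · rw [h]
      linarith
    · rw [h, Finset.range_add_one, Finset.filter_insert]
      split_ifs with h2
      · rw [Finset.sum_insert (by simp)]
        refine (abs_add_le _ _).trans ?_
        rw [abs_lam]
        linarith
      · linarith
  have h3 : ((H / g : ℕ) : ℝ) * |avr q' c' (H / g) (m / g)| =
      |∑ s ∈ (Finset.range (H / g)).filter (fun s => (m / g - s) % q' = c' % q'), lam (m / g - s)| := by
    unfold avr
    rw [abs_mul, abs_of_pos (by positivity : (0 : ℝ) < 1 / ((H / g : ℕ) : ℝ))]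
    field_simp
  unfold avr at h3 ⊢
  rw [hsum, abs_mul, abs_mul, abs_lam, one_mul, abs_of_pos (by positivity : (0 : ℝ) < 1 / (H : ℝ))]
  rw [← h3] at h1
  set A := |1 / ((H / g : ℕ) : ℝ) *
    ∑ s ∈ (Finset.range (H / g)).filter (fun s => (m / g - s) % q' = c' % q'), lam (m / g - s)| with hA
  have hA0 : 0 ≤ A := abs_nonneg _
  calc 1 / (H : ℝ) * |∑ s ∈ (Finset.range H').filter (fun s => (m / g - s) % q' = c' % q'), lam (m / g - s)|
      ≤ 1 / (H : ℝ) * (((H / g : ℕ) : ℝ) * A + 1) := by gcongr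
    _ ≤ 1 / (H : ℝ) * ((H : ℝ) * A + 1) := by gcongr
    _ = A + 1 / (H : ℝ) := by field_simp

theorem ResAv_harm (N : ℕ) : ∑ n ∈ Finset.Icc 1 N, (1 / (n : ℝ)) ≤ 1 + Real.log N := by
  have h := harmonic_le_one_add_log N
  rw [harmonic_eq_sum_Icc] at h
  push_cast at h
  simpa [one_div] using h

/-- Short averages of `λ` in any residue class. -/
theorem log_av_class {q : ℕ} (hq : 0 < q) (c : ℕ) {ε : ℝ} (hε : 0 < ε) :
    ∃ H0 : ℕ, 1 ≤ H0 ∧ ∀ H ≥ H0, ∀ᶠ N in atTop, logMean (fun n => |avr q c H n|) N ≤ ε := by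
  set g := Nat.gcd c q with hgdef
  have hg : 0 < g := Nat.gcd_pos_of_pos_right _ hq
  set q' := q / g with hq'
  set c' := c / g with hc'
  have hgq : q = g * q' := (Nat.mul_div_cancel' (Nat.gcd_dvd_right c q)).symm
  have hgc : c = g * c' := (Nat.mul_div_cancel' (Nat.gcd_dvd_left c q)).symm
  have hq'0 : 0 < q' := Nat.div_pos (Nat.le_of_dvd hq (Nat.gcd_dvd_right c q)) hg
  have hcop : Nat.Coprime c' q' := Nat.coprime_div_gcd_div_gcd hg
  obtain ⟨H1, hH1, hH⟩ := log_av_unit hq'0 hcop (show 0 < ε / 8 by positivity)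
  refine ⟨max (g * H1) (⌈4 / ε⌉₊ + 1), ?_, fun H hHge => ?_⟩
  · exact le_max_of_le_right (by omega)
  have hH2 : g * H1 ≤ H := (le_max_left _ _).trans hHge
  have hH3 : ⌈4 / ε⌉₊ + 1 ≤ H := (le_max_right _ _).trans hHge
  have hgH : g ≤ H := le_trans (Nat.le_mul_of_pos_right g (by omega)) hH2
  have hHd : H1 ≤ H / g := by
    rw [Nat.le_div_iff_mul_le hg, mul_comm]
    exact hH2
  have hHpos : (0 : ℝ) < H := by exact_mod_cast lt_of_lt_of_le hg hgH
  have hHinv : 1 / (H : ℝ) ≤ ε / 4 := by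
    have h1 : 4 / ε ≤ H := by
      calc 4 / ε ≤ (⌈4 / ε⌉₊ : ℝ) := Nat.le_ceil _
        _ ≤ H := by exact_mod_cast (by omega : ⌈4 / ε⌉₊ ≤ H)
    rw [div_le_div_iff₀ hHpos (by norm_num)]
    rw [div_le_iff₀ hε] at h1
    linarith
  have hN := hH (H / g) hHd
  set a : ℝ := 1 / (g : ℝ) with ha
  have hgR : (1 : ℝ) ≤ g := by exact_mod_cast hg
  have ha0 : 0 < a := by rw [ha]; positivity
  have ha1 : a ≤ 1 := by
    rw [ha, div_le_one (by linarith)]
    exact hgR
  have hbtn : ∀ n : ℕ, bt a n = n / g := by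
    intro n
    unfold bt
    rw [ha, one_div_mul_eq_div, Nat.floor_div_eq_div]
  have hbt : Tendsto (fun N : ℕ => bt a N) atTop atTop := by
    unfold bt
    exact tendsto_nat_floor_atTop.comp (tendsto_natCast_atTop_atTop.const_mul_atTop ha0)
  have h2 := hbt.eventually hN
  have hlog : Tendsto (fun N : ℕ => Real.log (N : ℝ)) atTop atTop :=
    Real.tendsto_log_atTop.comp tendsto_natCast_atTop_atTop
  filter_upwards [h2, hbt.eventually_ge_atTop 2, eventually_ge_atTop 2,
    hlog.eventually_ge_atTop ((1 / a + 1 + 1 + H) * 4 / ε), hlog.eventually_ge_atTop 1] with N hN1 hN2 hN4 hN5 hN6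
  have hlN : 0 < Real.log (N : ℝ) := by linarith
  have hlb : 0 < Real.log ((bt a N : ℕ) : ℝ) := Real.log_pos (by exact_mod_cast (by omega : 1 < bt a N))
  have hlb2 : Real.log ((bt a N : ℕ) : ℝ) ≤ Real.log N := by
    apply Real.log_le_log (by exact_mod_cast (by omega : 0 < bt a N))
    rw [hbtn]
    exact_mod_cast Nat.div_le_self _ _
  have h5 := BeattyAv_sum ha0 (fun m => |avr q' c' (H / g) m|) (fun m => abs_nonneg _)
    (fun m => abs_avr_le _ _ _ _) N
  have h6 : ∑ m ∈ Finset.Icc 1 (bt a N), (1 / (m : ℝ)) * |avr q' c' (H / g) m| =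
      Real.log ((bt a N : ℕ) : ℝ) * logMean (fun n => |avr q' c' (H / g) n|) (bt a N) := by
    unfold logMean
    field_simp
  have h7 : ∑ m ∈ Finset.Icc 1 (bt a N), (1 / (m : ℝ)) * |avr q' c' (H / g) m| ≤ Real.log N * (ε / 8) := by
    rw [h6]
    calc Real.log ((bt a N : ℕ) : ℝ) * logMean (fun n => |avr q' c' (H / g) n|) (bt a N)
        ≤ Real.log ((bt a N : ℕ) : ℝ) * (ε / 8) := by gcongr
      _ ≤ _ := by gcongr
  -- pointwise bound
  have h8 : ∀ n ∈ Finset.Icc 1 N, (1 / (n : ℝ)) * |avr q c H n| ≤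
      (1 / (n : ℝ)) * |avr q' c' (H / g) (bt a n)| + (1 / (n : ℝ)) * (1 / (H : ℝ)) +
        (if n < H then 1 else 0) := by
    intro n hn
    rw [Finset.mem_Icc] at hn
    have hn1 : (1 : ℝ) ≤ n := by exact_mod_cast hn.1
    have hn0 : 0 ≤ 1 / (n : ℝ) := by positivity
    have hn2 : 1 / (n : ℝ) ≤ 1 := by
      rw [div_le_one (by linarith)]
      exact hn1
    split_ifs with hnH
    · have h9 : (1 / (n : ℝ)) * |avr q c H n| ≤ 1 := by
        have := abs_avr_le q c H n
        have h10 := abs_nonneg (avr q c H n)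
        nlinarith
      have h10 : 0 ≤ (1 / (n : ℝ)) * |avr q' c' (H / g) (bt a n)| := by positivity
      have h11 : 0 ≤ (1 / (n : ℝ)) * (1 / (H : ℝ)) := by positivity
      linarith
    · have h9 := ResAv_le (q' := q') (c' := c') hg hgH (not_lt.mp hnH)
      rw [← hgq, ← hgc] at h9
      rw [hbtn, add_zero, ← mul_add]
      gcongr
  have h9 : ∑ n ∈ Finset.Icc 1 N, (1 / (n : ℝ)) * |avr q c H n| ≤
      ((1 / a + 1) + (1 + a) * (Real.log N * (ε / 8))) + (1 + Real.log N) * (1 / (H : ℝ)) + H := by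
    refine (Finset.sum_le_sum h8).trans ?_
    rw [Finset.sum_add_distrib, Finset.sum_add_distrib, ← Finset.sum_mul]
    refine add_le_add (add_le_add (h5.trans ?_) ?_) ?_
    · gcongr
    · gcongr
      exact ResAv_harm N
    · rw [← Finset.sum_filter, Finset.sum_const, nsmul_eq_mul, mul_one]
      have : ((Finset.Icc 1 N).filter (fun n => n < H)).card ≤ (Finset.range H).card := by
        apply Finset.card_le_card
        intro n hn
        rw [Finset.mem_filter] at hn
        exact Finset.mem_range.mpr hn.2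
      rw [Finset.card_range] at this
      exact_mod_cast this
  unfold logMean
  have h10 : (1 / a + 1 + 1 + H) ≤ Real.log N * (ε / 4) := by
    rw [div_le_iff₀ hε] at hN5
    linarith
  have h11 : (1 + a) * (Real.log N * (ε / 8)) ≤ Real.log N * (ε / 4) := by
    have : 0 < Real.log N * (ε / 8) := by positivity
    nlinarith
  have h12 : (1 + Real.log N) * (1 / (H : ℝ)) ≤ 1 + Real.log N * (ε / 4) := by
    have h13 : 1 / (H : ℝ) ≤ 1 := by
      rw [div_le_one hHpos]
      exact_mod_cast lt_of_lt_of_le hg hgH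
    have h14 : 0 ≤ 1 / (H : ℝ) := by positivity
    nlinarith
  have h13 : ∑ n ∈ Finset.Icc 1 N, (1 / (n : ℝ)) * |avr q c H n| ≤ Real.log N * ε := by
    have : 0 < Real.log N * (ε / 4) := by positivity
    linarith
  calc (1 / Real.log (N : ℝ)) * ∑ n ∈ Finset.Icc 1 N, (1 / (n : ℝ)) * |avr q c H n|
      ≤ (1 / Real.log (N : ℝ)) * (Real.log N * ε) := by gcongr
    _ = ε := by field_simp

end Pool.MP_67663b_nt.PS
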