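import Pool.Agent.Lib.MP_67663b_nt.PS.ResDefs
import Pool.Agent.Lib.MP_67663b_nt.PS.MRShortu
import Pool.Agent.Lib.MP_67663b_nt.PS.HalAvgu
import Pool.Agent.Lib.MP_67663b_nt.PS.LLow

set_option autoImplicit false
open Filter Topology
namespace Pool.MP_67663b_nt.PS
open Pool.MP_67663b_nt.Odd Pool.MP_67663b_nt.MR

private theorem resChi_bound {q : ℕ} [NeZero q] {c : ℕ} (hc : Nat.Coprime c q) (H m : ℕ) :
    |avr q c H m| ≤ ∑ χ : DirichletCharacter ℂ q, ‖avu (chi χ) H m‖ := by
  classical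
  have hunit : IsUnit (c : ZMod q) := (ZMod.isUnit_iff_coprime c q).2 hc
  have hphi : 1 ≤ q.totient := Nat.totient_pos.2 (NeZero.pos q)
  have key : ((q.totient : ℝ) : ℂ) * (avr q c H m : ℂ) =
      ∑ χ : DirichletCharacter ℂ q, χ (c : ZMod q)⁻¹ * avu (chi χ) H m := by
    have e1 : ∀ s : ℕ, ∑ χ : DirichletCharacter ℂ q, χ (c : ZMod q)⁻¹ * fu (chi χ) (m - s) =
        if (m - s) % q = c % q then (q.totient : ℂ) * (lam (m - s) : ℂ) else 0 := by
      intro s
      have h1 := DirichletCharacter.sum_char_inv_mul_char_eq ℂ hunit ((m - s : ℕ) : ZMod q)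
      have h2 : ((c : ZMod q) = ((m - s : ℕ) : ZMod q)) ↔ ((m - s) % q = c % q) := by
        rw [ZMod.natCast_eq_natCast_iff']
        exact eq_comm
      calc ∑ χ : DirichletCharacter ℂ q, χ (c : ZMod q)⁻¹ * fu (chi χ) (m - s)
          = (lam (m - s) : ℂ) * ∑ χ : DirichletCharacter ℂ q,
              χ (c : ZMod q)⁻¹ * χ ((m - s : ℕ) : ZMod q) := by
            rw [Finset.mul_sum]
            refine Finset.sum_congr rfl fun χ _ => ?_
            simp only [fu, chi]
            ring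
        _ = _ := by
            rw [h1]
            by_cases h : (m - s) % q = c % q
            · rw [if_pos (h2.2 h), if_pos h]; ring
            · rw [if_neg (fun h' => h (h2.1 h')), if_neg h, mul_zero]
    have e2 : ∑ χ : DirichletCharacter ℂ q, χ (c : ZMod q)⁻¹ * avu (chi χ) H m =
        (1 / (H : ℂ)) * ∑ s ∈ Finset.range H,
          ∑ χ : DirichletCharacter ℂ q, χ (c : ZMod q)⁻¹ * fu (chi χ) (m - s) := by
      rw [Finset.sum_comm, Finset.mul_sum]
      refine Finset.sum_congr rfl fun χ _ => ?_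
      unfold avu
      rw [← Finset.mul_sum]
      ring
    rw [e2, Finset.sum_congr rfl fun s _ => e1 s]
    unfold avr
    push_cast
    rw [← Finset.sum_filter, ← Finset.mul_sum]
    ring
  have h1 : (q.totient : ℝ) * |avr q c H m| = ‖((q.totient : ℝ) : ℂ) * (avr q c H m : ℂ)‖ := by
    rw [norm_mul, Complex.norm_real, Complex.norm_real, Real.norm_eq_abs, Real.norm_eq_abs,
      abs_of_nonneg (Nat.cast_nonneg (q.totient) : (0 : ℝ) ≤ (q.totient : ℝ))]
  have h2 : (q.totient : ℝ) * |avr q c H m| ≤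
      ∑ χ : DirichletCharacter ℂ q, ‖avu (chi χ) H m‖ := by
    rw [h1, key]
    refine (norm_sum_le _ _).trans (Finset.sum_le_sum fun χ _ => ?_)
    rw [norm_mul]
    have h3 : ‖χ (c : ZMod q)⁻¹‖ ≤ 1 := χ.norm_le_one _
    nlinarith [norm_nonneg (avu (chi χ) H m)]
  have h3 : (1 : ℝ) ≤ (q.totient : ℝ) := by exact_mod_cast hphi
  nlinarith [abs_nonneg (avr q c H m)]

/-- Short averages of `λ` in a reduced residue class (orthogonality of the characters). -/
theorem log_av_unit {q : ℕ} (hq : 0 < q) {c : ℕ} (hc : Nat.Coprime c q) {ε : ℝ} (hε : 0 < ε) :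
    ∃ H0 : ℕ, 1 ≤ H0 ∧ ∀ H ≥ H0, ∀ᶠ N in atTop, logMean (fun n => |avr q c H n|) N ≤ ε := by
  classical
  have : NeZero q := ⟨hq.ne'⟩
  set M : ℕ := Fintype.card (DirichletCharacter ℂ q) with hM
  have hMpos : 0 < M := Fintype.card_pos
  have hMR : (0 : ℝ) < M := by exact_mod_cast hMpos
  have hall : ∀ χ : DirichletCharacter ℂ q, ∃ H0 : ℕ, 1 ≤ H0 ∧ ∀ H ≥ H0,
      ∀ᶠ N in atTop, logMean (fun n => ‖avu (chi χ) H n‖) N ≤ ε / M := fun χ =>
    log_av_u (CM_chi χ) (hal_avg_u (CM_chi χ) (ll_chi χ)) (div_pos hε hMR)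
  choose H0 hH1 hH2 using hall
  refine ⟨Finset.univ.sup H0 + 1, by omega, fun H hH => ?_⟩
  have hev : ∀ᶠ N in atTop, ∀ χ : DirichletCharacter ℂ q,
      logMean (fun n => ‖avu (chi χ) H n‖) N ≤ ε / M := by
    rw [Filter.eventually_all]
    intro χ
    refine hH2 χ H ?_
    have : H0 χ ≤ Finset.univ.sup H0 := Finset.le_sup (Finset.mem_univ χ)
    omega
  filter_upwards [hev] with N hN
  have hlog : 0 ≤ 1 / Real.log (N : ℝ) :=
    one_div_nonneg.2 (Real.log_natCast_nonneg N)
  calc logMean (fun n => |avr q c H n|) N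
      ≤ logMean (fun n => ∑ χ : DirichletCharacter ℂ q, ‖avu (chi χ) H n‖) N := by
        unfold logMean
        refine mul_le_mul_of_nonneg_left (Finset.sum_le_sum fun n _ => ?_) hlog
        exact mul_le_mul_of_nonneg_left (resChi_bound hc H n) (by positivity)
    _ = ∑ χ : DirichletCharacter ℂ q, logMean (fun n => ‖avu (chi χ) H n‖) N := by
        unfold logMean
        rw [← Finset.mul_sum, Finset.sum_comm]
        congr 1
        refine Finset.sum_congr rfl fun n _ => ?_
        rw [Finset.mul_sum]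
    _ ≤ ∑ χ : DirichletCharacter ℂ q, ε / M := Finset.sum_le_sum fun χ _ => hN χ
    _ = ε := by
        rw [Finset.sum_const, Finset.card_univ, ← hM, nsmul_eq_mul]
        field_simp

end Pool.MP_67663b_nt.PS
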