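import Pool.Agent.Lib.MP_67663b_nt.PS.UDefs

set_option autoImplicit false
open Filter Topology
namespace Pool.MP_67663b_nt.PS
open Pool.MP_67663b_nt.Odd Pool.MP_67663b_nt.MR

/-- short average of `λ` at `m, m-1, .., m-H+1`, restricted to the class of `c` modulo `q` -/
noncomputable def avr (q c H m : ℕ) : ℝ :=
  (1 / (H : ℝ)) * ∑ s ∈ (Finset.range H).filter (fun s => (m - s) % q = c % q), lam (m - s)

theorem abs_avr_le (q c H m : ℕ) : |avr q c H m| ≤ 1 := by
  unfold avr
  rcases Nat.eq_zero_or_pos H with rfl | hH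
  · simp
  have hH' : (0:ℝ) < H := by exact_mod_cast hH
  rw [abs_mul, abs_of_pos (by positivity : (0:ℝ) < 1 / H)]
  have h1 : |∑ s ∈ (Finset.range H).filter (fun s => (m - s) % q = c % q), lam (m - s)| ≤ H := by
    refine (Finset.abs_sum_le_sum_abs _ _).trans ?_
    calc ∑ s ∈ (Finset.range H).filter (fun s => (m - s) % q = c % q), |lam (m - s)|
        = ∑ s ∈ (Finset.range H).filter (fun s => (m - s) % q = c % q), (1 : ℝ) := by simp [abs_lam]
      _ ≤ ∑ s ∈ Finset.range H, (1 : ℝ) :=
          Finset.sum_le_sum_of_subset_of_nonneg (Finset.filter_subset _ _) fun _ _ _ => zero_le_one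
      _ = H := by simp
  calc 1 / (H:ℝ) * |∑ s ∈ (Finset.range H).filter (fun s => (m - s) % q = c % q), lam (m - s)|
      ≤ 1 / (H:ℝ) * H := by gcongr
    _ = 1 := by field_simp

end Pool.MP_67663b_nt.PS
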