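import Pool.Agent.Lib.MP_67663b_nt.PS.WindowT
import Pool.Agent.Lib.MP_67663b_nt.PS.DilateT
import Pool.Agent.Lib.MP_67663b_nt.OddB.ExpDefs
import Pool.Agent.Lib.MP_67663b_nt.Odd.Step

set_option autoImplicit false
open Filter Topology
namespace Pool.MP_67663b_nt.PS
open Pool.MP_67663b_nt.Odd

variable {I : Type} [Fintype I] [DecidableEq I]

/-- mutual information of the word with `s(n)` and the residues of the remaining slopes -/
private noncomputable def miT (M : IMean) (α : I → ℝ) (a : I → ℤ) (b : ℤ) (l : I) (H p : ℕ) : ℝ :=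
  M.H (wordB α a b H) + M.H (res (rest α l) p) -
    M.H (fun n => (wordB α a b H n, res (rest α l) p n))

private theorem miT_nonneg (M : IMean) (α : I → ℝ) (hα : ∀ i, 0 < α i) (a : I → ℤ) (b : ℤ)
    (hrel : (b : ℝ) = ∑ i, (a i : ℝ) * α i) (l : I) (H : ℕ) {p : ℕ} (hp : 0 < p) :
    0 ≤ miT M α a b l H p := by
  have := M.H_pair_le (wordB_finite α hα a b hrel H)
    ((Finset.finite_toSet (box {i : I // i ≠ l} p)).subset (res_mem_box (rest α l) hp))
  unfold miT
  linarith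

private theorem decouple_stepT (M : IMean) (α : I → ℝ) (hα : ∀ i, 0 < α i) (a : I → ℤ) (b t : ℤ)
    (hrel : (b : ℝ) = ∑ i, (a i : ℝ) * α i)
    (hind : ∀ c : I → ℤ, ∑ i, (c i : ℝ) * α i = 0 → ∀ i, c i = 0) (l : I) (hl : a l ≠ 0)
    {p x h : ℕ} (hp : p.Prime) (hx : 0 < x) (hlp : IsCoprime (a l) (p : ℤ))
    (hlx : IsCoprime (a l) (x : ℤ))
    (hh : ∀ i, (p : ℝ) * x + 1 ≤ α i * h) (hph : p ≤ h) :
    |gT M α a b t x - (-1) ^ (Fintype.card I + 1) * gT M α a b t (p * x)| ≤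
      4 * Real.sqrt (miT M α a b l (2 * h) p) := by
  obtain ⟨Psi, h1, h2, h3⟩ := exists_PsiT α hα a b t (l := l) hp hx hlp hlx hh hph
  have hh0 : 0 < h := lt_of_lt_of_le hp.pos hph
  have hh' : (0:ℝ) < h := by exact_mod_cast hh0
  have hdec := M.decouple (wordB_finite α hα a b hrel (2 * h)) (res_mem_box (rest α l) hp.pos)
    Psi h2
  have hE1 : M.E (phiT α a b t p x) =
      M.E (fun n => Psi (wordB α a b (2 * h) n) (res (rest α l) p n)) := by
    have e1 : M.E (fun n => (1 / (h : ℝ)) *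
        ∑ j ∈ Finset.Ico h (2 * h), phiT α a b t p x (n + j)) = M.E (phiT α a b t p x) := by
      rw [M.smul _ _ (Bdd.sum _ fun j _ => (bdd_phiT α a b t p x).comp _),
        M.E_sum _ (fun j _ => (bdd_phiT α a b t p x).comp _)]
      rw [Finset.sum_congr rfl fun j _ => M.E_shift (bdd_phiT α a b t p x) j]
      simp only [Finset.sum_const, Nat.card_Ico, nsmul_eq_mul]
      have : 2 * h - h = h := by omega
      rw [this]
      field_simp
    rw [← e1]
    congr 1
    funext n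
    exact h1 n
  have hE2 : ∑ y ∈ box {i : I // i ≠ l} p, M.P (res (rest α l) p) y *
      M.E (fun n => Psi (wordB α a b (2 * h) n) y) = gT M α a b t (p * x) := by
    have hb : ∀ y ∈ box {i : I // i ≠ l} p, Bdd (fun n => Psi (wordB α a b (2 * h) n) y) :=
      fun y hy => ⟨2, fun n => h2 n y hy⟩
    rw [Finset.sum_congr rfl fun y hy' => by
        rw [equidist M (rest α l) (fun i => hα i.1) (rest_indep α a b hrel hind l hl) hp.pos hy'],
      ← Finset.mul_sum, ← M.E_sum _ hb, ← M.smul _ _ (Bdd.sum _ hb)]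
    have e2 : (fun n => (1 / ((box {i : I // i ≠ l} p).card : ℝ)) *
        ∑ y ∈ box {i : I // i ≠ l} p, Psi (wordB α a b (2 * h) n) y) =
      fun n => (1 / (h : ℝ)) * ∑ j ∈ Finset.Ico h (2 * h),
          lam (n + j) * avT a t (p * x) (sB α a b (n + j))
            (fun i r => lam (bt (α i) (n + j) - r)) := funext h3
    rw [e2]
    have hbg := bdd_gT α a b t (p * x)
    rw [M.smul _ _ (Bdd.sum _ fun j _ => hbg.comp (fun n => n + j)),
        M.E_sum _ (fun j _ => hbg.comp (fun n => n + j))]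
    rw [Finset.sum_congr rfl fun j _ => M.E_shift hbg j]
    simp only [Finset.sum_const, Nat.card_Ico, nsmul_eq_mul]
    have : 2 * h - h = h := by omega
    rw [this]
    unfold gT
    field_simp
  rw [← hE1, hE2] at hdec
  rw [gT_dilate M α hα a b t hp hx, ← mul_sub, abs_mul, abs_pow, abs_neg, abs_one, one_pow, one_mul]
  have : 2 * (2:ℝ) * Real.sqrt (M.H (wordB α a b (2 * h)) + M.H (res (rest α l) p) -
      M.H (fun n => (wordB α a b (2 * h) n, res (rest α l) p n))) =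
      4 * Real.sqrt (miT M α a b l (2 * h) p) := by
    unfold miT
    ring
  linarith [hdec]

/-- The decoupling step summed over the primes of a dyadic block (compare `step_B` in `OddB.StepB`). -/
theorem step_T (M : IMean) (α : I → ℝ) (hα : ∀ i, 0 < α i) (a : I → ℤ) (b t : ℤ)
    (hrel : (b : ℝ) = ∑ i, (a i : ℝ) * α i)
    (hind : ∀ c : I → ℤ, ∑ i, (c i : ℝ) * α i = 0 → ∀ i, c i = 0) (l : I) (hl : a l ≠ 0)
    {x : ℕ} (hx : 0 < x) (hlx : IsCoprime (a l) (x : ℤ)) :
    ∃ u : ℕ → ℝ, (∀ m, 0 ≤ u m) ∧ Summable u ∧ ∀ m,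
      ∑ p ∈ (blk m).filter (fun p : ℕ => IsCoprime (a l) (p : ℤ)),
        (gT M α a b t x - (-1) ^ (Fintype.card I + 1) * gT M α a b t (p * x)) ^ 2 ≤ 2 ^ m * u m := by
  obtain ⟨K, hK2, hK⟩ : ∃ K : ℕ, 2 ≤ K ∧ ∀ i, 2 * (x : ℝ) + 1 ≤ α i * K := by
    have : ∀ i, ∃ k : ℕ, 2 * (x:ℝ) + 1 ≤ α i * k := fun i => by
      obtain ⟨k, hk⟩ := exists_nat_ge ((2 * (x:ℝ) + 1) / α i)
      refine ⟨k, ?_⟩
      rw [div_le_iff₀ (hα i)] at hk
      linarith
    choose k hk using this
    refine ⟨2 + ∑ i, k i, by omega, fun i => ?_⟩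
    have h1 : k i ≤ 2 + ∑ i, k i := by
      have := Finset.single_le_sum (f := k) (fun i _ => Nat.zero_le _) (Finset.mem_univ i)
      omega
    have h2 : (k i : ℝ) ≤ ((2 + ∑ i, k i : ℕ) : ℝ) := by exact_mod_cast h1
    exact (hk i).trans (mul_le_mul_of_nonneg_left h2 (hα i).le)
  have hα' : ∀ i : {i : I // i ≠ l}, 0 < rest α l i := fun i => hα i.1
  have hind' := rest_indep α a b hrel hind l hl
  have hZfin : ∀ Q, 0 < Q → (Set.range (res (rest α l) Q)).Finite := fun Q hQ =>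
    (Finset.finite_toSet (box {i : I // i ≠ l} Q)).subset (res_mem_box (rest α l) hQ)
  obtain ⟨u, hu0, hus, hu⟩ := entropy_decrement M (wordB α a b) (res (rest α l))
    (Fintype.card {i : I // i ≠ l} + 1)
    (wordB_finite α hα a b hrel) hZfin (wordB_double α hα a b)
    (fun H Q hQ => res_rest_shift α hα a b l H Q hQ)
    (fun p Q hp hQ h => res_mul (rest α l) p Q hp hQ h)
    (fun Q hQ => H_res M (rest α l) hα' hind' hQ)
    (2 * K) (by omega)
  refine ⟨fun m => 16 * u m, fun m => by have := hu0 m; positivity, hus.mul_left _, fun m => ?_⟩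
  have hterm : ∀ p ∈ (blk m).filter (fun p : ℕ => IsCoprime (a l) (p : ℤ)),
      (gT M α a b t x - (-1) ^ (Fintype.card I + 1) * gT M α a b t (p * x)) ^ 2 ≤
        16 * miT M α a b l (2 * K * 2 ^ m) p := by
    intro p hp
    obtain ⟨hpb, hcop⟩ := Finset.mem_filter.mp hp
    obtain ⟨hpp, hp1, hp2⟩ := mem_blk.mp hpb
    have hple : (p:ℝ) ≤ 2 * 2 ^ m := by
      have : p ≤ 2 * 2 ^ m := by rw [← pow_succ']; exact hp2.le
      exact_mod_cast this
    have hcond : ∀ i, (p : ℝ) * x + 1 ≤ α i * ((K * 2 ^ m : ℕ) : ℝ) := by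
      intro i
      push_cast
      have h1 : (1:ℝ) ≤ 2 ^ m := one_le_pow₀ (by norm_num)
      have hx0 : (0:ℝ) ≤ x := Nat.cast_nonneg x
      calc (p : ℝ) * x + 1 ≤ (2 * 2 ^ m) * x + 2 ^ m := by gcongr
        _ = (2 * x + 1) * 2 ^ m := by ring
        _ ≤ (α i * K) * 2 ^ m := by gcongr; exact hK i
        _ = α i * (K * 2 ^ m) := by ring
    have hph : p ≤ K * 2 ^ m := by
      have : p ≤ 2 * 2 ^ m := by rw [← pow_succ']; exact hp2.le
      exact this.trans (Nat.mul_le_mul_right _ hK2)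
    have hst := decouple_stepT M α hα a b t hrel hind l hl hpp hx hcop hlx hcond hph
    have e : 2 * (K * 2 ^ m) = 2 * K * 2 ^ m := by ring
    rw [e] at hst
    have hmi := miT_nonneg M α hα a b hrel l (2 * K * 2 ^ m) hpp.pos
    rw [← sq_abs]
    calc |gT M α a b t x - (-1) ^ (Fintype.card I + 1) * gT M α a b t (p * x)| ^ 2 ≤
        (4 * Real.sqrt (miT M α a b l (2 * K * 2 ^ m) p)) ^ 2 :=
          pow_le_pow_left₀ (abs_nonneg _) hst 2
      _ = 16 * miT M α a b l (2 * K * 2 ^ m) p := by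
          rw [mul_pow, Real.sq_sqrt hmi]
          norm_num
  calc ∑ p ∈ (blk m).filter (fun p : ℕ => IsCoprime (a l) (p : ℤ)),
        (gT M α a b t x - (-1) ^ (Fintype.card I + 1) * gT M α a b t (p * x)) ^ 2 ≤
      ∑ p ∈ (blk m).filter (fun p : ℕ => IsCoprime (a l) (p : ℤ)),
        16 * miT M α a b l (2 * K * 2 ^ m) p := Finset.sum_le_sum hterm
    _ ≤ ∑ p ∈ blk m, 16 * miT M α a b l (2 * K * 2 ^ m) p := by
        refine Finset.sum_le_sum_of_subset_of_nonneg (Finset.filter_subset _ _) fun p hp _ => ?_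
        have := miT_nonneg M α hα a b hrel l (2 * K * 2 ^ m) (mem_blk.mp hp).1.pos
        positivity
    _ = 16 * ∑ p ∈ blk m, miT M α a b l (2 * K * 2 ^ m) p := by rw [← Finset.mul_sum]
    _ ≤ 16 * (2 ^ m * u m) := mul_le_mul_of_nonneg_left (hu m) (by norm_num)
    _ = 2 ^ m * (16 * u m) := by ring

end Pool.MP_67663b_nt.PS
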