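import Pool.Agent.Lib.MP_67663b_nt.OddB.BDefs

/-!
# The relation case with a fixed value of `s(n)`: definitions

`b = Σ a_i α_i`, `s(n) = b n - Σ a_i ⌊α_i n⌋`; `gT 1` is the correlation restricted to `s(n) = t`.
-/

set_option autoImplicit false
open Filter Topology
namespace Pool.MP_67663b_nt.PS
open Pool.MP_67663b_nt.Odd

variable {I : Type} [Fintype I] [DecidableEq I]

/-- Solutions `r ∈ [0,x)^I` of `Σ a_i r_i + s = t x`. -/
def RRT (a : I → ℤ) (t : ℤ) (x : ℕ) (s : ℤ) : Finset (I → ℕ) :=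
  (Fintype.piFinset (fun _ : I => Finset.range x)).filter
    (fun r => ∑ i, a i * (r i : ℤ) + s = t * (x : ℤ))

/-- inner average -/
noncomputable def avT (a : I → ℤ) (t : ℤ) (x : ℕ) (s : ℤ) (f : I → ℕ → ℝ) : ℝ :=
  (1 / (x : ℝ) ^ (Fintype.card I - 1)) * ∑ r ∈ RRT a t x s, ∏ i, f i (r i)

/-- The decoupled correlation, restricted to `s(n) = t`. -/
noncomputable def gT (M : IMean) (α : I → ℝ) (a : I → ℤ) (b t : ℤ) (x : ℕ) : ℝ :=
  M.E (fun n => lam n * avT a t x (sB α a b n) (fun i r => lam (bt (α i) n - r)))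

/-- the dilated correlation function. -/
noncomputable def phiT (α : I → ℝ) (a : I → ℤ) (b t : ℤ) (p x n : ℕ) : ℝ :=
  (if p ∣ n then (p : ℝ) else 0) * lam n *
    avT a t x ((sB α a b n + ∑ i, a i * ((bt (α i) n % p : ℕ) : ℤ)) / p)
      (fun i r => lam (bt (α i) n - bt (α i) n % p - p * r))

theorem RRT_subset (a : I → ℤ) (t : ℤ) (x : ℕ) (s : ℤ) : RRT a t x s ⊆ RR a x s := by
  intro r hr
  unfold RRT at hr
  unfold RR
  rw [Finset.mem_filter] at hr ⊢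
  refine ⟨hr.1, ?_⟩
  rw [hr.2]
  exact dvd_mul_left _ _

theorem mem_RRT {a : I → ℤ} {t : ℤ} {x : ℕ} {s : ℤ} {r : I → ℕ} :
    r ∈ RRT a t x s ↔ (∀ i, r i < x) ∧ ∑ i, a i * (r i : ℤ) + s = t * (x : ℤ) := by
  unfold RRT
  rw [Finset.mem_filter, Fintype.mem_piFinset]
  simp only [Finset.mem_range]

theorem abs_sum_RRT_le (a : I → ℤ) (t : ℤ) (x : ℕ) (s : ℤ) {f : I → ℕ → ℝ}
    (hf : ∀ i r, |f i r| ≤ 1) : |∑ r ∈ RRT a t x s, ∏ i, f i (r i)| ≤ ((RRT a t x s).card : ℝ) := by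
  calc |∑ r ∈ RRT a t x s, ∏ i, f i (r i)| ≤ ∑ r ∈ RRT a t x s, |∏ i, f i (r i)| :=
        Finset.abs_sum_le_sum_abs _ _
    _ ≤ ∑ r ∈ RRT a t x s, (1:ℝ) := by
        refine Finset.sum_le_sum fun r _ => ?_
        rw [Finset.abs_prod]
        exact Finset.prod_le_one (fun i _ => abs_nonneg _) (fun i _ => hf i _)
    _ = ((RRT a t x s).card : ℝ) := by simp

theorem abs_avT_le (a : I → ℤ) (t : ℤ) (x : ℕ) (s : ℤ) {f : I → ℕ → ℝ} (hf : ∀ i r, |f i r| ≤ 1) :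
    |avT a t x s f| ≤ |1 / (x : ℝ) ^ (Fintype.card I - 1)| * (x : ℝ) ^ Fintype.card I := by
  unfold avT
  rw [abs_mul]
  refine mul_le_mul_of_nonneg_left ?_ (abs_nonneg _)
  refine (abs_sum_RRT_le a t x s hf).trans ?_
  have h1 := (Finset.card_le_card (RRT_subset a t x s)).trans (card_RR_le a x s)
  exact_mod_cast h1

theorem bdd_gT (α : I → ℝ) (a : I → ℤ) (b t : ℤ) (x : ℕ) :
    Bdd (fun n => lam n * avT a t x (sB α a b n) (fun i r => lam (bt (α i) n - r))) :=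
  bdd_lam.mul ⟨_, fun n => abs_avT_le a t x _ (fun i r => (abs_lam _).le)⟩

theorem bdd_phiT (α : I → ℝ) (a : I → ℤ) (b t : ℤ) (p x : ℕ) : Bdd (phiT α a b t p x) :=
  ((Bdd.ite _ (Bdd.const (p:ℝ)) (Bdd.const 0)).mul bdd_lam).mul
    ⟨_, fun n => abs_avT_le a t x _ (fun i r => (abs_lam _).le)⟩

end Pool.MP_67663b_nt.PS
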