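import Pool.Agent.Lib.MP_67663b_nt.MR.Lev

/-!
# Twisted Matomaki-Radziwill theorem: definitions

`u` is a completely multiplicative function with values in the unit disc (a Dirichlet character
in the application); we study `λ u`.
-/

set_option autoImplicit false
open Filter Topology MeasureTheory
namespace Pool.MP_67663b_nt.PS
open Pool.MP_67663b_nt.Odd Pool.MP_67663b_nt.MR

/-- completely multiplicative, bounded by one -/
structure CM (u : ℕ → ℂ) : Prop where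
  le : ∀ n, ‖u n‖ ≤ 1
  one : u 1 = 1
  mul : ∀ m n, u (m * n) = u m * u n

/-- `λ u` -/
noncomputable def fu (u : ℕ → ℂ) (m : ℕ) : ℂ := (lam m : ℂ) * u m

/-- prime polynomial of the slice `v`, with coefficients `u` -/
noncomputable def Qu (u : ℕ → ℂ) (K v : ℕ) (t : ℝ) : ℂ := dp (sl K v) u t

/-- polynomial of `λ u` over `(X e^(-v/K), 4 X e^(-v/K)]` -/
noncomputable def Ru (u : ℕ → ℂ) (X : ℝ) (K v : ℕ) (t : ℝ) : ℂ :=
  dp (seg (X * Real.exp (-((v : ℝ) / K))) (4 * (X * Real.exp (-((v : ℝ) / K))))) (fu u) t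

/-- polynomial of `λ u` over `(X, 4 X]` -/
noncomputable def Gu (u : ℕ → ℂ) (X : ℝ) (t : ℝ) : ℂ := dp (seg X (4 * X)) (fu u) t

/-- the set of `t` for which every level `j ≤ J` has a large slice polynomial (twisted) -/
def LevU {κ a0 D0 : ℝ} (L : Lev κ a0 D0) (u : ℕ → ℂ) (J : ℕ) (T : ℝ) : Set ℝ :=
  {t | t ∈ Set.Icc (-T) T ∧ ∀ j ≤ J, ∃ v ∈ Finset.Ico (L.a j) (L.b j),
    Real.exp ((1 - L.α j) * ((v : ℝ) / L.K j)) < ‖Qu u (L.K j) v t‖}

/-- `λ(n) u(n) n^{-it}` -/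
noncomputable def ftu (u : ℕ → ℂ) (t : ℝ) (n : ℕ) : ℂ := fu u n * ep t n

/-- average of `λ u` over `H` integers `m, m-1, .., m-H+1` -/
noncomputable def avu (u : ℕ → ℂ) (H m : ℕ) : ℂ :=
  (1 / (H : ℂ)) * ∑ s ∈ Finset.range H, fu u (m - s)

/-- `1/|L_u| = o(log X)` on the line `1 + 1/log X`, `|τ| ≤ 2X` -/
def LL (u : ℕ → ℂ) : Prop := ∀ δ : ℝ, 0 < δ → ∃ X0 : ℝ, ∀ X ≥ X0, ∀ τ : ℝ, |τ| ≤ 2 * X →
  1 ≤ δ * Real.log X *
    ‖LSeries u (1 + ((1 / Real.log X : ℝ) : ℂ) + (τ : ℂ) * Complex.I)‖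

/-- averaged Halasz estimate for `λ u` -/
def HA (u : ℕ → ℂ) : Prop := ∀ δ : ℝ, 0 < δ → ∃ X0 : ℝ, ∀ X ≥ X0, ∀ t : ℝ, |t| ≤ X →
  ∫ y in (Real.sqrt X)..(4 * X), ‖dp (seg 0 y) (fu u) t‖ / y ^ 2 ≤ δ * Real.log X

/-- a Dirichlet character as a function on `ℕ` -/
noncomputable def chi {q : ℕ} (χ : DirichletCharacter ℂ q) (n : ℕ) : ℂ := χ (n : ZMod q)

/-! ### basic facts -/

theorem CM_chi {q : ℕ} (χ : DirichletCharacter ℂ q) : CM (chi χ) where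
  le n := χ.norm_le_one _
  one := by simp [chi]
  mul m n := by simp [chi]

theorem norm_fu_le {u : ℕ → ℂ} (hu : CM u) (n : ℕ) : ‖fu u n‖ ≤ 1 := by
  unfold fu
  rw [norm_mul, norm_lam, one_mul]
  exact hu.le n

theorem fu_prime_mul {u : ℕ → ℂ} (hu : CM u) {p m : ℕ} (hp : p.Prime) (hm : m ≠ 0) :
    fu u (p * m) = -(u p * fu u m) := by
  unfold fu
  rw [lam_mul hp.ne_zero hm, lam_prime hp, hu.mul]
  push_cast
  ring

theorem fu_mul {u : ℕ → ℂ} (hu : CM u) {k m : ℕ} (hk : k ≠ 0) (hm : m ≠ 0) :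
    fu u (k * m) = fu u k * fu u m := by
  unfold fu
  rw [lam_mul hk hm, hu.mul]
  push_cast
  ring

theorem norm_ftu_le {u : ℕ → ℂ} (hu : CM u) (t : ℝ) (n : ℕ) : ‖ftu u t n‖ ≤ 1 := by
  unfold ftu
  rw [norm_mul, norm_ep, mul_one]
  exact norm_fu_le hu n

theorem continuous_Qu (u : ℕ → ℂ) (K v : ℕ) : Continuous (Qu u K v) := continuous_dp _ _

theorem continuous_Ru (u : ℕ → ℂ) (X : ℝ) (K v : ℕ) : Continuous (Ru u X K v) :=
  continuous_dp _ _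

theorem continuous_Gu (u : ℕ → ℂ) (X : ℝ) : Continuous (Gu u X) := continuous_dp _ _

theorem norm_avu_le {u : ℕ → ℂ} (hu : CM u) (H m : ℕ) : ‖avu u H m‖ ≤ 1 := by
  unfold avu
  rcases Nat.eq_zero_or_pos H with rfl | hH
  · simp
  have hH' : (0:ℝ) < H := by exact_mod_cast hH
  rw [norm_mul, norm_div, norm_one, Complex.norm_natCast]
  have h1 : ‖∑ s ∈ Finset.range H, fu u (m - s)‖ ≤ H := by
    refine (norm_sum_le _ _).trans ?_
    calc ∑ s ∈ Finset.range H, ‖fu u (m - s)‖ ≤ ∑ s ∈ Finset.range H, (1 : ℝ) :=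
          Finset.sum_le_sum fun s _ => norm_fu_le hu _
      _ = H := by simp
  calc 1 / (H:ℝ) * ‖∑ s ∈ Finset.range H, fu u (m - s)‖ ≤ 1 / (H:ℝ) * H := by gcongr
    _ = 1 := by field_simp

end Pool.MP_67663b_nt.PS
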